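import Pool.Agent.TG.Defs
import Pool.Agent.H62.EF.PrA

/-!
# TG Gd: basic facts on the points far from `D`, fibres, compactness
-/

set_option autoImplicit false

open Topology Filter Metric

namespace Pool.Agent.TG

open Pool.Agent.H36.BP (EN fs wd)
open Pool.Agent.H14.PP (IsCone CurveAt Tan)
open Pool.Agent.H62.EF (MN pr)
open Pool.Agent.AD (Vd Chart Charts IsGerm)

variable {N k : ℕ}

theorem gd_mono {D : Set (Vd (k + 1))} {δ₁ δ₂ : ℝ} (h : δ₁ ≤ δ₂) : Gd D δ₂ ⊆ Gd D δ₁ :=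
  fun _ hy b hb => h.trans (hy b hb)

theorem gd_notMem {D : Set (Vd (k + 1))} {δ : ℝ} (h : 0 < δ) {y : Vd (k + 1)} (hy : y ∈ Gd D δ) : y ∉ D := by
  intro hD
  have h1 := hy y hD
  rw [sub_self, norm_zero] at h1
  linarith

theorem gd_closed (D : Set (Vd (k + 1))) (δ : ℝ) : IsClosed (Gd D δ) := by
  have h : Gd D δ = ⋂ b ∈ D, {y : Vd (k + 1) | δ ≤ ‖y - b‖} := by
    ext y
    simp [Gd]
  rw [h]
  exact isClosed_biInter fun b _ => isClosed_le continuous_const (by fun_prop)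

theorem gd_near {D : Set (Vd (k + 1))} {δ r : ℝ} {y w : Vd (k + 1)} (hy : y ∈ Gd D δ) (h : ‖w - y‖ ≤ r) : w ∈ Gd D (δ - r) := by
  intro b hb
  have h1 := hy b hb
  have h2 : ‖y - b‖ ≤ ‖w - b‖ + ‖w - y‖ := by
    have : y - b = (w - b) - (w - y) := by abel
    rw [this]
    exact norm_sub_le _ _
  linarith

variable {X : Set (EN N)} {Λ : AddSubgroup (Vd (k + 1))} {u : EN N → Vd (k + 1)} {D B : Set (Vd (k + 1))}

theorem Geo.D_sub (G : Geo X Λ u D B) {y l : Vd (k + 1)} (hl : l ∈ Λ) : y + l ∈ D ↔ y ∈ D := by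
  refine ⟨fun h => ?_, fun h => G.D_inv y h l hl⟩
  have h1 := G.D_inv _ h (-l) (Λ.neg_mem hl)
  rwa [add_neg_cancel_right] at h1

theorem Geo.gd_add (G : Geo X Λ u D B) (δ : ℝ) {y l : Vd (k + 1)} (hl : l ∈ Λ) : y + l ∈ Gd D δ ↔ y ∈ Gd D δ := by
  constructor
  · intro h b hb
    have h1 := h _ (G.D_inv b hb l hl)
    rwa [add_sub_add_right_eq_sub] at h1
  · intro h b hb
    have h1 := h _ (G.D_inv b hb (-l) (Λ.neg_mem hl))
    have h2 : y - (b + -l) = y + l - b := by abel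
    rwa [h2] at h1

theorem Geo.exists_gd (G : Geo X Λ u D B) {y : Vd (k + 1)} (hy : y ∉ D) : ∃ δ : ℝ, 0 < δ ∧ y ∈ Gd D δ := by
  have h1 : Dᶜ ∈ 𝓝 y := G.D_closed.isOpen_compl.mem_nhds hy
  obtain ⟨δ, hδ, h⟩ := Metric.mem_nhds_iff.mp h1
  refine ⟨δ, hδ, fun b hb => ?_⟩
  by_contra hlt
  push Not at hlt
  have hb' : b ∈ ball y δ := by
    rw [mem_ball, dist_comm, dist_eq_norm]
    exact hlt
  exact h hb' hb

theorem fb_add {y l : Vd (k + 1)} (hl : l ∈ Λ) : Fb X Λ u (y + l) = Fb X Λ u y := by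
  ext m
  constructor
  · rintro ⟨x, hx, hm, hu⟩
    refine ⟨x, hx, hm, ?_⟩
    have h1 := Λ.add_mem hu hl
    have h2 : u x - (y + l) + l = u x - y := by abel
    rwa [h2] at h1
  · rintro ⟨x, hx, hm, hu⟩
    refine ⟨x, hx, hm, ?_⟩
    rw [← sub_sub]
    exact Λ.sub_mem hu hl

theorem mem_fb {x : EN N} {y : Vd (k + 1)} (hx : x ∈ X) (h : u x - y ∈ Λ) : pr x ∈ Fb X Λ u y := ⟨x, hx, rfl, h⟩

theorem ne_zero (hX : IsCone X) {x : EN N} (hx : x ∈ X) : x ≠ 0 := fun h => hX.zero_notMem (h ▸ hx)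

/-- every lift of a point of the fibre lies over `y` -/
theorem fb_lift (hX : IsCone X) (hu : TMap X Λ u) {y : Vd (k + 1)} {m : MN N} (hm : m ∈ Fb X Λ u y) {x : EN N} (hx : x ∈ X) (hxm : pr x = m) :
    u x - y ∈ Λ := by
  obtain ⟨x', hx', hm', hu'⟩ := hm
  obtain ⟨c, hc, hcx⟩ := (Pool.Agent.H62.EF.pr_eq_iff (ne_zero hX hx) (ne_zero hX hx')).1 (hxm.trans hm'.symm)
  rw [hcx]
  have h1 := Λ.add_mem (hu.smul x' hx' c hc) hu'
  have h2 : u (c • x') - u x' + (u x' - y) = u (c • x') - y := by abel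
  rwa [h2] at h1

theorem Lat.closed (hΛ : Lat Λ) : IsClosed (Λ : Set (Vd (k + 1))) := by
  obtain ⟨δ, hδ, h⟩ := hΛ.disc
  refine Metric.isClosed_of_pairwise_le_dist hδ ?_
  intro x hx y hy hxy
  by_contra hlt
  push Not at hlt
  rw [dist_eq_norm] at hlt
  exact hxy (sub_eq_zero.mp (h _ (Λ.sub_mem hx hy) hlt))

theorem compact_unit (hX : IsCone X) : IsCompact (X ∩ sphere (0 : EN N) 1) := by
  have h1 : X ∩ sphere (0 : EN N) 1 = (insert 0 X) ∩ sphere (0 : EN N) 1 := by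
    ext x
    constructor
    · rintro ⟨hx, hs⟩
      exact ⟨Set.mem_insert_of_mem _ hx, hs⟩
    · rintro ⟨hx, hs⟩
      refine ⟨?_, hs⟩
      rcases hx with rfl | hx
      · simp at hs
      · exact hx
  rw [h1]
  exact (isCompact_sphere (0 : EN N) 1).inter_left hX.closed

theorem exists_unit (hX : IsCone X) {x : EN N} (hx : x ∈ X) : ∃ c : ℂ, c ≠ 0 ∧ c • x ∈ X ∩ sphere (0 : EN N) 1 := by
  have hn : ‖x‖ ≠ 0 := norm_ne_zero_iff.mpr (ne_zero hX hx)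
  have hc : (((‖x‖⁻¹ : ℝ)) : ℂ) ≠ 0 := by
    exact_mod_cast inv_ne_zero hn
  refine ⟨(((‖x‖⁻¹ : ℝ)) : ℂ), hc, hX.smul_mem x hx _ hc, ?_⟩
  rw [mem_sphere_zero_iff_norm, norm_smul, Complex.norm_real, norm_inv, norm_norm]
  exact inv_mul_cancel₀ hn

/-- limits of points over `y n → y` are over `y` -/
theorem lim_mem (hΛ : Lat Λ) (hu : TMap X Λ u) {ι : Type*} {l : Filter ι} [l.NeBot] {x : ι → EN N} {y : ι → Vd (k + 1)} {x₀ : EN N}
    {y₀ : Vd (k + 1)} (hx₀ : x₀ ∈ X) (hx : Tendsto x l (𝓝 x₀)) (hy : Tendsto y l (𝓝 y₀)) (h : ∀ᶠ i in l, x i ∈ X ∧ u (x i) - y i ∈ Λ) :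
    u x₀ - y₀ ∈ Λ := by
  obtain ⟨v, hv, hv'⟩ := hu.loc x₀ hx₀
  have h1 : Tendsto (fun i => v (x i) - y i) l (𝓝 (v x₀ - y₀)) := (hv.continuousAt.tendsto.comp hx).sub hy
  have h2 : ∀ᶠ i in l, v (x i) - y i ∈ (Λ : Set (Vd (k + 1))) := by
    filter_upwards [h, hx.eventually hv'] with i hi hi'
    have h3 : v (x i) - y i = u (x i) - y i - (u (x i) - v (x i)) := by abel
    rw [h3]
    exact Λ.sub_mem hi.2 (hi' hi.1)
  have h4 : v x₀ - y₀ ∈ Λ := hΛ.closed.mem_of_tendsto h1 h2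
  have h5 := hv'.self_of_nhds hx₀
  have h6 : u x₀ - y₀ = (u x₀ - v x₀) + (v x₀ - y₀) := by abel
  rw [h6]
  exact Λ.add_mem h5 h4

theorem smul_mem_lat (hu : TMap X Λ u) {x : EN N} (hx : x ∈ X) {y : Vd (k + 1)} (h : u x - y ∈ Λ) {c : ℂ} (hc : c ≠ 0) :
    u (c • x) - y ∈ Λ := by
  have h3 : u (c • x) - y = u (c • x) - u x + (u x - y) := by abel
  rw [h3]
  exact Λ.add_mem (hu.smul x hx c hc) h

/-- limits in the projective space: `m n → m₀`, `m n` in the fibre over `y n → y₀`; then `m₀` is in the fibre over `y₀`, and every lift `x₀` of `m₀` is the limit of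
lifts -/
theorem fb_lim (hX : IsCone X) (hΛ : Lat Λ) (hu : TMap X Λ u) {ι : Type*} {l : Filter ι} [l.NeBot] {m : ι → MN N} {y : ι → Vd (k + 1)} {m₀ : MN N}
    {y₀ : Vd (k + 1)} (hm : Tendsto m l (𝓝 m₀)) (hy : Tendsto y l (𝓝 y₀)) (h : ∀ᶠ i in l, m i ∈ Fb X Λ u (y i)) :
    m₀ ∈ Fb X Λ u y₀ ∧ ∀ x₀ ∈ X, pr x₀ = m₀ → ∀ U ∈ 𝓝 x₀, ∀ᶠ i in l, ∃ x ∈ X, x ∈ U ∧ pr x = m i ∧ u x - y i ∈ Λ := by
  have hmem : m₀ ∈ pr '' X := (Pool.Agent.H62.EF.isCompact_pr hX).isClosed.mem_of_tendsto hm (by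
    filter_upwards [h] with i hi
    obtain ⟨x, hx, hxm, -⟩ := hi
    exact ⟨x, hx, hxm⟩)
  have hlift : ∀ x₀ ∈ X, pr x₀ = m₀ → ∀ U ∈ 𝓝 x₀, ∀ᶠ i in l, ∃ x ∈ X, x ∈ U ∧ pr x = m i ∧ u x - y i ∈ Λ := by
    intro x₀ hx₀ hxm U hU
    obtain ⟨R, hR, hnear⟩ := Pool.Agent.H62.EF.near_of_pr (ne_zero hX hx₀) hU
    have h1 : ∀ᶠ i in l, dist (m i) m₀ < R := hm.eventually (ball_mem_nhds _ hR)
    filter_upwards [h, h1] with i hi hd
    obtain ⟨x, hx, hxm', hux⟩ := hi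
    obtain ⟨c, hc, hcx⟩ := hnear x (ne_zero hX hx) (by rw [hxm', hxm]; exact hd)
    exact ⟨c • x, hX.smul_mem x hx c hc, hcx, by rw [Pool.Agent.H62.EF.pr_smul x hc, hxm'], smul_mem_lat hu hx hux hc⟩
  refine ⟨?_, hlift⟩
  obtain ⟨x₀, hx₀, hxm⟩ := hmem
  refine ⟨x₀, hx₀, hxm, ?_⟩
  -- choose lifts converging to `x₀`
  obtain ⟨v, hv, hv'⟩ := hu.loc x₀ hx₀
  have hcl := hΛ.closed
  by_contra hcon
  have h5 := hv'.self_of_nhds hx₀
  have h6 : v x₀ - y₀ ∉ (Λ : Set (Vd (k + 1))) := by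
    intro h7
    apply hcon
    have h8 : u x₀ - y₀ = (u x₀ - v x₀) + (v x₀ - y₀) := by abel
    rw [h8]
    exact Λ.add_mem h5 h7
  have h7 : ∀ᶠ p in 𝓝 (x₀, y₀), v p.1 - p.2 ∉ (Λ : Set (Vd (k + 1))) := by
    have hc : ContinuousAt (fun p : EN N × Vd (k + 1) => v p.1 - p.2) (x₀, y₀) :=
      (ContinuousAt.comp (f := fun p : EN N × Vd (k + 1) => p.1) hv.continuousAt continuousAt_fst).sub continuousAt_snd
    exact hc.eventually (hcl.isOpen_compl.mem_nhds h6)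
  rw [nhds_prod_eq] at h7
  obtain ⟨pa, hpa, pb, hpb, hab⟩ := Filter.eventually_prod_iff.mp h7
  obtain ⟨i, ⟨x, hx, hxU, -, hux⟩, hyi⟩ := ((hlift x₀ hx₀ hxm _ (hpa.and hv')).and (hy.eventually hpb)).exists
  refine hab hxU.1 hyi ?_
  have h8 : v x - y i = u x - y i - (u x - v x) := by abel
  show v x - y i ∈ (Λ : Set (Vd (k + 1)))
  rw [h8]
  exact Λ.sub_mem hux (hxU.2 hx)

end Pool.Agent.TG
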