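import Pool.Agent.TG.JanA

/-!
# TG JJ: the integral along short paths in the fibres, without the parameter `ε`

`JRel α y m m' v`: for some `ε` the points near `m` (radius `3 ε`) of the fibres near `y` are in one straight chart, and `v` is the integral of `α / dy` along a path from `m` to `m'` of the fibre over `y` which stays
in the ball of radius `ε` around `m`.
-/

set_option autoImplicit false

open Topology Filter Metric

namespace Pool.Agent.TG

open Pool.Agent.H36.BP (EN fs wd)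
open Pool.Agent.H14.PP (IsCone CurveAt Tan)
open Pool.Agent.H62.EF (MN pr)
open Pool.Agent.AD (Vd Chart Charts IsGerm)

variable {N k : ℕ} {X : Set (EN N)} {Λ : AddSubgroup (Vd (k + 1))} {u : EN N → Vd (k + 1)}

/-- `v` is the integral of `α / dy` from `m` to `m'` along a short path in the fibre over `y` -/
def JRel (α : VForm X Λ u) (y : Vd (k + 1)) (m m' : MN N) (v : ℂ) : Prop :=
  ∃ ε : ℝ, 0 < ε ∧ (∃ (χ : Chart (k + 2) X) (c : Vd (k + 1)) (ρ : ℝ), Cap Λ u χ c ρ y m (3 * ε)) ∧ IRel α ε y m m' v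

open Classical in
/-- the integral of `α / dy` from `m` to `m'` along a short path in the fibre over `y` (`0` if there is none) -/
noncomputable def JJ (α : VForm X Λ u) (y : Vd (k + 1)) (m m' : MN N) : ℂ :=
  if h : ∃ v, JRel α y m m' v then h.choose else 0

theorem jj_spec {α : VForm X Λ u} {y : Vd (k + 1)} {m m' : MN N} (h : ∃ v, JRel α y m m' v) : JRel α y m m' (JJ α y m m') := by
  unfold JJ
  rw [dif_pos h]
  exact h.choose_spec

theorem jrel_unique (hX : IsCone X) (hu : TMap X Λ u) (hΛ : Lat Λ) {α : VForm X Λ u} {y : Vd (k + 1)} {m m' : MN N} {v v' : ℂ}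
    (h : JRel α y m m' v) (h' : JRel α y m m' v') : v = v' := by
  obtain ⟨ε, hε, ⟨χ, c, ρ, hc⟩, hv⟩ := h
  obtain ⟨ε', hε', ⟨χ', c', ρ', hc'⟩, hv'⟩ := h'
  rcases le_total ε ε' with hle | hle
  · have h1 := II_of_rel hX hu hΛ hle hv hc' (by linarith)
    have h2 := II_of_rel hX hu hΛ le_rfl hv' hc' (by linarith)
    rw [← h1, h2]
  · have h1 := II_of_rel hX hu hΛ le_rfl hv hc (by linarith)
    have h2 := II_of_rel hX hu hΛ hle hv' hc (by linarith)
    rw [← h1, h2]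

theorem jj_eq (hX : IsCone X) (hu : TMap X Λ u) (hΛ : Lat Λ) {α : VForm X Λ u} {y : Vd (k + 1)} {m m' : MN N} {v : ℂ}
    (h : JRel α y m m' v) : JJ α y m m' = v := jrel_unique hX hu hΛ (jj_spec ⟨v, h⟩) h

/-- `JJ` and `II` agree where the constants are valid -/
theorem jj_eq_II {D : Set (Vd (k + 1))} (hX : IsCone X) (hu : TMap X Λ u) (hΛ : Lat Λ) {α : VForm X Λ u} {δ ε ε₀ : ℝ} (hc : Cst X Λ u D δ ε ε₀)
    {y : Vd (k + 1)} (hy : y ∈ Gd D δ) {m m' : MN N} (hm : m ∈ Fb X Λ u y) (hm' : m' ∈ Fb X Λ u y) (hd : dist m m' ≤ ε₀) :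
    JJ α y m m' = II α ε y m m' := by
  obtain ⟨v, hv⟩ := hc.rel y hy m hm m' hm' hd α
  obtain ⟨χ, c, ρ, hcap⟩ := hc.cap y hy m hm
  rw [jj_eq hX hu hΛ ⟨ε, hc.ε_pos, ⟨χ, c, ρ, hcap⟩, hv⟩, II_of_rel hX hu hΛ le_rfl hv hcap (by linarith [hc.ε_pos])]

theorem Cap.add {χ : Chart (k + 2) X} {c : Vd (k + 1)} {ρ : ℝ} {y : Vd (k + 1)} {m : MN N} {r : ℝ} (h : Cap Λ u χ c ρ y m r) {l : Vd (k + 1)}
    (hl : l ∈ Λ) : Cap Λ u χ (c + l) ρ (y + l) m r := by
  refine ⟨h.str.add hl, fun y' hy' x hx hxy hd => ?_⟩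
  have h1 : y' - l ∈ closedBall y r := by
    rw [mem_closedBall, dist_eq_norm] at hy' ⊢
    have e : y' - l - y = y' - (y + l) := by abel
    rwa [e]
  have h2 : u x - (y' - l) ∈ Λ := by
    have e : u x - (y' - l) = u x - y' + l := by abel
    rw [e]
    exact Λ.add_mem hxy hl
  obtain ⟨a, b, c'⟩ := h.cap _ h1 x hx h2 hd
  refine ⟨a, b, ?_⟩
  rw [ms_add, c']
  abel

theorem JRel.add {Γ : AddSubgroup (Vd (k + 1))} {α : VForm X Λ u} (hle : Γ ≤ Λ) (hper : Per α Γ) {y : Vd (k + 1)} {m m' : MN N} {v : ℂ}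
    (h : JRel α y m m' v) {l : Vd (k + 1)} (hl : l ∈ Γ) : JRel α (y + l) m m' v := by
  obtain ⟨ε, hε, ⟨χ, c, ρ, hc⟩, hv⟩ := h
  exact ⟨ε, hε, ⟨χ, c + l, ρ, hc.add (hle hl)⟩, hv.add hle hper hl⟩

theorem jj_add {Γ : AddSubgroup (Vd (k + 1))} {α : VForm X Λ u} (hle : Γ ≤ Λ) (hper : Per α Γ) {y : Vd (k + 1)} (m m' : MN N)
    {l : Vd (k + 1)} (hl : l ∈ Γ) : JJ α (y + l) m m' = JJ α y m m' := by
  have h1 : JRel α (y + l) m m' = JRel α y m m' := by
    funext v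
    apply propext
    constructor
    · intro h
      have h2 := h.add hle hper (Γ.neg_mem hl)
      rwa [add_neg_cancel_right] at h2
    · intro h
      exact h.add hle hper hl
  unfold JJ
  rw [h1]

theorem jj_zero (hX : IsCone X) (hu : TMap X Λ u) (hΛ : Lat Λ) {Γ : AddSubgroup (Vd (k + 1))} {α : VForm X Λ u} (hle : Γ ≤ Λ) (hper : Per α Γ)
    (hvan : VanZero α) {l : Vd (k + 1)} (hl : l ∈ Γ) (m m' : MN N) : JJ α l m m' = 0 := by
  by_cases h : ∃ v, JRel α l m m' v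
  · obtain ⟨v, hv⟩ := h
    rw [jj_eq hX hu hΛ hv]
    obtain ⟨ε, hε, ⟨χ, c, ρ, hc⟩, hv⟩ := hv
    rw [← II_of_rel hX hu hΛ le_rfl hv hc (by linarith)]
    exact II_zero hu hle hper hvan hl ε m m'
  · unfold JJ
    rw [dif_neg h]

end Pool.Agent.TG
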