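import Pool.Agent.TG.Cp
import Pool.Agent.TG.JanA

/-!
# TG Jan: properties of the integral

Compare `Pool/Agent/H62/EL/Jan.lean` (there for members of `Sb`, here for local lifts and for points of the fibres).

`II_analytic`: for `y` near `y₀`: `y ∈ closedBall y₀ r`, `dist (pr (φ y)) (pr (φ y₀)) + ε ≤ r` (continuity), so `II_eq` (`A` from `exists_prim`): `II = (A (χ.q (ψ y)) - A (χ.q (φ y))) / ρ ^ (k + 1)`;
`φ y₀, ψ y₀ ∈ χ.U` and `χ.q _ ∈ closedBall 0 1` (`Cap`; `dist (pr (ψ y₀)) (pr (φ y₀)) ≤ ε` by `IRel.mem`).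

`II_bdd`: suppose not: `y_n ∈ Gd D δ`, `m_n`, `m'_n` with `‖II α ε y_n m_n m'_n‖ > n`; then `II ≠ 0`, so there is `v` with `IRel`, `m_n, m'_n ∈ Fb .. y_n` (`IRel.mem`).  Translate by `Γ` (`II_per`, `Geo.gd_add`, `fb_add`, `Lat.cpt`):
`y_n` bounded; along an ultrafilter `y_n → y ∈ Gd D δ`, `m_n → m ∈ Fb .. y` (`fb_lim`).  `Cap χ c ρ y m r` with `r > ε`; for large `n` `y_n ∈ closedBall y r`, `dist m_n m + ε ≤ r`: `II_eq`: `‖II‖ ≤ 2 M / ρ ^ (k + 1)`, `M` the maximum of `‖A‖` on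
`closedBall 0 1`: contradiction.

`II_lim`: `II_eq` for `(y n, m n, m' n)` and for the limit; lifts of `m n`, `m' n` converge to lifts of `m₀`, `m₀'` in the sense of `fb_lim`, so `χ.q _` converges; `A` is continuous.
-/

set_option autoImplicit false

open Topology Filter Metric

namespace Pool.Agent.TG

open Pool.Agent.H36.BP (EN fs wd)
open Pool.Agent.H14.PP (IsCone CurveAt Tan)
open Pool.Agent.H62.EF (MN pr)
open Pool.Agent.AD (Vd Chart Charts IsGerm)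

variable {N k : ℕ}


variable {X : Set (EN N)} {Λ : AddSubgroup (Vd (k + 1))} {u : EN N → Vd (k + 1)} {D B : Set (Vd (k + 1))}

private theorem Jan_closed_sub : closedBall (0 : Vd (k + 2)) 1 ⊆ ball (0 : Vd (k + 2)) 2 := closedBall_subset_ball (by norm_num)

theorem tendsto_q (χ : Chart (k + 2) X) {x : EN N} (hx : x ∈ χ.U) (hx0 : x ≠ 0) {ι : Type*} {l : Filter ι} {y : ι → EN N}
    (hy : ∀ᶠ n in l, y n ≠ 0) (h : Tendsto (fun n => pr (y n)) l (𝓝 (pr x))) :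
    Tendsto (fun n => χ.q (y n)) l (𝓝 (χ.q x)) := by
  intro V hV
  have hU : χ.U ∩ χ.q ⁻¹' V ∈ 𝓝 x := inter_mem (χ.isOpen_U.mem_nhds hx) ((χ.q_an x hx).continuousAt hV)
  obtain ⟨δ, hδ, hn⟩ := Pool.Agent.H62.EF.near_of_pr hx0 hU
  have h1 : ∀ᶠ n in l, dist (pr (y n)) (pr x) < δ := h.eventually (ball_mem_nhds _ hδ)
  rw [mem_map]
  filter_upwards [hy, h1] with n h2 h3
  obtain ⟨c, hc, h4, h5⟩ := hn (y n) h2 h3
  have h6 : y n ∈ χ.U := by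
    have := χ.smul_U _ h4 c⁻¹ (inv_ne_zero hc)
    rwa [smul_smul, inv_mul_cancel₀ hc, one_smul] at this
  have h7 : χ.q (c • y n) ∈ V := h5
  rw [χ.q_smul _ h6 c hc] at h7
  exact h7

theorem II_analytic (hX : IsCone X) (hu : TMap X Λ u) (hΛ : Lat Λ) {α : VForm X Λ u} {ε r : ℝ} {φ ψ : Vd (k + 1) → EN N} {y₀ : Vd (k + 1)}
    (hφ : AnalyticAt ℂ φ y₀) (hψ : AnalyticAt ℂ ψ y₀) (hφX : ∀ᶠ y in 𝓝 y₀, φ y ∈ X ∧ u (φ y) - y ∈ Λ)
    (hψX : ∀ᶠ y in 𝓝 y₀, ψ y ∈ X ∧ u (ψ y) - y ∈ Λ) {χ : Chart (k + 2) X} {c : Vd (k + 1)} {ρ : ℝ} (hc : Cap Λ u χ c ρ y₀ (pr (φ y₀)) r)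
    (hr : ε < r) (hrel : ∀ᶠ y in 𝓝 y₀, ∃ v, IRel α ε y (pr (φ y)) (pr (ψ y)) v) :
    AnalyticAt ℂ (fun y => II α ε y (pr (φ y)) (pr (ψ y))) y₀ := by
  obtain ⟨A, hA⟩ := exists_prim α χ hc.str
  obtain ⟨v₀, hv₀⟩ := hrel.self_of_nhds
  obtain ⟨-, -, hfg⟩ := hv₀.mem
  have hε : 0 ≤ ε := dist_nonneg.trans hfg
  have hr0 : 0 < r := lt_of_le_of_lt hε hr
  obtain ⟨hφX0, hφu⟩ := hφX.self_of_nhds
  obtain ⟨hψX0, hψu⟩ := hψX.self_of_nhds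
  have hy₀r : y₀ ∈ closedBall y₀ r := mem_closedBall_self hr0.le
  obtain ⟨hφU, hφq, -⟩ := hc.cap y₀ hy₀r (φ y₀) hφX0 hφu (by rw [dist_self]; exact hr0.le)
  obtain ⟨hψU, hψq, -⟩ := hc.cap y₀ hy₀r (ψ y₀) hψX0 hψu (hfg.trans hr.le)
  have a1 : AnalyticAt ℂ (fun y => A (χ.q (φ y))) y₀ :=
    AnalyticAt.comp (f := fun y => χ.q (φ y)) (g := A) (hA.an _ (Jan_closed_sub hφq))
      (AnalyticAt.comp (f := φ) (g := χ.q) (χ.q_an _ hφU) hφ)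
  have a2 : AnalyticAt ℂ (fun y => A (χ.q (ψ y))) y₀ :=
    AnalyticAt.comp (f := fun y => χ.q (ψ y)) (g := A) (hA.an _ (Jan_closed_sub hψq))
      (AnalyticAt.comp (f := ψ) (g := χ.q) (χ.q_an _ hψU) hψ)
  have hρ : (ρ : ℂ) ^ (k + 1) ≠ 0 := by
    have h1 := hc.str.pos
    exact pow_ne_zero _ (by exact_mod_cast h1.ne')
  have a3 : AnalyticAt ℂ (fun y => (A (χ.q (ψ y)) - A (χ.q (φ y))) / (ρ : ℂ) ^ (k + 1)) y₀ := (a2.sub a1).div analyticAt_const hρ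
  refine a3.congr ?_
  have e3 : ∀ᶠ y in 𝓝 y₀, y ∈ closedBall y₀ r := closedBall_mem_nhds _ hr0
  have e4 : ∀ᶠ y in 𝓝 y₀, dist (pr (φ y)) (pr (φ y₀)) < r - ε := by
    have h1 : ContinuousAt (fun y => pr (φ y)) y₀ := ContinuousAt.comp (f := φ) (g := pr)
      (Pool.Agent.H62.EF.continuousAt_pr (ne_zero hX hφX0)) hφ.continuousAt
    exact h1.eventually (ball_mem_nhds _ (by linarith))
  filter_upwards [hφX, hψX, e3, e4, hrel] with y h1 h2 h3 h4 h5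
  exact (II_eq hX hu hΛ h5 hc hA h3 (by linarith) h1.1 h2.1 rfl rfl).symm

theorem II_bdd (G : Geo X Λ u D B) {Γ : AddSubgroup (Vd (k + 1))} (hΓ : Lat Γ) (hle : Γ ≤ Λ) {α : VForm X Λ u} (hper : Per α Γ) {δ ε r : ℝ}
    (hδ : 0 < δ) (hr : ε < r)
    (hcap : ∀ y₀ ∈ Gd D δ, ∀ m ∈ Fb X Λ u y₀, ∃ (χ : Chart (k + 2) X) (c : Vd (k + 1)) (ρ : ℝ), Cap Λ u χ c ρ y₀ m r) :
    ∃ C : ℝ, 0 ≤ C ∧ ∀ y ∈ Gd D δ, ∀ m m' : MN N, ‖II α ε y m m'‖ ≤ C := by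
  by_contra hcon
  push Not at hcon
  obtain ⟨R, hR, hcov⟩ := hΓ.cpt
  have hseq : ∀ n : ℕ, ∃ (y : Vd (k + 1)) (m m' : MN N), y ∈ Gd D δ ∧ ‖y‖ ≤ R ∧ (n : ℝ) < ‖II α ε y m m'‖ := by
    intro n
    obtain ⟨y, hy, m, m', hn⟩ := hcon n (Nat.cast_nonneg n)
    obtain ⟨l, hl, hyl⟩ := hcov y
    refine ⟨y - l, m, m', ?_, hyl, ?_⟩
    · rw [← G.gd_add δ (hle hl), sub_add_cancel]
      exact hy
    · have h1 := II_per G.tor hle hper hl ε (y - l) m m'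
      rw [sub_add_cancel] at h1
      rw [← h1]
      exact hn
  choose y m m' hy hyR hn using hseq
  have hex : ∀ n, ∃ v, IRel α ε (y n) (m n) (m' n) v := by
    intro n
    by_contra hno
    have h1 : II α ε (y n) (m n) (m' n) = 0 := by
      unfold II
      rw [dif_neg hno]
    have h2 := hn n
    rw [h1, norm_zero] at h2
    exact absurd h2 (not_lt.2 (Nat.cast_nonneg n))
  have hmF : ∀ n, m n ∈ Fb X Λ u (y n) := fun n => by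
    obtain ⟨v, hv⟩ := hex n
    exact hv.mem.1
  have hε : 0 ≤ ε := by
    obtain ⟨v, hv⟩ := hex 0
    exact dist_nonneg.trans hv.mem.2.2
  have hr0 : 0 < r := lt_of_le_of_lt hε hr
  set 𝒰 : Ultrafilter ℕ := hyperfilter ℕ with h𝒰
  obtain ⟨y₀, -, hy₀⟩ := (isCompact_closedBall (0 : Vd (k + 1)) R).ultrafilter_le_nhds (𝒰.map y) (by
    rw [Ultrafilter.coe_map, le_principal_iff, mem_map]
    refine univ_mem' fun n => ?_
    simpa using hyR n)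
  have hyt : Tendsto y 𝒰 (𝓝 y₀) := hy₀
  have hy₀G : y₀ ∈ Gd D δ := (gd_closed D δ).mem_of_tendsto hyt (Eventually.of_forall hy)
  obtain ⟨m₀, -, hm₀⟩ := (Pool.Agent.H62.EF.isCompact_pr G.cone).ultrafilter_le_nhds (𝒰.map m) (by
    rw [Ultrafilter.coe_map, le_principal_iff, mem_map]
    refine univ_mem' fun n => ?_
    obtain ⟨x, hx, hxm, -⟩ := hmF n
    exact ⟨x, hx, hxm⟩)
  have hmt : Tendsto m 𝒰 (𝓝 m₀) := hm₀
  have hm₀F := (fb_lim G.cone G.lat G.tor hmt hyt (Eventually.of_forall hmF)).1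
  obtain ⟨χ, c, ρ, hc⟩ := hcap y₀ hy₀G m₀ hm₀F
  obtain ⟨A, hA⟩ := exists_prim α χ hc.str
  have hAc : ContinuousOn A (closedBall (0 : Vd (k + 2)) 1) := fun p hp => (hA.an p (Jan_closed_sub hp)).continuousAt.continuousWithinAt
  obtain ⟨M, hM⟩ := (isCompact_closedBall (0 : Vd (k + 2)) 1).exists_bound_of_continuousOn hAc
  have e1 : ∀ᶠ n in (𝒰 : Filter ℕ), y n ∈ closedBall y₀ r := hyt.eventually (closedBall_mem_nhds _ hr0)
  have e2 : ∀ᶠ n in (𝒰 : Filter ℕ), dist (m n) m₀ < r - ε := hmt.eventually (ball_mem_nhds _ (by linarith))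
  have e3 : ∀ᶠ n : ℕ in (𝒰 : Filter ℕ), 2 * M / ρ ^ (k + 1) ≤ (n : ℝ) := by
    have h1 : ∀ᶠ n : ℕ in atTop, 2 * M / ρ ^ (k + 1) ≤ (n : ℝ) := tendsto_natCast_atTop_atTop.eventually_ge_atTop _
    exact Nat.hyperfilter_le_atTop h1
  obtain ⟨n, h1, h2, h3⟩ := (e1.and (e2.and e3)).exists
  obtain ⟨v, hv⟩ := hex n
  obtain ⟨⟨x, hxX, hxm, hxu⟩, ⟨x', hxX', hxm', hxu'⟩, hd⟩ := hv.mem
  obtain ⟨-, hq, -⟩ := hc.cap (y n) h1 x hxX hxu (by rw [hxm]; linarith)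
  obtain ⟨-, hq', -⟩ := hc.cap (y n) h1 x' hxX' hxu' (by
    rw [hxm']
    have h4 := dist_triangle (m' n) (m n) m₀
    linarith)
  have hII := II_eq G.cone G.tor G.lat ⟨v, hv⟩ hc hA h1 (by linarith) hxX hxX' hxm hxm'
  have hρ : 0 < ρ ^ (k + 1) := pow_pos hc.str.pos _
  have h4 := hn n
  rw [hII, norm_div, norm_pow, Complex.norm_real, Real.norm_of_nonneg hc.str.pos.le] at h4
  have h5 : ‖A (χ.q x') - A (χ.q x)‖ ≤ 2 * M := by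
    have h6 := norm_sub_le (A (χ.q x')) (A (χ.q x))
    have h7 := hM _ hq
    have h8 := hM _ hq'
    linarith
  have h9 : ‖A (χ.q x') - A (χ.q x)‖ / ρ ^ (k + 1) ≤ 2 * M / ρ ^ (k + 1) := div_le_div_of_nonneg_right h5 hρ.le
  linarith

theorem II_lim (hX : IsCone X) (hu : TMap X Λ u) (hΛ : Lat Λ) {α : VForm X Λ u} {ε r : ℝ} {ι : Type*} {l : Filter ι} [l.NeBot]
    {y : ι → Vd (k + 1)} {m m' : ι → MN N} {y₀ : Vd (k + 1)} {m₀ m₀' : MN N} (hy : Tendsto y l (𝓝 y₀)) (hm : Tendsto m l (𝓝 m₀))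
    (hm' : Tendsto m' l (𝓝 m₀')) {χ : Chart (k + 2) X} {c : Vd (k + 1)} {ρ : ℝ} (hc : Cap Λ u χ c ρ y₀ m₀ r) (hr : ε < r)
    (hrel : ∀ᶠ n in l, ∃ v, IRel α ε (y n) (m n) (m' n) v) (hrel' : ∃ v, IRel α ε y₀ m₀ m₀' v) :
    Tendsto (fun n => II α ε (y n) (m n) (m' n)) l (𝓝 (II α ε y₀ m₀ m₀')) := by
  obtain ⟨A, hA⟩ := exists_prim α χ hc.str
  obtain ⟨v₀, hv₀⟩ := hrel'
  obtain ⟨⟨x, hxX, hxm, hxu⟩, ⟨x', hxX', hxm', hxu'⟩, hd⟩ := hv₀.mem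
  have hε : 0 ≤ ε := dist_nonneg.trans hd
  have hr0 : 0 < r := lt_of_le_of_lt hε hr
  have hyr : y₀ ∈ closedBall y₀ r := mem_closedBall_self hr0.le
  obtain ⟨hU, hq, -⟩ := hc.cap y₀ hyr x hxX hxu (by rw [hxm, dist_self]; exact hr0.le)
  obtain ⟨hU', hq', -⟩ := hc.cap y₀ hyr x' hxX' hxu' (by rw [hxm']; exact hd.trans hr.le)
  have hch : ∀ n, ∃ z z' : EN N, (∃ v, IRel α ε (y n) (m n) (m' n) v) → (z ∈ X ∧ pr z = m n) ∧ z' ∈ X ∧ pr z' = m' n := by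
    intro n
    by_cases h : ∃ v, IRel α ε (y n) (m n) (m' n) v
    · obtain ⟨v, hv⟩ := h
      obtain ⟨⟨z, h1, h2, -⟩, ⟨z', h3, h4, -⟩, -⟩ := hv.mem
      exact ⟨z, z', fun _ => ⟨⟨h1, h2⟩, h3, h4⟩⟩
    · exact ⟨0, 0, fun h' => absurd h' h⟩
  choose z z' hz using hch
  have t1 : Tendsto (fun n => χ.q (z n)) l (𝓝 (χ.q x)) := by
    refine tendsto_q χ hU (ne_zero hX hxX) (hrel.mono fun n h => ne_zero hX (hz n h).1.1) ?_
    rw [hxm]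
    exact hm.congr' (hrel.mono fun n h => (hz n h).1.2.symm)
  have t2 : Tendsto (fun n => χ.q (z' n)) l (𝓝 (χ.q x')) := by
    refine tendsto_q χ hU' (ne_zero hX hxX') (hrel.mono fun n h => ne_zero hX (hz n h).2.1) ?_
    rw [hxm']
    exact hm'.congr' (hrel.mono fun n h => (hz n h).2.2.symm)
  have t3 : Tendsto (fun n => A (χ.q (z n))) l (𝓝 (A (χ.q x))) := (hA.an _ (Jan_closed_sub hq)).continuousAt.tendsto.comp t1
  have t4 : Tendsto (fun n => A (χ.q (z' n))) l (𝓝 (A (χ.q x'))) := (hA.an _ (Jan_closed_sub hq')).continuousAt.tendsto.comp t2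
  have hII := II_eq hX hu hΛ ⟨v₀, hv₀⟩ hc hA hyr (by rw [dist_self]; linarith) hxX hxX' hxm hxm'
  rw [hII]
  refine Tendsto.congr' ?_ ((t4.sub t3).div_const ((ρ : ℂ) ^ (k + 1)))
  have e1 : ∀ᶠ n in l, y n ∈ closedBall y₀ r := hy.eventually (closedBall_mem_nhds _ hr0)
  have e2 : ∀ᶠ n in l, dist (m n) m₀ < r - ε := hm.eventually (ball_mem_nhds _ (by linarith))
  filter_upwards [e1, e2, hrel] with n h1 h2 h3
  obtain ⟨⟨h4, h5⟩, h6, h7⟩ := hz n h3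
  exact (II_eq hX hu hΛ h3 hc hA h1 (by linarith) h4 h6 h5 h7).symm

end Pool.Agent.TG
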