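import Pool.Agent.TG.Gd
import Pool.Agent.H36.BP.Lift
import Pool.Agent.H36.BP.WdA

/-!
# TG Lf: lifts over discs

`disc_lift`: `r ≤ 0`: trivial.  Otherwise apply `Pool.Agent.H36.BP.lift_disc` (`H36/BP/Lift.lean`) to `z ↦ Projectivization.mk ℂ (Φ_z z).ofLp _` for the rescaled map `z ↦ f (R z)` on the unit disc (`Φ_z` the local lift at `z`; two nonzero vectors
`x, y` with `pr x = pr y` are proportional, `pr_eq_iff`, so near `z₀` this map is the class of `Φ_{z₀}`).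

`sec_line`: define `g z = f (y + z • e)` if `y + z • e ∉ D`, and `g z = g_z 0` otherwise, where `g_z` is from the second condition of `Sec` at the point `y + z • e`.  Local lifts: at a point off `D` compose `φ` from the first condition with the line
(`D` is closed, so nearby points are off `D` too); at a point `z₀` with `y + z₀ • e ∈ D` use `Φ` from `LiftAt` (translated by `z₀`); there `g z = f (y + z • e)` for `z ≠ z₀` near `z₀`.  Apply `disc_lift`; the lift `F` is proportional to the local lifts,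
so `F z ∈ X` and `u (F z) - (y + z • e) ∈ Λ` (`smul_mem_lat`).
-/

set_option autoImplicit false

open Topology Filter Metric

namespace Pool.Agent.TG

open Pool.Agent.H36.BP (EN fs wd)
open Pool.Agent.H14.PP (IsCone CurveAt Tan)
open Pool.Agent.H62.EF (MN pr)
open Pool.Agent.AD (Vd Chart Charts IsGerm)

variable {N k : ℕ}


theorem disc_lift {f : ℂ → MN N} {R : ℝ}
    (hf : ∀ z ∈ ball (0 : ℂ) R, ∃ Φ : ℂ → EN N, AnalyticAt ℂ Φ z ∧ ∀ᶠ w in 𝓝 z, Φ w ≠ 0 ∧ f w = pr (Φ w)) {r : ℝ} (hr : r < R) :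
    ∃ F : ℂ → EN N, DifferentiableOn ℂ F (ball 0 r) ∧ ∀ z ∈ ball (0 : ℂ) r, F z ≠ 0 ∧ f z = pr (F z) := by
  classical
  rcases le_or_gt r 0 with hr0 | hr0
  · refine ⟨fun _ => 0, differentiableOn_const _, fun z hz => ?_⟩
    rw [ball_eq_empty.mpr hr0] at hz
    exact absurd hz (Set.notMem_empty z)
  have hR : 0 < R := hr0.trans hr
  obtain ⟨Φ₀, -, h0⟩ := hf 0 (mem_ball_self hR)
  have hV : ∀ z : ℂ, ∃ v : EN N, v ≠ 0 ∧ (z ∈ ball (0 : ℂ) R → f z = pr v) := by
    intro z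
    by_cases hz : z ∈ ball (0 : ℂ) R
    · obtain ⟨Φ, -, h⟩ := hf z hz
      exact ⟨Φ z, h.self_of_nhds.1, fun _ => h.self_of_nhds.2⟩
    · exact ⟨Φ₀ 0, h0.self_of_nhds.1, fun h => absurd h hz⟩
  choose V hV0 hVf using hV
  have hofne : ∀ v : EN N, v ≠ 0 → v.ofLp ≠ 0 := by
    intro v hv h
    apply hv
    ext j
    exact congrFun h j
  set g : ℂ → Pool.Agent.H17.PN N := fun z => Projectivization.mk ℂ (V ((R : ℂ) * z)).ofLp (hofne _ (hV0 _)) with hg
  have hmul : ∀ z : ℂ, z ∈ ball (0 : ℂ) 1 → (R : ℂ) * z ∈ ball (0 : ℂ) R := by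
    intro z hz
    rw [mem_ball_zero_iff] at hz ⊢
    rw [norm_mul, Complex.norm_real, Real.norm_of_nonneg hR.le]
    calc R * ‖z‖ < R * 1 := mul_lt_mul_of_pos_left hz hR
      _ = R := mul_one R
  have hgh : Pool.Agent.H17.HolomorphicInto g (ball 0 1) := by
    intro z₀ hz₀
    obtain ⟨Φ, hΦ, h⟩ := hf _ (hmul z₀ hz₀)
    have hc : AnalyticAt ℂ (fun w : ℂ => (R : ℂ) * w) z₀ := analyticAt_const.mul analyticAt_id
    have hΦc : AnalyticAt ℂ (fun w : ℂ => Φ ((R : ℂ) * w)) z₀ := AnalyticAt.fun_comp hΦ hc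
    refine ⟨fun w => (Φ ((R : ℂ) * w)).ofLp, ?_, ?_⟩
    · rw [analyticAt_pi_iff]
      intro j
      exact ((EuclideanSpace.proj (𝕜 := ℂ) j : EN N →L[ℂ] ℂ).analyticAt _).comp hΦc
    · filter_upwards [hc.continuousAt.eventually h, isOpen_ball.mem_nhds hz₀] with w hw hwb
      refine ⟨hofne _ hw.1, ?_⟩
      have h1 : pr (V ((R : ℂ) * w)) = pr (Φ ((R : ℂ) * w)) := by
        rw [← hVf _ (hmul w hwb), hw.2]
      obtain ⟨c, -, h2⟩ := (Pool.Agent.H62.EF.pr_eq_iff (hV0 _) hw.1).mp h1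
      rw [hg, Projectivization.mk_eq_mk_iff']
      exact ⟨c, by rw [h2]; rfl⟩
  obtain ⟨F, hF, hFg⟩ := Pool.Agent.H36.BP.lift_disc hgh (r := r / R) (div_pos hr0 hR) ((div_lt_one hR).mpr hr)
  have hdiv : ∀ z : ℂ, z ∈ ball (0 : ℂ) r → (R : ℂ)⁻¹ * z ∈ ball (0 : ℂ) (r / R) := by
    intro z hz
    rw [mem_ball_zero_iff] at hz ⊢
    rw [norm_mul, norm_inv, Complex.norm_real, Real.norm_of_nonneg hR.le, inv_mul_eq_div]
    exact div_lt_div_of_pos_right hz hR
  refine ⟨fun z => F ((R : ℂ)⁻¹ * z), ?_, fun z hz => ?_⟩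
  · exact hF.comp (differentiable_id.const_mul _).differentiableOn hdiv
  · obtain ⟨h1, h2⟩ := hFg _ (hdiv z hz)
    have hRC : (R : ℂ) ≠ 0 := by exact_mod_cast hR.ne'
    have h3 : (R : ℂ) * ((R : ℂ)⁻¹ * z) = z := by
      rw [← mul_assoc, mul_inv_cancel₀ hRC, one_mul]
    have h4 : F ((R : ℂ)⁻¹ * z) ≠ 0 := by
      intro h
      apply h1
      rw [h]
      rfl
    refine ⟨h4, ?_⟩
    have h5 : z ∈ ball (0 : ℂ) R := ball_subset_ball hr.le hz
    rw [hg] at h2
    simp only [h3] at h2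
    obtain ⟨c, hc, h6⟩ := Pool.Agent.H17.mk_eq_mk_cross h2
    have h7 : V z = c • F ((R : ℂ)⁻¹ * z) := by
      ext j
      exact h6 j
    rw [hVf z h5, h7, Pool.Agent.H62.EF.pr_smul _ hc]

variable {X : Set (EN N)} {Λ : AddSubgroup (Vd (k + 1))} {u : EN N → Vd (k + 1)} {D B : Set (Vd (k + 1))}

/-- the lift of a curve over a line -/
theorem disc_lift_mem (hX : IsCone X) (hu : TMap X Λ u) {g : ℂ → MN N} {y e : Vd (k + 1)} {R : ℝ}
    (hg : ∀ z ∈ ball (0 : ℂ) R, LiftAt X Λ u y e g z) {r : ℝ} (hr : r < R) :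
    ∃ F : ℂ → EN N, DifferentiableOn ℂ F (ball 0 r) ∧ (∀ z ∈ ball (0 : ℂ) r, F z ∈ X ∧ u (F z) - (y + z • e) ∈ Λ) ∧
      ∀ z ∈ ball (0 : ℂ) r, g z = pr (F z) := by
  obtain ⟨F, hF, hFg⟩ := disc_lift (f := g) (R := R) (fun z hz => by
    obtain ⟨Φ, hΦ, h⟩ := hg z hz
    exact ⟨Φ, hΦ, by
      filter_upwards [h] with w hw
      exact ⟨ne_zero hX hw.1, hw.2.1⟩⟩) hr
  refine ⟨F, hF, fun z hz => ?_, fun z hz => (hFg z hz).2⟩
  obtain ⟨Φ, -, h⟩ := hg z (ball_subset_ball hr.le hz)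
  obtain ⟨h1, h2, h3⟩ := h.self_of_nhds
  obtain ⟨h4, h5⟩ := hFg z hz
  obtain ⟨c, hc, h6⟩ := (Pool.Agent.H62.EF.pr_eq_iff h4 (ne_zero hX h1)).mp (h5.symm.trans h2)
  rw [h6]
  exact ⟨hX.smul_mem _ h1 c hc, smul_mem_lat hu h1 h3 hc⟩

theorem sec_line (hX : IsCone X) (hu : TMap X Λ u) (hD : IsClosed D) {f : Vd (k + 1) → MN N} (hf : f ∈ Sec X Λ u D) {y e : Vd (k + 1)} {R : ℝ}
    (hiso : ∀ z ∈ ball (0 : ℂ) R, ∀ᶠ w in 𝓝[≠] z, y + w • e ∉ D) {r : ℝ} (hr : r < R) :
    ∃ F : ℂ → EN N, DifferentiableOn ℂ F (ball 0 r) ∧ (∀ z ∈ ball (0 : ℂ) r, F z ∈ X ∧ u (F z) - (y + z • e) ∈ Λ) ∧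
      ∀ z ∈ ball (0 : ℂ) r, y + z • e ∉ D → pr (F z) = f (y + z • e) := by
  classical
  obtain ⟨hf1, hf2⟩ := hf
  -- the local curve at a point of the disc
  have hloc : ∀ z : ℂ, ∃ G : ℂ → MN N, z ∈ ball (0 : ℂ) R → LiftAt X Λ u (y + z • e) e G 0 ∧ ∀ᶠ w in 𝓝[≠] (0 : ℂ), G w = f (y + z • e + w • e) := by
    intro z
    by_cases hz : z ∈ ball (0 : ℂ) R
    · have h1 : ∀ᶠ w in 𝓝[≠] (0 : ℂ), y + z • e + w • e ∉ D := by
        have h2 : Tendsto (fun w : ℂ => z + w) (𝓝[≠] 0) (𝓝[≠] z) := by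
          refine tendsto_nhdsWithin_iff.mpr ⟨?_, ?_⟩
          · have h3 : Tendsto (fun w : ℂ => z + w) (𝓝 0) (𝓝 (z + 0)) := (continuous_const.add continuous_id).tendsto 0
            rw [add_zero] at h3
            exact h3.mono_left nhdsWithin_le_nhds
          · filter_upwards [self_mem_nhdsWithin] with w hw
            intro h3
            apply hw
            simpa using h3
        filter_upwards [h2.eventually (hiso z hz)] with w hw
        rwa [add_assoc, ← add_smul]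
      obtain ⟨G, h3, h4⟩ := hf2 _ _ h1
      exact ⟨G, fun _ => ⟨h3, h4⟩⟩
    · exact ⟨fun _ => 0, fun h => absurd h hz⟩
  choose G hG using hloc
  set g : ℂ → MN N := fun z => if y + z • e ∈ D then G z 0 else f (y + z • e) with hg
  have hgl : ∀ z ∈ ball (0 : ℂ) R, LiftAt X Λ u y e g z := by
    intro z hz
    obtain ⟨⟨Φ, hΦ, hΦe⟩, hGe⟩ := hG z hz
    have hsub : AnalyticAt ℂ (fun w : ℂ => w - z) z := analyticAt_id.sub analyticAt_const
    have hΦc : AnalyticAt ℂ (fun w : ℂ => Φ (w - z)) z := by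
      refine AnalyticAt.fun_comp (f := fun w : ℂ => w - z) ?_ hsub
      rw [sub_self]
      exact hΦ
    have ht : Tendsto (fun w : ℂ => w - z) (𝓝 z) (𝓝 0) := by
      have h1 := hsub.continuousAt.tendsto
      rwa [sub_self] at h1
    have htn : Tendsto (fun w : ℂ => w - z) (𝓝[≠] z) (𝓝[≠] 0) := by
      refine tendsto_nhdsWithin_iff.mpr ⟨ht.mono_left nhdsWithin_le_nhds, ?_⟩
      filter_upwards [self_mem_nhdsWithin] with w hw
      exact sub_ne_zero.mpr hw
    have hpt : ∀ w : ℂ, y + z • e + (w - z) • e = y + w • e := by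
      intro w
      rw [sub_smul]
      abel
    refine ⟨fun w => Φ (w - z), hΦc, ?_⟩
    have h1 := eventually_nhdsWithin_iff.mp (htn.eventually hGe)
    have h2 := eventually_nhdsWithin_iff.mp (hiso z hz)
    filter_upwards [ht.eventually hΦe, h1, h2] with w hw hw1 hw2
    obtain ⟨hw3, hw4, hw5⟩ := hw
    rw [hpt] at hw5
    refine ⟨hw3, ?_, hw5⟩
    rw [← hw4]
    by_cases hwz : w = z
    · by_cases hzD : y + w • e ∈ D
      · rw [hg]
        simp only [hzD, if_true]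
        rw [hwz, sub_self]
      · -- both sides are continuous at `z`
        rw [hg]
        simp only [hzD, if_false]
        rw [hwz] at hzD ⊢
        obtain ⟨φ, hφ, hφe⟩ := hf1 _ hzD
        have hpc : Continuous fun v : ℂ => y + z • e + v • e := by fun_prop
        have hφc : ContinuousAt (fun v : ℂ => pr (φ (y + z • e + v • e))) 0 := by
          have e1 : y + z • e + (0 : ℂ) • e = y + z • e := by rw [zero_smul, add_zero]
          refine ContinuousAt.comp (g := pr) (f := fun v : ℂ => φ (y + z • e + v • e)) ?_ ?_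
          · rw [e1]
            exact Pool.Agent.H62.EF.continuousAt_pr (ne_zero hX hφe.self_of_nhds.1)
          · refine ContinuousAt.comp (g := φ) (f := fun v : ℂ => y + z • e + v • e) ?_ hpc.continuousAt
            rw [e1]
            exact hφ.continuousAt
        have hΦc2 : ContinuousAt (fun v : ℂ => pr (Φ v)) 0 :=
          ContinuousAt.comp (g := pr) (f := Φ) (Pool.Agent.H62.EF.continuousAt_pr (ne_zero hX hΦe.self_of_nhds.1)) hΦ.continuousAt
        have hev : (fun v : ℂ => pr (Φ v)) =ᶠ[𝓝[≠] (0 : ℂ)] fun v : ℂ => pr (φ (y + z • e + v • e)) := by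
          have h5 : ∀ᶠ v in 𝓝[≠] (0 : ℂ), f (y + z • e + v • e) = pr (φ (y + z • e + v • e)) := by
            have h6 : Tendsto (fun v : ℂ => y + z • e + v • e) (𝓝 0) (𝓝 (y + z • e)) := by
              have h7 := hpc.tendsto 0
              rwa [zero_smul, add_zero] at h7
            exact ((h6.eventually hφe).mono fun v hv => hv.2.1).filter_mono nhdsWithin_le_nhds
          filter_upwards [hGe, hΦe.filter_mono nhdsWithin_le_nhds, h5] with v hv1 hv2 hv3
          rw [← hv2.2.1, hv1, hv3]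
        have h6 : Tendsto (fun v : ℂ => pr (Φ v)) (𝓝[≠] (0 : ℂ)) (𝓝 (pr (Φ 0))) := hΦc2.tendsto.mono_left nhdsWithin_le_nhds
        have h7 : Tendsto (fun v : ℂ => pr (φ (y + z • e + v • e))) (𝓝[≠] (0 : ℂ)) (𝓝 (pr (φ (y + z • e + (0 : ℂ) • e)))) :=
          hφc.tendsto.mono_left nhdsWithin_le_nhds
        have h8 := tendsto_nhds_unique (h6.congr' hev) h7
        rw [zero_smul, add_zero] at h8
        rw [sub_self, hΦe.self_of_nhds.2.1, h8]
        exact hφe.self_of_nhds.2.1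
    · rw [hw1 hwz, hpt, hg]
      simp only [hw2 hwz, if_false]
  obtain ⟨F, hF, hF1, hF2⟩ := disc_lift_mem hX hu hgl hr
  refine ⟨F, hF, hF1, fun z hz hzD => ?_⟩
  rw [← hF2 z hz, hg]
  simp only [hzD, if_false]

end Pool.Agent.TG
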