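import Pool.Agent.H22.HF.Div
import Pool.Agent.H62.EF.Defs

/-!
# TG Rm: Riemann's extension theorem

`riemann_ext`: `h` analytic at `y₀`, not locally zero, `f` analytic and bounded off `{h = 0}` near `y₀`: `f` extends holomorphically to `y₀` (values in `EN N`).
Proof: choose `e` with `h (y₀ + t e) ≠ 0` on a circle; the extension is the mean value of `f (y + t e)` on the circle (in one variable the
singularities are removable).
-/

set_option autoImplicit false

open Topology Filter Metric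

namespace Pool.Agent.TG

open Pool.Agent.H36.BP (EN)

variable {N : ℕ} {E : Type} [NormedAddCommGroup E] [NormedSpace ℂ E]

theorem an_of_coord {F : E → EN N} {x : E} (h : ∀ i, AnalyticAt ℂ (fun y => F y i) x) : AnalyticAt ℂ F x := by
  have h1 : AnalyticAt ℂ (fun y => (fun i => F y i : Fin (N + 1) → ℂ)) x := by
    rw [analyticAt_pi_iff]
    exact h
  have h2 : F = fun y => (PiLp.continuousLinearEquiv 2 ℂ (fun _ : Fin (N + 1) => ℂ)).symm (fun i => F y i : Fin (N + 1) → ℂ) := by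
    funext y
    rfl
  rw [h2]
  exact ((PiLp.continuousLinearEquiv 2 ℂ (fun _ : Fin (N + 1) => ℂ)).symm.toContinuousLinearMap.analyticAt _).fun_comp h1

theorem coord_an {F : E → EN N} {x : E} (h : AnalyticAt ℂ F x) (i : Fin (N + 1)) : AnalyticAt ℂ (fun y => F y i) x :=
  ((EuclideanSpace.proj (𝕜 := ℂ) i).analyticAt _).fun_comp h

theorem rem_disc {U : Set ℂ} (hU : IsOpen U) (hUc : IsPreconnected U) {h f : ℂ → ℂ} (hh : ∀ z ∈ U, AnalyticAt ℂ h z) {z₁ : ℂ} (hz₁ : z₁ ∈ U)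
    (hne : h z₁ ≠ 0) (hf : ∀ z ∈ U, h z ≠ 0 → DifferentiableAt ℂ f z) {M : ℝ} (hM : ∀ z ∈ U, h z ≠ 0 → ‖f z‖ ≤ M) :
    ∃ g : ℂ → ℂ, DifferentiableOn ℂ g U ∧ ∀ z ∈ U, h z ≠ 0 → g z = f z := by
  classical
  refine ⟨fun z => if h z = 0 then limUnder (𝓝[≠] z) f else f z, fun z₀ hz₀ => ?_, fun z hz h0 => by simp [h0]⟩
  refine DifferentiableAt.differentiableWithinAt ?_
  by_cases h0 : h z₀ = 0
  · have hiso : ∀ᶠ z in 𝓝[≠] z₀, h z ≠ 0 := by
      rcases (hh z₀ hz₀).eventually_eq_zero_or_eventually_ne_zero with h1 | h1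
      · exact absurd (AnalyticOnNhd.eqOn_zero_of_preconnected_of_eventuallyEq_zero (fun z hz => hh z hz) hUc hz₀ h1 hz₁) hne
      · exact h1
    rw [eventually_nhdsWithin_iff] at hiso
    obtain ⟨r, hr, hb⟩ := Metric.eventually_nhds_iff_ball.mp (hiso.and (hU.mem_nhds hz₀))
    have hd : DifferentiableOn ℂ f (ball z₀ r \ {z₀}) := fun z hz =>
      (hf z (hb z hz.1).2 ((hb z hz.1).1 hz.2)).differentiableWithinAt
    have hbd : BddAbove (norm ∘ f '' (ball z₀ r \ {z₀})) := by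
      refine ⟨M, ?_⟩
      rintro _ ⟨z, hz, rfl⟩
      exact hM z (hb z hz.1).2 ((hb z hz.1).1 hz.2)
    have h2 := Complex.differentiableOn_update_limUnder_of_bddAbove (ball_mem_nhds z₀ hr) hd hbd
    have h3 := h2.differentiableAt (ball_mem_nhds z₀ hr)
    refine h3.congr_of_eventuallyEq ?_
    filter_upwards [ball_mem_nhds z₀ hr] with z hz
    by_cases e : z = z₀
    · subst e
      simp [h0]
    · rw [Function.update_of_ne e]
      simp [(hb z hz).1 e]
  · refine (hf z₀ hz₀ h0).congr_of_eventuallyEq ?_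
    filter_upwards [(hh z₀ hz₀).continuousAt.eventually_ne h0] with z hz
    simp [hz]

theorem riemann_one [FiniteDimensional ℂ E] {h f : E → ℂ} {y₀ : E} (hh : AnalyticAt ℂ h y₀) (hne : ¬ ∀ᶠ y in 𝓝 y₀, h y = 0)
    (hf : ∀ᶠ y in 𝓝 y₀, h y ≠ 0 → AnalyticAt ℂ f y) {M : ℝ} (hM : ∀ᶠ y in 𝓝 y₀, h y ≠ 0 → ‖f y‖ ≤ M) :
    ∃ φ : E → ℂ, AnalyticAt ℂ φ y₀ ∧ ∀ᶠ y in 𝓝 y₀, h y ≠ 0 → φ y = f y := by
  obtain ⟨r, hr, hb⟩ := Metric.eventually_nhds_iff_ball.mp ((hh.eventually_analyticAt.and hf).and hM)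
  obtain ⟨y₁, hy₁, hne₁⟩ : ∃ y₁ ∈ ball y₀ (r / 4), h y₁ ≠ 0 := by
    by_contra hcon
    push Not at hcon
    exact hne (Filter.eventually_of_mem (ball_mem_nhds y₀ (by positivity)) hcon)
  set e : E := y₁ - y₀ with he
  have hen : ‖e‖ < r / 4 := by
    rw [he, ← dist_eq_norm]
    exact hy₁
  have hmem : ∀ y ∈ ball y₀ (r / 4), ∀ z ∈ ball (0 : ℂ) 2, y + z • e ∈ ball y₀ r := by
    intro y hy z hz
    rw [mem_ball, dist_eq_norm] at hy ⊢
    rw [mem_ball_zero_iff] at hz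
    have h1 : y + z • e - y₀ = (y - y₀) + z • e := by abel
    rw [h1]
    have h2 : ‖z • e‖ ≤ 2 * (r / 4) := by
      rw [norm_smul]
      exact mul_le_mul hz.le hen.le (norm_nonneg _) (by norm_num)
    linarith [norm_add_le (y - y₀) (z • e)]
  have hline : ∀ y ∈ ball y₀ (r / 4), ∀ z ∈ ball (0 : ℂ) 2, AnalyticAt ℂ (fun z : ℂ => h (y + z • e)) z := by
    intro y hy z hz
    refine AnalyticAt.fun_comp (hb _ (hmem y hy z hz)).1.1 ?_
    exact analyticAt_const.add (analyticAt_id.smul analyticAt_const)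
  have h0m : y₀ ∈ ball y₀ (r / 4) := mem_ball_self (by positivity)
  have hiso : ∀ᶠ z in 𝓝[≠] (0 : ℂ), h (y₀ + z • e) ≠ 0 := by
    rcases (hline y₀ h0m 0 (mem_ball_self (by norm_num))).eventually_eq_zero_or_eventually_ne_zero with h1 | h1
    · exfalso
      have h2 := AnalyticOnNhd.eqOn_zero_of_preconnected_of_eventuallyEq_zero (U := ball (0 : ℂ) 2) (fun z hz => hline y₀ h0m z hz)
        (convex_ball _ _).isPreconnected (mem_ball_self (by norm_num)) h1 (show (1 : ℂ) ∈ ball (0 : ℂ) 2 by simp)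
      refine hne₁ ?_
      have h3 : y₀ + (1 : ℂ) • e = y₁ := by
        rw [one_smul, he]
        abel
      rw [← h3]
      exact h2
    · exact h1
  rw [eventually_nhdsWithin_iff] at hiso
  obtain ⟨s₀, hs₀, hs₀b⟩ := Metric.eventually_nhds_iff_ball.mp hiso
  set s : ℝ := min (s₀ / 2) 1 with hs
  have hs0 : 0 < s := lt_min (by positivity) one_pos
  have hs1 : s ≤ 1 := min_le_right _ _
  have hss : s < s₀ := lt_of_le_of_lt (min_le_left _ _) (by linarith)
  have hsph : ∀ t ∈ sphere (0 : ℂ) s, t ≠ 0 ∧ t ∈ ball (0 : ℂ) 2 ∧ h (y₀ + t • e) ≠ 0 := by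
    intro t ht
    rw [mem_sphere_zero_iff_norm] at ht
    have ht0 : t ≠ 0 := by
      rw [← norm_pos_iff, ht]
      exact hs0
    refine ⟨ht0, ?_, ?_⟩
    · rw [mem_ball_zero_iff, ht]
      linarith
    · refine hs₀b t ?_ ht0
      rw [mem_ball_zero_iff, ht]
      exact hss
  have hcirc : ∀ᶠ y in 𝓝 y₀, ∀ t ∈ sphere (0 : ℂ) s, h (y + t • e) ≠ 0 := by
    refine (isCompact_sphere (0 : ℂ) s).eventually_forall_of_forall_eventually fun t ht => ?_
    have hc : ContinuousAt (fun p : E × ℂ => h (p.1 + p.2 • e)) (y₀, t) := by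
      have h1 : ContinuousAt h (y₀ + t • e) := (hb _ (hmem y₀ h0m t (hsph t ht).2.1)).1.1.continuousAt
      have h2 : ContinuousAt (fun p : E × ℂ => p.1 + p.2 • e) (y₀, t) := by fun_prop
      exact ContinuousAt.comp (f := fun p : E × ℂ => p.1 + p.2 • e) (g := h) h1 h2
    exact hc.eventually_ne (hsph t ht).2.2
  refine ⟨fun y => (2 * Real.pi * Complex.I : ℂ)⁻¹ * ∮ t in C(0, s), t⁻¹ * f (y + t • e), ?_, ?_⟩
  · refine analyticAt_const.mul ?_
    refine Pool.Agent.H22.HF.analyticAt_circleIntegral (F := fun p : E × ℂ => p.2⁻¹ * f (p.1 + p.2 • e)) hs0 fun t ht => ?_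
    obtain ⟨ht0, ht2, htn⟩ := hsph t ht
    refine AnalyticAt.mul ?_ ?_
    · exact (analyticAt_snd (𝕜 := ℂ) (p := (y₀, t))).inv ht0
    · refine AnalyticAt.fun_comp (g := f) (f := fun p : E × ℂ => p.1 + p.2 • e) ((hb _ (hmem y₀ h0m t ht2)).1.2 htn) ?_
      exact analyticAt_fst.add (analyticAt_snd.smul analyticAt_const)
  · filter_upwards [hcirc, ball_mem_nhds y₀ (show 0 < r / 4 by positivity)] with y hy hyb hy0
    have hs2 : (s : ℂ) ∈ sphere (0 : ℂ) s := by
      rw [mem_sphere_zero_iff_norm, Complex.norm_real, Real.norm_of_nonneg hs0.le]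
    obtain ⟨g, hg1, hg2⟩ := rem_disc (U := ball (0 : ℂ) 2) (h := fun z : ℂ => h (y + z • e)) (f := fun z : ℂ => f (y + z • e)) isOpen_ball
      (convex_ball _ _).isPreconnected (fun z hz => hline y hyb z hz) (hsph s hs2).2.1 (hy s hs2)
      (fun z hz hn => by
        have h1 := ((hb _ (hmem y hyb z hz)).1.2 hn).differentiableAt
        have h2 : DifferentiableAt ℂ (fun z : ℂ => y + z • e) z := by fun_prop
        exact DifferentiableAt.comp (g := f) (f := fun z : ℂ => y + z • e) z h1 h2)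
      (fun z hz hn => (hb _ (hmem y hyb z hz)).2 hn)
    have h3 : (∮ t in C(0, s), t⁻¹ * f (y + t • e)) = ∮ t in C(0, s), (t - 0)⁻¹ • g t := by
      refine circleIntegral.integral_congr hs0.le fun t ht => ?_
      simp only [sub_zero, smul_eq_mul]
      rw [hg2 t (hsph t ht).2.1 (hy t ht)]
    have h4 := DifferentiableOn.circleIntegral_sub_inv_smul (f := g) (c := (0 : ℂ)) (R := s)
      (hg1.mono (closedBall_subset_ball (by linarith))) (mem_ball_self hs0)
    have h5 : g 0 = f y := by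
      have := hg2 0 (mem_ball_self (by norm_num)) (by simpa using hy0)
      simpa using this
    show (2 * Real.pi * Complex.I : ℂ)⁻¹ * (∮ t in C(0, s), t⁻¹ * f (y + t • e)) = f y
    rw [h3, h4, h5, smul_eq_mul, ← mul_assoc, inv_mul_cancel₀ Complex.two_pi_I_ne_zero, one_mul]

/-- Riemann's extension theorem -/
theorem riemann_ext [FiniteDimensional ℂ E] {h : E → ℂ} {f : E → EN N} {y₀ : E} (hh : AnalyticAt ℂ h y₀) (hne : ¬ ∀ᶠ y in 𝓝 y₀, h y = 0)
    (hf : ∀ᶠ y in 𝓝 y₀, h y ≠ 0 → AnalyticAt ℂ f y) {M : ℝ} (hM : ∀ᶠ y in 𝓝 y₀, h y ≠ 0 → ‖f y‖ ≤ M) :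
    ∃ φ : E → EN N, AnalyticAt ℂ φ y₀ ∧ ∀ᶠ y in 𝓝 y₀, h y ≠ 0 → φ y = f y := by
  have h1 : ∀ i : Fin (N + 1), ∃ φ : E → ℂ, AnalyticAt ℂ φ y₀ ∧ ∀ᶠ y in 𝓝 y₀, h y ≠ 0 → φ y = f y i := by
    intro i
    refine riemann_one (f := fun y => f y i) (M := M) hh hne ?_ ?_
    · filter_upwards [hf] with y hy h0
      exact coord_an (hy h0) i
    · filter_upwards [hM] with y hy h0
      exact (PiLp.norm_apply_le (f y) i).trans (hy h0)
  choose φ hφ1 hφ2 using h1
  refine ⟨fun y => WithLp.toLp 2 fun i => φ i y, an_of_coord fun i => ?_, ?_⟩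
  · exact hφ1 i
  · filter_upwards [Filter.eventually_all.mpr hφ2] with y hy h0
    ext i
    exact hy i h0

end Pool.Agent.TG
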