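import Pool.Agent.TG.SmDefs
import Pool.Agent.TG.Rm
import Pool.Agent.H62.EF.PrA

/-!
# TG SmA: closing up, and a holomorphic vector near a point where its projection is Lipschitz

`close_lift`: `φ` analytic with `φ y ≠ 0`, `φ y ∈ X` and `u (φ y) = υ y` modulo `Λ` on a dense set: this holds everywhere.
`lip_lift`: `pr ∘ F` Lipschitz where `F ≠ 0` near `y₀`: `[F]` is holomorphic at `y₀`.
-/

set_option autoImplicit false

open Topology Filter Metric

namespace Pool.Agent.TG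

open Pool.Agent.H36.BP (EN fs wd)
open Pool.Agent.H14.PP (IsCone)
open Pool.Agent.H62.EF (MN pr pr_smul pr_eq_iff continuousAt_pr isCompact_pr nm_close)
open Pool.Agent.AD (Vd)

variable {N k : ℕ} {X : Set (EN N)} {Λ : AddSubgroup (Vd (k + 1))} {u : EN N → Vd (k + 1)}

theorem lat_isClosed (h : Lat Λ) : IsClosed (Λ : Set (Vd (k + 1))) := by
  obtain ⟨δ, hδ, hd⟩ := h.disc
  rw [← isSeqClosed_iff_isClosed]
  intro x w hx hw
  have h1 := hw.cauchySeq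
  rw [Metric.cauchySeq_iff'] at h1
  obtain ⟨n, hn⟩ := h1 δ hδ
  have h2 : ∀ m ≥ n, x m = x n := by
    intro m hm
    have h3 := hd (x m - x n) (Λ.sub_mem (hx m) (hx n)) (by rw [← dist_eq_norm]; exact hn m hm)
    exact sub_eq_zero.mp h3
  have h4 : Tendsto x atTop (𝓝 (x n)) := by
    refine tendsto_const_nhds.congr' ?_
    filter_upwards [eventually_ge_atTop n] with m hm
    exact (h2 m hm).symm
  rw [tendsto_nhds_unique hw h4]
  exact hx n

/-- a nonzero limit of points of the cone is a point of the cone -/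
theorem mem_of_frequently {E : Type*} [TopologicalSpace E] (hX : IsCone X) {φ : E → EN N} {y : E} (hφ : ContinuousAt φ y) (h0 : φ y ≠ 0)
    (hfr : ∃ᶠ z in 𝓝 y, φ z ∈ X) : φ y ∈ X := by
  have h1 : φ y ∈ insert 0 X := by
    have h2 : φ y ∈ closure (insert 0 X) := by
      rw [mem_closure_iff_frequently]
      exact hφ.tendsto.frequently (hfr.mono fun z hz => Set.mem_insert_of_mem _ hz)
    rwa [hX.closed.closure_eq] at h2
  exact h1.resolve_left h0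

/-- closing up -/
theorem close_lift {E : Type*} [TopologicalSpace E] (hX : IsCone X) (ht : TMap X Λ u) (hl : Lat Λ) {φ : E → EN N} {υ : E → Vd (k + 1)} {y : E}
    (hφ : ContinuousAt φ y) (h0 : φ y ≠ 0) (hυ : ContinuousAt υ y) (hfr : ∃ᶠ z in 𝓝 y, φ z ∈ X ∧ u (φ z) - υ z ∈ Λ) :
    φ y ∈ X ∧ u (φ y) - υ y ∈ Λ := by
  have h1 : φ y ∈ X := mem_of_frequently hX hφ h0 (hfr.mono fun z hz => hz.1)
  refine ⟨h1, ?_⟩
  obtain ⟨v, hv, hvu⟩ := ht.loc _ h1
  have h2 : ∃ᶠ z in 𝓝 y, v (φ z) - υ z ∈ (Λ : Set (Vd (k + 1))) := by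
    refine (hfr.and_eventually (hφ.eventually hvu)).mono fun z hz => ?_
    have h3 := Λ.sub_mem hz.1.2 (hz.2 hz.1.1)
    have e : u (φ z) - υ z - (u (φ z) - v (φ z)) = v (φ z) - υ z := by abel
    rw [e] at h3
    exact h3
  have h3 : v (φ y) - υ y ∈ (Λ : Set (Vd (k + 1))) := by
    have hc : ContinuousAt (fun z => v (φ z) - υ z) y := (hv.continuousAt.comp hφ).sub hυ
    have h4 : v (φ y) - υ y ∈ closure (Λ : Set (Vd (k + 1))) := by
      rw [mem_closure_iff_frequently]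
      exact hc.tendsto.frequently h2
    rwa [(lat_isClosed hl).closure_eq] at h4
  have h4 := hvu.self_of_nhds h1
  have e : u (φ y) - υ y = (u (φ y) - v (φ y)) + (v (φ y) - υ y) := by abel
  rw [e]
  exact Λ.add_mem h4 h3

/-- another representative of a point of `X` -/
theorem mem_of_pr (hX : IsCone X) (ht : TMap X Λ u) {x y : EN N} {w : Vd (k + 1)} (hx : x ∈ X) (hu : u x - w ∈ Λ) (hy : y ≠ 0) (h : pr y = pr x) :
    y ∈ X ∧ u y - w ∈ Λ := by
  have hx0 : x ≠ 0 := fun e => hX.zero_notMem (e ▸ hx)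
  obtain ⟨c, hc, rfl⟩ := (pr_eq_iff hy hx0).mp h
  refine ⟨hX.smul_mem x hx c hc, ?_⟩
  have e : u (c • x) - w = (u (c • x) - u x) + (u x - w) := by abel
  rw [e]
  exact Λ.add_mem (ht.smul x hx c hc) hu

theorem isCone_ne : IsCone {x : EN N | x ≠ 0} where
  zero_notMem := fun h => h rfl
  smul_mem := fun _ hx _ hc => smul_ne_zero hc hx
  closed := by
    have : insert (0 : EN N) {x : EN N | x ≠ 0} = Set.univ := by
      ext x
      simp only [Set.mem_insert_iff, Set.mem_ofPred_eq, Set.mem_univ, iff_true]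
      exact em _
    rw [this]
    exact isClosed_univ

/-- a vector whose projection is Lipschitz defines a holomorphic map -/
theorem lip_lift {E : Type} [NormedAddCommGroup E] [NormedSpace ℂ E] [FiniteDimensional ℂ E] {F : E → EN N} {y₀ : E} (hF : AnalyticAt ℂ F y₀)
    (hne : ¬ ∀ᶠ y in 𝓝 y₀, F y = 0) {ρ C : ℝ} (hρ : 0 < ρ)
    (hlip : ∀ y ∈ ball y₀ ρ, ∀ z ∈ ball y₀ ρ, F y ≠ 0 → F z ≠ 0 → dist (pr (F y)) (pr (F z)) ≤ C * ‖y - z‖) :
    ∃ φ : E → EN N, AnalyticAt ℂ φ y₀ ∧ φ y₀ ≠ 0 ∧ ∀ᶠ y in 𝓝 y₀, F y ≠ 0 → pr (φ y) = pr (F y) := by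
  have hfr : ∃ᶠ y in 𝓝 y₀, F y ≠ 0 := Filter.not_eventually.mp hne
  obtain ⟨s, hs, hsF⟩ := exists_seq_forall_of_frequently hfr
  have hcpt := isCompact_pr (isCone_ne (N := N))
  obtain ⟨m₀, ⟨x₀, hx₀, rfl⟩, θ, hθ, hlim⟩ := hcpt.tendsto_subseq (x := fun n => pr (F (s n))) (fun n => ⟨F (s n), hsF n, rfl⟩)
  have hx₀ : x₀ ≠ 0 := hx₀
  have hd : ∀ y ∈ ball y₀ ρ, F y ≠ 0 → dist (pr (F y)) (pr x₀) ≤ C * ‖y - y₀‖ := by
    intro y hy h0
    have h1 : Tendsto (fun n => dist (pr (F y)) (pr (F (s (θ n))))) atTop (𝓝 (dist (pr (F y)) (pr x₀))) := tendsto_const_nhds.dist hlim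
    have h2 : Tendsto (fun n => C * ‖y - s (θ n)‖) atTop (𝓝 (C * ‖y - y₀‖)) :=
      ((tendsto_const_nhds.sub (hs.comp hθ.tendsto_atTop)).norm).const_mul C
    refine le_of_tendsto_of_tendsto h1 h2 ?_
    have h3 : ∀ᶠ n in atTop, s (θ n) ∈ ball y₀ ρ := (hs.comp hθ.tendsto_atTop).eventually (ball_mem_nhds y₀ hρ)
    filter_upwards [h3] with n hn
    exact hlip y hy _ hn h0 (hsF _)
  have hx₀n : 0 < ‖x₀‖ := norm_pos_iff.mpr hx₀
  obtain ⟨δ, hδ, hδb⟩ := nm_close hx₀ (show 0 < ‖x₀‖ / 2 by positivity)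
  have hnear : ∀ᶠ y in 𝓝 y₀, F y ≠ 0 → dist (pr (F y)) (pr x₀) < δ := by
    have h1 : Tendsto (fun y => C * ‖y - y₀‖) (𝓝 y₀) (𝓝 (C * ‖y₀ - y₀‖)) := by
      refine Continuous.tendsto ?_ y₀
      fun_prop
    rw [sub_self, norm_zero, mul_zero] at h1
    filter_upwards [h1.eventually (gt_mem_nhds hδ), ball_mem_nhds y₀ hρ] with y hy hyb h0
    exact (hd y hyb h0).trans_lt hy
  set h : E → ℂ := fun y => inner ℂ x₀ (F y) with hh
  have hℓ : ∀ y, h y = (innerSL ℂ x₀) (F y) := fun y => by simp [hh]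
  have han : ∀ y, AnalyticAt ℂ F y → AnalyticAt ℂ h y := by
    intro y hy
    have : h = fun y => (innerSL ℂ x₀) (F y) := by
      funext y
      exact hℓ y
    rw [this]
    exact ((innerSL ℂ x₀).analyticAt _).fun_comp hy
  have hiff : ∀ᶠ y in 𝓝 y₀, (F y ≠ 0 → h y ≠ 0 ∧ ‖H62.EF.nm x₀ (F y) - x₀‖ < ‖x₀‖ / 2) ∧ (h y ≠ 0 → F y ≠ 0) := by
    filter_upwards [hnear] with y hy
    refine ⟨fun h0 => hδb _ h0 (hy h0), fun h0 e => h0 ?_⟩
    rw [hh]
    simp [e]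
  have hhne : ¬ ∀ᶠ y in 𝓝 y₀, h y = 0 := by
    intro hc
    obtain ⟨y, hy1, hy2, hy3⟩ := (hfr.and_eventually (hc.and hiff)).exists
    exact (hy3.1 hy1).1 hy2
  obtain ⟨φ, hφ1, hφ2⟩ := riemann_ext (h := h) (f := fun y => H62.EF.nm x₀ (F y)) (M := ‖x₀‖ + ‖x₀‖ / 2) (han y₀ hF) hhne
    (by
      filter_upwards [hF.eventually_analyticAt] with y hy h0
      have h1 : AnalyticAt ℂ (fun y => (((‖x₀‖ ^ 2 : ℝ) : ℂ) / h y) • F y) y := (analyticAt_const.div (han y hy) h0).smul hy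
      exact h1)
    (by
      filter_upwards [hiff] with y hy h0
      have h1 := (hy.1 (hy.2 h0)).2
      have h2 : H62.EF.nm x₀ (F y) = x₀ + (H62.EF.nm x₀ (F y) - x₀) := by abel
      calc ‖H62.EF.nm x₀ (F y)‖ = ‖x₀ + (H62.EF.nm x₀ (F y) - x₀)‖ := by rw [← h2]
        _ ≤ ‖x₀‖ + ‖H62.EF.nm x₀ (F y) - x₀‖ := norm_add_le _ _
        _ ≤ _ := by linarith)
  refine ⟨φ, hφ1, ?_, ?_⟩
  · have h1 : ‖φ y₀ - x₀‖ ≤ ‖x₀‖ / 2 := by
      have hc : ContinuousAt (fun y => ‖φ y - x₀‖) y₀ := (hφ1.continuousAt.sub continuousAt_const).norm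
      have hmem : ‖φ y₀ - x₀‖ ∈ closure (Set.Iic (‖x₀‖ / 2)) := by
        rw [mem_closure_iff_frequently]
        refine hc.tendsto.frequently ?_
        refine (hfr.and_eventually (hiff.and hφ2)).mono fun y hy => ?_
        obtain ⟨hy1, hy2, hy3⟩ := hy
        show ‖φ y - x₀‖ ≤ ‖x₀‖ / 2
        rw [hy3 (hy2.1 hy1).1]
        exact (hy2.1 hy1).2.le
      rw [isClosed_Iic.closure_eq] at hmem
      exact hmem
    intro h2
    rw [h2, zero_sub, norm_neg] at h1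
    linarith
  · filter_upwards [hiff, hφ2] with y hy1 hy2 h0
    rw [hy2 (hy1.1 h0).1]
    have h3 : (((‖x₀‖ ^ 2 : ℝ) : ℂ) / inner ℂ x₀ (F y)) ≠ 0 := by
      refine div_ne_zero ?_ (hy1.1 h0).1
      exact_mod_cast (pow_pos hx₀n 2).ne'
    exact pr_smul _ h3

end Pool.Agent.TG
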