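import Pool.Agent.TG.Lf
import Pool.Agent.AD.W.Resc
import Pool.Agent.H62.EF.LimL
import Pool.Agent.H62.EF.PrLip
import Pool.Agent.H36.BP.Brody

/-!
# TG Zl: the curves over lines are uniformly Lipschitz away from `D`

Port of `Pool/Agent/H62/EL/Zl.lean`.

`curve_bound`: suppose not: for every `n` there are `y n ∈ Gd D δ`, `‖e n‖ ≤ 1`, `F n` on `ball 0 δ` with `fs (F n 0) ((F n)' 0) > 4 (n + 1) / δ`.  `y n` may be translated by `Λ` (`Lat.cpt`, `Geo.gd_add`): `‖y n‖ ≤ R`.  `AD.rescale_disc` (`AD/W/Resc.lean`) for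
`ζ ↦ F n (δ ζ)`, `ζ ∈ ball 0 1`, gives `z n`, `a n > 4 (n + 1)` such that `G n ζ = F n (δ (z n + ζ / a n))` has `fs (G n 0) ((G n)' 0) = 1`, `fs ≤ 2` on `ball 0 (n + 1)`, `‖z n + ζ / a n‖ ≤ 1/2` there; `u (G n ζ) - (y n + (δ (z n + ζ / a n)) • e n) ∈ Λ`.
`limit_curves` (`𝒰 = hyperfilter ℕ`, `ρ n = n + 1`) gives `G` entire in `X` with `fs (G 0) (G' 0) = 1` and `fs (G ζ) (G' ζ) ≤ 2` (limits), and along `𝒰` `y n → y`, `z n → z`, `e n → e`; `w = y + (δ z) • e ∈ Gd D (δ / 2)` (`gd_near`, `gd_closed`), so `w ∉ D`.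
`pr (G n ζ) → pr (G ζ)`, so `u (G ζ) - w ∈ Λ` for all `ζ` (`fb_lim`, `fb_lift`).  `G.fib` (the geometric hypothesis `fib`): `G ζ` is proportional to `G 0` for all `ζ`, so `fs (G 0) (G' 0) = 0` (as in `EF/Zal`: `Brody_deriv_line` or `wd`): contradiction.

`sec_lip`: `L₁` from `curve_bound` for `δ / 4`.  Let `w ≠ y`, `e = (w - y) / ‖w - y‖`; the points `y + z • e`, `‖z‖ < 3 δ / 4`, are in `Gd D (δ / 4)`; `F` from `sec_line` (`R = 3δ/4`, `r` between `δ/2` and `3δ/4`, e.g. `5δ/8`: all points off `D`).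
For `‖z‖ < 5 δ / 8 - δ / 16`... : to apply `curve_bound` at `y + z • e` one needs `F` on `ball z δ''`: use `curve_bound` for `δ'' = δ / 16` (`Gd D (δ/4) ⊆ Gd D (δ/16)`).  Then `pr_lipschitz` on a convex neighbourhood of the segment `[0, ‖w - y‖]`.
-/

set_option autoImplicit false

open Topology Filter Metric

namespace Pool.Agent.TG

open Pool.Agent.H36.BP (EN fs wd)
open Pool.Agent.H14.PP (IsCone CurveAt Tan)
open Pool.Agent.H62.EF (MN pr)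
open Pool.Agent.AD (Vd Chart Charts IsGerm)

variable {N k : ℕ}


variable {X : Set (EN N)} {Λ : AddSubgroup (Vd (k + 1))} {u : EN N → Vd (k + 1)} {D B : Set (Vd (k + 1))}

theorem curve_bound (G : Geo X Λ u D B) {δ : ℝ} (hδ : 0 < δ) : ∃ L : ℝ, 0 < L ∧ ∀ y ∈ Gd D δ, ∀ e : Vd (k + 1), ‖e‖ ≤ 1 →
    ∀ F : ℂ → EN N, DifferentiableOn ℂ F (ball 0 δ) → (∀ z ∈ ball (0 : ℂ) δ, F z ∈ X ∧ u (F z) - (y + z • e) ∈ Λ) →
      fs (F 0) (deriv F 0) ≤ L := by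
  have hX := G.cone
  have hu := G.tor
  have hΛ := G.lat
  have hX0 : ∀ x ∈ X, x ≠ 0 := fun x hx h => hX.zero_notMem (h ▸ hx)
  by_contra hcon
  push Not at hcon
  have hbig : ∀ n : ℕ, ∃ y ∈ Gd D δ, ∃ e : Vd (k + 1), ‖e‖ ≤ 1 ∧ ∃ F : ℂ → EN N, DifferentiableOn ℂ F (ball 0 δ) ∧
      (∀ z ∈ ball (0 : ℂ) δ, F z ∈ X ∧ u (F z) - (y + z • e) ∈ Λ) ∧ 4 * ((n : ℝ) + 1) / δ < fs (F 0) (deriv F 0) :=
    fun n => hcon _ (by positivity)
  obtain ⟨R, hR0, hR⟩ := hΛ.cpt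
  have hbig' : ∀ n : ℕ, ∃ y ∈ Gd D δ, ‖y‖ ≤ R ∧ ∃ e : Vd (k + 1), ‖e‖ ≤ 1 ∧ ∃ F : ℂ → EN N, DifferentiableOn ℂ F (ball 0 δ) ∧
      (∀ z ∈ ball (0 : ℂ) δ, F z ∈ X ∧ u (F z) - (y + z • e) ∈ Λ) ∧ 4 * ((n : ℝ) + 1) / δ < fs (F 0) (deriv F 0) := by
    intro n
    obtain ⟨y, hy, e, he, F, hF, hFX, hb⟩ := hbig n
    obtain ⟨l, hl, hlR⟩ := hR y
    refine ⟨y - l, ?_, hlR, e, he, F, hF, fun z hz => ⟨(hFX z hz).1, ?_⟩, hb⟩
    · rw [← G.gd_add δ hl, sub_add_cancel]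
      exact hy
    · have h1 := Λ.add_mem (hFX z hz).2 hl
      have h2 : u (F z) - (y - l + z • e) = u (F z) - (y + z • e) + l := by abel
      rwa [h2]
  choose y hyG hyR e he F hF hFX hFb using hbig'
  have hmul : ∀ z : ℂ, z ∈ ball (0 : ℂ) 1 → (δ : ℂ) * z ∈ ball (0 : ℂ) δ := by
    intro z hz
    rw [mem_ball_zero_iff] at hz ⊢
    rw [norm_mul, Complex.norm_real, Real.norm_of_nonneg hδ.le]
    calc δ * ‖z‖ < δ * 1 := mul_lt_mul_of_pos_left hz hδ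
      _ = δ := mul_one δ
  have hresc : ∀ n : ℕ, ∃ (z₀ : ℂ) (a : ℝ), 4 * ((n : ℝ) + 1) < a ∧
      (∀ ζ ∈ ball (0 : ℂ) (n + 1), ‖z₀ + ((a⁻¹ : ℝ) : ℂ) * ζ‖ ≤ 1 / 2) ∧
      fs (F n ((δ : ℂ) * z₀)) (deriv (fun ζ => F n ((δ : ℂ) * (z₀ + ((a⁻¹ : ℝ) : ℂ) * ζ))) 0) = 1 ∧
      ∀ ζ ∈ ball (0 : ℂ) (n + 1), fs (F n ((δ : ℂ) * (z₀ + ((a⁻¹ : ℝ) : ℂ) * ζ)))
        (deriv (fun ζ => F n ((δ : ℂ) * (z₀ + ((a⁻¹ : ℝ) : ℂ) * ζ))) ζ) ≤ 2 := by
    intro n
    have hd : DifferentiableOn ℂ (fun z => F n ((δ : ℂ) * z)) (ball 0 1) :=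
      (hF n).comp (differentiable_id.const_mul _).differentiableOn hmul
    refine Pool.Agent.AD.rescale_disc hd (fun z hz => hX0 _ (hFX n _ (hmul z hz)).1) n ?_
    have h1 : HasDerivAt (fun z : ℂ => (δ : ℂ) * z) (δ : ℂ) 0 := by
      simpa using (hasDerivAt_id (0 : ℂ)).const_mul (δ : ℂ)
    have h2 : deriv (fun z => F n ((δ : ℂ) * z)) 0 = (δ : ℂ) • deriv (F n) 0 := by
      have h4 : HasDerivAt (F n) (deriv (F n) 0) ((δ : ℂ) * 0) := by
        rw [mul_zero]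
        exact ((hF n).differentiableAt (isOpen_ball.mem_nhds (mem_ball_self hδ))).hasDerivAt
      exact (h4.scomp 0 h1).deriv
    rw [h2, Pool.Agent.H36.BP.fs_smul_right, Complex.norm_real, Real.norm_of_nonneg hδ.le, mul_zero]
    have h4 := hFb n
    rw [div_lt_iff₀ hδ] at h4
    linarith
  choose z₀ a ha hz₀ h1 h2 using hresc
  have ha0 : ∀ n, 0 < a n := fun n => lt_trans (by positivity) (ha n)
  have hz₀n : ∀ n, ‖z₀ n‖ ≤ 1 / 2 := by
    intro n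
    have h3 := hz₀ n 0 (mem_ball_self (by positivity))
    rwa [mul_zero, add_zero] at h3
  set g : ℕ → ℂ → EN N := fun n ζ => F n ((δ : ℂ) * (z₀ n + (((a n)⁻¹ : ℝ) : ℂ) * ζ)) with hgdef
  set w : ℕ → Vd (k + 1) := fun n => y n + ((δ : ℂ) * z₀ n) • e n with hwdef
  have hin : ∀ n : ℕ, ∀ ζ ∈ ball (0 : ℂ) ((n : ℝ) + 1), (δ : ℂ) * (z₀ n + (((a n)⁻¹ : ℝ) : ℂ) * ζ) ∈ ball (0 : ℂ) δ := by
    intro n ζ hζ
    apply hmul
    rw [mem_ball_zero_iff]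
    have h3 := hz₀ n ζ hζ
    linarith
  have hgd : ∀ n : ℕ, DifferentiableOn ℂ (g n) (ball 0 ((n : ℝ) + 1)) := by
    intro n
    exact (hF n).comp (((differentiable_id.const_mul _).const_add _).const_mul _).differentiableOn (hin n)
  have hgX : ∀ n : ℕ, ∀ ζ ∈ ball (0 : ℂ) ((n : ℝ) + 1), g n ζ ∈ X := fun n ζ hζ => (hFX n _ (hin n ζ hζ)).1
  have hgu : ∀ n : ℕ, ∀ ζ ∈ ball (0 : ℂ) ((n : ℝ) + 1), u (g n ζ) - (w n + (((δ * (a n)⁻¹ : ℝ) : ℂ) * ζ) • e n) ∈ Λ := by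
    intro n ζ hζ
    have h3 := (hFX n _ (hin n ζ hζ)).2
    have h4 : w n + (((δ * (a n)⁻¹ : ℝ) : ℂ) * ζ) • e n = y n + ((δ : ℂ) * (z₀ n + (((a n)⁻¹ : ℝ) : ℂ) * ζ)) • e n := by
      rw [hwdef]
      simp only []
      rw [add_assoc, ← add_smul]
      congr 2
      push_cast
      ring
    rw [h4]
    exact h3
  have hg1 : ∀ n, fs (g n 0) (deriv (g n) 0) = 1 := by
    intro n
    have h3 := h1 n
    rw [hgdef]
    simpa only [mul_zero, add_zero] using h3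
  have hwy : ∀ n, ‖w n - y n‖ ≤ δ / 2 := by
    intro n
    have h3 : w n - y n = ((δ : ℂ) * z₀ n) • e n := by
      rw [hwdef]
      simp
    rw [h3, norm_smul, norm_mul, Complex.norm_real, Real.norm_of_nonneg hδ.le]
    calc δ * ‖z₀ n‖ * ‖e n‖ ≤ δ * (1 / 2) * 1 :=
          mul_le_mul (mul_le_mul_of_nonneg_left (hz₀n n) hδ.le) (he n) (norm_nonneg _) (by positivity)
      _ = δ / 2 := by ring
  have hwG : ∀ n, w n ∈ Gd D (δ / 2) := by
    intro n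
    have h3 := gd_near (hyG n) (hwy n)
    have h4 : δ - δ / 2 = δ / 2 := by ring
    rwa [h4] at h3
  have hwR : ∀ n, w n ∈ closedBall (0 : Vd (k + 1)) (R + δ / 2) := by
    intro n
    rw [mem_closedBall_zero_iff]
    have h3 : w n = y n + (w n - y n) := by abel
    rw [h3]
    exact (norm_add_le _ _).trans (add_le_add (hyR n) (hwy n))
  set 𝒰 : Ultrafilter ℕ := hyperfilter ℕ with h𝒰
  have hle : (𝒰 : Filter ℕ) ≤ atTop := Nat.hyperfilter_le_atTop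
  obtain ⟨w₀, -, hw₀⟩ := (isCompact_closedBall (0 : Vd (k + 1)) (R + δ / 2)).ultrafilter_le_nhds (𝒰.map w) (by
    rw [Filter.le_principal_iff, Ultrafilter.coe_map, Filter.mem_map]
    exact Filter.univ_mem' hwR)
  have hwt : Tendsto w 𝒰 (𝓝 w₀) := hw₀
  have hw₀G : w₀ ∈ Gd D (δ / 2) := (gd_closed D (δ / 2)).mem_of_tendsto hwt (Eventually.of_forall hwG)
  have hw₀D : w₀ ∉ D := gd_notMem (by positivity) hw₀G
  have hρ : Tendsto (fun n : ℕ => (n : ℝ) + 1) 𝒰 atTop :=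
    (tendsto_atTop_add_const_right _ _ tendsto_natCast_atTop_atTop).mono_left hle
  have hainv : Tendsto (fun n => (a n)⁻¹) 𝒰 (𝓝 0) := by
    have h3 : Tendsto a 𝒰 atTop := by
      refine tendsto_atTop_mono (fun n => ?_) hρ
      have := ha n
      have h4 : (0 : ℝ) ≤ n := Nat.cast_nonneg n
      linarith
    exact tendsto_inv_atTop_zero.comp h3
  obtain ⟨H, hH, hHX, hpr, hfs, -⟩ := Pool.Agent.H62.EF.limit_curves hX (L := 2) two_pos 𝒰 g (fun n : ℕ => (n : ℝ) + 1) hρ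
    (Eventually.of_forall fun n => ⟨hgd n, fun z hz => ⟨hgX n z hz, h2 n z hz⟩⟩)
  have hH0 : ∀ z, H z ≠ 0 := fun z => hX0 _ (hHX z)
  -- the limit is not constant
  have hone : fs (H 0) (deriv H 0) = 1 := by
    have h3 := hfs 0
    simp only [hg1] at h3
    exact tendsto_nhds_unique h3 tendsto_const_nhds |>.symm ▸ rfl
  -- the limit has bounded derivative
  have hbd : ∀ z, fs (H z) (deriv H z) ≤ 2 := by
    intro z
    refine le_of_tendsto (hfs z) ?_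
    filter_upwards [hρ.eventually_gt_atTop ‖z‖] with n hn
    exact h2 n z (by rw [mem_ball_zero_iff]; exact hn)
  -- the limit is in the fibre over `w₀`
  have hver : ∀ ζ, u (H ζ) - w₀ ∈ Λ := by
    intro ζ
    have hball : ∀ᶠ n : ℕ in (𝒰 : Filter ℕ), ζ ∈ ball (0 : ℂ) ((n : ℝ) + 1) := by
      filter_upwards [hρ.eventually_gt_atTop ‖ζ‖] with n hn
      rw [mem_ball_zero_iff]
      exact hn
    have h3 : Tendsto (fun n => w n + (((δ * (a n)⁻¹ : ℝ) : ℂ) * ζ) • e n) 𝒰 (𝓝 w₀) := by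
      have h4 : Tendsto (fun n => (((δ * (a n)⁻¹ : ℝ) : ℂ) * ζ) • e n) 𝒰 (𝓝 0) := by
        rw [tendsto_zero_iff_norm_tendsto_zero]
        have h5 : Tendsto (fun n => δ * (a n)⁻¹ * ‖ζ‖) 𝒰 (𝓝 0) := by
          have h6 := (hainv.const_mul δ).mul_const ‖ζ‖
          rwa [mul_zero, zero_mul] at h6
        refine squeeze_zero (fun n => norm_nonneg _) (fun n => ?_) h5
        have h7 : 0 ≤ δ * (a n)⁻¹ := mul_nonneg hδ.le (inv_nonneg.mpr (ha0 n).le)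
        rw [norm_smul, norm_mul, Complex.norm_real, Real.norm_of_nonneg h7]
        exact mul_le_of_le_one_right (mul_nonneg h7 (norm_nonneg _)) (he n)
      have h5 := hwt.add h4
      rwa [add_zero] at h5
    have h4 := fb_lim hX hΛ hu (hpr ζ) h3 (by
      filter_upwards [hball] with n hn
      exact mem_fb (hgX n ζ hn) (hgu n ζ hn))
    exact fb_lift hX hu h4.1 (hHX ζ) rfl
  have hc := G.fib w₀ hw₀D H hH hHX hver ⟨2, hbd⟩
  obtain ⟨b, hb⟩ := Pool.Agent.H36.BP.Brody_deriv_line (hH 0) (fun z => hc z 0)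
  have h3 : wd (H 0) (deriv H 0) = 0 := (Pool.Agent.H36.BP.wd_eq_zero (hH0 0)).mpr ⟨b, hb⟩
  unfold fs at hone
  rw [h3, zero_div] at hone
  exact zero_ne_one hone

/-- the bound at all points of the disc -/
theorem curve_bound_disc (G : Geo X Λ u D B) {δ : ℝ} (hδ : 0 < δ) : ∃ L : ℝ, 0 < L ∧ ∀ y e : Vd (k + 1), ‖e‖ ≤ 1 → ∀ r s : ℝ, s + δ ≤ r →
    (∀ z ∈ ball (0 : ℂ) s, y + z • e ∈ Gd D δ) →
    ∀ F : ℂ → EN N, DifferentiableOn ℂ F (ball 0 r) → (∀ z ∈ ball (0 : ℂ) r, F z ∈ X ∧ u (F z) - (y + z • e) ∈ Λ) →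
      ∀ z ∈ ball (0 : ℂ) s, ∀ w ∈ ball (0 : ℂ) s, dist (pr (F z)) (pr (F w)) ≤ L * ‖z - w‖ := by
  obtain ⟨L, hL, h⟩ := curve_bound G hδ
  refine ⟨2 * L, by positivity, fun y e he r s hrs hy F hF hFX => ?_⟩
  have hsr : s ≤ r := by linarith
  have hfs : ∀ z ∈ ball (0 : ℂ) s, fs (F z) (deriv F z) ≤ L := by
    intro z hz
    have hsub : ∀ ζ ∈ ball (0 : ℂ) δ, z + ζ ∈ ball (0 : ℂ) r := by
      intro ζ hζ
      rw [mem_ball_zero_iff] at hz hζ ⊢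
      have := norm_add_le z ζ
      linarith
    have h1 := h (y + z • e) (hy z hz) e he (fun ζ => F (z + ζ)) (hF.comp (differentiable_id.const_add z).differentiableOn hsub)
      (fun ζ hζ => by
        have h2 := hFX _ (hsub ζ hζ)
        refine ⟨h2.1, ?_⟩
        have h3 : y + z • e + ζ • e = y + (z + ζ) • e := by
          rw [add_smul]
          abel
        rw [h3]
        exact h2.2)
    have h2 : deriv (fun ζ => F (z + ζ)) 0 = deriv F z := by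
      rw [deriv_comp_const_add, add_zero]
    rw [h2] at h1
    simpa only [add_zero] using h1
  exact Pool.Agent.H62.EF.pr_lipschitz isOpen_ball (convex_ball 0 s) (hF.mono (ball_subset_ball hsr))
    (fun z hz => ne_zero G.cone (hFX z (ball_subset_ball hsr hz)).1) hfs

theorem sec_lip (G : Geo X Λ u D B) {δ : ℝ} (hδ : 0 < δ) : ∃ L : ℝ, 0 < L ∧ ∀ f ∈ Sec X Λ u D, ∀ y ∈ Gd D δ, ∀ w ∈ closedBall y (δ / 2),
    dist (f y) (f w) ≤ L * ‖y - w‖ := by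
  obtain ⟨L, hL, h⟩ := curve_bound_disc G (δ := δ / 8) (by positivity)
  refine ⟨L, hL, fun f hf y hy w hw => ?_⟩
  rw [mem_closedBall, dist_eq_norm] at hw
  by_cases hyw : w = y
  · rw [hyw, dist_self, sub_self, norm_zero, mul_zero]
  have hp : 0 < ‖w - y‖ := norm_pos_iff.mpr (sub_ne_zero.mpr hyw)
  set e : Vd (k + 1) := ((‖w - y‖⁻¹ : ℝ) : ℂ) • (w - y) with he
  have hen : ‖e‖ ≤ 1 := by
    rw [he, norm_smul, Complex.norm_real, norm_inv, norm_norm, inv_mul_cancel₀ hp.ne']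
  have hwe : y + ((‖w - y‖ : ℝ) : ℂ) • e = w := by
    rw [he, smul_smul, ← Complex.ofReal_mul, mul_inv_cancel₀ hp.ne', Complex.ofReal_one, one_smul]
    abel
  have hye : y + (0 : ℂ) • e = y := by simp
  have hgd : ∀ r : ℝ, ∀ z ∈ ball (0 : ℂ) r, y + z • e ∈ Gd D (δ - r) := by
    intro r z hz
    refine gd_near hy ?_
    rw [mem_ball_zero_iff] at hz
    rw [add_sub_cancel_left, norm_smul]
    calc ‖z‖ * ‖e‖ ≤ ‖z‖ * 1 := mul_le_mul_of_nonneg_left hen (norm_nonneg _)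
      _ ≤ r := by linarith
  have hnD : ∀ z ∈ ball (0 : ℂ) (7 * δ / 8), y + z • e ∉ D := fun z hz =>
    gd_notMem (show 0 < δ - 7 * δ / 8 by linarith) (hgd _ z hz)
  obtain ⟨F, hF, hFX, hFf⟩ := sec_line G.cone G.tor G.D_closed hf (y := y) (e := e) (R := 7 * δ / 8) (r := 3 * δ / 4) (fun z hz => by
    have h1 : ∀ᶠ v in 𝓝 z, v ∈ ball (0 : ℂ) (7 * δ / 8) := isOpen_ball.mem_nhds hz
    exact (h1.mono fun v hv => hnD v hv).filter_mono nhdsWithin_le_nhds) (by linarith)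
  have h1 := h y e hen (3 * δ / 4) (5 * δ / 8) (by linarith) (fun z hz => gd_mono (by linarith) (hgd _ z hz)) F hF hFX
    0 (mem_ball_self (by positivity)) ((‖w - y‖ : ℝ) : ℂ) (by
      rw [mem_ball_zero_iff, Complex.norm_real, norm_norm]
      linarith)
  rw [hFf 0 (mem_ball_self (by positivity)) (hnD 0 (mem_ball_self (by positivity))),
    hFf _ (by rw [mem_ball_zero_iff, Complex.norm_real, norm_norm]; linarith)
      (hnD _ (by rw [mem_ball_zero_iff, Complex.norm_real, norm_norm]; linarith)), hye, hwe, zero_sub, norm_neg, Complex.norm_real,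
    norm_norm] at h1
  rw [norm_sub_rev y w]
  exact h1

end Pool.Agent.TG
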