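import Pool.Agent.TG.Prm

/-!
# TG Un: the integral along short paths in the fibres

Port of `Pool/Agent/H62/EL/Un.lean` (`EL.IRel.eq_cap`, `EL.II_eq`; the coordinate along the fibres is now the coordinate `0`, those of the base are `tl p`).

`IRel.eq_cap`: let `χ', c', ρ', A', p, p'` be from `IRel`; `v = (A' p' - A' p) / ρ' ^ (k + 1)`.  On `p_θ = p + θ (p' - p)`, `θ ∈ [0, 1]`, `tl p_θ` is constant, `χ'.σ p_θ` is over `y` and within
`r` of `m₀`, so in `χ.U`, and with `τ = χ.q ∘ χ'.σ`: `ms c ρ (τ p_θ) = y`; near `p_θ` even `ms c ρ (τ q) = ms c' ρ' q` (both sides are analytic, equal at `p_θ`, and the difference is in the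
discrete group `Λ`).  So `ρ ∂_(j+1) τ_(i+1) = ρ' δ_ij`, `∂_0 τ_(i+1) = 0` at `p_θ`: `det Dτ = ∂_0 τ_0 * (ρ' / ρ) ^ (k + 1)` (expand along the column / row `0`: `Matrix.det_succ_column_zero` or
`Matrix.det_succ_row_zero`, and the minor is `(ρ' / ρ) • 1`), and by `tc_trans` (`υ = ms c ρ`, `υ' = ms c' ρ'`) `tc' (p_θ) / ρ' ^ (k + 1) = tc (τ p_θ) ∂_0 τ_0 / ρ ^ (k + 1)`.  Hence
`θ ↦ A' (p_θ) / ρ' ^ (k + 1)` and `θ ↦ A (τ p_θ) / ρ ^ (k + 1)` have the same derivative.  `τ p = χ.q x`: `χ'.σ p` and `x` are proportional (`pr_eq_iff`, `q_smul`).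
-/

set_option autoImplicit false

open Topology Filter Metric

namespace Pool.Agent.TG

open Pool.Agent.H36.BP (EN fs wd)
open Pool.Agent.H14.PP (IsCone CurveAt Tan)
open Pool.Agent.H62.EF (MN pr)
open Pool.Agent.AD (Vd Chart Charts IsGerm)

variable {N k : ℕ}


variable {X : Set (EN N)} {Λ : AddSubgroup (Vd (k + 1))} {u : EN N → Vd (k + 1)}

theorem IRel.mem {α : VForm X Λ u} {ε : ℝ} {y : Vd (k + 1)} {m m' : MN N} {v : ℂ} (h : IRel α ε y m m' v) :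
    m ∈ Fb X Λ u y ∧ m' ∈ Fb X Λ u y ∧ dist m' m ≤ ε := by
  obtain ⟨χ, c, ρ, A, p, p', hm, -, hp, hp', hpz, hpz', hpy, hpy', hseg, -⟩ := h
  refine ⟨⟨χ.σ p, (χ.σ_mem p hp).1, hpy, ?_⟩, ⟨χ.σ p', (χ.σ_mem p' hp').1, hpy', ?_⟩, ?_⟩
  · have h1 := hm.lift p hp
    rwa [hpz] at h1
  · have h1 := hm.lift p' hp'
    rwa [hpz'] at h1
  · have h1 := hseg 1 ⟨zero_le_one, le_rfl⟩
    have h2 : p + ((1 : ℝ) : ℂ) • (p' - p) = p' := by
      rw [Complex.ofReal_one, one_smul]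
      abel
    rwa [h2, hpy'] at h1

theorem IRel.mono {α : VForm X Λ u} {ε ε' : ℝ} (hε : ε ≤ ε') {y : Vd (k + 1)} {m m' : MN N} {v : ℂ} (h : IRel α ε y m m' v) :
    IRel α ε' y m m' v := by
  obtain ⟨χ, c, ρ, A, p, p', hm, hA, hp, hp', hpz, hpz', hpy, hpy', hseg, hv⟩ := h
  exact ⟨χ, c, ρ, A, p, p', hm, hA, hp, hp', hpz, hpz', hpy, hpy', fun θ hθ => (hseg θ hθ).trans hε, hv⟩

theorem Cap.mono {χ : Chart (k + 2) X} {c : Vd (k + 1)} {ρ : ℝ} {y₀ : Vd (k + 1)} {m₀ : MN N} {r r' : ℝ} (h : Cap Λ u χ c ρ y₀ m₀ r)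
    (hr : r' ≤ r) : Cap Λ u χ c ρ y₀ m₀ r' :=
  ⟨h.str, fun y hy x hx hxy hd => h.cap y (closedBall_subset_closedBall hr hy) x hx hxy (hd.trans hr)⟩

/-- The point of the segment. -/
private noncomputable def un_P (p p' : Vd (k + 2)) (t : ℂ) : Vd (k + 2) := p + t • (p' - p)

private theorem un_P_mem {p p' : Vd (k + 2)} (hp : p ∈ ball (0 : Vd (k + 2)) 2) (hp' : p' ∈ ball (0 : Vd (k + 2)) 2) {θ : ℝ} (hθ : θ ∈ Set.Icc (0 : ℝ) 1) :
    un_P p p' (θ : ℂ) ∈ ball (0 : Vd (k + 2)) 2 := by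
  have hc : Convex ℝ (ball (0 : Vd (k + 2)) 2) := convex_ball _ _
  have h1 := hc.add_smul_sub_mem hp hp' hθ
  have h2 : un_P p p' (θ : ℂ) = p + θ • (p' - p) := by
    unfold un_P
    congr 1
  rwa [h2]

/-- a vector with `tl d = 0` is a multiple of the first basis vector -/
theorem vert_eq {d : Vd (k + 2)} (hd : tl d = 0) : d = d 0 • (Pi.single 0 1 : Vd (k + 2)) := by
  funext i
  refine Fin.cases ?_ ?_ i
  · simp
  · intro j
    have h1 : d j.succ = 0 := congrFun hd j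
    simp [h1]

theorem lin_vert {E : Type} [NormedAddCommGroup E] [NormedSpace ℂ E] (L : Vd (k + 2) →L[ℂ] E) {d : Vd (k + 2)} (hd : tl d = 0) :
    L d = d 0 • L (Pi.single 0 1) := by
  conv_lhs => rw [vert_eq hd]
  rw [map_smul]

theorem tl_add (p q : Vd (k + 2)) : tl (p + q) = tl p + tl q := rfl
theorem tl_sub (p q : Vd (k + 2)) : tl (p - q) = tl p - tl q := rfl
theorem tl_smul (c : ℂ) (q : Vd (k + 2)) : tl (c • q) = c • tl q := rfl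

/-- `tl` as a linear map -/
noncomputable def tlL : Vd (k + 2) →L[ℂ] Vd (k + 1) := ContinuousLinearMap.pi fun i : Fin (k + 1) => ContinuousLinearMap.proj i.succ

theorem tlL_apply (p : Vd (k + 2)) : tlL p = tl p := rfl

/-- The change of charts along the segment. -/
theorem str_trans (hX : IsCone X) (hu : TMap X Λ u) (hΛ : Lat Λ) {χ χ' : Chart (k + 2) X} {c c' : Vd (k + 1)} {ρ ρ' : ℝ}
    (hm : Str Λ u χ c ρ) (hm' : Str Λ u χ' c' ρ') {q : Vd (k + 2)} (hq : q ∈ ball (0 : Vd (k + 2)) 2) (hU : χ'.σ q ∈ χ.U)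
    (he : ms c ρ (χ.q (χ'.σ q)) = ms c' ρ' q) : ∀ᶠ y in 𝓝 q, ms c ρ (χ.q (χ'.σ y)) = ms c' ρ' y := by
  obtain ⟨δ, hδ, hdisc⟩ := hΛ.disc
  have hσ : ContinuousAt χ'.σ q := (χ'.σ_an q hq).continuousAt
  have hτ : ContinuousAt (fun y => χ.q (χ'.σ y)) q := (χ.q_an _ hU).continuousAt.comp hσ
  have hτ1 : ContinuousAt (fun y => ms c ρ (χ.q (χ'.σ y))) q :=
    ContinuousAt.comp (g := ms c ρ) (f := fun y => χ.q (χ'.σ y)) (ms_an c ρ _).continuousAt hτ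
  have hcont : ContinuousAt (fun y : Vd (k + 2) => ms c ρ (χ.q (χ'.σ y)) - ms c' ρ' y) q := hτ1.sub (ms_an c' ρ' q).continuousAt
  have hsmall : ∀ᶠ y in 𝓝 q, ‖ms c ρ (χ.q (χ'.σ y)) - ms c' ρ' y‖ < δ := by
    have h1 := hcont.norm
    have h2 : ‖ms c ρ (χ.q (χ'.σ q)) - ms c' ρ' q‖ < δ := by
      rw [he, sub_self, norm_zero]
      exact hδ
    exact h1.eventually_lt_const h2
  filter_upwards [hsmall, isOpen_ball.mem_nhds hq, hσ (χ.isOpen_U.mem_nhds hU)] with y h1 h2 h3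
  have hyX := (χ'.σ_mem y h2).1
  obtain ⟨hb, a, ha, hay⟩ := χ.surj _ hyX h3
  have h4 := hm'.lift y h2
  have h5 := hm.lift _ hb
  have h6 : u (χ'.σ y) - u (χ.σ (χ.q (χ'.σ y))) ∈ Λ := by
    have := hu.smul _ (χ.σ_mem _ hb).1 a ha
    rwa [← hay] at this
  have h7 : ms c ρ (χ.q (χ'.σ y)) - ms c' ρ' y ∈ Λ := by
    have h8 := Λ.sub_mem (Λ.sub_mem h4 h6) h5
    convert h8 using 1
    abel
  exact sub_eq_zero.mp (hdisc _ h7 h1)

/-- the derivative of the change of straight charts -/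
theorem str_deriv (hX : IsCone X) (hu : TMap X Λ u) (hΛ : Lat Λ) {χ χ' : Chart (k + 2) X} {c c' : Vd (k + 1)} {ρ ρ' : ℝ}
    (hm : Str Λ u χ c ρ) (hm' : Str Λ u χ' c' ρ') {q : Vd (k + 2)} (hq : q ∈ ball (0 : Vd (k + 2)) 2) (hU : χ'.σ q ∈ χ.U)
    (he : ms c ρ (χ.q (χ'.σ q)) = ms c' ρ' q) (w : Vd (k + 2)) :
    (ρ : ℂ) • tl (fderiv ℂ (fun y => χ.q (χ'.σ y)) q w) = (ρ' : ℂ) • tl w := by
  have hτ : HasFDerivAt (fun y => χ.q (χ'.σ y)) (fderiv ℂ (fun y => χ.q (χ'.σ y)) q) q :=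
    ((χ.q_an _ hU).differentiableAt.comp q (χ'.σ_an q hq).differentiableAt).hasFDerivAt
  have h1 := str_trans hX hu hΛ hm hm' hq hU he
  have h2 : HasFDerivAt (fun y : Vd (k + 2) => ms c ρ (χ.q (χ'.σ y)))
      ((ρ : ℂ) • (tlL.comp (fderiv ℂ (fun y => χ.q (χ'.σ y)) q))) q := by
    have h3 : HasFDerivAt (fun y => tlL (χ.q (χ'.σ y))) (tlL.comp (fderiv ℂ (fun y => χ.q (χ'.σ y)) q)) q :=
      tlL.hasFDerivAt.comp q hτ
    exact (h3.const_smul (ρ : ℂ)).const_add c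
  have h4 : HasFDerivAt (ms c' ρ') ((ρ' : ℂ) • (tlL : Vd (k + 2) →L[ℂ] Vd (k + 1))) q := by
    have h3 : HasFDerivAt (fun y : Vd (k + 2) => tlL y) tlL q := tlL.hasFDerivAt
    exact (h3.const_smul (ρ' : ℂ)).const_add c'
  have h5 : HasFDerivAt (fun y : Vd (k + 2) => ms c ρ (χ.q (χ'.σ y))) ((ρ' : ℂ) • (tlL : Vd (k + 2) →L[ℂ] Vd (k + 1))) q :=
    h4.congr_of_eventuallyEq h1
  have h6 := h2.unique h5
  exact congrArg (fun L : Vd (k + 2) →L[ℂ] Vd (k + 1) => L w) h6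

/-- the Jacobian determinant of the change of straight charts -/
theorem str_jc (hX : IsCone X) (hu : TMap X Λ u) (hΛ : Lat Λ) {χ χ' : Chart (k + 2) X} {c c' : Vd (k + 1)} {ρ ρ' : ℝ}
    (hm : Str Λ u χ c ρ) (hm' : Str Λ u χ' c' ρ') {q : Vd (k + 2)} (hq : q ∈ ball (0 : Vd (k + 2)) 2) (hU : χ'.σ q ∈ χ.U)
    (he : ms c ρ (χ.q (χ'.σ q)) = ms c' ρ' q) :
    (fderiv ℂ (fun y => χ.q (χ'.σ y)) q).det = fderiv ℂ (fun y => χ.q (χ'.σ y)) q (Pi.single 0 1) 0 * ((ρ' : ℂ) / ρ) ^ (k + 1) := by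
  have hρ : (ρ : ℂ) ≠ 0 := by exact_mod_cast hm.pos.ne'
  have hd := str_deriv hX hu hΛ hm hm' hq hU he
  set L := fderiv ℂ (fun y => χ.q (χ'.σ y)) q with hL
  have h0 : ∀ i j : Fin (k + 1), L (Pi.single i.succ 1) j.succ = if i = j then (ρ' : ℂ) / ρ else 0 := by
    intro i j
    have h1 := congrFun (hd (Pi.single i.succ 1)) j
    have h2 : (ρ : ℂ) * L (Pi.single i.succ 1) j.succ = ρ' * (Pi.single i.succ (1 : ℂ) : Vd (k + 2)) j.succ := h1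
    rw [Pi.single_apply] at h2
    simp only [Fin.succ_inj] at h2
    by_cases hij : i = j
    · rw [if_pos hij] at *
      rw [if_pos hij.symm, mul_one] at h2
      rw [eq_div_iff hρ, mul_comm]
      exact h2
    · rw [if_neg hij]
      rw [if_neg (Ne.symm hij), mul_zero] at h2
      exact (mul_eq_zero.mp h2).resolve_left hρ
  have h00 : ∀ j : Fin (k + 1), L (Pi.single 0 1) j.succ = 0 := by
    intro j
    have h1 := congrFun (hd (Pi.single 0 1)) j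
    have h2 : (ρ : ℂ) * L (Pi.single 0 1) j.succ = ρ' * (Pi.single 0 (1 : ℂ) : Vd (k + 2)) j.succ := h1
    rw [Pi.single_apply, if_neg (Fin.succ_ne_zero j), mul_zero] at h2
    exact (mul_eq_zero.mp h2).resolve_left hρ
  rw [ContinuousLinearMap.det, ← LinearMap.det_toMatrix', ← Matrix.det_transpose]
  have hM : Matrix.transpose (LinearMap.toMatrix' (L : Vd (k + 2) →ₗ[ℂ] Vd (k + 2))) = Matrix.of fun i j : Fin (k + 2) => L (Pi.single i 1) j := rfl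
  rw [hM, Matrix.det_succ_row_zero, Fin.sum_univ_succ]
  have h1 : ∀ j : Fin (k + 1), (Matrix.of fun i j : Fin (k + 2) => L (Pi.single i 1) j) 0 j.succ = 0 := fun j => h00 j
  have h2 : (Matrix.of fun i j : Fin (k + 2) => L (Pi.single i 1) j).submatrix Fin.succ (Fin.succAbove 0) = ((ρ' : ℂ) / ρ) • (1 : Matrix (Fin (k + 1)) (Fin (k + 1)) ℂ) := by
    ext i j
    rw [Matrix.submatrix_apply, Matrix.smul_apply, Matrix.one_apply, Fin.succAbove_zero, Matrix.of_apply, h0, smul_eq_mul]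
    split_ifs <;> simp
  rw [h2, Finset.sum_eq_zero fun j _ => by rw [h1 j, mul_zero, zero_mul], add_zero, Matrix.det_smul, Matrix.det_one, Fintype.card_fin, mul_one,
    Fin.val_zero, pow_zero, one_mul]
  rfl

/-- The derivatives of the two primitives agree. -/
theorem prim_deriv (hX : IsCone X) (hu : TMap X Λ u) (hΛ : Lat Λ) (α : VForm X Λ u) {χ χ' : Chart (k + 2) X} {c c' : Vd (k + 1)} {ρ ρ' : ℝ}
    (hm : Str Λ u χ c ρ) (hm' : Str Λ u χ' c' ρ') {A A' : Vd (k + 2) → ℂ} (hA : IsPrim α χ (ms c ρ) A)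
    (hA' : IsPrim α χ' (ms c' ρ') A') {q : Vd (k + 2)} (hq : q ∈ ball (0 : Vd (k + 2)) 2) (hU : χ'.σ q ∈ χ.U)
    (he : ms c ρ (χ.q (χ'.σ q)) = ms c' ρ' q) {d : Vd (k + 2)} (hd : tl d = 0) :
    HasFDerivAt (fun y => A (χ.q (χ'.σ y))) (fderiv ℂ (fun y => A (χ.q (χ'.σ y))) q) q ∧
      fderiv ℂ A' q d / (ρ' : ℂ) ^ (k + 1) = fderiv ℂ (fun y => A (χ.q (χ'.σ y))) q d / (ρ : ℂ) ^ (k + 1) := by
  have hρ : (ρ : ℂ) ≠ 0 := by exact_mod_cast hm.pos.ne'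
  have hρ' : (ρ' : ℂ) ≠ 0 := by exact_mod_cast hm'.pos.ne'
  have hb : χ.q (χ'.σ q) ∈ ball (0 : Vd (k + 2)) 2 := (χ.surj _ (χ'.σ_mem q hq).1 hU).1
  have hτ : HasFDerivAt (fun y => χ.q (χ'.σ y)) (fderiv ℂ (fun y => χ.q (χ'.σ y)) q) q :=
    ((χ.q_an _ hU).differentiableAt.comp q (χ'.σ_an q hq).differentiableAt).hasFDerivAt
  have hAd : HasFDerivAt A (fderiv ℂ A (χ.q (χ'.σ q))) (χ.q (χ'.σ q)) := (hA.an _ hb).differentiableAt.hasFDerivAt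
  have hcomp : HasFDerivAt (fun y => A (χ.q (χ'.σ y))) ((fderiv ℂ A (χ.q (χ'.σ q))).comp (fderiv ℂ (fun y => χ.q (χ'.σ y)) q)) q :=
    hAd.comp q hτ
  have hdd := str_deriv hX hu hΛ hm hm' hq hU he
  have hj := str_jc hX hu hΛ hm hm' hq hU he
  have htc := tc_trans hX hu α χ χ' (υ := ms c ρ) (υ' := ms c' ρ') hq hU (hm'.lift q hq) he
  rw [hj] at htc
  set L := fderiv ℂ (fun y => χ.q (χ'.σ y)) q with hL
  have hLv : ∀ w : Vd (k + 2), tl w = 0 → tl (L w) = 0 := by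
    intro w hw
    have h1 := hdd w
    rw [hw, smul_zero] at h1
    exact (smul_eq_zero.mp h1).resolve_left hρ
  refine ⟨by rw [hcomp.fderiv]; exact hcomp, ?_⟩
  have h1 : L d 0 = d 0 * L (Pi.single 0 1) 0 := by
    rw [lin_vert L hd]
    rfl
  rw [hcomp.fderiv, ContinuousLinearMap.comp_apply, lin_vert _ (hLv d hd), hA.der _ hb, h1, lin_vert _ hd, hA'.der _ hq, htc, smul_eq_mul, smul_eq_mul, div_pow]
  field_simp

theorem IRel.eq_cap (hX : IsCone X) (hu : TMap X Λ u) (hΛ : Lat Λ) {α : VForm X Λ u} {ε : ℝ} {y : Vd (k + 1)} {v : ℂ} {m m' : MN N}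
    (h : IRel α ε y m m' v) {χ : Chart (k + 2) X} {c : Vd (k + 1)} {ρ : ℝ} {y₀ : Vd (k + 1)} {m₀ : MN N} {r : ℝ} (hc : Cap Λ u χ c ρ y₀ m₀ r)
    {A : Vd (k + 2) → ℂ} (hA : IsPrim α χ (ms c ρ) A) (hy : y ∈ closedBall y₀ r) (hm : dist m m₀ + ε ≤ r) {x x' : EN N}
    (hx : x ∈ X) (hx' : x' ∈ X) (hxm : pr x = m) (hxm' : pr x' = m') : v = (A (χ.q x') - A (χ.q x)) / (ρ : ℂ) ^ (k + 1) := by
  obtain ⟨χ', c', ρ', A', p, p', hm', hA', hp, hp', hpz, hpz', hpy, hpy', hseg, hv⟩ := h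
  have hst := hc.str
  have hρ : (ρ : ℂ) ≠ 0 := by exact_mod_cast hst.pos.ne'
  have hρ' : (ρ' : ℂ) ≠ 0 := by exact_mod_cast hm'.pos.ne'
  have hd : tl (p' - p) = 0 := by
    have h1 : c' + (ρ' : ℂ) • tl p' = c' + (ρ' : ℂ) • tl p := hpz'.trans hpz.symm
    have h2 := smul_right_injective _ hρ' (add_left_cancel h1)
    rw [tl_sub]
    exact sub_eq_zero.2 h2
  have hP1 : ∀ t : ℂ, tl (un_P p p' t) = tl p := by
    intro t
    have h1 : tl (un_P p p' t) = tl p + t • tl (p' - p) := rfl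
    rw [h1, hd, smul_zero, add_zero]
  have hms : ∀ t : ℂ, ms c' ρ' (un_P p p' t) = y := by
    intro t
    show c' + (ρ' : ℂ) • tl (un_P p p' t) = y
    rw [hP1]
    exact hpz
  have hcap : ∀ θ ∈ Set.Icc (0 : ℝ) 1, χ'.σ (un_P p p' (θ : ℂ)) ∈ χ.U ∧
      ms c ρ (χ.q (χ'.σ (un_P p p' (θ : ℂ)))) = ms c' ρ' (un_P p p' (θ : ℂ)) := by
    intro θ hθ
    have hb := un_P_mem hp hp' hθ
    have h1 : u (χ'.σ (un_P p p' (θ : ℂ))) - y ∈ Λ := by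
      have h2 := hm'.lift _ hb
      rwa [hms] at h2
    have h2 : dist (pr (χ'.σ (un_P p p' (θ : ℂ)))) m₀ ≤ r := by
      have h3 : dist (pr (χ'.σ (un_P p p' (θ : ℂ)))) m ≤ ε := hseg θ hθ
      linarith [dist_triangle (pr (χ'.σ (un_P p p' (θ : ℂ)))) m m₀]
    obtain ⟨h3, _, h4⟩ := hc.cap y hy _ (χ'.σ_mem _ hb).1 h1 h2
    exact ⟨h3, by rw [h4, hms]⟩
  set f : ℝ → ℂ := fun θ => A' (un_P p p' (θ : ℂ)) / (ρ' : ℂ) ^ (k + 1) - A (χ.q (χ'.σ (un_P p p' (θ : ℂ)))) / (ρ : ℂ) ^ (k + 1) with hf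
  have hder : ∀ θ ∈ Set.Icc (0 : ℝ) 1, HasDerivAt f 0 θ := by
    intro θ hθ
    have hb := un_P_mem hp hp' hθ
    obtain ⟨h1, h2⟩ := prim_deriv hX hu hΛ α hst hm' hA hA' hb (hcap θ hθ).1 (hcap θ hθ).2 hd
    have hPd : HasDerivAt (fun t : ℂ => un_P p p' t) (p' - p) (θ : ℂ) := by
      have h3 := ((hasDerivAt_id (θ : ℂ)).smul_const (p' - p)).const_add p
      rw [one_smul] at h3
      exact h3
    have h4 : HasDerivAt (fun t : ℂ => A' (un_P p p' t)) (fderiv ℂ A' (un_P p p' (θ : ℂ)) (p' - p)) (θ : ℂ) :=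
      (hA'.an _ hb).differentiableAt.hasFDerivAt.comp_hasDerivAt (θ : ℂ) hPd
    have h5 : HasDerivAt (fun t : ℂ => A (χ.q (χ'.σ (un_P p p' t))))
        (fderiv ℂ (fun y => A (χ.q (χ'.σ y))) (un_P p p' (θ : ℂ)) (p' - p)) (θ : ℂ) :=
      h1.comp_hasDerivAt (θ : ℂ) hPd
    have h6 := ((h4.div_const ((ρ' : ℂ) ^ (k + 1))).sub (h5.div_const ((ρ : ℂ) ^ (k + 1)))).comp_ofReal
    rw [h2, sub_self] at h6
    exact h6
  have hconst := constant_of_has_deriv_right_zero (f := f) (a := 0) (b := 1)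
    (fun θ hθ => (hder θ hθ).continuousAt.continuousWithinAt)
    (fun θ hθ => (hder θ ⟨hθ.1, hθ.2.le⟩).hasDerivWithinAt) 1 ⟨zero_le_one, le_rfl⟩
  have hP0 : un_P p p' ((0 : ℝ) : ℂ) = p := by
    unfold un_P
    simp
  have hP1' : un_P p p' ((1 : ℝ) : ℂ) = p' := by
    unfold un_P
    simp
  have hX0 : ∀ w ∈ X, w ≠ 0 := fun w hw h => hX.zero_notMem (h ▸ hw)
  have hq : χ.q x = χ.q (χ'.σ p) := by
    have hU := (hcap 0 ⟨le_rfl, zero_le_one⟩).1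
    rw [hP0] at hU
    obtain ⟨a, ha, hax⟩ := (Pool.Agent.H62.EF.pr_eq_iff (hX0 x hx) (hX0 _ (χ'.σ_mem p hp).1)).mp (hxm.trans hpy.symm)
    rw [hax]
    exact χ.q_smul _ hU a ha
  have hq' : χ.q x' = χ.q (χ'.σ p') := by
    have hU := (hcap 1 ⟨zero_le_one, le_rfl⟩).1
    rw [hP1'] at hU
    obtain ⟨a, ha, hax⟩ := (Pool.Agent.H62.EF.pr_eq_iff (hX0 x' hx') (hX0 _ (χ'.σ_mem p' hp').1)).mp (hxm'.trans hpy'.symm)
    rw [hax]
    exact χ.q_smul _ hU a ha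
  simp only [hf] at hconst
  rw [hP0, hP1'] at hconst
  rw [hv, hq, hq']
  rw [sub_div, sub_div]
  linear_combination hconst

theorem II_eq (hX : IsCone X) (hu : TMap X Λ u) (hΛ : Lat Λ) {α : VForm X Λ u} {ε : ℝ} {y : Vd (k + 1)} {m m' : MN N}
    (h : ∃ v, IRel α ε y m m' v) {χ : Chart (k + 2) X} {c : Vd (k + 1)} {ρ : ℝ} {y₀ : Vd (k + 1)} {m₀ : MN N} {r : ℝ} (hc : Cap Λ u χ c ρ y₀ m₀ r)
    {A : Vd (k + 2) → ℂ} (hA : IsPrim α χ (ms c ρ) A) (hy : y ∈ closedBall y₀ r) (hm : dist m m₀ + ε ≤ r) {x x' : EN N}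
    (hx : x ∈ X) (hx' : x' ∈ X) (hxm : pr x = m) (hxm' : pr x' = m') : II α ε y m m' = (A (χ.q x') - A (χ.q x)) / (ρ : ℂ) ^ (k + 1) := by
  have h1 : II α ε y m m' = h.choose := by
    unfold II
    rw [dif_pos h]
  rw [h1]
  exact IRel.eq_cap hX hu hΛ h.choose_spec hc hA hy hm hx hx' hxm hxm'

/-- the value is unique, and does not depend on the size `ε` of the paths -/
theorem II_of_rel (hX : IsCone X) (hu : TMap X Λ u) (hΛ : Lat Λ) {α : VForm X Λ u} {ε ε' : ℝ} (hε : ε ≤ ε') {y : Vd (k + 1)} {m m' : MN N} {v : ℂ}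
    (h : IRel α ε y m m' v) {χ : Chart (k + 2) X} {c : Vd (k + 1)} {ρ : ℝ} {r : ℝ} (hc : Cap Λ u χ c ρ y m r) (hr : ε' ≤ r) :
    II α ε' y m m' = v := by
  obtain ⟨A, hA⟩ := exists_prim α χ hc.str
  obtain ⟨⟨x, hx, hxm, -⟩, ⟨x', hx', hxm', -⟩, hd⟩ := h.mem
  have hε0 : 0 ≤ ε := dist_nonneg.trans hd
  have hr0 : 0 ≤ r := hε0.trans (hε.trans hr)
  have h1 := IRel.eq_cap hX hu hΛ (h.mono hε) hc hA (mem_closedBall_self hr0) (by rw [dist_self, zero_add]; exact hr) hx hx' hxm hxm'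
  rw [h1]
  exact II_eq hX hu hΛ ⟨v, h.mono hε⟩ hc hA (mem_closedBall_self hr0) (by rw [dist_self, zero_add]; exact hr) hx hx' hxm hxm'

end Pool.Agent.TG
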