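import Pool.Agent.TG.Prm

/-!
# TG IsoA: a zero set near a graph

`exists_isolated`: let `G (t, s)` be analytic at `(0, s₀)`, not `0` near it.  On a polydisc `|t| < 2 r`, `‖s - s₀‖ < 2 r` `G` is analytic and bounded by `M`.  Let `a_j s` be the Taylor coefficients of `t ↦ G (t, s)` at `t = 0`, `‖s - s₀‖ < r`
(analytic in `s`; e.g. `a_j s = (2πi)⁻¹ ∮ G (t, s) t^(-j-1) dt` over `|t| = r`, `|a_j| ≤ M r^(-j)`).  If `a_j = 0` near `s₀` for all `j`, then by the identity theorem (`a_j` is analytic on the ball, which is connected) all `a_j` vanish on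
`ball s₀ r`, so `G = 0` near `(0, s₀)`: contradiction.  So there is a minimal `j` such that `a_j` is not `0` near `s₀`; then `a_i = 0` on `ball s₀ r` for `i < j`, and there is `s₁ ∈ W` with `a_j s₁ ≠ 0`.  For `s` near `s₁` and `|t| < r / 2`
`‖G (t, s) - a_j s t^j‖ ≤ Σ_{i > j} M r^(-i) |t|^i ≤ C |t|^(j+1)`, so `G (t, s) ≠ 0` if `t ≠ 0` is small, uniformly for `s` near `s₁` (`‖a_j s‖ ≥ ‖a_j s₁‖ / 2`).
(Another way: divide `G` by `t` as long as `G (0, s) = 0` near `s₀`: `G = t ^ j * H` with `H` analytic and `H (0, ·)` not `0` near `s₀`.)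
-/

set_option autoImplicit false

open Topology Filter Metric

namespace Pool.Agent.TG

open Pool.Agent.H36.BP (EN fs wd)
open Pool.Agent.H14.PP (IsCone CurveAt Tan)
open Pool.Agent.H62.EF (MN pr)
open Pool.Agent.AD (Vd Chart Charts IsGerm)

variable {N k : ℕ}


/-- division by the coordinate `0` -/
theorem exists_div_zero {m : ℕ} {R : ℝ} {K : Vd (m + 1) → ℂ} (hK : ∀ p ∈ ball (0 : Vd (m + 1)) R, AnalyticAt ℂ K p)
    (h0 : ∀ p ∈ ball (0 : Vd (m + 1)) R, p 0 = 0 → K p = 0) :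
    ∃ H : Vd (m + 1) → ℂ, (∀ p ∈ ball (0 : Vd (m + 1)) R, AnalyticAt ℂ H p) ∧ ∀ p ∈ ball (0 : Vd (m + 1)) R, K p = p 0 * H p := by
  have ha : ∀ p ∈ ball (0 : Vd (m + 1)) R, AnalyticAt ℂ (fun p => fderiv ℂ K p (Pi.single 0 1)) p := by
    intro p hp
    exact ((ContinuousLinearMap.apply ℂ ℂ (Pi.single 0 1 : Vd (m + 1))).analyticAt _).comp (hK p hp).fderiv
  refine ⟨fun p => ∫ θ in (0 : ℝ)..1, fderiv ℂ K (pP θ p) (Pi.single 0 1), fun p hp => prm_I ha hp, fun p hp => ?_⟩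
  have hpR : ‖p‖ < R := by simpa using hp
  have hin : ∀ θ ∈ Set.uIcc (0 : ℝ) 1, pP θ p ∈ ball (0 : Vd (m + 1)) R := by
    intro θ hθ
    rw [Set.uIcc_of_le zero_le_one] at hθ
    rw [mem_ball_zero_iff]
    exact (pP_norm hθ.1 hθ.2 p).trans_lt hpR
  -- the derivative in `θ`
  have hline : ∀ θ : ℂ, HasDerivAt (fun t : ℂ => (Fin.cons (α := fun _ => ℂ) (t * p 0) fun i : Fin m => p i.succ : Vd (m + 1)))
      (p 0 • (Pi.single 0 1 : Vd (m + 1))) θ := by
    intro θ
    rw [hasDerivAt_pi]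
    intro i
    refine Fin.cases ?_ ?_ i
    · have h1 := (hasDerivAt_id θ).mul_const (p 0)
      rw [one_mul] at h1
      simpa using h1
    · intro j
      have h1 := hasDerivAt_const θ (p j.succ)
      simpa using h1
  have hder : ∀ θ ∈ Set.uIcc (0 : ℝ) 1, HasDerivAt (fun θ : ℝ => K (pP θ p)) (p 0 * fderiv ℂ K (pP θ p) (Pi.single 0 1)) θ := by
    intro θ hθ
    have h1 : HasFDerivAt K (fderiv ℂ K (pP θ p)) (pP θ p) := (hK _ (hin θ hθ)).differentiableAt.hasFDerivAt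
    have h2 := (h1.comp_hasDerivAt (θ : ℂ) (hline θ)).comp_ofReal
    rw [map_smul, smul_eq_mul] at h2
    exact h2
  have h3 := intervalIntegral.integral_eq_sub_of_hasDerivAt hder (by
    refine ContinuousOn.intervalIntegrable ?_
    refine continuousOn_const.mul ?_
    intro θ hθ
    have h4 : ContinuousAt (fun p => fderiv ℂ K p (Pi.single 0 1)) (pP θ p) := (ha _ (hin θ hθ)).continuousAt
    exact (ContinuousAt.comp (f := fun θ : ℝ => pP θ p) h4 (pP_cont _).continuousAt).continuousWithinAt)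
  rw [intervalIntegral.integral_const_mul] at h3
  have h5 : pP 1 p = p := by
    funext i
    refine Fin.cases ?_ ?_ i
    · rw [pP_zero]
      simp
    · intro j
      rfl
  have h6 : K (pP 0 p) = 0 := by
    refine h0 _ (hin 0 Set.left_mem_uIcc) ?_
    rw [pP_zero]
    simp
  rw [h5, h6, sub_zero] at h3
  exact h3.symm

/-- the case `s₀ = 0` -/
private theorem iso_zero {m : ℕ} {R : ℝ} (hR : 0 < R) {G : Vd (m + 1) → ℂ} (hG : ∀ p ∈ ball (0 : Vd (m + 1)) R, AnalyticAt ℂ G p)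
    {p₁ : Vd (m + 1)} (hp₁ : p₁ ∈ ball (0 : Vd (m + 1)) R) (hne : G p₁ ≠ 0) :
    ∃ s₁ ∈ ball (0 : Vd m) R, ∃ d : ℝ, 0 < d ∧ ∀ p : Vd (m + 1), ‖p 0‖ < d → ‖(fun i => p i.succ) - s₁‖ < d → G p = 0 → p 0 = 0 := by
  by_contra hcon
  push Not at hcon
  have hcons : ∀ s ∈ ball (0 : Vd m) R, (Fin.cons (α := fun _ => ℂ) 0 s : Vd (m + 1)) ∈ ball (0 : Vd (m + 1)) R := by
    intro s hs
    rw [mem_ball_zero_iff] at hs ⊢
    rw [pi_norm_lt_iff hR]
    intro i
    refine Fin.cases ?_ ?_ i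
    · simpa using hR
    · intro j
      exact (norm_le_pi_norm s j).trans_lt hs
  -- divisibility by all powers
  have hdiv : ∀ j : ℕ, ∃ H : Vd (m + 1) → ℂ, (∀ p ∈ ball (0 : Vd (m + 1)) R, AnalyticAt ℂ H p) ∧
      ∀ p ∈ ball (0 : Vd (m + 1)) R, G p = p 0 ^ j * H p := by
    intro j
    induction j with
    | zero => exact ⟨G, hG, fun p _ => by rw [pow_zero, one_mul]⟩
    | succ j ih =>
      obtain ⟨H, hH, hGH⟩ := ih
      have h0 : ∀ p ∈ ball (0 : Vd (m + 1)) R, p 0 = 0 → H p = 0 := by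
        intro p hp hp0
        by_contra hne0
        -- then the conclusion holds at the tail of `p`
        have hpR : ‖p‖ < R := by simpa using hp
        have h1 : ∀ᶠ q in 𝓝 p, H q ≠ 0 ∧ q ∈ ball (0 : Vd (m + 1)) R :=
          ((hH p hp).continuousAt.eventually_ne hne0).and (isOpen_ball.mem_nhds hp)
        obtain ⟨d, hd, hb⟩ := Metric.eventually_nhds_iff_ball.1 h1
        have hs : (fun i : Fin m => p i.succ) ∈ ball (0 : Vd m) R := by
          rw [mem_ball_zero_iff, pi_norm_lt_iff hR]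
          intro i
          exact (norm_le_pi_norm p i.succ).trans_lt hpR
        obtain ⟨q, hq0, hqs, hGq, hq⟩ := hcon _ hs d hd
        have hqb : q ∈ ball p d := by
          rw [mem_ball, dist_eq_norm, pi_norm_lt_iff hd]
          intro i
          refine Fin.cases ?_ ?_ i
          · rw [Pi.sub_apply, hp0, sub_zero]
            exact hq0
          · intro l
            exact (norm_le_pi_norm ((fun i : Fin m => q i.succ) - fun i : Fin m => p i.succ) l).trans_lt hqs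
        obtain ⟨h2, h3⟩ := hb q hqb
        rw [hGH q h3] at hGq
        rcases mul_eq_zero.1 hGq with h4 | h4
        · exact hq (eq_zero_of_pow_eq_zero h4)
        · exact h2 h4
      obtain ⟨H', hH', hHH⟩ := exists_div_zero hH h0
      refine ⟨H', hH', fun p hp => ?_⟩
      rw [hGH p hp, hHH p hp]
      ring
  -- the function on the line through `p₁`
  set L : ℂ → Vd (m + 1) := fun t => Fin.cons (α := fun _ => ℂ) t fun i : Fin m => p₁ i.succ with hL
  have hp₁R : ‖p₁‖ < R := by simpa using hp₁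
  have hLb : ∀ t ∈ ball (0 : ℂ) R, L t ∈ ball (0 : Vd (m + 1)) R := by
    intro t ht
    rw [mem_ball_zero_iff, pi_norm_lt_iff hR]
    intro i
    refine Fin.cases ?_ ?_ i
    · show ‖t‖ < R
      simpa using ht
    · intro j
      exact (norm_le_pi_norm p₁ j.succ).trans_lt hp₁R
  have hLa : ∀ t, AnalyticAt ℂ L t := by
    intro t
    rw [analyticAt_pi_iff]
    intro i
    refine Fin.cases ?_ ?_ i
    · exact analyticAt_id
    · intro j
      exact analyticAt_const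
  have hga : ∀ t ∈ ball (0 : ℂ) R, AnalyticAt ℂ (fun t => G (L t)) t := fun t ht => AnalyticAt.fun_comp (hG _ (hLb t ht)) (hLa t)
  have h0b : (0 : ℂ) ∈ ball (0 : ℂ) R := mem_ball_self hR
  have htop : analyticOrderAt (fun t => G (L t)) 0 = ⊤ := by
    rw [ENat.eq_top_iff_forall_ge]
    intro j
    obtain ⟨H, hH, hGH⟩ := hdiv j
    rw [natCast_le_analyticOrderAt (hga 0 h0b)]
    refine ⟨fun t => H (L t), AnalyticAt.fun_comp (hH _ (hLb 0 h0b)) (hLa 0), ?_⟩
    filter_upwards [isOpen_ball.mem_nhds h0b] with t ht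
    rw [hGH _ (hLb t ht), sub_zero, smul_eq_mul]
    rfl
  rw [analyticOrderAt_eq_top] at htop
  have h1 : AnalyticOnNhd ℂ (fun t => G (L t)) (ball 0 R) := hga
  have ht₁ : p₁ 0 ∈ ball (0 : ℂ) R := by
    rw [mem_ball_zero_iff]
    exact (norm_le_pi_norm p₁ 0).trans_lt hp₁R
  have h2 := h1.eqOn_zero_of_preconnected_of_eventuallyEq_zero (convex_ball 0 R).isPreconnected h0b htop ht₁
  have h3 : L (p₁ 0) = p₁ := by
    funext i
    refine Fin.cases ?_ ?_ i
    · rfl
    · intro j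
      rfl
  simp only [h3] at h2
  exact hne h2

theorem exists_isolated {m : ℕ} {G : Vd (m + 1) → ℂ} {s₀ : Vd m} (hG : AnalyticAt ℂ G (Fin.cons 0 s₀ : Vd (m + 1)))
    (hne : ¬ ∀ᶠ p in 𝓝 (Fin.cons 0 s₀ : Vd (m + 1)), G p = 0) {W : Set (Vd m)} (hW : W ∈ 𝓝 s₀) :
    ∃ s₁ ∈ W, ∃ d : ℝ, 0 < d ∧ ∀ p : Vd (m + 1), ‖p 0‖ < d → ‖(fun i => p i.succ) - s₁‖ < d → G p = 0 → p 0 = 0 := by
  set c : Vd (m + 1) := Fin.cons (α := fun _ => ℂ) 0 s₀ with hc
  obtain ⟨R₁, hR₁, hb⟩ := Metric.eventually_nhds_iff_ball.1 hG.eventually_analyticAt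
  obtain ⟨R₂, hR₂, hW2⟩ := Metric.mem_nhds_iff.1 hW
  set R : ℝ := min R₁ R₂ with hRdef
  have hR : 0 < R := lt_min hR₁ hR₂
  have htr : ∀ p ∈ ball (0 : Vd (m + 1)) R, p + c ∈ ball c R₁ := by
    intro p hp
    rw [mem_ball_zero_iff] at hp
    rw [mem_ball, dist_eq_norm, add_sub_cancel_right]
    exact hp.trans_le (min_le_left _ _)
  have hGa : ∀ p ∈ ball (0 : Vd (m + 1)) R, AnalyticAt ℂ (fun p => G (p + c)) p := by
    intro p hp
    have h1 : AnalyticAt ℂ (fun p : Vd (m + 1) => p + c) p := analyticAt_id.add analyticAt_const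
    exact AnalyticAt.fun_comp (g := G) (f := fun p : Vd (m + 1) => p + c) (hb _ (htr p hp)) h1
  obtain ⟨q, hq, hqb⟩ : ∃ q, G q ≠ 0 ∧ q ∈ ball c R := by
    obtain ⟨q, hq, hqb⟩ := ((Filter.not_eventually.1 hne).and_eventually (isOpen_ball.mem_nhds (mem_ball_self hR : c ∈ ball c R))).exists
    exact ⟨q, hq, hqb⟩
  obtain ⟨s₁, hs₁, d, hd, h⟩ := iso_zero hR hGa (p₁ := q - c) (by
    rw [mem_ball_zero_iff, ← dist_eq_norm]
    exact hqb) (by
    show G (q - c + c) ≠ 0
    rw [sub_add_cancel]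
    exact hq)
  refine ⟨s₁ + s₀, ?_, d, hd, fun p hp0 hps hGp => ?_⟩
  · apply hW2
    rw [mem_ball, dist_eq_norm, add_sub_cancel_right]
    rw [mem_ball_zero_iff] at hs₁
    exact hs₁.trans_le (min_le_right _ _)
  · have h1 := h (p - c) ?_ ?_ ?_
    · rw [Pi.sub_apply, hc, Fin.cons_zero, sub_zero] at h1
      exact h1
    · rw [Pi.sub_apply, hc, Fin.cons_zero, sub_zero]
      exact hp0
    · have h2 : (fun i : Fin m => (p - c) i.succ) - s₁ = (fun i : Fin m => p i.succ) - (s₁ + s₀) := by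
        funext i
        show (p i.succ - c i.succ) - s₁ i = p i.succ - (s₁ i + s₀ i)
        have h3 : c i.succ = s₀ i := rfl
        rw [h3]
        ring
      rw [h2]
      exact hps
    · show G (p - c + c) = 0
      rw [sub_add_cancel]
      exact hGp

end Pool.Agent.TG
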