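import Pool.Agent.TG.XDefs
import Pool.Agent.H62.BU.Inv

/-!
# TG XTan: the tangent space of `D` at a point with a coordinate system

`coord_tangent` (two coordinate systems have the same tangent space of `D`): let `fderiv ℂ κ 0 q = v`, `q 0 = 0`.  The curve `γ z = κ (z • q)` is in `D` (`mem_iff`), `γ 0 = p`, `γ' 0 = v`.  Let `ψ` be the local
inverse of `κ'` (`H62.BU.local_inverse`, `κ'` is analytic at `0` with injective derivative, `κ' 0 = p`); `q' = fderiv ℂ ψ p v`: `κ' (ψ (γ z)) = γ z ∈ D` near `0`, so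
`(ψ (γ z)) 0 = 0` near `z = 0` (`mem_iff` for `κ'`), so `q' 0 = 0` (the derivative of `z ↦ (ψ (γ z)) 0`), and `fderiv ℂ κ' 0 q' = v` (derivative of `κ' ∘ ψ = id`).

`coord_move`: if `IsCoord D κ p` then for all small `q₀` with `q₀ 0 = 0`, `fun q => κ (q₀ + q)` is a coordinate system at `κ q₀`.  [Analytic near, `mem_iff` is an eventual statement
(`eventually_eventually_nhds`), `(q₀ + q) 0 = q 0`; injectivity of `fderiv ℂ κ q₀` for small `q₀`: an open condition, by continuity of `q₀ ↦ (fderiv ℂ κ q₀).det` or as in `TN/SardR` `sardR_open`.]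

`trans_iso`: let `κ` be a coordinate system at `q` and `ψ` its local inverse.  If `q + z • e ∈ D` for `z ≠ 0` arbitrarily small: `h z = (ψ (q + z • e)) 0` is analytic at `0` with `h z = 0` iff `q + z • e ∈ D`
for small `z` (`κ (ψ x) = x`), so (isolated zeros) either `q + z • e ∉ D` for `z ≠ 0` small or `h = 0` near `0`; in the second case `q' = fderiv ℂ ψ q e` has `q' 0 = 0` and `fderiv ℂ κ 0 q' = e`:
contradiction to `TransAt`.
-/

set_option autoImplicit false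

open Topology Filter Metric MeasureTheory

namespace Pool.Agent.TG

open Pool.Agent.AD (Vd)

variable {k : ℕ} {D : Set (Vd (k + 1))}

/-- the local inverse of a coordinate system -/
private theorem xtan_inv {κ : Vd (k + 1) → Vd (k + 1)} {p : Vd (k + 1)} (h : IsCoord D κ p) :
    ∃ ψ : Vd (k + 1) → Vd (k + 1), AnalyticAt ℂ ψ p ∧ ψ p = 0 ∧ (∀ᶠ x in 𝓝 p, (x ∈ D ↔ (ψ x) 0 = 0)) ∧
      ∀ v : Vd (k + 1), fderiv ℂ κ 0 (fderiv ℂ ψ p v) = v := by
  obtain ⟨ψ, h1, -, h3, h4⟩ := H62.BU.local_inverse h.an fun v hv => h.inj (by rw [hv, map_zero])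
  rw [h.zero] at h1 h3 h4
  refine ⟨ψ, h1, h4, ?_, ?_⟩
  · have h5 : Tendsto ψ (𝓝 p) (𝓝 0) := by
      have := h1.continuousAt.tendsto
      rwa [h4] at this
    filter_upwards [h5.eventually h.mem_iff, h3] with x hx hx3
    rw [hx3] at hx
    exact hx
  · intro v
    have h5 : HasFDerivAt κ (fderiv ℂ κ 0) (ψ p) := by
      rw [h4]
      exact h.an.differentiableAt.hasFDerivAt
    have h6 : HasFDerivAt (fun x => κ (ψ x)) ((fderiv ℂ κ 0).comp (fderiv ℂ ψ p)) p := h5.comp p h1.differentiableAt.hasFDerivAt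
    have h7 : HasFDerivAt (fun x => κ (ψ x)) (ContinuousLinearMap.id ℂ (Vd (k + 1))) p := by
      refine (hasFDerivAt_id p).congr_of_eventuallyEq ?_
      filter_upwards [h3] with x hx
      exact hx
    have h8 := h6.unique h7
    have h9 := DFunLike.congr_fun h8 v
    exact h9

/-- the derivative of a curve which is in the hyperplane -/
private theorem xtan_der {g : ℂ → Vd (k + 1)} {v : Vd (k + 1)} (hg : HasDerivAt g v 0) (h : ∀ᶠ z in 𝓝 (0 : ℂ), (g z) 0 = 0) : v 0 = 0 := by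
  have h1 : HasDerivAt (fun z => (g z) 0) (v 0) 0 := (hasDerivAt_pi.1 hg) 0
  have h2 : HasDerivAt (fun z => (g z) 0) 0 0 := by
    refine (hasDerivAt_const (0 : ℂ) (0 : ℂ)).congr_of_eventuallyEq ?_
    filter_upwards [h] with z hz
    exact hz
  exact h1.unique h2

private theorem xtan_open {f : Vd (k + 1) → Vd (k + 1)} {x₀ : Vd (k + 1)} (hf : AnalyticAt ℂ f x₀) (h : Function.Injective (fderiv ℂ f x₀)) :
    ∀ᶠ x in 𝓝 x₀, Function.Injective (fderiv ℂ f x) := by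
  obtain ⟨e, he⟩ : ∃ e : Vd (k + 1) ≃L[ℂ] Vd (k + 1), (e : Vd (k + 1) →L[ℂ] Vd (k + 1)) = fderiv ℂ f x₀ := by
    refine ⟨(LinearEquiv.ofInjectiveEndo (fderiv ℂ f x₀ : Vd (k + 1) →ₗ[ℂ] Vd (k + 1)) h).toContinuousLinearEquiv, ?_⟩
    ext v
    rfl
  have h1 : ContinuousAt (fderiv ℂ f) x₀ := hf.fderiv.continuousAt
  have h2 : {T : Vd (k + 1) →L[ℂ] Vd (k + 1) | IsUnit T} ∈ 𝓝 (fderiv ℂ f x₀) := by
    refine Units.isOpen.mem_nhds ?_
    show IsUnit (fderiv ℂ f x₀)
    rw [← he]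
    exact ⟨ContinuousLinearEquiv.toUnit e, rfl⟩
  filter_upwards [h1.eventually h2] with x hx
  obtain ⟨T, hT⟩ := hx
  intro a b hab
  have h3 : ∀ v : Vd (k + 1), (T⁻¹).val (fderiv ℂ f x v) = v := by
    intro v
    have h6 : ((T⁻¹).val * T.val) v = v := by
      rw [Units.inv_mul]
      rfl
    rw [hT] at h6
    exact h6
  rw [← h3 a, hab, h3 b]

theorem coord_tangent {κ κ' : Vd (k + 1) → Vd (k + 1)} {p : Vd (k + 1)} (h : IsCoord D κ p) (h' : IsCoord D κ' p) {q : Vd (k + 1)} (hq : q 0 = 0) :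
    ∃ q' : Vd (k + 1), q' 0 = 0 ∧ fderiv ℂ κ' 0 q' = fderiv ℂ κ 0 q := by
  obtain ⟨ψ, h1, h2, h3, h4⟩ := xtan_inv h'
  refine ⟨fderiv ℂ ψ p (fderiv ℂ κ 0 q), ?_, h4 _⟩
  have h5 : HasDerivAt (fun z : ℂ => z • q) q 0 := by
    have := (hasDerivAt_id (0 : ℂ)).smul_const q
    simpa using this
  have h6 : HasDerivAt (fun z : ℂ => κ (z • q)) (fderiv ℂ κ 0 q) 0 := by
    have h7 : HasFDerivAt κ (fderiv ℂ κ 0) ((0 : ℂ) • q) := by
      rw [zero_smul]
      exact h.an.differentiableAt.hasFDerivAt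
    exact h7.comp_hasDerivAt (0 : ℂ) h5
  have h8 : κ ((0 : ℂ) • q) = p := by
    rw [zero_smul]
    exact h.zero
  have h9 : HasDerivAt (fun z : ℂ => ψ (κ (z • q))) (fderiv ℂ ψ p (fderiv ℂ κ 0 q)) 0 := by
    have h10 : HasFDerivAt ψ (fderiv ℂ ψ p) (κ ((0 : ℂ) • q)) := by
      rw [h8]
      exact h1.differentiableAt.hasFDerivAt
    exact h10.comp_hasDerivAt (0 : ℂ) h6
  refine xtan_der h9 ?_
  have h11 : Tendsto (fun z : ℂ => z • q) (𝓝 0) (𝓝 0) := by
    have := h5.continuousAt.tendsto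
    rwa [zero_smul] at this
  have h12 : Tendsto (fun z : ℂ => κ (z • q)) (𝓝 0) (𝓝 p) := by
    have := h6.continuousAt.tendsto
    rwa [h8] at this
  filter_upwards [h11.eventually h.mem_iff, h12.eventually h3] with z hz1 hz2
  refine hz2.1 (hz1.2 ?_)
  show z • q 0 = 0
  rw [hq, smul_zero]

theorem coord_move {κ : Vd (k + 1) → Vd (k + 1)} {p : Vd (k + 1)} (h : IsCoord D κ p) :
    ∀ᶠ q₀ in 𝓝 (0 : Vd (k + 1)), q₀ 0 = 0 → IsCoord D (fun q => κ (q₀ + q)) (κ q₀) := by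
  filter_upwards [h.an.eventually_analyticAt, xtan_open h.an h.inj, h.mem_iff.eventually_nhds] with q₀ h1 h2 h3 h0
  have h4 : Tendsto (fun q : Vd (k + 1) => q₀ + q) (𝓝 0) (𝓝 q₀) := by
    have : ContinuousAt (fun q : Vd (k + 1) => q₀ + q) 0 := by fun_prop
    have h5 := this.tendsto
    rwa [add_zero] at h5
  refine ⟨?_, by rw [add_zero], ?_, ?_⟩
  · have h5 : AnalyticAt ℂ κ (q₀ + 0) := by
      rw [add_zero]
      exact h1
    exact h5.comp (f := fun q : Vd (k + 1) => q₀ + q) (analyticAt_const.add analyticAt_id)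
  · have h5 : fderiv ℂ (fun q => κ (q₀ + q)) 0 = fderiv ℂ κ q₀ := by
      rw [fderiv_comp_add_left, add_zero]
    rw [h5]
    exact h2
  · filter_upwards [h4.eventually h3] with q hq
    rw [hq]
    show q₀ 0 + q 0 = 0 ↔ q 0 = 0
    rw [h0, zero_add]

theorem trans_iso {κ : Vd (k + 1) → Vd (k + 1)} {q e : Vd (k + 1)} (h : IsCoord D κ q) (he : TransAt D q e) : ∀ᶠ z in 𝓝[≠] (0 : ℂ), q + z • e ∉ D := by
  obtain ⟨ψ, h1, h2, h3, h4⟩ := xtan_inv h
  have h5 : HasDerivAt (fun z : ℂ => q + z • e) e 0 := by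
    have := ((hasDerivAt_id (0 : ℂ)).smul_const e).const_add q
    simpa using this
  have h8 : q + (0 : ℂ) • e = q := by rw [zero_smul, add_zero]
  have h9 : HasDerivAt (fun z : ℂ => ψ (q + z • e)) (fderiv ℂ ψ q e) 0 := by
    have h10 : HasFDerivAt ψ (fderiv ℂ ψ q) (q + (0 : ℂ) • e) := by
      rw [h8]
      exact h1.differentiableAt.hasFDerivAt
    exact h10.comp_hasDerivAt (0 : ℂ) h5
  have h6 : Tendsto (fun z : ℂ => q + z • e) (𝓝 0) (𝓝 q) := by
    have := h5.continuousAt.tendsto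
    rwa [h8] at this
  have h7 : AnalyticAt ℂ (fun z : ℂ => (ψ (q + z • e)) 0) 0 := by
    have h10 : AnalyticAt ℂ ψ (q + (0 : ℂ) • e) := by
      rw [h8]
      exact h1
    have h11 : AnalyticAt ℂ (fun z : ℂ => ψ (q + z • e)) 0 :=
      h10.comp (f := fun z : ℂ => q + z • e) (analyticAt_const.add (analyticAt_id.smul analyticAt_const))
    exact analyticAt_pi_iff.1 h11 0
  rcases h7.eventually_eq_zero_or_eventually_ne_zero with h10 | h10
  · exact absurd (h4 e) (he.2 κ h _ (xtan_der h9 h10))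
  · filter_upwards [h10, (h6.eventually h3).filter_mono nhdsWithin_le_nhds] with z hz1 hz2 hz3
    exact hz1 (hz2.1 hz3)

end Pool.Agent.TG
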