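import Pool.Agent.TG.FDefs
import Mathlib.MeasureTheory.Measure.Haar.Disintegration
import Mathlib.Topology.MetricSpace.HausdorffDimension

/-!
# TG GuD: the discriminant is closed and thin, almost no line meets a small set

`IsAnalyticSubset.isClosed`, `IsAnalyticSubset.thin`: an analytic subset of `ℂ^n` is closed, and near every point it is contained in the zero set of a holomorphic function which is not locally `0`, unless it is all of `ℂ^n`
(the set of the interior points is open and closed).  `IsSmall.lines`: the projection of `B` along `e` has Hausdorff dimension `≤ 2 n - 4 < 2 (n - 1)`, so it is a null set, and so is its preimage.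
-/

set_option autoImplicit false

open Topology Filter Metric MeasureTheory

namespace Pool.Agent.TGF

theorem IsAnalyticSubset.isClosed {n : ℕ} {Z : Set (Cn n)} (hZ : IsAnalyticSubset Z) : IsClosed Z := by
  rw [← isOpen_compl_iff, isOpen_iff_mem_nhds]
  intro y hy
  obtain ⟨m, h, hh, hev⟩ := hZ y
  have h0 : h y ≠ 0 := fun h0 => hy (hev.self_of_nhds.2 h0)
  filter_upwards [hev, hh.continuousAt.eventually_ne h0] with z h1 h2 h3
  exact h2 (h1.1 h3)

theorem IsAnalyticSubset.interior_empty {n : ℕ} {Z : Set (Cn n)} (hZ : IsAnalyticSubset Z) (hne : Z ≠ Set.univ) : interior Z = ∅ := by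
  have hcl : IsClosed (interior Z) := by
    rw [← isOpen_compl_iff, isOpen_iff_mem_nhds]
    intro y hy
    by_contra hcon
    apply hy
    obtain ⟨m, h, hh, hev⟩ := hZ y
    obtain ⟨r, hr, hball⟩ := Metric.eventually_nhds_iff_ball.1 (hev.and hh.eventually_analyticAt)
    -- there is a point of the interior in the ball
    have h1 : ∃ w ∈ ball y r, w ∈ interior Z := by
      by_contra h2
      push Not at h2
      exact hcon (mem_of_superset (ball_mem_nhds y hr) fun w hw => h2 w hw)
    obtain ⟨w, hw, hwZ⟩ := h1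
    have h2 : Set.EqOn h 0 (ball y r) := by
      have h3 : AnalyticOnNhd ℂ h (ball y r) := fun z hz => (hball z hz).2
      refine h3.eqOn_of_preconnected_of_eventuallyEq (analyticOnNhd_const (v := (0 : Cn m))) (convex_ball y r).isPreconnected hw ?_
      filter_upwards [isOpen_interior.mem_nhds hwZ, isOpen_ball.mem_nhds hw] with z h4 h5
      exact ((hball z h5).1).1 (interior_subset h4)
    rw [mem_interior_iff_mem_nhds]
    filter_upwards [ball_mem_nhds y hr] with z hz
    exact ((hball z hz).1).2 (h2 hz)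
  rcases isClopen_iff.1 ⟨hcl, isOpen_interior⟩ with h | h
  · exact h
  · exact absurd (Set.univ_subset_iff.1 (h ▸ interior_subset)) hne

theorem IsAnalyticSubset.thin {n : ℕ} {Z : Set (Cn n)} (hZ : IsAnalyticSubset Z) (hne : Z ≠ Set.univ) (y : Cn n) :
    ∃ h : Cn n → ℂ, AnalyticAt ℂ h y ∧ (∀ᶠ z in 𝓝 y, z ∈ Z → h z = 0) ∧ ¬ ∀ᶠ z in 𝓝 y, h z = 0 := by
  obtain ⟨m, h, hh, hev⟩ := hZ y
  by_contra hcon
  push Not at hcon
  have h1 : ∀ i : Fin m, ∀ᶠ z in 𝓝 y, h z i = 0 := by
    intro i
    refine hcon (fun z => h z i) ((analyticAt_pi_iff.1 hh) i) ?_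
    filter_upwards [hev] with z hz hzZ
    exact congrFun (hz.1 hzZ) i
  have h2 : ∀ᶠ z in 𝓝 y, z ∈ Z := by
    filter_upwards [hev, eventually_all.2 h1] with z hz hz2
    exact hz.2 (funext hz2)
  have h3 : y ∈ interior Z := mem_interior_iff_mem_nhds.2 h2
  rw [hZ.interior_empty hne] at h3
  exact h3

/-- the projection along `e` -/
private noncomputable def pj {k : ℕ} (e : Cn (k + 1)) (i : Fin (k + 1)) : Cn (k + 1) →ₗ[ℂ] Cn k :=
  LinearMap.pi fun j => LinearMap.proj (i.succAbove j) - (e (i.succAbove j) / e i) • LinearMap.proj i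

private theorem pj_apply {k : ℕ} (e : Cn (k + 1)) (i : Fin (k + 1)) (y : Cn (k + 1)) (j : Fin k) :
    pj e i y j = y (i.succAbove j) - e (i.succAbove j) / e i * y i := rfl

private theorem pj_add {k : ℕ} {e : Cn (k + 1)} {i : Fin (k + 1)} (he : e i ≠ 0) (y : Cn (k + 1)) (z : ℂ) : pj e i (y + z • e) = pj e i y := by
  funext j
  rw [pj_apply, pj_apply]
  simp only [Pi.add_apply, Pi.smul_apply, smul_eq_mul]
  field_simp
  ring

private theorem pj_surj {k : ℕ} (e : Cn (k + 1)) (i : Fin (k + 1)) : Function.Surjective (pj e i) := by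
  intro f
  refine ⟨i.insertNth 0 f, ?_⟩
  funext j
  rw [pj_apply, Fin.insertNth_apply_succAbove, Fin.insertNth_apply_same, mul_zero, sub_zero]

theorem IsSmall.lines {k : ℕ} {B : Set (Cn (k + 1))} (hB : IsSmall B) {e : Cn (k + 1)} (he : e ≠ 0) : ∀ᵐ y : Cn (k + 1), ∀ z : ℂ, y + z • e ∉ B := by
  rcases hB with rfl | hB
  · exact Eventually.of_forall fun y z => Set.notMem_empty _
  obtain ⟨i, hi⟩ : ∃ i, e i ≠ 0 := Function.ne_iff.1 he
  have hfr : Module.finrank ℝ (Cn k) = 2 * k := by
    rw [Module.finrank_pi_fintype]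
    simp [Complex.finrank_real_complex, mul_comm]
  have hd : dimH (pj e i '' B) < ((2 * k : ℕ) : NNReal) := by
    have h1 : dimH (pj e i '' B) ≤ dimH B := (pj e i).toContinuousLinearMap.lipschitz.dimH_image_le B
    refine h1.trans_lt ?_
    have hne : dimH B ≠ ⊤ :=
      ((le_self_add.trans hB).trans_lt (ENNReal.mul_lt_top (by simp) (ENNReal.natCast_lt_top _))).ne
    have h2 : dimH B + 2 ≤ ((2 * k : ℕ) : NNReal) := by
      have h3 : dimH B + 2 + 2 ≤ (((2 * k : ℕ) : NNReal) : ENNReal) + 2 := by
        refine le_trans (le_of_eq ?_) (hB.trans (le_of_eq ?_))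
        · rw [add_assoc]; norm_num
        · push_cast; ring
      exact (ENNReal.add_le_add_iff_right (by simp)).1 h3
    exact (ENNReal.lt_add_right hne (by simp)).trans_le h2
  have hnull : (volume : Measure (Cn k)) (pj e i '' B) = 0 := by
    have h1 : (volume : Measure (Cn k)) ≪ Measure.hausdorffMeasure (Module.finrank ℝ (Cn k)) := Measure.absolutelyContinuous_isAddHaarMeasure _ _
    rw [hfr] at h1
    exact measure_zero_of_dimH_lt (d := ((2 * k : ℕ) : NNReal)) (by exact_mod_cast h1) hd
  obtain ⟨T, hT, hTm, hT0⟩ := exists_measurable_superset_of_null hnull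
  have h2 := (ae_comp_linearMap_mem_iff (pj e i) (volume : Measure (Cn (k + 1))) (volume : Measure (Cn k)) (pj_surj e i) hTm.compl).2
    (by rw [← compl_mem_ae_iff] at hT0; exact hT0)
  filter_upwards [h2] with y hy z hz
  apply hy
  rw [← pj_add hi y z]
  exact hT ⟨_, hz, rfl⟩

end Pool.Agent.TGF
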