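import Pool.Agent.TG.FDefs
import Pool.Agent.TG.Defs
import Pool.Agent.AD.T.Proj

/-!
# TG GuL: glue: charts, the torus map, lattices, the entire curves in the fibres
-/

set_option autoImplicit false

open Topology Filter MvPolynomial
open Pool.Agent.H17 (PN VanishesAt)
open Pool.Agent.H62.FC (Homog)
open Pool.Agent.H17LG.Variety (FunField)
open Pool.Agent.H17EF (projVar coneE)
open Pool.Agent.H36.BP (EN fs)
open Pool.Agent.H14.V (brodyCurves isLift_mk IsLift)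
open Pool.Agent.AD (Vd uV uV_eq sub_mem_iff torusMapV discreteSub_of isCone_coneE charts_coneE IsHolomorphicTorusMap Charts)
open Pool.Agent.TG (TMap Lat)

noncomputable section

namespace Pool.Agent.TGF

variable {N k : ℕ} {P : Ideal (MvPolynomial (Fin (N + 1)) ℂ)} {Λ Γ : AddSubgroup (Cn (k + 1))} {u : PN N → Cn (k + 1) ⧸ Λ} {D B : Set (Cn (k + 1))}

theorem gu_charts [P.IsPrime] (hP : Homog P) (hdim : ∃ z : Fin (k + 2) → FunField P, IsTranscendenceBasis ℂ z)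
    (hsm : Pool.Agent.AD.NC.IsSmooth P (k + 2)) : Charts (k + 2) (coneE P) := by
  obtain ⟨z, hz⟩ := hdim
  exact charts_coneE hP hz hsm

theorem gu_tor (hP : Homog P) (hu : IsHolomorphicTorusMap (projVar P) Λ u) : TMap (coneE P) Λ (uV Λ u) := by
  have h := torusMapV hP hu
  exact ⟨h.smul, h.loc⟩

/-- a spanning subgroup is cocompact -/
theorem gu_cocompact {n : ℕ} {Λ : AddSubgroup (Fin n → ℂ)} (h : Submodule.span ℝ (Λ : Set (Fin n → ℂ)) = ⊤) :
    ∃ C : ℝ, 0 < C ∧ ∀ b : Fin n → ℂ, ∃ l ∈ Λ, ‖b - l‖ ≤ C := by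
  classical
  obtain ⟨T, hTs, hT⟩ : ∃ T : Finset (Fin n → ℂ), (T : Set (Fin n → ℂ)) ⊆ (Λ : Set (Fin n → ℂ)) ∧ Submodule.span ℝ (T : Set (Fin n → ℂ)) = ⊤ := by
    have h1 : (Submodule.span ℝ (Λ : Set (Fin n → ℂ))).FG := by
      rw [h]
      exact Module.Finite.fg_top
    obtain ⟨T, hTs, hT⟩ := (Submodule.fg_span_iff_fg_span_finset_subset _).1 h1
    exact ⟨T, hTs, by rw [← hT, h]⟩
  refine ⟨(∑ t ∈ T, ‖t‖) + 1, by positivity, fun b => ?_⟩
  have hb : b ∈ Submodule.span ℝ (T : Set (Fin n → ℂ)) := by rw [hT]; trivial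
  obtain ⟨c, -, hc⟩ := Submodule.mem_span_finset.1 hb
  refine ⟨∑ t ∈ T, ⌊c t⌋ • t, Λ.sum_mem fun t ht => Λ.zsmul_mem (hTs ht) _, ?_⟩
  refine le_trans ?_ (le_add_of_nonneg_right zero_le_one)
  rw [← hc, ← Finset.sum_sub_distrib]
  refine (norm_sum_le _ _).trans (Finset.sum_le_sum fun t _ => ?_)
  have h2 : c t • t - ⌊c t⌋ • t = (Int.fract (c t)) • t := by
    rw [Int.fract, sub_smul]
    congr 1
    exact (Int.cast_smul_eq_zsmul ℝ _ _).symm
  rw [h2, norm_smul, Real.norm_of_nonneg (Int.fract_nonneg _)]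
  exact mul_le_of_le_one_left (norm_nonneg _) (Int.fract_lt_one _).le

theorem gu_lat (Λ : AddSubgroup (Cn (k + 1))) [DiscreteTopology Λ] (hspan : Submodule.span ℝ (Λ : Set (Cn (k + 1))) = ⊤) : Lat Λ :=
  ⟨discreteSub_of Λ, gu_cocompact hspan⟩

theorem gu_lat_sub (hΛ : Lat Λ) (hle : Γ ≤ Λ) (hspan : Submodule.span ℝ (Γ : Set (Cn (k + 1))) = ⊤) : Lat Γ := by
  obtain ⟨δ, hδ, h⟩ := hΛ.disc
  exact ⟨⟨δ, hδ, fun l hl hn => h l (hle hl) hn⟩, gu_cocompact hspan⟩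

/-- the fibres off `D` contain no entire curve with bounded derivative -/
theorem gu_fib (hP : Homog P) (hD : IsDiscriminant (projVar P) Λ u D B) : ∀ y ∉ D, ∀ F : ℂ → EN N, Differentiable ℂ F → (∀ z, F z ∈ coneE P) →
    (∀ z, uV Λ u (F z) - y ∈ Λ) → (∃ L : ℝ, ∀ z, fs (F z) (deriv F z) ≤ L) → ∀ z w, ∃ c : ℂ, F z = c • F w := by
  intro y hy F hF hFX hFy hL z w
  obtain ⟨L, hL⟩ := hL
  obtain ⟨M, hM⟩ : ∃ M : ℝ, M = max L 1 := ⟨_, rfl⟩
  have hM0 : 0 < M := by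
    rw [hM]
    exact lt_of_lt_of_le one_pos (le_max_right _ _)
  have hMc : (M : ℂ) ≠ 0 := by exact_mod_cast hM0.ne'
  obtain ⟨a, ha⟩ : ∃ a : ℂ, a = ((M⁻¹ : ℝ) : ℂ) := ⟨_, rfl⟩
  have hanorm : ‖a‖ = M⁻¹ := by rw [ha, Complex.norm_real, Real.norm_of_nonneg (inv_nonneg.2 hM0.le)]
  have haM : ∀ t : ℂ, a * (M * t) = t := by
    intro t
    rw [ha, Complex.ofReal_inv, inv_mul_cancel_left₀ hMc]
  have hG : Differentiable ℂ fun t => F (a * t) := hF.comp (differentiable_id.const_mul a)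
  have hGd : ∀ t, deriv (fun t => F (a * t)) t = a • deriv F (a * t) := by
    intro t
    have h3 : HasDerivAt (fun w : ℂ => a * w) a t := by
      simpa using (hasDerivAt_id t).const_mul a
    exact ((hF (a * t)).hasDerivAt.scomp t h3).deriv
  have h0 : ∀ t, (F (a * t)).ofLp ≠ 0 := fun t => (hFX _).1
  have hl := isLift_mk hG h0
  have h1 := hD.hyperbolic y hy _ ⟨fun t => (hl.mem_iff hP t).2 (hFX _), _, hl, fun t => by
    rw [hGd, Pool.Agent.H36.BP.fs_smul_right, hanorm]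
    calc M⁻¹ * fs (F (a * t)) (deriv F (a * t)) ≤ M⁻¹ * M :=
          mul_le_mul_of_nonneg_left ((hL _).trans (by rw [hM]; exact le_max_left _ _)) (inv_nonneg.2 hM0.le)
      _ = 1 := inv_mul_cancel₀ hM0.ne'⟩ (fun t => by
    have h2 := hFy (a * t)
    rw [sub_mem_iff, uV_eq Λ u (hFX _).1] at h2
    exact h2) (M * z) (M * w)
  rw [Projectivization.mk_eq_mk_iff'] at h1
  obtain ⟨b, hb⟩ := h1
  rw [haM, haM] at hb
  exact ⟨b, WithLp.ofLp_injective 2 hb.symm⟩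

theorem gu_D_inv (hD : IsDiscriminant (projVar P) Λ u D B) : ∀ y ∈ D, ∀ l ∈ Λ, y + l ∈ D := hD.invariant

end Pool.Agent.TGF
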