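import Pool.Agent.H19T.FCur
import Pool.Agent.H17EF.DLin
import Pool.Agent.H17.GlobalLift

/-!
# TG SaA: entire curves of order two in varieties over complex tori are mapped to affine curves

`F : ℂ → EN N` is an entire function, zeros allowed, with `F z ∈ X` if `F z ≠ 0` and `log |F z| ≤ C (1 + |z|²)`.
-/

set_option autoImplicit false

open Topology Filter Metric

noncomputable section

namespace Pool.Agent.TG

open Pool.Agent.H36.BP (EN fs wd)
open Pool.Agent.H14.PP (IsCone CurveAt Tan)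
open Pool.Agent.H22.W (PseudoLength tan_entire)
open Pool.Agent.AD (Vd Charts TorusMapV DiscreteSub deriv_comp_lift eventually_const_of_mem deriv_eq_of_mem symLength length_bound)

variable {N n : ℕ} {X : Set (EN N)} {Λ : AddSubgroup (Vd n)} {u : EN N → Vd n}

theorem en_coord_ne {w : EN N} (hw : w ≠ 0) : ∃ j, w j ≠ 0 := by
  by_contra h
  push Not at h
  apply hw
  ext j
  exact h j

theorem en_coord_an {f : ℂ → EN N} {z : ℂ} (hf : AnalyticAt ℂ f z) (i : Fin (N + 1)) : AnalyticAt ℂ (fun w => f w i) z :=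
  ((EuclideanSpace.proj (𝕜 := ℂ) i : EN N →L[ℂ] ℂ).analyticAt _).comp hf

theorem ofLp_ne {v : EN N} (hv : v ≠ 0) : v.ofLp ≠ 0 := by
  intro h
  apply hv
  ext j
  exact congrFun h j

/-- an entire function is not zero near any point, outside the point -/
theorem eventually_ne_of_entire {E : Type*} [NormedAddCommGroup E] [NormedSpace ℂ E] [CompleteSpace E] {F : ℂ → E} (hF : Differentiable ℂ F)
    (h0 : ∃ z, F z ≠ 0) (z₀ : ℂ) : ¬ ∀ᶠ z in 𝓝 z₀, F z = 0 := by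
  intro h
  obtain ⟨z₁, hz₁⟩ := h0
  have h1 : AnalyticOnNhd ℂ F Set.univ := fun z _ => hF.analyticAt z
  exact hz₁ (h1.eqOn_zero_of_preconnected_of_eventuallyEq_zero isPreconnected_univ (Set.mem_univ z₀) h (Set.mem_univ z₁))

/-- **An entire function with zeros is a multiple of one without zeros.** -/
theorem exists_zeroFree {F : ℂ → EN N} (hF : Differentiable ℂ F) (h0 : ∃ z, F z ≠ 0) :
    ∃ G : ℂ → EN N, Differentiable ℂ G ∧ (∀ z, G z ≠ 0) ∧ ∀ z, ∃ c : ℂ, F z = c • G z := by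
  classical
  have hloc : ∀ z₀ : ℂ, ∃ (m : ℕ) (Φ : ℂ → EN N), AnalyticAt ℂ Φ z₀ ∧ Φ z₀ ≠ 0 ∧ ∀ᶠ z in 𝓝 z₀, F z = (z - z₀) ^ m • Φ z := fun z₀ =>
    ((hF.analyticAt z₀).exists_eventuallyEq_pow_smul_nonzero_iff).2 (eventually_ne_of_entire hF h0 z₀)
  choose m Φ hΦa hΦ0 hΦe using hloc
  have hself : ∀ z, F z ≠ 0 → F z = Φ z z := by
    intro z hz
    have h1 := (hΦe z).self_of_nhds
    rw [sub_self] at h1
    rcases Nat.eq_zero_or_pos (m z) with h2 | h2
    · rwa [h2, pow_zero, one_smul] at h1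
    · rw [zero_pow h2.ne', zero_smul] at h1
      exact absurd h1 hz
  have hrel : ∀ z₀, ∀ᶠ z in 𝓝 z₀, Φ z₀ z ≠ 0 ∧ ∃ c : ℂ, c ≠ 0 ∧ Φ z z = c • Φ z₀ z := by
    intro z₀
    filter_upwards [hΦe z₀, (hΦa z₀).continuousAt.eventually_ne (hΦ0 z₀)] with z h1 h2
    refine ⟨h2, ?_⟩
    rcases eq_or_ne z z₀ with h3 | h3
    · subst h3
      exact ⟨1, one_ne_zero, (one_smul _ _).symm⟩
    · have h4 : (z - z₀) ^ m z₀ ≠ 0 := pow_ne_zero _ (sub_ne_zero.2 h3)
      have h5 : F z ≠ 0 := by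
        rw [h1]
        exact smul_ne_zero h4 h2
      exact ⟨_, h4, by rw [← hself z h5, h1]⟩
  obtain ⟨f, hf⟩ : ∃ f : ℂ → Pool.Agent.H17.PN N, f = fun z => Projectivization.mk ℂ (Φ z z).ofLp (ofLp_ne (hΦ0 z)) := ⟨_, rfl⟩
  have hfhol : Pool.Agent.H17.HolomorphicInto f Set.univ := by
    intro z₀ _
    refine ⟨fun w => (Φ z₀ w).ofLp, ?_, ?_⟩
    · rw [analyticAt_pi_iff]
      intro j
      exact en_coord_an (hΦa z₀) j
    · filter_upwards [hrel z₀] with z hz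
      obtain ⟨h1, c, hc, h2⟩ := hz
      refine ⟨ofLp_ne h1, ?_⟩
      rw [hf, Projectivization.mk_eq_mk_iff']
      exact ⟨c, by rw [h2]; rfl⟩
  obtain ⟨x, hx⟩ := Pool.Agent.H17.exists_global_lift hfhol
  refine ⟨fun z => WithLp.toLp 2 (fun j => (x j : ℂ → ℂ) z), ?_, ?_, ?_⟩
  · have h1 : Differentiable ℂ (fun z => (fun j => (x j : ℂ → ℂ) z)) := differentiable_pi.2 fun j => (x j).diff
    exact (PiLp.continuousLinearEquiv 2 ℂ (fun _ : Fin (N + 1) => ℂ)).symm.differentiable.comp h1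
  · intro z h
    obtain ⟨h1, -⟩ := hx z
    apply h1
    funext j
    exact congrArg (fun v : EN N => v j) h
  · intro z
    by_cases hz : F z = 0
    · exact ⟨0, by rw [hz, zero_smul]⟩
    · obtain ⟨h1, h2⟩ := hx z
      rw [hf] at h2
      obtain ⟨c, hc, h3⟩ := Pool.Agent.H17.mk_eq_mk_cross h2
      refine ⟨c, ?_⟩
      rw [hself z hz]
      ext j
      exact h3 j

/-- the Fubini-Study length of the derivative of a multiple -/
theorem fs_smul_fun {f g : ℂ → EN N} {z : ℂ} (hf : AnalyticAt ℂ f z) (hg : AnalyticAt ℂ g z) (hf0 : f z ≠ 0) (hg0 : g z ≠ 0)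
    (h : ∀ᶠ w in 𝓝 z, ∃ c : ℂ, f w = c • g w) : fs (f z) (deriv f z) = fs (g z) (deriv g z) := by
  obtain ⟨l, hl⟩ := en_coord_ne hg0
  have hgl := en_coord_an hg l
  have hfl := en_coord_an hf l
  obtain ⟨k, hk⟩ : ∃ k : ℂ → ℂ, k = fun w => f w l / g w l := ⟨_, rfl⟩
  have ha : AnalyticAt ℂ k z := by
    rw [hk]
    exact hfl.div hgl hl
  have he : ∀ᶠ w in 𝓝 z, f w = k w • g w := by
    filter_upwards [h, hgl.continuousAt.eventually_ne hl] with w h1 h2
    obtain ⟨c, h3⟩ := h1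
    have h4 : f w l = c * g w l := by rw [h3]; rfl
    have h2' : g w l ≠ 0 := h2
    rw [hk]
    simp only
    rw [h4, mul_div_assoc, div_self h2', mul_one]
    exact h3
  have hz : f z = k z • g z := he.self_of_nhds
  have h0 : k z ≠ 0 := by
    intro h1
    apply hf0
    rw [hz, h1, zero_smul]
  have hd : deriv f z = k z • deriv g z + deriv k z • g z := by
    have h1 : f =ᶠ[𝓝 z] fun w => k w • g w := he
    rw [h1.deriv_eq]
    exact (ha.differentiableAt.hasDerivAt.smul hg.differentiableAt.hasDerivAt).deriv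
  rw [hd, hz]
  exact Pool.Agent.H36.BP.fs_inv hg0 _ h0 _

/-- the differential of the map to the torus is bounded -/
theorem du_bound {d : ℕ} (hX : IsCone X) (hch : Charts d X) (hu : TorusMapV X Λ u) (hΛ : DiscreteSub Λ) :
    ∃ C : ℝ, 0 < C ∧ ∀ x v, Tan X x v → ∀ j, ‖hu.du x v j‖ ≤ C * fs x v := by
  obtain ⟨ν, hν⟩ : ∃ ν : PseudoLength X, ν = symLength hX hch (m := fun _ : Fin n => 1) (fun _ => le_rfl) (fun j => hu.symDiff hΛ hX j) := ⟨_, rfl⟩
  obtain ⟨C, hC, hb⟩ := length_bound hX hch ν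
  refine ⟨C, hC, fun x v hxv j => le_trans ?_ (hb x v hxv)⟩
  rw [hν]
  show _ ≤ Real.sqrt (∑ i, ‖hu.du x v i‖ ^ ((2 : ℝ) / (1 : ℕ)))
  refine Real.le_sqrt_of_sq_le ?_
  have h3 : ∀ i, ‖hu.du x v i‖ ^ ((2 : ℝ) / (1 : ℕ)) = ‖hu.du x v i‖ ^ 2 := by
    intro i
    rw [Nat.cast_one, div_one, Real.rpow_two]
  simp only [h3]
  exact Finset.single_le_sum (f := fun i => ‖hu.du x v i‖ ^ 2) (fun i _ => sq_nonneg _) (Finset.mem_univ j)

/-- the derivative of a lift -/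
theorem deriv_lift (hu : TorusMapV X Λ u) (hΛ : DiscreteSub Λ) {G : ℂ → EN N} (hG : Differentiable ℂ G) (hGX : ∀ z, G z ∈ X)
    {φ : ℂ → Vd n} (hφ : Differentiable ℂ φ) (h : ∀ z, u (G z) - φ z ∈ Λ) (z₀ : ℂ) : deriv φ z₀ = hu.du (G z₀) (deriv G z₀) := by
  have hl := hu.lift_an (hGX z₀)
  have hc : Tendsto G (𝓝 z₀) (𝓝 (G z₀)) := hG.continuous.tendsto z₀
  have h1 := deriv_eq_of_mem (Λ := Λ) hΛ (h := fun z => hu.lift (G z₀) (G z)) (k := φ) (z₀ := z₀)
    (AnalyticAt.comp (g := hu.lift (G z₀)) (f := G) hl (hG.analyticAt z₀)) (hφ.analyticAt z₀) (by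
      filter_upwards [hc.eventually (hu.lift_mem (hGX z₀))] with z h3
      have h4 := Λ.sub_mem (h z) (h3 (hGX z))
      have h5 : hu.lift (G z₀) (G z) - φ z = (u (G z) - φ z) - (u (G z) - hu.lift (G z₀) (G z)) := by abel
      rw [h5]
      exact h4)
  rw [← h1, deriv_comp_lift (hG.analyticAt z₀) hl]
  rfl

theorem mem_of_dense (hX : IsCone X) {F G : ℂ → EN N} (hF : Differentiable ℂ F) (h0 : ∃ z, F z ≠ 0) (hFX : ∀ z, F z ≠ 0 → F z ∈ X)
    (hG : Differentiable ℂ G) (hG0 : ∀ z, G z ≠ 0) (hFG : ∀ z, ∃ c : ℂ, F z = c • G z) (z : ℂ) : G z ∈ X := by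
  have h1 : ∃ᶠ w in 𝓝 z, F w ≠ 0 := by
    rw [Filter.frequently_iff_forall_eventually_exists_and]
    intro p hp
    by_contra hcon
    push Not at hcon
    apply eventually_ne_of_entire hF h0 z
    filter_upwards [hp] with w hw
    by_contra h2
    exact hcon w h2 hw
  have h2 : ∃ᶠ w in 𝓝 z, G w ∈ insert 0 X := by
    refine h1.mono fun w hw => ?_
    obtain ⟨c, hc⟩ := hFG w
    have hc0 : c ≠ 0 := by
      rintro rfl
      rw [zero_smul] at hc
      exact hw hc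
    have h3 := hX.smul_mem _ (hFX w hw) c⁻¹ (inv_ne_zero hc0)
    rw [hc, smul_smul, inv_mul_cancel₀ hc0, one_smul] at h3
    exact Or.inr h3
  rcases hX.closed.mem_of_frequently_of_tendsto h2 hG.continuous.continuousAt with h3 | h3
  · exact absurd h3 (hG0 z)
  · exact h3

/-- **Entire curves of order two are mapped to affine curves.** -/
theorem exists_curve_affine {d : ℕ} (hX : IsCone X) (hch : Charts d X) (hu : TorusMapV X Λ u) (hΛ : DiscreteSub Λ) {F : ℂ → EN N}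
    (hF : Differentiable ℂ F) (hFX : ∀ z, F z ≠ 0 → F z ∈ X) (h0 : F 0 ≠ 0) {C : ℝ} (hC : ∀ z, ‖F z‖ ≤ Real.exp (C * (1 + ‖z‖ ^ 2))) :
    ∃ (G : ℂ → EN N) (a : Vd n), Differentiable ℂ G ∧ (∀ z, G z ∈ X) ∧ (∀ z, ∃ c : ℂ, F z = c • G z) ∧ ∀ z, u (G z) - (u (F 0) + z • a) ∈ Λ := by
  obtain ⟨G, hG, hG0, hFG⟩ := exists_zeroFree hF ⟨0, h0⟩
  have hGX := mem_of_dense hX hF ⟨0, h0⟩ hFX hG hG0 hFG
  obtain ⟨φ, hφ, hφu⟩ := Pool.Agent.H19T.exists_lift_torus hX hu hΛ hG hGX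
  obtain ⟨K, hK, hb⟩ := du_bound hX hch hu hΛ
  have haff : ∀ j, ∃ a b : ℂ, ∀ z, φ z j = a * z + b := by
    intro j
    have hφj : Differentiable ℂ fun z => φ z j := differentiable_pi.1 hφ j
    refine Pool.Agent.H17EF.affine_of_bound (N := N) hφj (c := K⁻¹) (C₀ := |C| + |Real.log ‖F 0‖|) (inv_pos.2 hK) fun r hr => ?_
    have hcF : Differentiable ℂ fun z => ((Real.exp (-(|C| * (1 + r ^ 2))) : ℝ) : ℂ) • F z := by
      intro z
      exact (hF z).const_smul (((Real.exp (-(|C| * (1 + r ^ 2))) : ℝ) : ℂ))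
    refine ⟨fun z => ((Real.exp (-(|C| * (1 + r ^ 2))) : ℝ) : ℂ) • F z, hcF.differentiableOn, fun z hz => ?_, ?_, fun z hz hz0 => ?_⟩
    · rw [norm_smul, Complex.norm_real, Real.norm_of_nonneg (Real.exp_pos _).le]
      have h1 : ‖F z‖ ≤ Real.exp (|C| * (1 + r ^ 2)) := by
        refine (hC z).trans (Real.exp_le_exp.2 ?_)
        have h2 : ‖z‖ ^ 2 ≤ r ^ 2 := pow_le_pow_left₀ (norm_nonneg _) (mem_ball_zero_iff.1 hz).le 2
        calc C * (1 + ‖z‖ ^ 2) ≤ |C| * (1 + ‖z‖ ^ 2) := mul_le_mul_of_nonneg_right (le_abs_self C) (by positivity)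
          _ ≤ |C| * (1 + r ^ 2) := mul_le_mul_of_nonneg_left (by linarith) (abs_nonneg _)
      calc Real.exp (-(|C| * (1 + r ^ 2))) * ‖F z‖ ≤ Real.exp (-(|C| * (1 + r ^ 2))) * Real.exp (|C| * (1 + r ^ 2)) :=
            mul_le_mul_of_nonneg_left h1 (Real.exp_pos _).le
        _ = 1 := by rw [← Real.exp_add, neg_add_cancel, Real.exp_zero]
    · show _ ≤ ‖((Real.exp (-(|C| * (1 + r ^ 2))) : ℝ) : ℂ) • F 0‖
      rw [norm_smul, Complex.norm_real, Real.norm_of_nonneg (Real.exp_pos _).le]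
      conv_rhs => rw [← Real.exp_log (norm_pos_iff.2 h0), ← Real.exp_add]
      apply Real.exp_le_exp.2
      have h1 := neg_abs_le (Real.log ‖F 0‖)
      have h2 : |Real.log ‖F 0‖| * 1 ≤ |Real.log ‖F 0‖| * (1 + r ^ 2) := mul_le_mul_of_nonneg_left (by nlinarith [sq_nonneg r]) (abs_nonneg _)
      nlinarith
    · have hc0 : ((Real.exp (-(|C| * (1 + r ^ 2))) : ℝ) : ℂ) ≠ 0 := by exact_mod_cast (Real.exp_pos _).ne'
      have hFz : F z ≠ 0 := fun h => hz0 (by simp only [h, smul_zero])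
      have h1 : fs (((Real.exp (-(|C| * (1 + r ^ 2))) : ℝ) : ℂ) • F z) (deriv (fun z => ((Real.exp (-(|C| * (1 + r ^ 2))) : ℝ) : ℂ) • F z) z) =
          fs (G z) (deriv G z) := by
        refine fs_smul_fun (f := fun z => ((Real.exp (-(|C| * (1 + r ^ 2))) : ℝ) : ℂ) • F z) (hcF.analyticAt z) (hG.analyticAt z)
          (smul_ne_zero hc0 hFz) (hG0 z) (Eventually.of_forall fun w => ?_)
        obtain ⟨c, hc⟩ := hFG w
        exact ⟨((Real.exp (-(|C| * (1 + r ^ 2))) : ℝ) : ℂ) * c, by rw [hc, smul_smul]⟩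
      rw [h1, inv_mul_le_iff₀ hK]
      have h2 := hb _ _ (tan_entire hG hGX z) j
      rw [← deriv_lift hu hΛ hG hGX hφ hφu z] at h2
      have h3 : deriv (fun z => φ z j) z = deriv φ z j := by
        have h4 := (hasDerivAt_pi.1 (hφ z).hasDerivAt) j
        exact h4.deriv
      rw [h3]
      exact h2
  choose a b hab using haff
  refine ⟨G, a, hG, hGX, hFG, fun z => ?_⟩
  have h1 : φ z = z • a + φ 0 := by
    funext j
    rw [Pi.add_apply, Pi.smul_apply, smul_eq_mul, hab, hab]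
    ring
  obtain ⟨c, hc⟩ := hFG 0
  have hc0 : c ≠ 0 := by
    rintro rfl
    rw [zero_smul] at hc
    exact h0 hc
  have h2 := hu.smul _ (hGX 0) c hc0
  rw [← hc] at h2
  have h3 := Λ.sub_mem (Λ.sub_mem (hφu z) h2) (hφu 0)
  rw [h1] at h3
  have h4 : u (G z) - (u (F 0) + z • a) = u (G z) - (z • a + φ 0) - (u (F 0) - u (G 0)) - (u (G 0) - φ 0) := by abel
  rw [h4]
  exact h3

end Pool.Agent.TG
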