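import Pool.Agent.TG.Gd

/-!
# TG Cn: the complement of `D` is dense and connected

`compl_dense`: by `D_thin` `D` has empty interior (an open subset `W` of `D`, `y ∈ W`: `h = 0` near `y`).
`compl_conn`: for `y` and `h` analytic on the ball `β = ball y r` with `D ∩ β ⊆ {h = 0}`, `h` not identically `0` near `y` (hence near no point of `β`, identity theorem), the set `β \ {h = 0}` is preconnected: for `a, b` in it the function
`t ↦ h (a + t (b - a))` is analytic on the convex open set `{t : ℂ | a + t (b - a) ∈ β}` and not `0` at `0` and `1`, so its zeros are isolated (countable, closed), and the complement of a countable set in a convex open subset of `ℂ` is path connected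
(`IsOpen.isConnected_compl_of_one_lt_rank`, `Set.Countable.isPathConnected_compl_of_one_lt_rank`, or `IsConnected.isPreconnected`; look in Mathlib for `isConnected_compl`/`IsOpen ... Countable` or work with real segments avoiding finitely many points).
Let `Dᶜ ⊆ A ∪ C` with `A, C` open, `Dᶜ ∩ A`, `Dᶜ ∩ C` nonempty, and suppose `Dᶜ ∩ A ∩ C = ∅`.  The closures of `A ∩ Dᶜ` and `C ∩ Dᶜ` cover `V` (`compl_dense`) and `V` is connected, so there is `y` in both closures; if `y ∉ D` it is in `A` or in `C`, say in `A`, and then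
points of `C ∩ Dᶜ` near `y` are in `A`; if `y ∈ D` take `β`: `A` and `C` both meet `β \ {h = 0}` (`{h = 0}` has empty interior in `β`, `A ∩ Dᶜ ∩ β` is open and not empty), which is preconnected and contained in `Dᶜ`: contradiction.
-/

set_option autoImplicit false

open Topology Filter Metric

namespace Pool.Agent.TG

open Pool.Agent.H36.BP (EN fs wd)
open Pool.Agent.H14.PP (IsCone CurveAt Tan)
open Pool.Agent.H62.EF (MN pr)
open Pool.Agent.AD (Vd Chart Charts IsGerm)

variable {N k : ℕ}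


theorem compl_dense {D : Set (Vd (k + 1))}
    (hD : ∀ y : Vd (k + 1), ∃ h : Vd (k + 1) → ℂ, AnalyticAt ℂ h y ∧ (∀ᶠ z in 𝓝 y, z ∈ D → h z = 0) ∧ ¬ ∀ᶠ z in 𝓝 y, h z = 0) :
    Dense Dᶜ := by
  intro y
  obtain ⟨h, -, h2, h3⟩ := hD y
  rw [mem_closure_iff_frequently]
  exact ((Filter.not_eventually.mp h3).and_eventually h2).mono fun z hz hzD => hz.1 (hz.2 hzD)

/-- in the plane: two points of a convex open set can be joined off the zeros of an analytic function -/
private theorem Cn_plane {U : Set ℂ} (hU : IsOpen U) (hc : Convex ℝ U) {g : ℂ → ℂ} (hg : AnalyticOnNhd ℂ g U) (h0 : (0 : ℂ) ∈ U) (h1 : (1 : ℂ) ∈ U)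
    (g0 : g 0 ≠ 0) (g1 : g 1 ≠ 0) : ∃ T : Set ℂ, IsPreconnected T ∧ (0 : ℂ) ∈ T ∧ (1 : ℂ) ∈ T ∧ T ⊆ U ∧ ∀ t ∈ T, g t ≠ 0 := by
  -- the middle point
  have hm : ((1 / 2 : ℝ) : ℂ) ∈ U := by
    have h2 := hc h0 h1 (a := 1 / 2) (b := 1 / 2) (by norm_num) (by norm_num) (by norm_num)
    have e : ((1 / 2 : ℝ)) • (0 : ℂ) + ((1 / 2 : ℝ)) • (1 : ℂ) = ((1 / 2 : ℝ) : ℂ) := by
      rw [smul_zero, zero_add, Complex.real_smul, mul_one]
    rwa [e] at h2
  have hcont : Continuous fun s : ℝ => (⟨1 / 2, s⟩ : ℂ) := by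
    have e : (fun s : ℝ => (⟨1 / 2, s⟩ : ℂ)) = fun s : ℝ => ((1 / 2 : ℝ) : ℂ) + (s : ℂ) * Complex.I := by
      funext s
      apply Complex.ext <;> simp
    rw [e]
    fun_prop
  have hev : ∀ᶠ s : ℝ in 𝓝 0, (⟨1 / 2, s⟩ : ℂ) ∈ U := by
    refine hcont.continuousAt.eventually_mem (hU.mem_nhds ?_)
    have e : (⟨1 / 2, 0⟩ : ℂ) = ((1 / 2 : ℝ) : ℂ) := by apply Complex.ext <;> simp
    rw [e]
    exact hm
  obtain ⟨η, hη, hηU⟩ := Metric.eventually_nhds_iff.1 hev
  set K : Set ℂ := convexHull ℝ {(0 : ℂ), 1, ⟨1 / 2, η / 2⟩} with hK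
  have hKU : K ⊆ U := by
    refine convexHull_min ?_ hc
    intro z hz
    rcases hz with rfl | rfl | rfl
    · exact h0
    · exact h1
    · refine hηU ?_
      rw [Real.dist_eq, sub_zero, abs_of_pos (half_pos hη)]
      linarith
  have hfin3 : ({(0 : ℂ), 1, ⟨1 / 2, η / 2⟩} : Set ℂ).Finite := Set.toFinite _
  have hKc : IsCompact K := Set.Finite.isCompact_convexHull (𝕜 := ℝ) hfin3
  have hKconv : Convex ℝ K := convex_convexHull ℝ _
  have hK0 : (0 : ℂ) ∈ K := subset_convexHull ℝ _ (by simp)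
  have hK1 : (1 : ℂ) ∈ K := subset_convexHull ℝ _ (by simp)
  have hKη : (⟨1 / 2, η / 2⟩ : ℂ) ∈ K := subset_convexHull ℝ _ (by simp)
  have hKm : (⟨1 / 2, 0⟩ : ℂ) ∈ K := by
    have h2 := hKconv hK0 hK1 (a := 1 / 2) (b := 1 / 2) (by norm_num) (by norm_num) (by norm_num)
    have e : ((1 / 2 : ℝ)) • (0 : ℂ) + ((1 / 2 : ℝ)) • (1 : ℂ) = (⟨1 / 2, 0⟩ : ℂ) := by
      apply Complex.ext <;> simp
    rwa [e] at h2
  have hKs : ∀ s : ℝ, 0 < s → s < η / 2 → (⟨1 / 2, s⟩ : ℂ) ∈ K := by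
    intro s hs hs2
    have h2 := hKconv hKm hKη (a := 1 - s / (η / 2)) (b := s / (η / 2)) (by
      rw [sub_nonneg, div_le_one (half_pos hη)]
      exact hs2.le) (by positivity) (by ring)
    have e : (1 - s / (η / 2)) • (⟨1 / 2, 0⟩ : ℂ) + (s / (η / 2)) • (⟨1 / 2, η / 2⟩ : ℂ) = (⟨1 / 2, s⟩ : ℂ) := by
      apply Complex.ext
      · simp only [Complex.add_re, Complex.real_smul, Complex.mul_re, Complex.ofReal_re, Complex.ofReal_im, zero_mul, sub_zero]
        ring
      · simp only [Complex.add_im, Complex.real_smul, Complex.mul_im, Complex.ofReal_re, Complex.ofReal_im, zero_mul, add_zero, mul_zero]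
        field_simp
        ring
    rwa [e] at h2
  -- finitely many zeros
  set Z : Set ℂ := {t : ℂ | t ∈ K ∧ g t = 0} with hZ
  have hZfin : Z.Finite := by
    by_contra hinf
    obtain ⟨x, hxK, hx⟩ := Set.Infinite.exists_accPt_of_subset_isCompact hinf hKc fun t ht => ht.1
    have h2 : ∃ᶠ z in 𝓝[≠] x, g z = 0 := by
      rw [accPt_iff_frequently_nhdsNE] at hx
      exact hx.mono fun z hz => hz.2
    have h3 := hg.eqOn_zero_of_preconnected_of_frequently_eq_zero hc.isPreconnected (hKU hxK) h2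
    exact g0 (h3 h0)
  -- a good middle point
  obtain ⟨s, hs, hsb⟩ : ∃ s ∈ Set.Ioo (0 : ℝ) (η / 2), s ∉ ((fun z : ℂ => z.im / (2 * z.re)) '' Z ∪ (fun z : ℂ => z.im / (2 * (1 - z.re))) '' Z) :=
    ((Set.Ioo_infinite (half_pos hη)).sdiff ((hZfin.image _).union (hZfin.image _))).nonempty
  have hsK := hKs s hs.1 hs.2
  have hseg1 : segment ℝ (0 : ℂ) ⟨1 / 2, s⟩ ⊆ K := hKconv.segment_subset hK0 hsK
  have hseg2 : segment ℝ (⟨1 / 2, s⟩ : ℂ) 1 ⊆ K := hKconv.segment_subset hsK hK1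
  refine ⟨segment ℝ (0 : ℂ) ⟨1 / 2, s⟩ ∪ segment ℝ (⟨1 / 2, s⟩ : ℂ) 1, ?_, Or.inl (left_mem_segment ℝ _ _), Or.inr (right_mem_segment ℝ _ _),
    fun t ht => hKU (ht.elim (fun h => hseg1 h) fun h => hseg2 h), fun t ht htz => ?_⟩
  · exact IsPreconnected.union (⟨1 / 2, s⟩ : ℂ) (right_mem_segment ℝ _ _) (left_mem_segment ℝ _ _) (convex_segment _ _).isPreconnected
      (convex_segment _ _).isPreconnected
  · rcases ht with ht | ht
    · have htK := hseg1 ht
      obtain ⟨a, b, ha, hb, hab, rfl⟩ := ht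
      have hb0 : b ≠ 0 := by
        rintro rfl
        rw [smul_zero, zero_smul, add_zero] at htz
        exact g0 htz
      refine hsb (Or.inl ⟨_, ⟨htK, htz⟩, ?_⟩)
      simp only [Complex.add_re, Complex.add_im, Complex.real_smul, Complex.mul_re, Complex.mul_im, Complex.ofReal_re, Complex.ofReal_im, zero_mul, sub_zero,
        add_zero, mul_zero, zero_add, Complex.zero_re, Complex.zero_im]
      field_simp
    · have htK := hseg2 ht
      obtain ⟨a, b, ha, hb, hab, rfl⟩ := ht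
      have ha0 : a ≠ 0 := by
        rintro rfl
        rw [zero_add] at hab
        rw [hab, zero_smul, zero_add, one_smul] at htz
        exact g1 htz
      refine hsb (Or.inr ⟨_, ⟨htK, htz⟩, ?_⟩)
      simp only [Complex.add_re, Complex.add_im, Complex.real_smul, Complex.mul_re, Complex.mul_im, Complex.ofReal_re, Complex.ofReal_im, zero_mul, sub_zero,
        add_zero, mul_zero, zero_add, Complex.one_re, Complex.one_im, mul_one]
      have hb' : b = 1 - a := by linarith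
      rw [hb']
      have e : 2 * (1 - (a * (1 / 2) + (1 - a))) = a := by ring
      rw [e]
      field_simp

/-- the complement of the zeros of an analytic function in a ball -/
private theorem Cn_ball {n : ℕ} {y : Vd n} {r : ℝ} {h : Vd n → ℂ} (hh : AnalyticOnNhd ℂ h (ball y r)) : IsPreconnected (ball y r \ {z | h z = 0}) := by
  refine isPreconnected_of_forall_pair fun a ha b hb => ?_
  have hφ : Continuous fun t : ℂ => a + t • (b - a) := by fun_prop
  set U : Set ℂ := {t : ℂ | a + t • (b - a) ∈ ball y r} with hU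
  have hUo : IsOpen U := isOpen_ball.preimage hφ
  have hUc : Convex ℝ U := by
    intro t ht t' ht' p q hp hq hpq
    show a + (p • t + q • t') • (b - a) ∈ ball y r
    have e : a + (p • t + q • t') • (b - a) = p • (a + t • (b - a)) + q • (a + t' • (b - a)) := by
      have e1 : a = p • a + q • a := by rw [← add_smul, hpq, one_smul]
      calc a + (p • t + q • t') • (b - a) = (p • a + q • a) + (p • t + q • t') • (b - a) := by rw [← e1]
        _ = p • (a + t • (b - a)) + q • (a + t' • (b - a)) := by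
          rw [add_smul, smul_assoc, smul_assoc, smul_add, smul_add]
          abel
    rw [e]
    exact convex_ball y r ht ht' hp hq hpq
  have e0 : a + (0 : ℂ) • (b - a) = a := by rw [zero_smul, add_zero]
  have e1 : a + (1 : ℂ) • (b - a) = b := by rw [one_smul, add_sub_cancel]
  have hg : AnalyticOnNhd ℂ (fun t : ℂ => h (a + t • (b - a))) U := fun t ht =>
    AnalyticAt.fun_comp (g := h) (f := fun t : ℂ => a + t • (b - a)) (hh _ ht) (by fun_prop)
  obtain ⟨T, hT, h0T, h1T, hTU, hTg⟩ := Cn_plane hUo hUc hg (by show a + (0 : ℂ) • (b - a) ∈ ball y r; rw [e0]; exact ha.1)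
    (by show a + (1 : ℂ) • (b - a) ∈ ball y r; rw [e1]; exact hb.1) (by show h (a + (0 : ℂ) • (b - a)) ≠ 0; rw [e0]; exact ha.2)
    (by show h (a + (1 : ℂ) • (b - a)) ≠ 0; rw [e1]; exact hb.2)
  refine ⟨(fun t : ℂ => a + t • (b - a)) '' T, ?_, ⟨0, h0T, e0⟩, ⟨1, h1T, e1⟩, hT.image _ hφ.continuousOn⟩
  rintro _ ⟨t, ht, rfl⟩
  exact ⟨hTU ht, hTg t ht⟩

theorem compl_conn {D : Set (Vd (k + 1))} (hc : IsClosed D)
    (hD : ∀ y : Vd (k + 1), ∃ h : Vd (k + 1) → ℂ, AnalyticAt ℂ h y ∧ (∀ᶠ z in 𝓝 y, z ∈ D → h z = 0) ∧ ¬ ∀ᶠ z in 𝓝 y, h z = 0) :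
    IsPreconnected Dᶜ := by
  rw [isPreconnected_iff_subset_of_disjoint]
  intro u v hu hv huv hdis
  by_contra hcon
  push Not at hcon
  obtain ⟨h1, h2⟩ := hcon
  rw [Set.not_subset] at h1 h2
  obtain ⟨a, ha, hau⟩ := h1
  obtain ⟨b, hb, hbv⟩ := h2
  have hav : a ∈ v := (huv ha).resolve_left hau
  have hbu : b ∈ u := (huv hb).resolve_right hbv
  have hcov : (Set.univ : Set (Vd (k + 1))) ⊆ closure (Dᶜ ∩ u) ∪ closure (Dᶜ ∩ v) := by
    rw [← closure_union, ← Set.inter_union_distrib_left, Set.inter_eq_left.2 huv]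
    exact fun y _ => compl_dense hD y
  obtain ⟨y, -, hyu, hyv⟩ := (isPreconnected_closed_iff.1 isPreconnected_univ) _ _ isClosed_closure isClosed_closure hcov
    ⟨b, Set.mem_univ _, subset_closure ⟨hb, hbu⟩⟩ ⟨a, Set.mem_univ _, subset_closure ⟨ha, hav⟩⟩
  obtain ⟨h, hh, hhD, hh0⟩ := hD y
  obtain ⟨r, hr, hball⟩ := Metric.eventually_nhds_iff_ball.1 (hh.eventually_analyticAt.and hhD)
  set S : Set (Vd (k + 1)) := ball y r \ {z | h z = 0} with hS
  have hSc : IsPreconnected S := Cn_ball fun z hz => (hball z hz).1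
  have hSD : S ⊆ Dᶜ := fun z hz hzD => hz.2 ((hball z hz.1).2 hzD)
  -- `S` is dense in the ball
  have hdense : ∀ W : Set (Vd (k + 1)), IsOpen W → (W ∩ ball y r).Nonempty → (W ∩ S).Nonempty := by
    rintro W hW ⟨w, hwW, hwb⟩
    by_contra hne
    rw [Set.not_nonempty_iff_eq_empty] at hne
    have hz : ∀ᶠ z in 𝓝 w, h z = 0 := by
      filter_upwards [hW.mem_nhds hwW, isOpen_ball.mem_nhds hwb] with z hzW hzb
      by_contra hz
      have : z ∈ W ∩ S := ⟨hzW, hzb, hz⟩
      rw [hne] at this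
      exact this
    have h3 := AnalyticOnNhd.eqOn_zero_of_preconnected_of_eventuallyEq_zero (f := h) (U := ball y r) (fun z hz => (hball z hz).1)
      (convex_ball y r).isPreconnected hwb hz
    refine hh0 ?_
    filter_upwards [ball_mem_nhds y hr] with z hz
    exact h3 hz
  have hmeet : ∀ W : Set (Vd (k + 1)), IsOpen W → y ∈ closure (Dᶜ ∩ W) → (S ∩ W).Nonempty := by
    intro W hW hyW
    obtain ⟨z, hzb, hzD, hzW⟩ := mem_closure_iff.1 hyW _ isOpen_ball (mem_ball_self hr)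
    obtain ⟨x, hx1, hx2⟩ := hdense W hW ⟨z, hzW, hzb⟩
    exact ⟨x, hx2, hx1⟩
  rcases (isPreconnected_iff_subset_of_disjoint.1 hSc) u v hu hv (hSD.trans huv) (by
    rw [← Set.subset_empty_iff, ← hdis]
    exact Set.inter_subset_inter_left _ hSD) with hSu | hSv
  · obtain ⟨x, hx1, hx2⟩ := hmeet v hv hyv
    have : x ∈ Dᶜ ∩ (u ∩ v) := ⟨hSD hx1, hSu hx1, hx2⟩
    rw [hdis] at this
    exact this
  · obtain ⟨x, hx1, hx2⟩ := hmeet u hu hyu
    have : x ∈ Dᶜ ∩ (u ∩ v) := ⟨hSD hx1, hx2, hSv hx1⟩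
    rw [hdis] at this
    exact this

end Pool.Agent.TG
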