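import Pool.Agent.TG.Gd
import Pool.Agent.AD.ChartBasic

/-!
# TG Tc: coefficients of forms in charts

Port of `Pool/Agent/H62/EL/Tc.lean` (copy it and change `ℂ × ℂ` to `Vd (k + 2)`).  `tc_an`: `VForm.analytic` with `φ = χ.σ`.

`tan_decomp`: a curve `γ` in `X` near `x ∈ X ∩ χ.U` is `c ξ • χ.σ (χ.q (γ ξ))` with `c` analytic (`AD.Chart.curve`); differentiate at `0`.

`toFun_eq`: by `tan_decomp` `x = c • χ.σ p`, `p = χ.q x`, `v i = c • (Σ_j (fderiv χ.q x (v i)) j • ∂_j χ.σ p) + a_i • x`.  `add_smul`, `scale`, `det`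
(the vectors `∂_j χ.σ p = fderiv ℂ χ.σ p (Pi.single j 1)` are tangent: `tan_sigma`), and
`α.toFun y (c • x') (fun i => c • v' i) = α.toFun y x' v'` with `u x' - y ∈ Λ` (`TMap.smul`).
`tc_trans`: `toFun_eq` for `x = χ'.σ p`, `v i = fderiv ℂ χ'.σ p (Pi.single i 1)`; `fderiv χ.q x (v i) = fderiv (χ.q ∘ χ'.σ) p (Pi.single i 1)` (chain rule);
`ContinuousLinearMap.det` of a map of `Fin n → ℂ` is the determinant of its matrix (`LinearMap.det_toLin'`, `LinearMap.toMatrix'_apply`; transpose: `Matrix.det_transpose`).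
`zr_iff`: `→`: if `x ∈ X`, `pr x = pr (χ.σ p)`, then `x = a • χ.σ p` (`pr_eq_iff`); use `scale`.  `←`: `x = χ.σ p` and `toFun_eq`.
-/

set_option autoImplicit false

open Topology Filter Metric

namespace Pool.Agent.TG

open Pool.Agent.H36.BP (EN fs wd)
open Pool.Agent.H14.PP (IsCone CurveAt Tan)
open Pool.Agent.H62.EF (MN pr)
open Pool.Agent.AD (Vd Chart Charts IsGerm)

variable {N k : ℕ}


variable {X : Set (EN N)} {Λ : AddSubgroup (Vd (k + 1))} {u : EN N → Vd (k + 1)}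

theorem tc_an (α : VForm X Λ u) (χ : Chart (k + 2) X) {υ : Vd (k + 2) → Vd (k + 1)} {p : Vd (k + 2)} (hp : p ∈ ball (0 : Vd (k + 2)) 2)
    (hυ : AnalyticAt ℂ υ p) (hl : ∀ᶠ q in 𝓝 p, u (χ.σ q) - υ q ∈ Λ) : AnalyticAt ℂ (tc α χ υ) p := by
  refine α.analytic χ.σ υ p (χ.σ_an p hp) hυ ?_
  filter_upwards [hl, isOpen_ball.mem_nhds hp] with y hy hy2
  exact ⟨(χ.σ_mem y hy2).1, hy⟩

theorem tan_sigma {d : ℕ} (χ : Chart d X) {p : Vd d} (hp : p ∈ ball (0 : Vd d) 2) (w : Vd d) :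
    Tan X (χ.σ p) (fderiv ℂ χ.σ p w) := by
  have hl : AnalyticAt ℂ (fun z : ℂ => p + z • w) 0 := by fun_prop
  have h0 : p + (0 : ℂ) • w = p := by simp
  have hσ : AnalyticAt ℂ χ.σ (p + (0 : ℂ) • w) := by rw [h0]; exact χ.σ_an p hp
  have hF : AnalyticAt ℂ (fun z : ℂ => χ.σ (p + z • w)) 0 :=
    AnalyticAt.comp (g := χ.σ) (f := fun z : ℂ => p + z • w) hσ hl
  refine ⟨fun z => χ.σ (p + z • w), ⟨hF, ?_⟩, by simp, ?_⟩
  · have h6 : ∀ᶠ z : ℂ in 𝓝 0, p + z • w ∈ ball (0 : Vd d) 2 := by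
      have h7 := hl.continuousAt
      apply h7.eventually_mem
      rw [h0]
      exact isOpen_ball.mem_nhds hp
    filter_upwards [h6] with z hz'
    exact (χ.σ_mem _ hz').1
  · have h1 : HasFDerivAt χ.σ (fderiv ℂ χ.σ p) (p + (0 : ℂ) • w) := by
      rw [h0]
      exact (χ.σ_an p hp).differentiableAt.hasFDerivAt
    have h2 : HasDerivAt (fun z : ℂ => p + z • w) w 0 := by
      have h3 : HasDerivAt (fun z : ℂ => z • w) ((1 : ℂ) • w) 0 :=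
        (hasDerivAt_id (0 : ℂ)).smul_const w
      rw [one_smul] at h3
      exact h3.const_add p
    exact (h1.comp_hasDerivAt (0 : ℂ) h2).deriv

theorem tan_decomp {d : ℕ} (hX : IsCone X) (χ : Chart d X) {x v : EN N} (hx : x ∈ X) (hU : x ∈ χ.U) (hv : Tan X x v) :
    ∃ c a : ℂ, c ≠ 0 ∧ x = c • χ.σ (χ.q x) ∧ v = c • fderiv ℂ χ.σ (χ.q x) (fderiv ℂ χ.q x v) + a • x := by
  obtain ⟨F, hF, hF0, hFd⟩ := hv
  have hU' : F 0 ∈ χ.U := by rw [hF0]; exact hU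
  obtain ⟨h1, h1d, c, hc, hc0, hev⟩ := χ.curve hX hF hU'
  have hx0 : x = c 0 • χ.σ (χ.q x) := by
    have h2 := hev.self_of_nhds.2
    rwa [hF0] at h2
  have hb : χ.q (F 0) ∈ ball (0 : Vd d) 2 := hev.self_of_nhds.1
  refine ⟨c 0, deriv c 0 * (c 0)⁻¹, hc0, hx0, ?_⟩
  have hσ : HasFDerivAt χ.σ (fderiv ℂ χ.σ (χ.q (F 0))) (χ.q (F 0)) := (χ.σ_an _ hb).differentiableAt.hasFDerivAt
  have hD1 : HasDerivAt (fun z => χ.σ (χ.q (F z))) (fderiv ℂ χ.σ (χ.q (F 0)) (deriv (fun z => χ.q (F z)) 0)) 0 :=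
    hσ.comp_hasDerivAt (0 : ℂ) h1.differentiableAt.hasDerivAt
  have hD2 : HasDerivAt (fun z => c z • χ.σ (χ.q (F z)))
      (c 0 • fderiv ℂ χ.σ (χ.q (F 0)) (deriv (fun z => χ.q (F z)) 0) + deriv c 0 • χ.σ (χ.q (F 0))) 0 :=
    hc.differentiableAt.hasDerivAt.smul hD1
  have hD3 : HasDerivAt F (c 0 • fderiv ℂ χ.σ (χ.q (F 0)) (deriv (fun z => χ.q (F z)) 0) + deriv c 0 • χ.σ (χ.q (F 0))) 0 :=
    hD2.congr_of_eventuallyEq (hev.mono fun z hz => hz.2)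
  have h5 : v = c 0 • fderiv ℂ χ.σ (χ.q x) (fderiv ℂ χ.q x v) + deriv c 0 • χ.σ (χ.q x) := by
    rw [h1d, hF0, hFd] at hD3
    rw [← hFd]
    exact hD3.deriv.trans (by rw [hFd])
  have h6 : deriv c 0 • χ.σ (χ.q x) = (deriv c 0 * (c 0)⁻¹) • x := by
    conv_rhs => rw [hx0]
    rw [smul_smul, mul_assoc, inv_mul_cancel₀ hc0, mul_one]
  rw [h6] at h5
  exact h5

private theorem Tc_tan_smul (hX : IsCone X) {x v : EN N} (h : Tan X x v) {c : ℂ} (hc : c ≠ 0) : Tan X (c • x) (c • v) := by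
  obtain ⟨F, hF, hF0, hFd⟩ := h
  refine ⟨fun z => c • F z, ⟨AnalyticAt.fun_smul analyticAt_const hF.1, ?_⟩, ?_, ?_⟩
  · filter_upwards [hF.2] with z hz
    exact hX.smul_mem _ hz c hc
  · show c • F 0 = c • x
    rw [hF0]
  · have h1 : HasDerivAt (fun z => c • F z) (c • deriv F 0) 0 :=
      hF.1.differentiableAt.hasDerivAt.const_smul c
    rw [h1.deriv, hFd]

/-- the expansion of a linear map in the standard basis -/
private theorem Tc_lin_sum {d : ℕ} {E : Type} [NormedAddCommGroup E] [NormedSpace ℂ E] (L : Vd d →L[ℂ] E) (w : Vd d) :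
    L w = ∑ j, w j • L (Pi.single j 1) := by
  have h1 : w = ∑ j, w j • (Pi.single j 1 : Vd d) := by
    funext i
    rw [Finset.sum_apply]
    simp [Pi.single_apply]
  conv_lhs => rw [h1]
  rw [map_sum]
  exact Finset.sum_congr rfl fun j _ => by rw [map_smul]

private theorem Tc_val (α : VForm X Λ u) (χ : Chart (k + 2) X) {p : Vd (k + 2)} {y : Vd (k + 1)}
    (hp : p ∈ ball (0 : Vd (k + 2)) 2) (hl : u (χ.σ p) - y ∈ Λ) (A : Fin (k + 2) → Vd (k + 2)) :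
    α.toFun y (χ.σ p) (fun i => fderiv ℂ χ.σ p (A i)) =
      (Matrix.of A).det * α.toFun y (χ.σ p) (fun i => fderiv ℂ χ.σ p (Pi.single i 1)) := by
  have hx := (χ.σ_mem p hp).1
  have h3 := α.det y (χ.σ p) hx hl (fun i => fderiv ℂ χ.σ p (Pi.single i 1)) (fun i => tan_sigma χ hp _) (Matrix.of A)
  rw [← h3]
  congr 1
  funext i
  exact Tc_lin_sum _ _

theorem toFun_eq (hX : IsCone X) (hu : TMap X Λ u) (α : VForm X Λ u) (χ : Chart (k + 2) X) {x : EN N} (hx : x ∈ X) (hU : x ∈ χ.U)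
    {y : Vd (k + 1)} (hy : u x - y ∈ Λ) {υ : Vd (k + 2) → Vd (k + 1)} (he : υ (χ.q x) = y) (v : Fin (k + 2) → EN N)
    (hv : ∀ i, Tan X x (v i)) :
    α.toFun y x v = (Matrix.of fun i j => fderiv ℂ χ.q x (v i) j).det * tc α χ υ (χ.q x) := by
  obtain ⟨hb, c, hc, hcx⟩ := χ.surj x hx hU
  have hσ0 : χ.σ (χ.q x) ≠ 0 := χ.sigma_ne_zero hX hb
  have hσX : χ.σ (χ.q x) ∈ X := (χ.σ_mem _ hb).1
  have key : ∀ i, ∃ a : ℂ, v i = c • fderiv ℂ χ.σ (χ.q x) (fderiv ℂ χ.q x (v i)) + a • x := by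
    intro i
    obtain ⟨c', a, hc', hx', hvi⟩ := tan_decomp hX χ hx hU (hv i)
    have h1 : (c' - c) • χ.σ (χ.q x) = 0 := by
      rw [sub_smul, ← hx', ← hcx, sub_self]
    have h2 : c' = c := sub_eq_zero.1 ((smul_eq_zero.1 h1).resolve_right hσ0)
    rw [h2] at hvi
    exact ⟨a, hvi⟩
  choose a ha using key
  set A : Fin (k + 2) → Vd (k + 2) := fun i => fderiv ℂ χ.q x (v i) with hA
  have htA : ∀ i, Tan X (χ.σ (χ.q x)) (fderiv ℂ χ.σ (χ.q x) (A i)) := fun i => tan_sigma χ hb (A i)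
  have hl2 : u (χ.σ (χ.q x)) - y ∈ Λ := by
    have h1 : u (c • χ.σ (χ.q x)) - u (χ.σ (χ.q x)) ∈ Λ := hu.smul _ hσX c hc
    rw [← hcx] at h1
    have h2 := Λ.sub_mem hy h1
    have e : u x - y - (u x - u (χ.σ (χ.q x))) = u (χ.σ (χ.q x)) - y := by abel
    rwa [e] at h2
  have hcX : c • χ.σ (χ.q x) ∈ X := hX.smul_mem _ hσX c hc
  have hl1 : u (c • χ.σ (χ.q x)) - y ∈ Λ := smul_mem_lat hu hσX hl2 hc
  have h1 := α.add_smul y (c • χ.σ (χ.q x)) hcX hl1 (fun i => c • fderiv ℂ χ.σ (χ.q x) (A i)) (fun i => Tc_tan_smul hX (htA i) hc) a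
  have h2 := α.scale y (χ.σ (χ.q x)) hσX hl2 (fun i => fderiv ℂ χ.σ (χ.q x) (A i)) htA c hc
  have h3 := Tc_val α χ hb (y := y) hl2 A
  have h4 : α.toFun y x v = α.toFun y (c • χ.σ (χ.q x)) (fun i => c • fderiv ℂ χ.σ (χ.q x) (A i)) := by
    rw [← h1]
    rw [show v = fun i => c • fderiv ℂ χ.σ (χ.q x) (A i) + a i • x from funext ha]
    exact congrArg (fun z => α.toFun y z fun i => c • fderiv ℂ χ.σ (χ.q x) (A i) + a i • z) hcx
  rw [h4, h2, h3]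
  congr 1
  show α.toFun y _ _ = α.toFun (υ (χ.q x)) _ _
  rw [he]

private theorem Tc_det (L : Vd (k + 2) →L[ℂ] Vd (k + 2)) : (Matrix.of fun i j : Fin (k + 2) => L (Pi.single i 1) j).det = L.det := by
  rw [ContinuousLinearMap.det, ← LinearMap.det_toMatrix', ← Matrix.det_transpose]
  congr 1

theorem tc_trans (hX : IsCone X) (hu : TMap X Λ u) (α : VForm X Λ u) (χ χ' : Chart (k + 2) X) {υ υ' : Vd (k + 2) → Vd (k + 1)} {p : Vd (k + 2)}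
    (hp : p ∈ ball (0 : Vd (k + 2)) 2) (hU : χ'.σ p ∈ χ.U) (hl : u (χ'.σ p) - υ' p ∈ Λ) (he : υ (χ.q (χ'.σ p)) = υ' p) :
    tc α χ' υ' p = tc α χ υ (χ.q (χ'.σ p)) * (fderiv ℂ (fun y => χ.q (χ'.σ y)) p).det := by
  have h1 := toFun_eq hX hu α χ (χ'.σ_mem p hp).1 hU hl he (fun i => fderiv ℂ χ'.σ p (Pi.single i 1)) (fun i => tan_sigma χ' hp _)
  have h2 : ∀ w : Vd (k + 2), fderiv ℂ χ.q (χ'.σ p) (fderiv ℂ χ'.σ p w) = fderiv ℂ (fun y => χ.q (χ'.σ y)) p w := by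
    intro w
    have h3 : HasFDerivAt (fun y => χ.q (χ'.σ y)) ((fderiv ℂ χ.q (χ'.σ p)).comp (fderiv ℂ χ'.σ p)) p :=
      (χ.q_an _ hU).differentiableAt.hasFDerivAt.comp p (χ'.σ_an p hp).differentiableAt.hasFDerivAt
    rw [h3.fderiv]
    rfl
  simp only [h2] at h1
  rw [Tc_det] at h1
  rw [mul_comm]
  exact h1

theorem zr_iff (hX : IsCone X) (hu : TMap X Λ u) (α : VForm X Λ u) (χ : Chart (k + 2) X) {υ : Vd (k + 2) → Vd (k + 1)} {p : Vd (k + 2)}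
    (hp : p ∈ ball (0 : Vd (k + 2)) 2) (hl : u (χ.σ p) - υ p ∈ Λ) : Zr α (υ p) (pr (χ.σ p)) ↔ tc α χ υ p = 0 := by
  have hm := χ.σ_mem p hp
  constructor
  · rintro ⟨x, hx, hpr, hz, h0⟩
    obtain ⟨c, hc, rfl⟩ := (Pool.Agent.H62.EF.pr_eq_iff
      (Pool.Agent.H14.PP.IsCone.ne_zero hX hx) (χ.sigma_ne_zero hX hp)).1 hpr
    have ht : ∀ i : Fin (k + 2), Tan X (χ.σ p) (fderiv ℂ χ.σ p (Pi.single i 1)) := fun i => tan_sigma χ hp _
    have h1 := h0 (fun i => c • fderiv ℂ χ.σ p (Pi.single i 1)) fun i => Tc_tan_smul hX (ht i) hc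
    rw [α.scale (υ p) (χ.σ p) hm.1 hl _ ht c hc] at h1
    exact h1
  · intro h0
    refine ⟨χ.σ p, hm.1, rfl, hl, ?_⟩
    intro v hv
    rw [toFun_eq hX hu α χ hm.1 hm.2.1 hl (υ := υ) (by rw [hm.2.2]) v hv, hm.2.2, h0, mul_zero]

end Pool.Agent.TG
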