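import Pool.Agent.TG.Core

/-!
# TG Trl: translation in the torus: the finiteness theorem for a form which vanishes on the fibre over an arbitrary point off `D`
-/

set_option autoImplicit false

open Topology Filter Metric

namespace Pool.Agent.TG

open Pool.Agent.H36.BP (EN fs wd)
open Pool.Agent.H14.PP (IsCone CurveAt Tan)
open Pool.Agent.H62.EF (MN pr)
open Pool.Agent.AD (Vd Chart Charts IsGerm)

variable {N k : ℕ} {X : Set (EN N)} {Λ : AddSubgroup (Vd (k + 1))} {u : EN N → Vd (k + 1)} {D B : Set (Vd (k + 1))}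

/-- the translated map -/
def uTr (u : EN N → Vd (k + 1)) (a : Vd (k + 1)) (x : EN N) : Vd (k + 1) := u x - a

/-- the translated set -/
def dTr (D : Set (Vd (k + 1))) (a : Vd (k + 1)) : Set (Vd (k + 1)) := {y | y + a ∈ D}

theorem uTr_sub (u : EN N → Vd (k + 1)) (a : Vd (k + 1)) (x : EN N) (y : Vd (k + 1)) : uTr u a x - y = u x - (y + a) := by
  unfold uTr
  abel

theorem mem_uTr {a : Vd (k + 1)} {x : EN N} {y : Vd (k + 1)} : uTr u a x - y ∈ Λ ↔ u x - (y + a) ∈ Λ := by rw [uTr_sub]

theorem trAn (a y : Vd (k + 1)) : AnalyticAt ℂ (fun z : Vd (k + 1) => z + a) y := analyticAt_id.add analyticAt_const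

theorem TMap.trl (h : TMap X Λ u) (a : Vd (k + 1)) : TMap X Λ (uTr u a) where
  smul := fun x hx c hc => by
    have h1 := h.smul x hx c hc
    have h2 : uTr u a (c • x) - uTr u a x = u (c • x) - u x := by
      unfold uTr
      abel
    rwa [h2]
  loc := fun x hx => by
    obtain ⟨v, hv, h1⟩ := h.loc x hx
    refine ⟨fun y => v y - a, hv.sub analyticAt_const, ?_⟩
    filter_upwards [h1] with y hy hyX
    have h2 : uTr u a y - (v y - a) = u y - v y := by
      unfold uTr
      abel
    rw [h2]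
    exact hy hyX

theorem Geo.trl (G : Geo X Λ u D B) (a : Vd (k + 1)) : Geo X Λ (uTr u a) (dTr D a) (dTr B a) where
  cone := G.cone
  charts := G.charts
  tor := G.tor.trl a
  lat := G.lat
  D_closed := G.D_closed.preimage (continuous_id.add continuous_const)
  D_inv := fun y hy l hl => by
    have h1 := G.D_inv _ hy l hl
    have h2 : y + l + a = y + a + l := by abel
    show y + l + a ∈ D
    rw [h2]
    exact h1
  D_thin := fun y => by
    obtain ⟨h, h1, h2, h3⟩ := G.D_thin (y + a)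
    have hc : Tendsto (fun z : Vd (k + 1) => z + a) (𝓝 y) (𝓝 (y + a)) := (trAn a y).continuousAt.tendsto
    refine ⟨fun z => h (z + a), AnalyticAt.fun_comp (g := h) (f := fun z : Vd (k + 1) => z + a) h1 (trAn a y), hc.eventually h2, fun h4 => h3 ?_⟩
    have hc' : Tendsto (fun z : Vd (k + 1) => z - a) (𝓝 (y + a)) (𝓝 y) := by
      have h5 : Continuous fun z : Vd (k + 1) => z - a := continuous_id.sub continuous_const
      have h6 := h5.tendsto (y + a)
      rwa [add_sub_cancel_right] at h6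
    filter_upwards [hc'.eventually h4] with z hz
    rwa [sub_add_cancel] at hz
  B_lines := fun e he => by
    have h1 := G.B_lines e he
    have h2 := (MeasureTheory.measurePreserving_add_right (MeasureTheory.volume : MeasureTheory.Measure (Vd (k + 1))) a).quasiMeasurePreserving.tendsto_ae.eventually h1
    filter_upwards [h2] with y hy z
    have h3 : y + z • e + a = y + a + z • e := by abel
    show ¬ (y + z • e + a ∈ B)
    rw [h3]
    exact hy z
  sub := fun y hy x hx hxy => by
    obtain ⟨σ, τ, h1, h2, h3⟩ := G.sub (y + a) hy x hx (mem_uTr.1 hxy)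
    refine ⟨σ, τ, h1, h2, ?_⟩
    filter_upwards [h3] with p hp
    rw [mem_uTr]
    have h4 : y + tl p + a = y + a + tl p := by abel
    rwa [h4]
  fib := fun y hy F hF hFX hFu hL => G.fib (y + a) hy F hF hFX (fun z => mem_uTr.1 (hFu z)) hL
  nc := fun y hy hyB => by
    obtain ⟨κ, hκ, h1⟩ := G.nc (y + a) hy hyB
    refine ⟨fun q => κ q - a, ⟨hκ.an.sub analyticAt_const, ?_, ?_, ?_⟩, fun x hx hxy => ?_⟩
    · show κ 0 - a = y
      rw [hκ.zero, add_sub_cancel_right]
    · rw [fderiv_sub_const]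
      exact hκ.inj
    · filter_upwards [hκ.mem_iff] with q hq
      rw [← hq]
      show κ q - a + a ∈ D ↔ κ q ∈ D
      rw [sub_add_cancel]
    · obtain ⟨σ, τ, m, n, h2, h3, h4, h5⟩ := h1 x hx (mem_uTr.1 hxy)
      refine ⟨σ, τ, m, n, h2, h3, h4, ?_⟩
      filter_upwards [h5] with p hp
      rw [mem_uTr, sub_add_cancel]
      exact hp

/-- the translated form -/
def VForm.trl (α : VForm X Λ u) (a : Vd (k + 1)) : VForm X Λ (uTr u a) where
  toFun := fun y x v => α.toFun (y + a) x v
  add_smul := fun y x hx hy v hv b => α.add_smul (y + a) x hx (mem_uTr.1 hy) v hv b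
  det := fun y x hx hy v hv A => α.det (y + a) x hx (mem_uTr.1 hy) v hv A
  scale := fun y x hx hy v hv c hc => α.scale (y + a) x hx (mem_uTr.1 hy) v hv c hc
  analytic := fun φ υ p hφ hυ h => α.analytic φ (fun q => υ q + a) p hφ (hυ.add analyticAt_const) (by
    filter_upwards [h] with q hq
    exact ⟨hq.1, mem_uTr.1 hq.2⟩)

theorem Per.trl {α : VForm X Λ u} {Γ : AddSubgroup (Vd (k + 1))} (h : Per α Γ) (a : Vd (k + 1)) : Per (α.trl a) Γ := by
  intro y l hl x hx hxy v hv
  have h1 := h (y + a) l hl x hx (mem_uTr.1 hxy) v hv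
  show α.toFun (y + l + a) x v = α.toFun (y + a) x v
  have h2 : y + l + a = y + a + l := by abel
  rw [h2]
  exact h1

theorem Thin.trl {α : VForm X Λ u} (h : Thin α) (a : Vd (k + 1)) : Thin (α.trl a) := by
  intro χ υ p hp hυ hl
  exact h χ (fun q => υ q + a) p hp (hυ.add analyticAt_const) (by
    filter_upwards [hl] with q hq
    exact mem_uTr.1 hq)

/-- the form vanishes on the fibre over `a` -/
def VanAt (α : VForm X Λ u) (a : Vd (k + 1)) : Prop := ∀ x ∈ X, u x - a ∈ Λ → ∀ v : Fin (k + 2) → EN N, (∀ i, Tan X x (v i)) → α.toFun a x v = 0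

theorem VanAt.trl {α : VForm X Λ u} {a : Vd (k + 1)} (h : VanAt α a) : VanZero (α.trl a) := by
  intro x hx hxu v hv
  show α.toFun (0 + a) x v = 0
  rw [zero_add]
  exact h x hx hxu v hv

/-- the translated section -/
theorem sec_trl {f : Vd (k + 1) → MN N} (hf : f ∈ Sec X Λ u D) (a : Vd (k + 1)) : (fun y => f (y + a)) ∈ Sec X Λ (uTr u a) (dTr D a) := by
  refine ⟨fun y hy => ?_, fun y e he => ?_⟩
  · obtain ⟨φ, hφ, h⟩ := hf.1 (y + a) hy
    refine ⟨fun z => φ (z + a), AnalyticAt.fun_comp (g := φ) (f := fun z : Vd (k + 1) => z + a) hφ (trAn a y), ?_⟩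
    filter_upwards [(trAn a y).continuousAt.eventually h] with z hz
    exact ⟨hz.1, hz.2.1, mem_uTr.2 hz.2.2⟩
  · have h0 : ∀ z : ℂ, y + z • e + a = y + a + z • e := fun z => by abel
    obtain ⟨g, ⟨Φ, hΦ, hg⟩, hgf⟩ := hf.2 (y + a) e (by
      filter_upwards [he] with z hz
      rw [← h0]
      exact hz)
    refine ⟨g, ⟨Φ, hΦ, ?_⟩, ?_⟩
    · filter_upwards [hg] with z hz
      refine ⟨hz.1, hz.2.1, mem_uTr.2 ?_⟩
      rw [h0]
      exact hz.2.2
    · filter_upwards [hgf] with z hz
      rw [hz, ← h0]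

theorem finSec_trl {a : Vd (k + 1)} (h : FinSec X Λ (uTr u a) (dTr D a)) : FinSec X Λ u D := by
  obtain ⟨T, hT, h1⟩ := h
  refine ⟨(fun g : Vd (k + 1) → MN N => fun y => g (y - a)) '' T, hT.image _, fun f hf => ?_⟩
  obtain ⟨g, hg, h2⟩ := h1 _ (sec_trl hf a)
  refine ⟨_, ⟨g, hg, rfl⟩, fun y hy => ?_⟩
  have h3 := h2 (y - a) (by
    show ¬ (y - a + a ∈ D)
    rwa [sub_add_cancel])
  rwa [sub_add_cancel] at h3

/-- **Finiteness of the sections**, for a form which vanishes on the fibre over a point `a` off `D`. -/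
theorem finSec_at (G : Geo X Λ u D B) {a : Vd (k + 1)} (ha : a ∉ D) {Γ : AddSubgroup (Vd (k + 1))} (hΓ : Lat Γ) (hle : Γ ≤ Λ)
    {α : VForm X Λ u} (hper : Per α Γ) (hvan : VanAt α a) (hthin : Thin α) : FinSec X Λ u D := by
  refine finSec_trl (a := a) (finSec (G.trl a) ?_ hΓ hle (hper.trl a) hvan.trl (hthin.trl a))
  show ¬ (0 + a ∈ D)
  rwa [zero_add]

end Pool.Agent.TG
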