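import Pool.Agent.TG.FDefs
import Pool.Agent.TG.Tc
import Pool.Agent.TG.Trl
import Pool.Agent.H17G.ChG
import Pool.Agent.AD.T.Proj

/-!
# TG GuF: the form on the covering, from the projective space to the cone
-/

set_option autoImplicit false

open Topology Filter Metric MvPolynomial

noncomputable section

namespace Pool.Agent.TGF

open Pool.Agent.H17 (PN)
open Pool.Agent.H62.FC (Homog)
open Pool.Agent.H36.BP (EN)
open Pool.Agent.H14.PP (IsCone Tan)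
open Pool.Agent.H17EF (projVar coneE LE mem_coneE mk_mem_projVar)
open Pool.Agent.H17G (IsTangent isTangent_iff)
open Pool.Agent.AD (uV uV_eq sub_mem_iff Vd Chart isCone_coneE torusMapV IsHolomorphicTorusMap)
open Pool.Agent.TG (VForm Per Thin VanAt TMap Lat tc)

variable {N k : ℕ} {P : Ideal (MvPolynomial (Fin (N + 1)) ℂ)} {Λ Γ : AddSubgroup (Cn (k + 1))} {u : PN N → Cn (k + 1) ⧸ Λ}

theorem over_iff (hP : Homog P) {y : Cn (k + 1)} {x : EN N} : Over (projVar P) Λ u y ((LE N).symm x) ↔ x ∈ coneE P ∧ uV Λ u x - y ∈ Λ := by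
  constructor
  · rintro ⟨h, h1, h2⟩
    exact ⟨(mem_coneE hP).2 ⟨h, h1⟩, by rw [sub_mem_iff, uV_eq Λ u h]; exact h2⟩
  · rintro ⟨h1, h2⟩
    obtain ⟨h, h3⟩ := (mem_coneE hP).1 h1
    exact ⟨h, h3, by rw [← uV_eq Λ u h]; exact sub_mem_iff.1 h2⟩

theorem tMap_coneE (hP : Homog P) (hu : IsHolomorphicTorusMap (projVar P) Λ u) : TMap (coneE P) Λ (uV Λ u) :=
  ⟨(torusMapV hP hu).smul, (torusMapV hP hu).loc⟩

/-- the form on the covering of the cone -/
def vform (hP : Homog P) {Ω : Cn (k + 1) → Cn (N + 1) → (Fin (k + 2) → Cn (N + 1)) → ℂ} (hΩ : IsTopForm (projVar P) Λ Γ u Ω) :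
    VForm (coneE P) Λ (uV Λ u) where
  toFun y x v := Ω y ((LE N).symm x) fun i => (LE N).symm (v i)
  add_smul := by
    intro y x hx hy v hv a
    have h1 := hΩ.horizontal y _ ((over_iff hP).2 ⟨hx, hy⟩) (fun i => (LE N).symm (v i)) (fun i => (isTangent_iff hP hx).2 (hv i)) a
    rw [← h1]
    congr 1
  det := by
    intro y x hx hy v hv A
    have h1 := hΩ.alternating y _ ((over_iff hP).2 ⟨hx, hy⟩) (fun i => (LE N).symm (v i)) (fun i => (isTangent_iff hP hx).2 (hv i)) A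
    rw [← h1]
    congr 1
    funext i
    rw [map_sum]
    exact Finset.sum_congr rfl fun j _ => map_smul _ _ _
  scale := by
    intro y x hx hy v hv c hc
    have h1 := hΩ.homogeneous y _ ((over_iff hP).2 ⟨hx, hy⟩) (fun i => (LE N).symm (v i)) (fun i => (isTangent_iff hP hx).2 (hv i)) c hc
    rw [← h1, map_smul]
    congr 1
  analytic := by
    intro φ υ p hφ hυ hφX
    have h1 : AnalyticAt ℂ (fun y => (LE N).symm (φ y)) p := (((LE N).symm : EN N →L[ℂ] (Fin (N + 1) → ℂ)).analyticAt _).comp hφ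
    have h2 := hΩ.holomorphic _ υ p h1 hυ (by
      filter_upwards [hφX] with y hy
      exact (over_iff hP).2 hy)
    refine h2.congr ?_
    filter_upwards [hφ.eventually_analyticAt] with y hy
    have h3 : HasFDerivAt (fun y => (LE N).symm (φ y)) (((LE N).symm : EN N →L[ℂ] (Fin (N + 1) → ℂ)).comp (fderiv ℂ φ y)) y :=
      ((LE N).symm : EN N →L[ℂ] (Fin (N + 1) → ℂ)).hasFDerivAt.comp y hy.differentiableAt.hasFDerivAt
    rw [h3.fderiv]
    rfl

theorem vform_per (hP : Homog P) {Ω : Cn (k + 1) → Cn (N + 1) → (Fin (k + 2) → Cn (N + 1)) → ℂ} (hΩ : IsTopForm (projVar P) Λ Γ u Ω) :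
    Per (vform hP hΩ) Γ := by
  intro y l hl x hx hy v hv
  exact hΩ.periodic y l hl _ ((over_iff hP).2 ⟨hx, hy⟩) _ (fun i => (isTangent_iff hP hx).2 (hv i))

theorem vform_van (hP : Homog P) {Ω : Cn (k + 1) → Cn (N + 1) → (Fin (k + 2) → Cn (N + 1)) → ℂ} (hΩ : IsTopForm (projVar P) Λ Γ u Ω)
    {y : Cn (k + 1)} (hv : VanishesOver (projVar P) Λ u Ω y) : VanAt (vform hP hΩ) y := by
  intro x hx hy v hv'
  exact hv _ ((over_iff hP).2 ⟨hx, hy⟩) _ (fun i => (isTangent_iff hP hx).2 (hv' i))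

theorem vform_thin (hP : Homog P) (hT : TMap (coneE P) Λ (uV Λ u)) {Ω : Cn (k + 1) → Cn (N + 1) → (Fin (k + 2) → Cn (N + 1)) → ℂ}
    (hΩ : IsTopForm (projVar P) Λ Γ u Ω) (hΛ : Lat Λ) (hnz : IsNowhereZero (projVar P) Λ u Ω) : Thin (vform hP hΩ) := by
  intro χ υ p hp hυ hlift htc
  have hX : IsCone (coneE P) := isCone_coneE hP
  obtain ⟨δ, hδ, hdisc⟩ := hΛ.disc
  obtain ⟨hpX, hpU, hpq⟩ := χ.σ_mem p hp
  have hover : Over (projVar P) Λ u (υ p) ((LE N).symm (χ.σ p)) := (over_iff hP).2 ⟨hpX, hlift.self_of_nhds⟩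
  refine (hnz _ _ hover) ?_
  -- the point of the cone
  have hLEt : Tendsto (fun q : Cn (k + 1) × Cn (N + 1) => (LE N) q.2) (𝓝 (υ p, (LE N).symm (χ.σ p))) (𝓝 (χ.σ p)) := by
    have h1 : Continuous (fun q : Cn (k + 1) × Cn (N + 1) => (LE N) q.2) := (LE N).continuous.comp continuous_snd
    have h2 := h1.tendsto (υ p, (LE N).symm (χ.σ p))
    simp only [ContinuousLinearEquiv.apply_symm_apply] at h2
    exact h2
  have hqt : Tendsto (fun q : Cn (k + 1) × Cn (N + 1) => χ.q ((LE N) q.2)) (𝓝 (υ p, (LE N).symm (χ.σ p))) (𝓝 p) := by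
    have h1 := (χ.q_an _ hpU).continuousAt.tendsto.comp hLEt
    rwa [hpq] at h1
  have hev1 : ∀ᶠ q in 𝓝 (υ p, (LE N).symm (χ.σ p)), (LE N) q.2 ∈ χ.U := hLEt.eventually (χ.isOpen_U.mem_nhds hpU)
  have hev2 : ∀ᶠ y in 𝓝 p, ‖υ y - υ p‖ < δ / 2 := by
    have h1 : Tendsto (fun y => ‖υ y - υ p‖) (𝓝 p) (𝓝 ‖υ p - υ p‖) := (hυ.continuousAt.tendsto.sub_const _).norm
    rw [sub_self, norm_zero] at h1
    exact h1.eventually_lt_const (by positivity)
  have hev3 : ∀ᶠ q : Cn (k + 1) × Cn (N + 1) in 𝓝 (υ p, (LE N).symm (χ.σ p)), ‖q.1 - υ p‖ < δ / 2 := by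
    have h0 : Tendsto (fun q : Cn (k + 1) × Cn (N + 1) => q.1) (𝓝 (υ p, (LE N).symm (χ.σ p))) (𝓝 (υ p)) := continuousAt_fst
    have h1 : Tendsto (fun q : Cn (k + 1) × Cn (N + 1) => ‖q.1 - υ p‖) (𝓝 (υ p, (LE N).symm (χ.σ p))) (𝓝 ‖υ p - υ p‖) := (h0.sub_const _).norm
    rw [sub_self, norm_zero] at h1
    exact h1.eventually_lt_const (by positivity)
  filter_upwards [hev1, hev3, hqt.eventually hev2, hqt.eventually hlift, hqt.eventually htc] with q hq1 hq3 hq2 hq4 hq5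
  rintro ⟨hov, v, hv, hne⟩
  apply hne
  set x : EN N := (LE N) q.2 with hx
  have hxs : (LE N).symm x = q.2 := ContinuousLinearEquiv.symm_apply_apply _ _
  set V : Fin (k + 2) → EN N := fun i => (LE N) (v i) with hVdef
  have hVs : (fun i => (LE N).symm (V i)) = v := funext fun i => ContinuousLinearEquiv.symm_apply_apply _ _
  rw [← hxs] at hov hv ⊢
  rw [← hVs] at hv ⊢
  obtain ⟨hxX, hxz⟩ := (over_iff hP).1 hov
  have hV : ∀ i, Tan (coneE P) x (V i) := fun i => (isTangent_iff hP hxX).1 (hv i)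
  obtain ⟨hb, c, hc, hxc⟩ := χ.surj x hxX hq1
  obtain ⟨hyX, hyU, hyq⟩ := χ.σ_mem _ hb
  -- the value of the base point
  have hz : υ (χ.q x) = q.1 := by
    have h1 : uV Λ u x - uV Λ u (χ.σ (χ.q x)) ∈ Λ := by
      have h2 := hT.smul _ hyX c hc
      rwa [← hxc] at h2
    have h2 : q.1 - υ (χ.q x) ∈ Λ := by
      have h3 := Λ.add_mem (Λ.sub_mem h1 hxz) hq4
      have h4 : uV Λ u x - uV Λ u (χ.σ (χ.q x)) - (uV Λ u x - q.1) + (uV Λ u (χ.σ (χ.q x)) - υ (χ.q x)) = q.1 - υ (χ.q x) := by abel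
      rwa [h4] at h3
    have h3 : ‖q.1 - υ (χ.q x)‖ < δ := by
      calc ‖q.1 - υ (χ.q x)‖ = ‖(q.1 - υ p) - (υ (χ.q x) - υ p)‖ := by rw [sub_sub_sub_cancel_right]
        _ ≤ ‖q.1 - υ p‖ + ‖υ (χ.q x) - υ p‖ := norm_sub_le _ _
        _ < δ / 2 + δ / 2 := add_lt_add hq3 hq2
        _ = δ := by ring
    exact (sub_eq_zero.1 (hdisc _ h2 h3)).symm
  have h1 := Pool.Agent.TG.toFun_eq hX hT (vform hP hΩ) χ hxX hq1 hxz hz V hV
  have h2 : tc (vform hP hΩ) χ υ (χ.q x) = 0 := hq5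
  rw [h2, mul_zero] at h1
  exact h1

/-- the form on the cone -/
theorem exists_vform (hP : Homog P) (hT : TMap (coneE P) Λ (uV Λ u)) (hΛ : Lat Λ) {D : Set (Cn (k + 1))}
    (hform : HasForm (projVar P) Λ Γ u D) : ∃ α : VForm (coneE P) Λ (uV Λ u), Per α Γ ∧ Thin α ∧ ∃ a ∉ D, VanAt α a := by
  obtain ⟨Ω, hΩ, hnz, y, hy, hv⟩ := hform
  exact ⟨vform hP hΩ, vform_per hP hΩ, vform_thin hP hT hΩ hΛ hnz, y, hy, vform_van hP hΩ hv⟩

end Pool.Agent.TGF
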