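import Pool.Agent.TG.FDefs
import Pool.Agent.TG.Defs
import Pool.Agent.H62.BU.Inv
import Pool.Agent.AD.T.Proj

/-!
# TG GuG: germ-level charts from local parametrisations, the fields `sub` and `nc` of `Geo`

`exists_germ`: let `σ` be a local parametrisation of the smooth variety `X` at a point, `S = LE ∘ σ`, `x = S 0`.  Let `σ₀, τ₀` be the chart of the cone at `x` with the ratios of the
coordinates as parameters (`exists_ratioGerm`), `φ = τ₀ ∘ S`.  For `p` near `0`: `S p = c(p) σ₀ (φ p)`, so `φ' (0) v = 0` implies `S' (0) v ∈ ℂ x`, `v = 0`.  Let `ψ` be the local inverse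
of `φ`; `τ = ψ ∘ τ₀`.
-/

set_option autoImplicit false

open Topology Filter MvPolynomial
open Pool.Agent.H17 (PN VanishesAt)
open Pool.Agent.H62.FC (Homog)
open Pool.Agent.H17LG.Variety (FunField)
open Pool.Agent.H17EF (projVar coneE LE mem_coneE)
open Pool.Agent.H36.BP (EN)
open Pool.Agent.H13.SM (conTan)
open Pool.Agent.AD (uV uV_eq sub_mem_iff IsGerm exists_ratioGerm)

noncomputable section

namespace Pool.Agent.TGF

variable {N k : ℕ} {P : Ideal (MvPolynomial (Fin (N + 1)) ℂ)}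

/-- The inversion of the coordinates. -/
theorem exists_germ [P.IsPrime] (hP : Homog P) (hdim : ∃ z : Fin (k + 2) → FunField P, IsTranscendenceBasis ℂ z)
    (hsmooth : Pool.Agent.AD.NC.IsSmooth P (k + 2)) {x₀ : PN N} {σ : Cn (k + 2) → Cn (N + 1)} (h : IsParam (projVar P) x₀ σ) :
    ∃ τ : EN N → Cn (k + 2), IsGerm (coneE P) (fun p => LE N (σ p)) τ := by
  obtain ⟨z, hz⟩ := hdim
  obtain ⟨hσ0, -⟩ := h.point
  set S : Cn (k + 2) → EN N := fun p => LE N (σ p) with hS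
  have hSan : AnalyticAt ℂ S 0 := (((LE N) : (Fin (N + 1) → ℂ) →L[ℂ] EN N).analyticAt _).fun_comp h.holomorphic
  have hsym : ∀ p, (LE N).symm (S p) = σ p := fun p => (LE N).symm_apply_apply (σ p)
  have hSmem : ∀ᶠ p in 𝓝 (0 : Cn (k + 2)), S p ∈ coneE P := by
    filter_upwards [h.mem] with p hp
    rw [mem_coneE hP, hsym p]
    exact hp
  have hS0 : S 0 ∈ coneE P := hSmem.self_of_nhds
  obtain ⟨l, hl⟩ : ∃ l, (LE N).symm (S 0) l ≠ 0 := by
    rw [hsym]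
    exact Function.ne_iff.1 hσ0
  obtain ⟨I, σ₀, hg, hg0⟩ := exists_ratioGerm hP hz hsmooth hS0 hl
  set τ₀ : EN N → Cn (k + 2) := fun y j => (LE N).symm y (I j) / (LE N).symm y l - (LE N).symm (S 0) (I j) / (LE N).symm (S 0) l with hτ₀
  have hτ₀an : AnalyticAt ℂ τ₀ (S 0) := by
    have h1 := hg.τ_an
    rwa [hg0] at h1
  have hτ₀0 : τ₀ (S 0) = 0 := by
    funext j
    show (LE N).symm (S 0) (I j) / (LE N).symm (S 0) l - (LE N).symm (S 0) (I j) / (LE N).symm (S 0) l = 0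
    exact sub_self _
  have hright : ∀ᶠ y in 𝓝 (S 0), y ∈ coneE P → ∃ c : ℂ, c ≠ 0 ∧ y = c • σ₀ (τ₀ y) := by
    have h1 := hg.right
    rwa [hg0] at h1
  set φ : Cn (k + 2) → Cn (k + 2) := fun p => τ₀ (S p) with hφ
  have hφan : AnalyticAt ℂ φ 0 := AnalyticAt.fun_comp (g := τ₀) (f := S) hτ₀an hSan
  have hφ0 : φ 0 = 0 := hτ₀0
  -- the linear form
  let ℓ : EN N →L[ℂ] ℂ := (ContinuousLinearMap.proj (R := ℂ) (φ := fun _ : Fin (N + 1) => ℂ) l).comp ((LE N).symm : EN N →L[ℂ] (Fin (N + 1) → ℂ))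
  have hℓ : ℓ (S 0) ≠ 0 := hl
  have hinj : ∀ v, fderiv ℂ φ 0 v = 0 → v = 0 := by
    intro v hv
    have hline : HasDerivAt (fun t : ℂ => t • v) v 0 := by
      have h1 := (hasDerivAt_id (0 : ℂ)).smul_const v
      rwa [one_smul] at h1
    have hS' : HasDerivAt (fun t : ℂ => S (t • v)) (fderiv ℂ S 0 v) 0 := by
      have h1 : HasFDerivAt S (fderiv ℂ S 0) ((0 : ℂ) • v) := by
        rw [zero_smul]
        exact hSan.differentiableAt.hasFDerivAt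
      exact h1.comp_hasDerivAt (0 : ℂ) hline
    have hφ' : HasDerivAt (fun t : ℂ => φ (t • v)) 0 0 := by
      have h1 : HasFDerivAt φ (fderiv ℂ φ 0) ((0 : ℂ) • v) := by
        rw [zero_smul]
        exact hφan.differentiableAt.hasFDerivAt
      have h2 := h1.comp_hasDerivAt (0 : ℂ) hline
      rwa [hv] at h2
    have hσ' : HasDerivAt (fun t : ℂ => σ₀ (φ (t • v))) 0 0 := by
      have h1 : HasFDerivAt σ₀ (fderiv ℂ σ₀ 0) (φ ((0 : ℂ) • v)) := by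
        rw [zero_smul, hφ0]
        exact hg.σ_an.differentiableAt.hasFDerivAt
      have h2 := h1.comp_hasDerivAt (0 : ℂ) hφ'
      rwa [map_zero] at h2
    have hval : σ₀ (φ ((0 : ℂ) • v)) = S 0 := by rw [zero_smul, hφ0, hg0]
    have hne : ℓ (σ₀ (φ ((0 : ℂ) • v))) ≠ 0 := by
      rw [hval]
      exact hℓ
    have hc1 : HasDerivAt (fun t : ℂ => ℓ (S (t • v))) (ℓ (fderiv ℂ S 0 v)) 0 := ℓ.hasFDerivAt.comp_hasDerivAt (0 : ℂ) hS'
    have hc2 : HasDerivAt (fun t : ℂ => ℓ (σ₀ (φ (t • v)))) (ℓ 0) 0 := ℓ.hasFDerivAt.comp_hasDerivAt (0 : ℂ) hσ'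
    obtain ⟨c', hc'⟩ : ∃ c' : ℂ, HasDerivAt (fun t : ℂ => ℓ (S (t • v)) / ℓ (σ₀ (φ (t • v)))) c' 0 := ⟨_, hc1.div hc2 hne⟩
    have hprod : HasDerivAt (fun t : ℂ => (ℓ (S (t • v)) / ℓ (σ₀ (φ (t • v)))) • σ₀ (φ (t • v)))
        ((ℓ (S ((0 : ℂ) • v)) / ℓ (σ₀ (φ ((0 : ℂ) • v)))) • (0 : EN N) + c' • σ₀ (φ ((0 : ℂ) • v))) 0 := hc'.smul hσ'
    have hev : ∀ᶠ t : ℂ in 𝓝 0, S (t • v) = (ℓ (S (t • v)) / ℓ (σ₀ (φ (t • v)))) • σ₀ (φ (t • v)) := by
      have ht : Tendsto (fun t : ℂ => t • v) (𝓝 0) (𝓝 (0 : Cn (k + 2))) := by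
        have h1 := hline.continuousAt.tendsto
        rwa [zero_smul] at h1
      have hSt : Tendsto (fun t : ℂ => S (t • v)) (𝓝 0) (𝓝 (S 0)) := hSan.continuousAt.tendsto.comp ht
      have hne' : ∀ᶠ t : ℂ in 𝓝 0, ℓ (σ₀ (φ (t • v))) ≠ 0 := hc2.continuousAt.eventually_ne hne
      filter_upwards [ht.eventually hSmem, hSt.eventually hright, hne'] with t h1 h2 h3
      obtain ⟨c, hc0, hc⟩ := h2 h1
      have h4 : ℓ (S (t • v)) / ℓ (σ₀ (φ (t • v))) = c := by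
        rw [div_eq_iff h3]
        conv_lhs => rw [hc]
        rw [map_smul, smul_eq_mul]
      rw [h4]
      exact hc
    have hS'' : HasDerivAt (fun t : ℂ => (ℓ (S (t • v)) / ℓ (σ₀ (φ (t • v)))) • σ₀ (φ (t • v))) (fderiv ℂ S 0 v) 0 :=
      hS'.congr_of_eventuallyEq (hev.mono fun t ht => ht.symm)
    have ha : fderiv ℂ S 0 v = c' • S 0 := by
      have h1 := hS''.unique hprod
      rw [smul_zero, zero_add, hval] at h1
      exact h1
    have hSσ : fderiv ℂ S 0 v = LE N (fderiv ℂ σ 0 v) := by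
      have h1 : HasFDerivAt S (((LE N) : (Fin (N + 1) → ℂ) →L[ℂ] EN N).comp (fderiv ℂ σ 0)) 0 :=
        ((LE N) : (Fin (N + 1) → ℂ) →L[ℂ] EN N).hasFDerivAt.comp 0 h.holomorphic.differentiableAt.hasFDerivAt
      rw [h1.fderiv]
      rfl
    refine h.immersion v c' ?_
    have h2 : LE N (fderiv ℂ σ 0 v) = LE N (c' • σ 0) := by
      rw [← hSσ, ha, map_smul]
    exact (LE N).injective h2
  obtain ⟨ψ, hψan, hψl, hψr, hψ0⟩ := Pool.Agent.H62.BU.local_inverse hφan hinj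
  rw [hφ0] at hψan hψr hψ0
  refine ⟨fun y => ψ (τ₀ y), hSan, hSmem, ?_, hψl, ?_, ?_⟩
  · show AnalyticAt ℂ (fun y => ψ (τ₀ y)) (S 0)
    refine AnalyticAt.fun_comp (g := ψ) (f := τ₀) ?_ hτ₀an
    rw [hτ₀0]
    exact hψan
  · show ∀ᶠ y in 𝓝 (S 0), y ∈ coneE P → ∃ c : ℂ, c ≠ 0 ∧ y = c • S (ψ (τ₀ y))
    have ht1 : Tendsto τ₀ (𝓝 (S 0)) (𝓝 0) := by
      have h1 := hτ₀an.continuousAt.tendsto
      rwa [hτ₀0] at h1
    have ht2 : Tendsto (fun y => ψ (τ₀ y)) (𝓝 (S 0)) (𝓝 0) := by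
      have h1 := hψan.continuousAt.tendsto.comp ht1
      rwa [hψ0] at h1
    have ht3 : Tendsto (fun y => S (ψ (τ₀ y))) (𝓝 (S 0)) (𝓝 (S 0)) := hSan.continuousAt.tendsto.comp ht2
    filter_upwards [hright, ht1.eventually hψr, ht2.eventually hSmem, ht3.eventually hright] with y h1 h2 h3 h4 hy
    obtain ⟨c₁, hc₁, hy₁⟩ := h1 hy
    obtain ⟨c₂, hc₂, hy₂⟩ := h4 h3
    have h5 : τ₀ (S (ψ (τ₀ y))) = τ₀ y := h2
    rw [h5] at hy₂
    refine ⟨c₁ / c₂, div_ne_zero hc₁ hc₂, ?_⟩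
    rw [hy₂, smul_smul, div_mul_cancel₀ _ hc₂]
    exact hy₁
  · have h1 : ∀ᶠ w : EN N × ℂ in 𝓝 (S 0, (1 : ℂ)), τ₀ (w.2 • w.1) = τ₀ w.1 := by
      have h2 := hg.inv
      rw [hg0] at h2
      exact h2
    exact h1.mono fun w hw => congrArg ψ hw

/-- rescaling of the homogeneous coordinates -/
theorem IsParam.const_smul {X : Set (PN N)} {x : PN N} {σ : Cn (k + 2) → Cn (N + 1)} (h : IsParam X x σ) {c : ℂ} (hc : c ≠ 0) :
    IsParam X x (fun p => c • σ p) := by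
  have hmk : ∀ {w : Cn (N + 1)} (hw : w ≠ 0), Projectivization.mk ℂ (c • w) (smul_ne_zero hc hw) = Projectivization.mk ℂ w hw := by
    intro w hw
    rw [Projectivization.mk_eq_mk_iff']
    exact ⟨c, rfl⟩
  have hd : ∀ v, fderiv ℂ (fun p => c • σ p) 0 v = c • fderiv ℂ σ 0 v := by
    intro v
    have h1 : HasFDerivAt (fun p => c • σ p) (c • fderiv ℂ σ 0) 0 := h.holomorphic.differentiableAt.hasFDerivAt.const_smul c
    rw [h1.fderiv]
    rfl
  refine ⟨?_, ?_, ?_, ?_⟩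
  · exact (analyticAt_const (v := c)).fun_smul h.holomorphic
  · obtain ⟨h0, h1⟩ := h.point
    exact ⟨smul_ne_zero hc h0, by rw [hmk h0]; exact h1⟩
  · filter_upwards [h.mem] with p hp
    obtain ⟨h0, h1⟩ := hp
    exact ⟨smul_ne_zero hc h0, by rw [hmk h0]; exact h1⟩
  · intro v a hv
    rw [hd] at hv
    refine h.immersion v a ?_
    have h1 : c • fderiv ℂ σ 0 v = c • (a • σ 0) := by
      rw [hv, smul_comm]
    exact smul_right_injective _ hc h1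

theorem over_const_smul {X : Set (PN N)} {Λ : AddSubgroup (Cn (k + 1))} {u : PN N → Cn (k + 1) ⧸ Λ} {y : Cn (k + 1)} {x : Cn (N + 1)}
    (h : Over X Λ u y x) {c : ℂ} (hc : c ≠ 0) : Over X Λ u y (c • x) := by
  obtain ⟨h0, h1, h2⟩ := h
  have hmk : Projectivization.mk ℂ (c • x) (smul_ne_zero hc h0) = Projectivization.mk ℂ x h0 := by
    rw [Projectivization.mk_eq_mk_iff']
    exact ⟨c, rfl⟩
  exact ⟨smul_ne_zero hc h0, by rw [hmk]; exact h1, by rw [hmk]; exact h2⟩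

/-- a point of the cone with `uV` over `y` -/
theorem gug_over {X : Set (PN N)} {Λ : AddSubgroup (Cn (k + 1))} {u : PN N → Cn (k + 1) ⧸ Λ} {y : Cn (k + 1)} {w : Cn (N + 1)}
    (h : Over X Λ u y w) : uV Λ u (LE N w) - y ∈ Λ := by
  obtain ⟨h0, h1, h2⟩ := h
  have h3 : (LE N).symm (LE N w) ≠ 0 := by
    rw [ContinuousLinearEquiv.symm_apply_apply]
    exact h0
  rw [sub_mem_iff, uV_eq Λ u h3, ← h2]
  congr 1

/-- a parametrisation at the point `[x]`, `x` in the cone, can be rescaled such that its value at `0` is `x` -/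
theorem exists_scale {x : EN N} (hx : (LE N).symm x ≠ 0) {σ : Cn (k + 2) → Cn (N + 1)}
    (h : ∃ h : σ 0 ≠ 0, Projectivization.mk ℂ (σ 0) h = Projectivization.mk ℂ ((LE N).symm x) hx) :
    ∃ c : ℂ, c ≠ 0 ∧ LE N (c • σ 0) = x := by
  obtain ⟨h0, h1⟩ := h
  rw [Projectivization.mk_eq_mk_iff'] at h1
  obtain ⟨a, ha⟩ := h1
  have ha0 : a ≠ 0 := by
    rintro rfl
    rw [zero_smul] at ha
    exact h0 ha.symm
  refine ⟨a⁻¹, inv_ne_zero ha0, ?_⟩
  rw [← ha, smul_smul, inv_mul_cancel₀ ha0, one_smul, ContinuousLinearEquiv.apply_symm_apply]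

/-- the field `sub` of `Geo` -/
theorem geo_sub [P.IsPrime] (hP : Homog P) (hdim : ∃ z : Fin (k + 2) → FunField P, IsTranscendenceBasis ℂ z)
    (hsmooth : Pool.Agent.AD.NC.IsSmooth P (k + 2)) {Λ : AddSubgroup (Cn (k + 1))} {u : PN N → Cn (k + 1) ⧸ Λ} {D B : Set (Cn (k + 1))}
    (hD : IsDiscriminant (projVar P) Λ u D B) :
    ∀ y ∉ D, ∀ x ∈ coneE P, uV Λ u x - y ∈ Λ → Pool.Agent.TG.IsStr (coneE P) Λ (uV Λ u) x y := by
  intro y hy x hx hxy
  obtain ⟨h0, h1⟩ := (mem_coneE hP).1 hx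
  rw [sub_mem_iff, uV_eq Λ u h0] at hxy
  obtain ⟨σ, hσ, hov⟩ := hD.submersion y hy _ h1 hxy
  obtain ⟨c, hc, hcx⟩ := exists_scale h0 hσ.point
  obtain ⟨τ, hτ⟩ := exists_germ hP hdim hsmooth (hσ.const_smul hc)
  refine ⟨_, τ, hτ, hcx, ?_⟩
  filter_upwards [hov] with p hp
  exact gug_over (over_const_smul hp hc)

/-- the field `nc` of `Geo` -/
theorem geo_nc [P.IsPrime] (hP : Homog P) (hdim : ∃ z : Fin (k + 2) → FunField P, IsTranscendenceBasis ℂ z)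
    (hsmooth : Pool.Agent.AD.NC.IsSmooth P (k + 2)) {Λ : AddSubgroup (Cn (k + 1))} {u : PN N → Cn (k + 1) ⧸ Λ} {D B : Set (Cn (k + 1))}
    (hD : IsDiscriminant (projVar P) Λ u D B) :
    ∀ y ∈ D, y ∉ B → ∃ κ : Cn (k + 1) → Cn (k + 1), Pool.Agent.TG.IsCoord D κ y ∧
      ∀ x ∈ coneE P, uV Λ u x - y ∈ Λ → Pool.Agent.TG.IsNC (coneE P) Λ (uV Λ u) κ x := by
  intro y hy hyB
  obtain ⟨κ, hκ, hnc⟩ := hD.crossing y hy hyB
  refine ⟨κ, ⟨hκ.holomorphic, hκ.point, ?_, hκ.mem_iff⟩, ?_⟩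
  · rw [injective_iff_map_eq_zero]
    exact hκ.immersion
  · intro x hx hxy
    obtain ⟨h0, h1⟩ := (mem_coneE hP).1 hx
    rw [sub_mem_iff, uV_eq Λ u h0] at hxy
    obtain ⟨σ, a, b, hσ, hab, hov⟩ := hnc _ h1 hxy
    obtain ⟨c, hc, hcx⟩ := exists_scale h0 hσ.point
    obtain ⟨τ, hτ⟩ := exists_germ hP hdim hsmooth (hσ.const_smul hc)
    refine ⟨_, τ, a, b, hτ, hcx, hab, ?_⟩
    filter_upwards [hov] with p hp
    exact gug_over (over_const_smul hp hc)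

end Pool.Agent.TGF
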