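import Pool.Agent.TG.FAsm
import Pool.Agent.TG.Trl
import Pool.Agent.TG.GuD
import Pool.Agent.TG.GuF
import Pool.Agent.TG.GuG
import Pool.Agent.TG.GuL

/-!
# TG FMain: the main theorem
-/

set_option autoImplicit false

open Topology Filter MvPolynomial
open Pool.Agent.H17 (PN VanishesAt)
open Pool.Agent.H62.FC (Homog)
open Pool.Agent.H17LG.Variety (FunField)
open Pool.Agent.H17EF (projVar coneE)
open Pool.Agent.AD (IsHolomorphicTorusMap uV isCone_coneE)
open Pool.Agent.TG (Geo finSec_at)

noncomputable section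

namespace Pool.Agent.TGF

variable {N k : ℕ}

theorem geo_of (P : Ideal (MvPolynomial (Fin (N + 1)) ℂ)) [P.IsPrime] (hP : Homog P)
    (hdim : ∃ z : Fin (k + 2) → FunField P, IsTranscendenceBasis ℂ z) (hsmooth : Pool.Agent.AD.NC.IsSmooth P (k + 2))
    (Λ : AddSubgroup (Cn (k + 1))) [DiscreteTopology Λ] (hspan : Submodule.span ℝ (Λ : Set (Cn (k + 1))) = ⊤)
    (u : PN N → Cn (k + 1) ⧸ Λ) (hu : IsHolomorphicTorusMap (projVar P) Λ u)
    (D B : Set (Cn (k + 1))) (hD : IsDiscriminant (projVar P) Λ u D B) : Geo (coneE P) Λ (uV Λ u) D B where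
  cone := isCone_coneE hP
  charts := gu_charts hP hdim hsmooth
  tor := gu_tor hP hu
  lat := gu_lat Λ hspan
  D_closed := hD.analytic.isClosed
  D_inv := gu_D_inv hD
  D_thin := hD.analytic.thin hD.proper
  B_lines := fun _ he => hD.small.lines he
  sub := geo_sub hP hdim hsmooth hD
  fib := gu_fib hP hD
  nc := geo_nc hP hdim hsmooth hD

/-- **Main theorem.** `X` is a smooth projective variety of dimension `k + 2`, `u` a holomorphic map to the torus `ℂ^(k+1) / Λ`, `D` contains the critical values and the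
map is of normal crossing type over `D \ B`, `B` of codimension at least two; the fibres over `D` lie in the hypersurface `R = 0` (which does not contain `X`); on a finite
covering `X'` induced from the torus there is a holomorphic `(k + 2)`-form which vanishes on a fibre outside `D`, but on no open set. -/
theorem main (P : Ideal (MvPolynomial (Fin (N + 1)) ℂ)) [P.IsPrime] (hP : Homog P)
    (hdim : ∃ z : Fin (k + 2) → FunField P, IsTranscendenceBasis ℂ z) (hsmooth : Pool.Agent.AD.NC.IsSmooth P (k + 2))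
    (Λ : AddSubgroup (Cn (k + 1))) [DiscreteTopology Λ] (hspan : Submodule.span ℝ (Λ : Set (Cn (k + 1))) = ⊤)
    (u : PN N → Cn (k + 1) ⧸ Λ) (hu : IsHolomorphicTorusMap (projVar P) Λ u)
    (D B : Set (Cn (k + 1))) (hD : IsDiscriminant (projVar P) Λ u D B)
    (hR : ∃ (e : ℕ) (R : MvPolynomial (Fin (N + 1)) ℂ), R.IsHomogeneous e ∧ R ∉ P ∧
      ∀ x ∈ projVar P, (∃ y ∈ D, u x = (y : Cn (k + 1) ⧸ Λ)) → VanishesAt R x)
    (Γ : AddSubgroup (Cn (k + 1))) (hle : Γ ≤ Λ) (hΓ : Submodule.span ℝ (Γ : Set (Cn (k + 1))) = ⊤) (hform : HasForm (projVar P) Λ Γ u D) :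
    ∃ Q : MvPolynomial (Fin (N + 1)) ℂ, TorusFibration P Λ u D Q := by
  have G := geo_of P hP hdim hsmooth Λ hspan u hu D B hD
  obtain ⟨α, hper, hthin, a, ha, hvan⟩ := exists_vform hP G.tor G.lat hform
  exact fAsm hP hdim G (finSec_at G ha (gu_lat_sub G.lat hle hΓ) hle hper hvan hthin) hR

end Pool.Agent.TGF
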