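import Pool.Agent.TG.HyB
import Pool.Agent.TN.Osg

/-!
# TG HyC: the images of finitely many entire maps which are periodic as maps to the projective space lie in a hypersurface
-/

set_option autoImplicit false

open Topology Filter Metric MvPolynomial
open Pool.Agent.H17LG.Variety (FunField)
open Pool.Agent.H22.AlgD (eval_smul_form analyticAt_eval monSpace taylor finrank_monSpace_le exists_form_of_conditions norm_le_of_iteratedFDeriv
  eq_zero_of_taylor)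

namespace Pool.Agent.TG

variable {N n : ℕ}

theorem norm_eval_le {d : ℕ} {Q : MvPolynomial (Fin (N + 1)) ℂ} (hQ : Q.IsHomogeneous d) :
    ∃ C : ℝ, 0 ≤ C ∧ ∀ x : Fin (N + 1) → ℂ, ‖eval x Q‖ ≤ C * ‖x‖ ^ d := by
  refine ⟨∑ m ∈ Q.support, ‖coeff m Q‖, Finset.sum_nonneg fun _ _ => norm_nonneg _, fun x => ?_⟩
  rw [MvPolynomial.eval_eq', Finset.sum_mul]
  refine (norm_sum_le _ _).trans (Finset.sum_le_sum fun m hm => ?_)
  rw [norm_mul, norm_prod]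
  refine mul_le_mul_of_nonneg_left ?_ (norm_nonneg _)
  have hdeg : ∑ i, m i = d := by
    have := hQ (MvPolynomial.mem_support_iff.1 hm)
    rw [Finsupp.weight_apply] at this
    simpa [Finsupp.sum_fintype] using this
  rw [← hdeg, ← Finset.prod_pow_eq_pow_sum]
  refine Finset.prod_le_prod (fun _ _ => norm_nonneg _) fun i _ => ?_
  rw [norm_pow]
  exact pow_le_pow_left₀ (norm_nonneg _) (norm_le_pi_norm x i) _

theorem analyticAt_of_entire {F : (Fin n → ℂ) → Fin (N + 1) → ℂ} (hF : Differentiable ℂ F) (w : Fin n → ℂ) : AnalyticAt ℂ F w := by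
  obtain ⟨M, hM⟩ := (isCompact_closedBall w 1).bddAbove_image hF.continuous.norm.continuousOn
  refine Pool.Agent.TN.osgood_pi (r := 1) (M := M) one_pos (fun y hy => hM ⟨y, ball_subset_closedBall hy, rfl⟩) fun y _ l => ?_
  have h1 : Differentiable ℂ fun t : ℂ => y + t • (Pi.single l 1 : Fin n → ℂ) := by fun_prop
  exact (hF _).comp 0 (h1 0)

/-- comparison on compact sets -/
theorem exists_cmp_unif {F : (Fin n → ℂ) → Fin (N + 1) → ℂ} (hF : Differentiable ℂ F) (hne : ∃ y, F y ≠ 0) {K : Set (Fin n → ℂ)} (hK : IsCompact K)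
    (hext : ∀ y ∈ K, ∃ v, VAt F y v) :
    ∃ c : ℝ, 0 < c ∧ ∀ y ∈ K, ∀ v, VAt F y v → ∀ (d : ℕ) (Q : MvPolynomial (Fin (N + 1)) ℂ), Q.IsHomogeneous d →
      ∃ y' : Fin n → ℂ, ‖y' - y‖ ≤ 1 ∧ c ^ d * ‖eval v Q‖ ≤ ‖v‖ ^ d * ‖eval (F y') Q‖ := by
  refine hK.induction_on (p := fun K => ∃ c : ℝ, 0 < c ∧ ∀ y ∈ K, ∀ v, VAt F y v → ∀ (d : ℕ) (Q : MvPolynomial (Fin (N + 1)) ℂ), Q.IsHomogeneous d →
      ∃ y' : Fin n → ℂ, ‖y' - y‖ ≤ 1 ∧ c ^ d * ‖eval v Q‖ ≤ ‖v‖ ^ d * ‖eval (F y') Q‖) ?_ ?_ ?_ ?_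
  · exact ⟨1, one_pos, fun y hy => absurd hy (Set.notMem_empty y)⟩
  · rintro s t hst ⟨c, hc, h⟩
    exact ⟨c, hc, fun y hy => h y (hst hy)⟩
  · rintro s t ⟨c, hc, h⟩ ⟨c', hc', h'⟩
    refine ⟨min c c', lt_min hc hc', fun y hy v hv d Q hQ => ?_⟩
    rcases hy with hy | hy
    · obtain ⟨y', h1, h2⟩ := h y hy v hv d Q hQ
      exact ⟨y', h1, (mul_le_mul_of_nonneg_right (pow_le_pow_left₀ (lt_min hc hc').le (min_le_left _ _) d) (norm_nonneg _)).trans h2⟩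
    · obtain ⟨y', h1, h2⟩ := h' y hy v hv d Q hQ
      exact ⟨y', h1, (mul_le_mul_of_nonneg_right (pow_le_pow_left₀ (lt_min hc hc').le (min_le_right _ _) d) (norm_nonneg _)).trans h2⟩
  · intro y₀ hy₀
    obtain ⟨v₀, hv₀⟩ := hext y₀ hy₀
    obtain ⟨c, hc, h⟩ := exists_cmp hF hne hv₀
    exact ⟨_, mem_nhdsWithin_of_mem_nhds h, c, hc, fun y hy => hy⟩

/-- **The images of finitely many entire maps `[F j] : ℂ^n → ℙ^N`, which are `Γ`-periodic and extend to holomorphic maps outside a closed thin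
`Γ`-invariant set `D`, lie in a hypersurface which does not contain the `n+1`-dimensional variety of `P`.** -/
theorem exists_form_of_entire {J : ℕ} {P : Ideal (MvPolynomial (Fin (N + 1)) ℂ)} [P.IsPrime] {z : Fin (n + 1) → FunField P}
    (hz : IsTranscendenceBasis ℂ z) (hX : ∃ i, (X i : MvPolynomial (Fin (N + 1)) ℂ) ∉ P)
    {Γ : AddSubgroup (Fin n → ℂ)} (hΓ : ∃ R : ℝ, ∀ y : Fin n → ℂ, ∃ l ∈ Γ, ‖y - l‖ ≤ R)
    {D : Set (Fin n → ℂ)} (hD : IsClosed D) (hinv : ∀ y ∈ D, ∀ l ∈ Γ, y + l ∈ D)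
    (thin : ∀ y₀ : Fin n → ℂ, ∃ h : (Fin n → ℂ) → ℂ, AnalyticAt ℂ h y₀ ∧ (∀ᶠ z in 𝓝 y₀, z ∈ D → h z = 0) ∧ ¬ ∀ᶠ z in 𝓝 y₀, h z = 0)
    {F : Fin J → (Fin n → ℂ) → Fin (N + 1) → ℂ} (hF : ∀ j, Differentiable ℂ (F j)) (hne : ∀ j, ∃ y, F j y ≠ 0)
    (hper : ∀ j, ∀ l ∈ Γ, ∀ y i k, F j (y + l) i * F j y k = F j (y + l) k * F j y i)
    (hext : ∀ j, ∀ y₀ ∉ D, ∃ φ : (Fin n → ℂ) → Fin (N + 1) → ℂ, AnalyticAt ℂ φ y₀ ∧ φ y₀ ≠ 0 ∧
      ∀ᶠ y in 𝓝 y₀, ∀ i k, F j y i * φ y k = F j y k * φ y i) :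
    ∃ (d : ℕ) (Q : MvPolynomial (Fin (N + 1)) ℂ), 1 ≤ d ∧ Q.IsHomogeneous d ∧ Q ∉ P ∧ ∀ j y, eval (F j y) Q = 0 := by
  obtain ⟨R, hR⟩ := hΓ
  obtain ⟨R₁, hR₁⟩ : ∃ R₁ : ℝ, R₁ = 2 * (|R| + 2) := ⟨_, rfl⟩
  have hR₁0 : 0 < R₁ := by
    have := abs_nonneg R
    linarith
  obtain ⟨δ, hδ, hcirc⟩ := exists_circle_unif hD thin (isCompact_closedBall (0 : Fin n → ℂ) R₁)
  obtain ⟨G, hG⟩ : ∃ G : Set (Fin n → ℂ), G = {y | ∀ b ∈ D, δ ≤ ‖y - b‖} := ⟨_, rfl⟩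
  have hGc : IsClosed G := by
    have h1 : G = ⋂ b ∈ D, {y | δ ≤ ‖y - b‖} := by
      rw [hG]
      ext y
      simp
    rw [h1]
    exact isClosed_biInter fun b _ => isClosed_le continuous_const (by fun_prop)
  have hGD : ∀ y ∈ G, y ∉ D := by
    intro y hy hyD
    rw [hG] at hy
    have := hy y hyD
    rw [sub_self, norm_zero] at this
    linarith
  have hext' : ∀ j, ∀ y ∈ G, ∃ v, VAt (F j) y v := by
    intro j y hy
    obtain ⟨φ, h1, h2, h3⟩ := hext j y (hGD y hy)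
    exact ⟨φ y, φ, h1, rfl, h2, h3⟩
  obtain ⟨c, hc, hcmp⟩ : ∃ c : ℝ, 0 < c ∧ ∀ j, ∀ y ∈ closedBall (0 : Fin n → ℂ) |R| ∩ G, ∀ v, VAt (F j) y v →
      ∀ (d : ℕ) (Q : MvPolynomial (Fin (N + 1)) ℂ), Q.IsHomogeneous d →
      ∃ y' : Fin n → ℂ, ‖y' - y‖ ≤ 1 ∧ c ^ d * ‖eval v Q‖ ≤ ‖v‖ ^ d * ‖eval (F j y') Q‖ := by
    have h1 := fun j => exists_cmp_unif (hF j) (hne j) ((isCompact_closedBall (0 : Fin n → ℂ) |R|).inter_right hGc)
      fun y hy => hext' j y hy.2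
    choose c hc h2 using h1
    rcases Nat.eq_zero_or_pos J with rfl | hJ
    · exact ⟨1, one_pos, fun j => j.elim0⟩
    have : Nonempty (Fin J) := ⟨⟨0, hJ⟩⟩
    obtain ⟨i, hi⟩ := Finite.exists_min c
    refine ⟨c i, hc i, fun j y hy v hv d Q hQ => ?_⟩
    obtain ⟨y', h3, h4⟩ := h2 j y hy v hv d Q hQ
    exact ⟨y', h3, (mul_le_mul_of_nonneg_right (pow_le_pow_left₀ (hc i).le (hi j) d) (norm_nonneg _)).trans h4⟩
  obtain ⟨C₁, hC₁, hbd⟩ : ∃ C₁ : ℝ, 0 < C₁ ∧ ∀ j, ∀ y ∈ closedBall (0 : Fin n → ℂ) (R₁ + 1), ‖F j y‖ ≤ C₁ := by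
    have h1 : ∀ j, ∃ b : ℝ, ∀ y ∈ closedBall (0 : Fin n → ℂ) (R₁ + 1), ‖F j y‖ ≤ b := by
      intro j
      obtain ⟨b, hb⟩ := (isCompact_closedBall (0 : Fin n → ℂ) (R₁ + 1)).bddAbove_image (hF j).continuous.norm.continuousOn
      exact ⟨b, fun y hy => hb ⟨y, hy, rfl⟩⟩
    choose b hb using h1
    refine ⟨1 + ∑ j, |b j|, by positivity, fun j y hy => (hb j y hy).trans ?_⟩
    have h2 : |b j| ≤ ∑ j, |b j| := Finset.single_le_sum (f := fun j => |b j|) (fun _ _ => abs_nonneg _) (Finset.mem_univ j)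
    linarith [le_abs_self (b j)]
  obtain ⟨κ, hκ⟩ : ∃ κ : ℕ, C₁ * (1 / 2) ^ κ ≤ c / 2 := by
    obtain ⟨κ, hκ⟩ := exists_pow_lt_of_lt_one (show (0 : ℝ) < c / (2 * C₁) by positivity) (show (1 / 2 : ℝ) < 1 by norm_num)
    refine ⟨κ, ?_⟩
    have h1 := mul_le_mul_of_nonneg_left hκ.le hC₁.le
    have h2 : C₁ * (c / (2 * C₁)) = c / 2 := by field_simp
    rwa [h2] at h1
  obtain ⟨d, hd, hcount⟩ := exists_form_of_conditions (Nat.lt_succ_self n) hz hX (J * κ ^ n)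
  have hF00 : ∀ j, AnalyticAt ℂ (F j) 0 := fun j => analyticAt_of_entire (hF j) 0
  obtain ⟨Q, hQ, hQP, hQL⟩ := hcount ((i : Fin J) → monSpace n (κ * d))
    (by
      rw [Module.finrank_pi_fintype]
      calc ∑ _i : Fin J, Module.finrank ℂ (monSpace n (κ * d)) ≤ ∑ _i : Fin J, (κ * d) ^ n :=
            Finset.sum_le_sum fun _ _ => finrank_monSpace_le _ _
        _ = J * κ ^ n * d ^ n := by
            rw [Finset.sum_const, Finset.card_univ, Fintype.card_fin, smul_eq_mul, mul_pow, mul_assoc])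
    (LinearMap.pi fun i => taylor (hF00 i) (κ * d))
  have hQT : ∀ i, taylor (hF00 i) (κ * d) Q = 0 := fun i => congrFun hQL i
  refine ⟨d, Q, hd, hQ, hQP, ?_⟩
  have hQan : ∀ j y, AnalyticAt ℂ (fun w => eval (F j w) Q) y := fun j y => analyticAt_eval (analyticAt_of_entire (hF j) y) Q
  -- the bound on `G` gives a bound on the ball
  have hstepA : ∀ S : ℝ, 0 ≤ S → (∀ j, ∀ y ∈ G, ∀ v, VAt (F j) y v → ‖eval v Q‖ ≤ S * ‖v‖ ^ d) →
      ∀ j, ∀ y ∈ closedBall (0 : Fin n → ℂ) R₁, ‖eval (F j y) Q‖ ≤ S * C₁ ^ d := by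
    intro S hS hbdS j y hy
    obtain ⟨e, r, hr, hre, hc'⟩ := hcirc y hy
    have hgd : DiffContOnCl ℂ (fun t : ℂ => eval (F j (y + t • e)) Q) (ball 0 r) := by
      refine Differentiable.diffContOnCl fun t => ?_
      have h1 : Differentiable ℂ fun t : ℂ => y + t • e := by fun_prop
      exact DifferentiableAt.comp (g := fun w => eval (F j w) Q) (f := fun t : ℂ => y + t • e) t (hQan j (y + t • e)).differentiableAt (h1 t)
    obtain ⟨t, ht, hmax⟩ := Complex.exists_mem_frontier_isMaxOn_norm isBounded_ball (nonempty_ball.2 hr) hgd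
    rw [frontier_ball _ hr.ne', mem_sphere_zero_iff_norm] at ht
    have h7 : ‖eval (F j (y + (0 : ℂ) • e)) Q‖ ≤ ‖eval (F j (y + t • e)) Q‖ := hmax (subset_closure (mem_ball_self hr))
    rw [zero_smul, add_zero] at h7
    have hyG : y + t • e ∈ G := by
      rw [hG]
      exact fun b hb => hc' t ht b hb
    obtain ⟨v, hv⟩ := hext' j _ hyG
    have h8 := hbdS j _ hyG v hv
    obtain ⟨φ, hφ, hφv, hv0, h9⟩ := hv
    obtain ⟨g, hg⟩ := (h9.self_of_nhds).smul (by rw [hφv]; exact hv0)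
    rw [hφv] at hg
    have h10 : ‖F j (y + t • e)‖ ≤ C₁ := by
      refine hbd j _ ?_
      rw [mem_closedBall_zero_iff] at hy ⊢
      calc ‖y + t • e‖ ≤ ‖y‖ + ‖t • e‖ := norm_add_le _ _
        _ ≤ R₁ + 1 := by
          rw [norm_smul, ht]
          linarith
    refine h7.trans ?_
    calc ‖eval (F j (y + t • e)) Q‖ = ‖g‖ ^ d * ‖eval v Q‖ := by rw [hg, eval_smul_form hQ, norm_mul, norm_pow]
      _ ≤ ‖g‖ ^ d * (S * ‖v‖ ^ d) := mul_le_mul_of_nonneg_left h8 (by positivity)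
      _ = S * ‖F j (y + t • e)‖ ^ d := by
        rw [hg, norm_smul]
        ring
      _ ≤ S * C₁ ^ d := mul_le_mul_of_nonneg_left (pow_le_pow_left₀ (norm_nonneg _) h10 d) hS
  -- the bound can be halved
  have hstepB : ∀ S : ℝ, 0 ≤ S → (∀ j, ∀ y ∈ G, ∀ v, VAt (F j) y v → ‖eval v Q‖ ≤ S * ‖v‖ ^ d) →
      ∀ j, ∀ y ∈ G, ∀ v, VAt (F j) y v → ‖eval v Q‖ ≤ S / 2 * ‖v‖ ^ d := by
    intro S hS hbdS j y hy v hv
    obtain ⟨l, hl, hyl⟩ := hR y
    have hl' : -l ∈ Γ := Γ.neg_mem hl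
    have hv' : VAt (F j) (y - l) v := by
      rw [sub_eq_add_neg]
      exact hv.shift (hF j) (hne j) fun w => hper j (-l) hl' w
    have hylG : y - l ∈ G := by
      rw [hG] at hy ⊢
      intro b hb
      rw [sub_sub, add_comm]
      exact hy _ (hinv b hb l hl)
    obtain ⟨y', hy', h1⟩ := hcmp j (y - l) ⟨mem_closedBall_zero_iff.2 (hyl.trans (le_abs_self R)), hylG⟩ v hv' d Q hQ
    have hy'n : ‖y'‖ ≤ |R| + 1 := by
      calc ‖y'‖ = ‖(y' - (y - l)) + (y - l)‖ := by rw [sub_add_cancel]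
        _ ≤ ‖y' - (y - l)‖ + ‖y - l‖ := norm_add_le _ _
        _ ≤ |R| + 1 := by linarith [hyl.trans (le_abs_self R)]
    have hy'b : y' ∈ ball (0 : Fin n → ℂ) R₁ := by
      rw [mem_ball_zero_iff]
      linarith [abs_nonneg R]
    have h2 : ‖eval (F j y') Q‖ ≤ S * C₁ ^ d * (‖y'‖ / R₁) ^ (κ * d) :=
      norm_le_of_iteratedFDeriv (E := Fin n → ℂ) (m := κ * d) (G := fun w => eval (F j w) Q) hR₁0 (fun w _ => hQan j w)
        (fun w hw => hstepA S hS hbdS j w (ball_subset_closedBall hw)) (fun k hk w => eq_zero_of_taylor (hF00 j) (hQT j) hk w) hy'b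
    have h3 : (‖y'‖ / R₁) ^ (κ * d) ≤ (1 / 2) ^ (κ * d) := by
      refine pow_le_pow_left₀ (by positivity) ?_ _
      rw [div_le_iff₀ hR₁0]
      linarith
    have h4 : ‖eval (F j y') Q‖ ≤ S * (C₁ * (1 / 2) ^ κ) ^ d := by
      calc ‖eval (F j y') Q‖ ≤ S * C₁ ^ d * (‖y'‖ / R₁) ^ (κ * d) := h2
        _ ≤ S * C₁ ^ d * (1 / 2) ^ (κ * d) := mul_le_mul_of_nonneg_left h3 (by positivity)
        _ = S * (C₁ * (1 / 2) ^ κ) ^ d := by
          rw [pow_mul]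
          ring
    have h5 : (C₁ * (1 / 2) ^ κ) ^ d ≤ c ^ d * (1 / 2) := by
      calc (C₁ * (1 / 2) ^ κ) ^ d ≤ (c / 2) ^ d := pow_le_pow_left₀ (by positivity) hκ d
        _ = c ^ d * (1 / 2) ^ d := by
          rw [← mul_pow]
          ring
        _ ≤ c ^ d * (1 / 2) ^ 1 := mul_le_mul_of_nonneg_left (pow_le_pow_of_le_one (by norm_num) (by norm_num) hd) (by positivity)
        _ = c ^ d * (1 / 2) := by rw [pow_one]
    have h6 : c ^ d * ‖eval v Q‖ ≤ c ^ d * (S / 2 * ‖v‖ ^ d) := by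
      calc c ^ d * ‖eval v Q‖ ≤ ‖v‖ ^ d * ‖eval (F j y') Q‖ := h1
        _ ≤ ‖v‖ ^ d * (S * (c ^ d * (1 / 2))) :=
          mul_le_mul_of_nonneg_left (h4.trans (mul_le_mul_of_nonneg_left h5 hS)) (by positivity)
        _ = c ^ d * (S / 2 * ‖v‖ ^ d) := by ring
    exact le_of_mul_le_mul_left h6 (by positivity)
  -- so the form vanishes
  obtain ⟨C, hC, hCb⟩ := norm_eval_le hQ
  have hk : ∀ k : ℕ, ∀ j, ∀ y ∈ G, ∀ v, VAt (F j) y v → ‖eval v Q‖ ≤ C / 2 ^ k * ‖v‖ ^ d := by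
    intro k
    induction k with
    | zero =>
      intro j y _ v _
      rw [pow_zero, div_one]
      exact hCb v
    | succ k ih =>
      have h1 := hstepB (C / 2 ^ k) (by positivity) ih
      intro j y hy v hv
      have h2 := h1 j y hy v hv
      rwa [div_div, ← pow_succ] at h2
  have h0 : ∀ j, ∀ y ∈ G, ∀ v, VAt (F j) y v → ‖eval v Q‖ ≤ 0 * ‖v‖ ^ d := by
    intro j y hy v hv
    have ht : Tendsto (fun k : ℕ => C / 2 ^ k * ‖v‖ ^ d) atTop (𝓝 (0 * ‖v‖ ^ d)) := by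
      refine Tendsto.mul_const _ ?_
      have h1 : Tendsto (fun k : ℕ => C * (1 / 2 : ℝ) ^ k) atTop (𝓝 (C * 0)) :=
        (tendsto_pow_atTop_nhds_zero_of_lt_one (by norm_num) (by norm_num)).const_mul C
      rw [mul_zero] at h1
      refine h1.congr fun k => ?_
      rw [one_div, inv_pow, div_eq_mul_inv]
    exact ge_of_tendsto' ht fun k => hk k j y hy v hv
  intro j
  have h1 : ∀ y ∈ closedBall (0 : Fin n → ℂ) R₁, eval (F j y) Q = 0 := by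
    intro y hy
    have h2 := hstepA 0 le_rfl h0 j y hy
    rw [zero_mul] at h2
    exact norm_le_zero_iff.1 h2
  have h2 : (fun y => eval (F j y) Q) =ᶠ[𝓝 0] fun _ => (0 : ℂ) := by
    filter_upwards [closedBall_mem_nhds (0 : Fin n → ℂ) hR₁0] with y hy using h1 y hy
  have h3 : AnalyticOnNhd ℂ (fun y => eval (F j y) Q) Set.univ := fun y _ => hQan j y
  have h4 := h3.eq_of_eventuallyEq (g := fun _ => (0 : ℂ)) (fun y _ => analyticAt_const) h2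
  exact fun y => congrFun h4 y

end Pool.Agent.TG
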