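import Pool.Agent.TG.Tc
import Pool.Agent.TN.Osg

/-!
# TG Prm: primitives in the direction of the coordinate `0`

Port of `Pool/Agent/H62/EL/Prm.lean` (`exists_prim_snd`; there the variable of integration is the second one): for `a` analytic on `ball 0 R` (a polydisc) put
`A p = ∫ θ in 0..1, p 0 * a (Function.update p 0 (θ p 0))`.  For the analyticity in several variables one may use `Pool.Agent.TN.osgood_pi`
(`Pool/Agent/TN/Osg.lean`: bounded and separately holomorphic functions are analytic) or the method of `EL/Prm`.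
`exists_prim`: `exists_prim_zero` with `R = 2`, `a = tc α χ (ms c ρ)` (`tc_an`, `Str.lift` holds on the open ball).
-/

set_option autoImplicit false

open Topology Filter Metric

namespace Pool.Agent.TG

open Pool.Agent.H36.BP (EN fs wd)
open Pool.Agent.H14.PP (IsCone CurveAt Tan)
open Pool.Agent.H62.EF (MN pr)
open Pool.Agent.AD (Vd Chart Charts IsGerm)

variable {N k : ℕ}


variable {X : Set (EN N)} {Λ : AddSubgroup (Vd (k + 1))} {u : EN N → Vd (k + 1)}

/-- the point with the coordinate `0` multiplied by `θ` -/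
noncomputable def pP {m : ℕ} (θ : ℝ) (p : Vd (m + 1)) : Vd (m + 1) :=
  Fin.cons (α := fun _ => ℂ) ((θ : ℂ) * p 0) fun i : Fin m => p i.succ

theorem pP_zero {m : ℕ} (θ : ℝ) (p : Vd (m + 1)) : pP θ p 0 = (θ : ℂ) * p 0 := rfl

theorem pP_succ {m : ℕ} (θ : ℝ) (p : Vd (m + 1)) (i : Fin m) : pP θ p i.succ = p i.succ := rfl

theorem pP_add {m : ℕ} (θ : ℝ) (p v : Vd (m + 1)) (t : ℂ) : pP θ (p + t • v) = pP θ p + t • pP θ v := by
  funext i
  refine Fin.cases ?_ ?_ i
  · rw [Pi.add_apply, Pi.smul_apply, pP_zero, pP_zero, pP_zero, Pi.add_apply, Pi.smul_apply, smul_eq_mul, smul_eq_mul]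
    ring
  · intro j
    rfl

theorem pP_norm {m : ℕ} {θ : ℝ} (h0 : 0 ≤ θ) (h1 : θ ≤ 1) (p : Vd (m + 1)) : ‖pP θ p‖ ≤ ‖p‖ := by
  rw [pi_norm_le_iff_of_nonneg (norm_nonneg _)]
  intro i
  refine Fin.cases ?_ ?_ i
  · rw [pP_zero, norm_mul, Complex.norm_real, Real.norm_of_nonneg h0]
    calc θ * ‖p 0‖ ≤ 1 * ‖p 0‖ := mul_le_mul_of_nonneg_right h1 (norm_nonneg _)
      _ = ‖p 0‖ := one_mul _
      _ ≤ ‖p‖ := norm_le_pi_norm p 0
  · intro j
    rw [pP_succ]
    exact norm_le_pi_norm p j.succ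

theorem pP_cont {m : ℕ} (p : Vd (m + 1)) : Continuous fun θ : ℝ => pP θ p := by
  refine continuous_pi fun i => ?_
  refine Fin.cases ?_ ?_ i
  · show Continuous fun θ : ℝ => (θ : ℂ) * p 0
    exact Complex.continuous_ofReal.mul continuous_const
  · intro j
    show Continuous fun _ : ℝ => p j.succ
    exact continuous_const

theorem prm_I {m : ℕ} {R : ℝ} {a : Vd (m + 1) → ℂ} (ha : ∀ p ∈ ball (0 : Vd (m + 1)) R, AnalyticAt ℂ a p) {p : Vd (m + 1)}
    (hp : p ∈ ball (0 : Vd (m + 1)) R) : AnalyticAt ℂ (fun p => ∫ θ in (0 : ℝ)..1, a (pP θ p)) p := by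
  have hpR : ‖p‖ < R := by simpa using hp
  obtain ⟨r, hr1, hr2⟩ := exists_between hpR
  have hsub : closedBall (0 : Vd (m + 1)) r ⊆ ball 0 R := closedBall_subset_ball hr2
  have hac : ContinuousOn a (closedBall (0 : Vd (m + 1)) r) := fun q hq => (ha q (hsub hq)).continuousAt.continuousWithinAt
  have hac' : ContinuousOn (fderiv ℂ a) (closedBall (0 : Vd (m + 1)) r) := fun q hq =>
    (ha q (hsub hq)).fderiv.continuousAt.continuousWithinAt
  obtain ⟨M, hM⟩ := (isCompact_closedBall (0 : Vd (m + 1)) r).exists_bound_of_continuousOn hac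
  obtain ⟨M', hM'⟩ := (isCompact_closedBall (0 : Vd (m + 1)) r).exists_bound_of_continuousOn hac'
  have hin : ∀ y ∈ ball p (r - ‖p‖), ‖y‖ < r := by
    intro y hy
    rw [mem_ball, dist_eq_norm] at hy
    have h1 : y = p + (y - p) := by abel
    rw [h1]
    linarith [norm_add_le p (y - p)]
  have hu : Set.uIcc (0 : ℝ) 1 = Set.Icc 0 1 := Set.uIcc_of_le zero_le_one
  have hmem : ∀ y : Vd (m + 1), ‖y‖ < r → ∀ θ ∈ Set.Icc (0 : ℝ) 1, pP θ y ∈ closedBall (0 : Vd (m + 1)) r := by
    intro y hy θ hθ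
    rw [mem_closedBall_zero_iff]
    exact (pP_norm hθ.1 hθ.2 y).trans hy.le
  have hcont : ∀ y : Vd (m + 1), ‖y‖ < r → ContinuousOn (fun θ : ℝ => a (pP θ y)) (Set.uIcc 0 1) := by
    intro y hy
    rw [hu]
    exact hac.comp (pP_cont y).continuousOn fun θ hθ => hmem y hy θ hθ
  have hioc : Set.uIoc (0 : ℝ) 1 ⊆ Set.Icc 0 1 := by
    rw [Set.uIoc_of_le zero_le_one]
    exact Set.Ioc_subset_Icc_self
  refine Pool.Agent.TN.osgood_pi (w := p) (r := r - ‖p‖) (M := M) (by linarith) ?_ ?_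
  · intro y hy
    have h1 := intervalIntegral.norm_integral_le_of_norm_le_const (a := 0) (b := 1) (C := M) (f := fun θ => a (pP θ y))
      (fun θ hθ => hM _ (hmem y (hin y hy) θ (hioc hθ)))
    rwa [sub_zero, abs_one, mul_one] at h1
  · intro y hy l
    have hyn := hin y hy
    set v : Vd (m + 1) := Pi.single l 1 with hv
    have hvn : ‖v‖ ≤ 1 := by
      rw [pi_norm_le_iff_of_nonneg zero_le_one]
      intro i
      by_cases hi : i = l
      · subst hi; simp [hv]
      · simp [hv, Pi.single_eq_of_ne hi]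
    set s : ℝ := r - ‖y‖ with hs
    have hs0 : 0 < s := by linarith
    have hin2 : ∀ t ∈ ball (0 : ℂ) s, ‖y + t • v‖ < r := by
      intro t ht
      have ht' : ‖t‖ < s := by simpa using ht
      have h1 : ‖t • v‖ ≤ ‖t‖ := by
        rw [norm_smul]
        calc ‖t‖ * ‖v‖ ≤ ‖t‖ * 1 := mul_le_mul_of_nonneg_left hvn (norm_nonneg _)
          _ = ‖t‖ := mul_one _
      linarith [norm_add_le y (t • v)]
    have hM'0 : 0 ≤ M' := (norm_nonneg _).trans (hM' 0 (mem_closedBall_self ((norm_nonneg y).trans hyn.le)))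
    have hmain := intervalIntegral.hasDerivAt_integral_of_dominated_loc_of_deriv_le (μ := MeasureTheory.volume) (a := 0) (b := 1)
      (F := fun t θ => a (pP θ (y + t • v))) (F' := fun t θ => fderiv ℂ a (pP θ (y + t • v)) (pP θ v)) (x₀ := (0 : ℂ))
      (s := ball (0 : ℂ) s) (bound := fun _ => M') (ball_mem_nhds 0 hs0)
      (by
        filter_upwards [ball_mem_nhds (0 : ℂ) hs0] with t ht
        exact ((hcont _ (hin2 t ht)).mono (by rw [hu]; exact hioc)).aestronglyMeasurable measurableSet_uIoc)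
      ((hcont _ (hin2 0 (mem_ball_self hs0))).intervalIntegrable)
      (by
        have h1 : ContinuousOn (fun θ : ℝ => fderiv ℂ a (pP θ (y + (0 : ℂ) • v)) (pP θ v)) (Set.Icc 0 1) :=
          (hac'.comp (pP_cont _).continuousOn fun θ hθ => hmem _ (hin2 0 (mem_ball_self hs0)) θ hθ).clm_apply (pP_cont v).continuousOn
        exact (h1.mono hioc).aestronglyMeasurable measurableSet_uIoc)
      (Eventually.of_forall fun θ hθ t ht => by
        have h1 := hM' _ (hmem _ (hin2 t ht) θ (hioc hθ))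
        calc ‖fderiv ℂ a (pP θ (y + t • v)) (pP θ v)‖ ≤ ‖fderiv ℂ a (pP θ (y + t • v))‖ * ‖pP θ v‖ := ContinuousLinearMap.le_opNorm _ _
          _ ≤ M' * 1 := mul_le_mul h1 ((pP_norm (hioc hθ).1 (hioc hθ).2 v).trans hvn) (norm_nonneg _) hM'0
          _ = M' := mul_one _)
      (continuous_const.intervalIntegrable _ _)
      (Eventually.of_forall fun θ hθ t ht => by
        have h1 : HasFDerivAt a (fderiv ℂ a (pP θ (y + t • v))) (pP θ (y + t • v)) :=
          (ha _ (hsub (hmem _ (hin2 t ht) θ (hioc hθ)))).differentiableAt.hasFDerivAt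
        have h2 : HasDerivAt (fun t : ℂ => pP θ (y + t • v)) (pP θ v) t := by
          have h3 : HasDerivAt (fun t : ℂ => pP θ y + t • pP θ v) (pP θ v) t := by
            have h4 := ((hasDerivAt_id t).smul_const (pP θ v)).const_add (pP θ y)
            rw [one_smul] at h4
            exact h4
          have h4 : (fun t : ℂ => pP θ (y + t • v)) = fun t : ℂ => pP θ y + t • pP θ v := funext fun t => pP_add θ y v t
          rw [h4]
          exact h3
        exact h1.comp_hasDerivAt t h2)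
    exact hmain.2.differentiableAt

theorem exists_prim_zero {m : ℕ} {R : ℝ} {a : Vd (m + 1) → ℂ} (ha : ∀ p ∈ ball (0 : Vd (m + 1)) R, AnalyticAt ℂ a p) :
    ∃ A : Vd (m + 1) → ℂ, (∀ p ∈ ball (0 : Vd (m + 1)) R, AnalyticAt ℂ A p ∧ fderiv ℂ A p (Pi.single 0 1) = a p) ∧
      ∀ p ∈ ball (0 : Vd (m + 1)) R, p 0 = 0 → A p = 0 := by
  have han : ∀ p ∈ ball (0 : Vd (m + 1)) R, AnalyticAt ℂ (fun p : Vd (m + 1) => p 0 * ∫ θ in (0 : ℝ)..1, a (pP θ p)) p := by
    intro p hp
    exact ((ContinuousLinearMap.proj (R := ℂ) (φ := fun _ : Fin (m + 1) => ℂ) 0).analyticAt p).mul (prm_I ha hp)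
  refine ⟨fun p => p 0 * ∫ θ in (0 : ℝ)..1, a (pP θ p), fun p hp => ⟨han p hp, ?_⟩, fun p _ hp0 => ?_⟩
  · -- the line through `p`
    set L : ℂ → Vd (m + 1) := fun z => p + (z - p 0) • (Pi.single 0 1 : Vd (m + 1)) with hL
    have hL0 : ∀ z, L z 0 = z := by
      intro z
      rw [hL]
      simp
    have hLs : ∀ z (i : Fin m), L z i.succ = p i.succ := by
      intro z i
      rw [hL]
      simp
    have hLp : L (p 0) = p := by
      rw [hL]
      simp
    have hpR : ‖p‖ < R := by simpa using hp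
    have hR : 0 < R := (norm_nonneg p).trans_lt hpR
    have hLb : ∀ z ∈ ball (0 : ℂ) R, L z ∈ ball (0 : Vd (m + 1)) R := by
      intro z hz
      rw [mem_ball_zero_iff, pi_norm_lt_iff hR]
      intro i
      refine Fin.cases ?_ ?_ i
      · rw [hL0]
        simpa using hz
      · intro j
        rw [hLs]
        exact (norm_le_pi_norm p j.succ).trans_lt hpR
    have hLd : ∀ z, HasDerivAt L (Pi.single 0 1) z := by
      intro z
      have h1 := (((hasDerivAt_id z).sub_const (p 0)).smul_const (Pi.single 0 1 : Vd (m + 1))).const_add p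
      rw [one_smul] at h1
      exact h1
    have hPL : ∀ (θ : ℝ) z, pP θ (L z) = L ((θ : ℂ) * z) := by
      intro θ z
      funext i
      refine Fin.cases ?_ ?_ i
      · rw [pP_zero, hL0, hL0]
      · intro j
        rw [pP_succ, hLs, hLs]
    have h1 : DifferentiableOn ℂ (fun z => a (L z)) (ball 0 R) := by
      intro z hz
      exact ((ha _ (hLb z hz)).differentiableAt.comp z (hLd z).differentiableAt).differentiableWithinAt
    obtain ⟨g, -, hg⟩ := h1.isExactOn_ball.with_val_at 0 0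
    have hAg : ∀ z ∈ ball (0 : ℂ) R, L z 0 * ∫ θ in (0 : ℝ)..1, a (pP θ (L z)) = g z - g 0 := by
      intro z hz
      rw [hL0, ← intervalIntegral.integral_const_mul]
      have hzn : ‖z‖ < R := by simpa using hz
      have hθz : ∀ θ ∈ Set.uIcc (0 : ℝ) 1, (θ : ℂ) * z ∈ ball (0 : ℂ) R := by
        intro θ hθ
        rw [Set.uIcc_of_le zero_le_one] at hθ
        rw [mem_ball_zero_iff, norm_mul, Complex.norm_real, Real.norm_of_nonneg hθ.1]
        calc θ * ‖z‖ ≤ 1 * ‖z‖ := mul_le_mul_of_nonneg_right hθ.2 (norm_nonneg _)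
          _ < R := by rw [one_mul]; exact hzn
      have h2 : ∀ θ ∈ Set.uIcc (0 : ℝ) 1, HasDerivAt (fun θ : ℝ => g ((θ : ℂ) * z)) (z * a (pP θ (L z))) θ := by
        intro θ hθ
        rw [hPL]
        have h3 := hg _ (hθz θ hθ)
        have h4 : HasDerivAt (fun t : ℂ => t * z) z (θ : ℂ) := by
          have h5 := (hasDerivAt_id (θ : ℂ)).mul_const z
          rwa [one_mul] at h5
        have h5 : HasDerivAt (fun t : ℂ => g (t * z)) (a (L ((θ : ℂ) * z)) * z) (θ : ℂ) := h3.comp (θ : ℂ) h4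
        have h6 := h5.comp_ofReal
        rw [mul_comm] at h6
        exact h6
      have h3 := intervalIntegral.integral_eq_sub_of_hasDerivAt h2 (by
        refine ContinuousOn.intervalIntegrable ?_
        refine continuousOn_const.mul ?_
        intro θ hθ
        have h4 : ContinuousAt a (pP θ (L z)) := by
          rw [hPL]
          exact (ha _ (hLb _ (hθz θ hθ))).continuousAt
        exact (ContinuousAt.comp (f := fun θ : ℝ => pP θ (L z)) h4 (pP_cont _).continuousAt).continuousWithinAt)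
      rw [h3]
      simp
    have hp0 : p 0 ∈ ball (0 : ℂ) R := by
      rw [mem_ball_zero_iff]
      exact (norm_le_pi_norm p 0).trans_lt hpR
    have h2 : HasDerivAt (fun z => L z 0 * ∫ θ in (0 : ℝ)..1, a (pP θ (L z))) (a p) (p 0) := by
      have h3 := (hg _ hp0).sub_const (g 0)
      simp only [hLp] at h3
      refine h3.congr_of_eventuallyEq ?_
      filter_upwards [isOpen_ball.mem_nhds hp0] with z hz
      exact hAg z hz
    have h3 : HasFDerivAt (fun p : Vd (m + 1) => p 0 * ∫ θ in (0 : ℝ)..1, a (pP θ p))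
        (fderiv ℂ (fun p : Vd (m + 1) => p 0 * ∫ θ in (0 : ℝ)..1, a (pP θ p)) p) (L (p 0)) := by
      rw [hLp]
      exact (han p hp).differentiableAt.hasFDerivAt
    exact (h3.comp_hasDerivAt (p 0) (hLd (p 0))).unique h2
  · show p 0 * _ = 0
    rw [hp0, zero_mul]

theorem ms_an (c : Vd (k + 1)) (ρ : ℝ) (p : Vd (k + 2)) : AnalyticAt ℂ (ms c ρ) p := by
  have h1 : AnalyticAt ℂ (fun p : Vd (k + 2) => tl p) p := by
    rw [analyticAt_pi_iff]
    intro i
    exact (ContinuousLinearMap.proj (R := ℂ) (φ := fun _ : Fin (k + 2) => ℂ) i.succ).analyticAt p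
  exact analyticAt_const.add (AnalyticAt.fun_smul analyticAt_const h1)

theorem exists_prim (α : VForm X Λ u) (χ : Chart (k + 2) X) {c : Vd (k + 1)} {ρ : ℝ} (h : Str Λ u χ c ρ) :
    ∃ A : Vd (k + 2) → ℂ, IsPrim α χ (ms c ρ) A := by
  obtain ⟨A, hA, hA0⟩ := exists_prim_zero (R := 2) (a := tc α χ (ms c ρ)) (fun p hp => tc_an α χ hp (ms_an c ρ p) (by
    filter_upwards [isOpen_ball.mem_nhds hp] with q hq
    exact h.lift q hq))
  exact ⟨A, fun p hp => (hA p hp).1, fun p hp => (hA p hp).2, hA0⟩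

end Pool.Agent.TG
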