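import Pool.Agent.H19T.FDefs

/-!
# TG SaDefs: rational maps from semi-abelian varieties to projective varieties over complex tori, the definitions
-/

set_option autoImplicit false

open MvPolynomial
open Pool.Agent.H17 (PN VanishesAt)
open Pool.Agent.H17EF (projVar)
open Pool.Agent.H22.TB (closureIn)

noncomputable section

namespace Pool.Agent.TG

variable {N : ℕ}

/-- The maps `F` and `F'` to `ℂ^(N+1)` represent the same map to `ℙ^N`. -/
def SameProjMap {g : ℕ} (F F' : (Fin g → ℂ) → Fin (N + 1) → ℂ) : Prop := ∀ z i j, F z i * F' z j = F z j * F' z i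

/-- The set of the points `[F z]`, `F z ≠ 0`. -/
def imageOf {g : ℕ} (F : (Fin g → ℂ) → Fin (N + 1) → ℂ) : Set (PN N) := {x | ∃ z, ∃ h : F z ≠ 0, x = Projectivization.mk ℂ (F z) h}

/-- A meromorphic map from `ℂ^g` to `ℙ^N` of the type of the rational maps from semi-abelian varieties: it is given by entire functions `F = (F 0, …, F N)`, not all
zero, with `|F z| ≤ exp (C (1 + |z|²))`; `T` is a complex subspace with `|F (z + t)| ≤ exp (C (1 + |t|))` for `t` in `T`, `C` depending on `z`; `L` is a group of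
periods, and `T` and `L` span `ℂ^g` over `ℝ`.  (For a rational map from the semi-abelian variety `A = ℂ^g / L` the subspace `T` is the Lie algebra of the torus part of `A`.) -/
structure SabMap (N : ℕ) where
  /-- the dimension -/
  g : ℕ
  /-- the entire functions -/
  F : (Fin g → ℂ) → Fin (N + 1) → ℂ
  differentiable : Differentiable ℂ F
  ne_zero : ∃ z, F z ≠ 0
  growth : ∃ C : ℝ, ∀ z, ‖F z‖ ≤ Real.exp (C * (1 + ‖z‖ ^ 2))
  /-- the directions of the torus part -/
  T : Submodule ℂ (Fin g → ℂ)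
  torus : ∀ z, ∃ C : ℝ, ∀ t ∈ T, ‖F (z + t)‖ ≤ Real.exp (C * (1 + ‖t‖))
  /-- the periods -/
  L : AddSubgroup (Fin g → ℂ)
  periodic : ∀ l ∈ L, SameProjMap (fun z => F (z + l)) F
  span : T.restrictScalars ℝ ⊔ Submodule.span ℝ (L : Set (Fin g → ℂ)) = ⊤

/-- The union of the images of the non-constant maps into `X`. -/
def sabUnion (X : Set (PN N)) : Set (PN N) :=
  {x | ∃ S : SabMap N, imageOf S.F ⊆ X ∧ (∃ y ∈ imageOf S.F, ∃ z ∈ imageOf S.F, y ≠ z) ∧ x ∈ imageOf S.F}

/-- The special set of `X`: the Zariski closure in `X` of the union of the images of the non-constant maps into `X`. -/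
def sabSpecialSet (X : Set (PN N)) : Set (PN N) := closureIn X (sabUnion X)

/-- `W` is the tangent space of a complex subtorus of `ℂ^n / Λ`: the real span of `Λ ∩ W` is `W`. -/
def IsSubtorus {n : ℕ} (Λ : AddSubgroup (Fin n → ℂ)) (W : Submodule ℂ (Fin n → ℂ)) : Prop :=
  W.restrictScalars ℝ ≤ Submodule.span ℝ {l : Fin n → ℂ | l ∈ Λ ∧ l ∈ W}

/-- The torus `ℂ^n / Λ` is simple: it has no subtori other than `0` and itself. -/
def SimpleTorus {n : ℕ} (Λ : AddSubgroup (Fin n → ℂ)) : Prop := ∀ W : Submodule ℂ (Fin n → ℂ), IsSubtorus Λ W → W = ⊥ ∨ W = ⊤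

/-- The meromorphic maps from `ℂ^n` to the variety `X` over the torus `ℂ^n / Λ`: the entire functions `F : ℂ^n → ℂ^(N+1)`, not identically `0`, with `[F y] ∈ X` and
`u [F y] = y` modulo `Λ` if `F y ≠ 0`. -/
def merSections {n : ℕ} (X : Set (PN N)) (Λ : AddSubgroup (Fin n → ℂ)) (u : PN N → (Fin n → ℂ) ⧸ Λ) : Set ((Fin n → ℂ) → Fin (N + 1) → ℂ) :=
  {F | Differentiable ℂ F ∧ (∃ y, F y ≠ 0) ∧
    ∀ y, ∀ h : F y ≠ 0, Projectivization.mk ℂ (F y) h ∈ X ∧ u (Projectivization.mk ℂ (F y) h) = (y : (Fin n → ℂ) ⧸ Λ)}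

/-- The four types of maps `S` into the variety `X` over the torus `ℂ^n / Λ`; `D` is the set of the bad values of `u`: `S` lies in a fibre over a point of `D`; or `S` is constant;
or `u ∘ S` is an affine map onto a translate of a subtorus which is not `0` and not the whole torus; or `u ∘ S` is an affine map onto the torus and `S` is the
composition of this map and a meromorphic map over the torus. -/
def SabCases {n : ℕ} (X : Set (PN N)) (Λ : AddSubgroup (Fin n → ℂ)) (u : PN N → (Fin n → ℂ) ⧸ Λ) (D : Set (Fin n → ℂ)) (S : SabMap N) : Prop :=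
  (∃ b ∈ D, ∀ x ∈ imageOf S.F, u x = (b : (Fin n → ℂ) ⧸ Λ)) ∨
  (∀ x ∈ imageOf S.F, ∀ y ∈ imageOf S.F, x = y) ∨
  ∃ (B : (Fin S.g → ℂ) →ₗ[ℂ] (Fin n → ℂ)) (c : Fin n → ℂ),
    (∀ z, ∀ h : S.F z ≠ 0, u (Projectivization.mk ℂ (S.F z) h) = ((B z + c : Fin n → ℂ) : (Fin n → ℂ) ⧸ Λ)) ∧
    (IsSubtorus Λ (LinearMap.range B) ∧ LinearMap.range B ≠ ⊥ ∧ LinearMap.range B ≠ ⊤ ∨
      Function.Surjective B ∧ ∃ Φ ∈ merSections X Λ u, SameProjMap S.F fun z => Φ (B z + c))

end Pool.Agent.TG
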