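import Pool.Agent.TG.SaC
import Pool.Agent.TG.SaDefs
import Pool.Agent.TG.Defs
import Pool.Agent.AD.T.Proj

/-!
# TG SaP: the four cases for maps to projective varieties
-/

set_option autoImplicit false

open Topology Filter Metric MvPolynomial

noncomputable section

namespace Pool.Agent.TG

open Pool.Agent.H36.BP (EN fs wd)
open Pool.Agent.H14.PP (IsCone CurveAt Tan)
open Pool.Agent.AD (Vd Charts TorusMapV DiscreteSub uV uV_eq sub_mem_iff isCone_coneE torusMapV discreteSub_of IsHolomorphicTorusMap)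
open Pool.Agent.H17 (PN VanishesAt vanishesAt_mk_iff)
open Pool.Agent.H62.FC (Homog)
open Pool.Agent.H17EF (projVar coneE LE mk_mem_projVar mem_coneE)

variable {N n : ℕ} {P : Ideal (MvPolynomial (Fin (N + 1)) ℂ)}

theorem LE_apply_coord (x : Fin (N + 1) → ℂ) (i : Fin (N + 1)) : (LE N x) i = x i := rfl

theorem LE_ne {x : Fin (N + 1) → ℂ} : LE N x ≠ 0 ↔ x ≠ 0 := by
  refine not_congr ⟨fun h => (LE N).injective (h.trans (map_zero _).symm), fun h => by rw [h, map_zero]⟩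

theorem LE_bound : ∃ K : ℝ, 0 ≤ K ∧ ∀ x, ‖LE N x‖ ≤ Real.exp K * ‖x‖ := by
  refine ⟨‖((LE N : (Fin (N + 1) → ℂ) →L[ℂ] EN N))‖, norm_nonneg _, fun x => ?_⟩
  refine ((LE N : (Fin (N + 1) → ℂ) →L[ℂ] EN N).le_opNorm x).trans ?_
  exact mul_le_mul_of_nonneg_right ((le_add_of_nonneg_right zero_le_one).trans (Real.add_one_le_exp _)) (norm_nonneg x)

/-- a map of semi-abelian type as a map into the cone -/
theorem SabMap.rep (hP : Homog P) (S : SabMap N) (hS : imageOf S.F ⊆ projVar P) : Rep (coneE P) (fun z => LE N (S.F z)) S.T S.L := by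
  obtain ⟨K, hK0, hK⟩ := LE_bound (N := N)
  have hbd : ∀ {x : Fin (N + 1) → ℂ} {C t : ℝ}, 0 ≤ t → ‖x‖ ≤ Real.exp (C * (1 + t)) → ‖LE N x‖ ≤ Real.exp ((|C| + K) * (1 + t)) := by
    intro x C t ht hx
    refine (hK x).trans ?_
    calc Real.exp K * ‖x‖ ≤ Real.exp K * Real.exp (C * (1 + t)) := mul_le_mul_of_nonneg_left hx (Real.exp_pos _).le
      _ = Real.exp (K + C * (1 + t)) := by rw [Real.exp_add]
      _ ≤ Real.exp ((|C| + K) * (1 + t)) := by
          apply Real.exp_le_exp.2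
          have h1 : C * (1 + t) ≤ |C| * (1 + t) := mul_le_mul_of_nonneg_right (le_abs_self C) (by linarith)
          nlinarith
  refine ⟨(LE N).differentiable.comp S.differentiable, ?_, ?_, ?_, ?_, ?_, S.span⟩
  · obtain ⟨z, hz⟩ := S.ne_zero
    exact ⟨z, LE_ne.2 hz⟩
  · intro z hz
    have hz' : S.F z ≠ 0 := LE_ne.1 hz
    have h1 := hS ⟨z, hz', rfl⟩
    rw [mk_mem_projVar hP hz'] at h1
    show (LE N).symm (LE N (S.F z)) ∈ Pool.Agent.H13.SM.cone P
    rwa [ContinuousLinearEquiv.symm_apply_apply]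
  · obtain ⟨C, hC⟩ := S.growth
    exact ⟨|C| + K, fun z => hbd (sq_nonneg _) (hC z)⟩
  · intro z
    obtain ⟨C, hC⟩ := S.torus z
    exact ⟨|C| + K, fun t ht => hbd (norm_nonneg _) (hC t ht)⟩
  · intro l hl z i j
    exact S.periodic l hl z i j

theorem mk_eq_of_prop {x y : Fin (N + 1) → ℂ} (hx : x ≠ 0) (hy : y ≠ 0) (h : ∀ i j, x i * y j = x j * y i) :
    Projectivization.mk ℂ x hx = Projectivization.mk ℂ y hy := by
  obtain ⟨j, hj⟩ := Function.ne_iff.1 hy
  rw [Projectivization.mk_eq_mk_iff']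
  refine ⟨x j / y j, ?_⟩
  funext i
  have hj' : y j ≠ 0 := hj
  show x j / y j * y i = x i
  have h1 := h i j
  field_simp
  linear_combination -h1

variable {k : ℕ} {Λ : AddSubgroup (Fin (k + 1) → ℂ)} {u : PN N → (Fin (k + 1) → ℂ) ⧸ Λ} {D B : Set (Vd (k + 1))}

theorem TMap.toV {X : Set (EN N)} {Λ : AddSubgroup (Vd (k + 1))} {u : EN N → Vd (k + 1)} (h : TMap X Λ u) : TorusMapV X Λ u := ⟨h.smul, h.loc⟩

theorem Geo.interior_D {X : Set (EN N)} {Λ : AddSubgroup (Vd (k + 1))} {u : EN N → Vd (k + 1)} (h : Geo X Λ u D B) : interior D = ∅ := by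
  rw [Set.eq_empty_iff_forall_notMem]
  intro y hy
  obtain ⟨φ, -, h1, h2⟩ := h.D_thin y
  apply h2
  filter_upwards [h1, isOpen_interior.mem_nhds hy] with z h3 h4
  exact h3 (interior_subset h4)

theorem Geo.fibre {X : Set (EN N)} {Λ : AddSubgroup (Vd (k + 1))} {u : EN N → Vd (k + 1)} (h : Geo X Λ u D B) (y : Vd (k + 1)) (hy : y ∉ D) (G : ℂ → EN N)
    (hG : Differentiable ℂ G) (hGX : ∀ z, G z ∈ X) (hGu : ∀ z, u (G z) - y ∈ Λ) (z w : ℂ) : ∃ c : ℂ, G z = c • G w :=
  fibre_const h.cone h.tor.toV h.lat.disc (fun F hF hFX hFu hL => h.fib y hy F hF hFX hFu hL) hG hGX hGu z w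

/-- **The four cases.** -/
theorem Geo.sabCases (hP : Homog P) (h : Geo (coneE P) Λ (uV Λ u) D B) (S : SabMap N) (hS : imageOf S.F ⊆ projVar P) :
    SabCases (projVar P) Λ u D S := by
  have hR := S.rep hP hS
  have hval : ∀ z, ∀ hz : S.F z ≠ 0, ((uV Λ u (LE N (S.F z)) : Fin (k + 1) → ℂ) : (Fin (k + 1) → ℂ) ⧸ Λ) = u (Projectivization.mk ℂ (S.F z) hz) := by
    intro z hz
    have h1 : (LE N).symm (LE N (S.F z)) ≠ 0 := by rwa [ContinuousLinearEquiv.symm_apply_apply]
    rw [uV_eq Λ u h1]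
    congr 1
  rcases rep_cases h.cone h.charts h.tor.toV h.lat.disc h.D_closed h.interior_D h.fibre hR with h1 | h1 | ⟨b, c, hbc, h1⟩
  · left
    obtain ⟨b, hb, h2⟩ := h1
    refine ⟨b, hb, ?_⟩
    rintro _ ⟨z, hz, rfl⟩
    have h3 := h2 z (LE_ne.2 hz)
    rw [sub_mem_iff, hval z hz] at h3
    exact h3
  · right; left
    rintro _ ⟨z, hz, rfl⟩ _ ⟨w, hw, rfl⟩
    exact mk_eq_of_prop hz hw (h1 z w)
  · right; right
    refine ⟨(b : Vd S.g →ₗ[ℂ] Vd (k + 1)), c, fun z hz => ?_, ?_⟩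
    · have h3 := hbc z (LE_ne.2 hz)
      rw [sub_mem_iff, hval z hz] at h3
      exact h3
    · rcases h1 with ⟨⟨z, hz⟩, ⟨y, hy⟩, h2⟩ | ⟨hs, G, hG, ⟨y, hy⟩, hGm, h2⟩
      · left
        refine ⟨?_, ?_, ?_⟩
        · rintro _ ⟨w, rfl⟩
          exact h2 w
        · intro h3
          apply hz
          have h4 : b z ∈ LinearMap.range (b : Vd S.g →ₗ[ℂ] Vd (k + 1)) := ⟨z, rfl⟩
          rw [h3] at h4
          exact (Submodule.mem_bot ℂ).1 h4
        · intro h3
          have h4 : y ∈ LinearMap.range (b : Vd S.g →ₗ[ℂ] Vd (k + 1)) := by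
            rw [h3]
            exact Submodule.mem_top
          obtain ⟨w, hw⟩ := h4
          exact hy w hw
      · right
        refine ⟨hs, fun y => (LE N).symm (G y), ⟨(LE N).symm.differentiable.comp hG, ⟨y, ?_⟩, fun v hv => ?_⟩, fun z i j => h2 z i j⟩
        · intro h3
          apply hy
          have h4 := congrArg (LE N) h3
          rwa [ContinuousLinearEquiv.apply_symm_apply, map_zero] at h4
        · have hv' : G v ≠ 0 := by
            intro h3
            apply hv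
            show (LE N).symm (G v) = 0
            rw [h3, map_zero]
          obtain ⟨h3, h4⟩ := hGm v hv'
          refine ⟨?_, ?_⟩
          · rw [mk_mem_projVar hP hv]
            exact h3
          · rw [sub_mem_iff, uV_eq Λ u hv] at h4
            exact h4

end Pool.Agent.TG
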