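import Pool.Agent.TG.SaP
import Pool.Agent.H23.GU.Up

/-!
# TG SaS: the special set of a variety over a simple torus, and of the varieties with a dominant rational map to it
-/

set_option autoImplicit false

open Topology Filter Metric MvPolynomial

noncomputable section

namespace Pool.Agent.TG

open Pool.Agent.H36.BP (EN)
open Pool.Agent.AD (Vd uV)
open Pool.Agent.H17 (PN VanishesAt vanishesAt_mk_iff)
open Pool.Agent.H62.FC (Homog)
open Pool.Agent.H17LG.Variety (FunField)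
open Pool.Agent.H17R (coordFun_ne_zero_iff)
open Pool.Agent.H17EF (projVar coneE LE mk_mem_projVar mem_coneE exists_point)
open Pool.Agent.H7.Bir (vals eval_comp)
open Pool.Agent.H7.Qup (const_of_root exists_eq_aux)
open Pool.Agent.H23.GU (rel rel_smul rel_vals exists_rat eval_smul)

variable {N M g : ℕ}

/-- a form along an entire map -/
theorem eval_differentiable {F : (Fin g → ℂ) → Fin (N + 1) → ℂ} (hF : Differentiable ℂ F) (Q : MvPolynomial (Fin (N + 1)) ℂ) :
    Differentiable ℂ fun z => eval (F z) Q := by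
  intro z
  have h1 : AnalyticAt ℂ (fun w => MvPolynomial.aeval (F w) Q) z :=
    AnalyticAt.aeval_mvPolynomial (fun i => analyticAt_vd (differentiable_pi.1 hF i) z) Q
  exact h1.differentiableAt

/-- an entire function which is `0` where another one is not `0` is `0` -/
theorem eq_zero_of_off {E' : Type*} [NormedAddCommGroup E'] {f : (Fin g → ℂ) → ℂ} (hf : Differentiable ℂ f) {F' : (Fin g → ℂ) → E'}
    (hF' : Continuous F') (hne : ∃ y, F' y ≠ 0) (h : ∀ z, F' z ≠ 0 → f z = 0) (z : Fin g → ℂ) : f z = 0 := by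
  obtain ⟨y, hy⟩ := hne
  have h1 : AnalyticOnNhd ℂ f Set.univ := fun z _ => analyticAt_vd hf z
  refine h1.eqOn_zero_of_preconnected_of_eventuallyEq_zero isPreconnected_univ (Set.mem_univ y) ?_ (Set.mem_univ z)
  filter_upwards [hF'.continuousAt.eventually_ne hy] with w hw
  exact h w hw

theorem eq_smul_of_prop {x y : Fin (N + 1) → ℂ} (hy : y ≠ 0) (h : ∀ i j, x i * y j = x j * y i) : ∃ c : ℂ, x = c • y := by
  obtain ⟨j, hj⟩ := Function.ne_iff.1 hy
  have hj' : y j ≠ 0 := hj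
  refine ⟨x j / y j, ?_⟩
  funext i
  show x i = x j / y j * y i
  have h1 := h i j
  field_simp
  linear_combination h1

/-- forms of the same degree at proportional points -/
theorem eval_prop {D : ℕ} {p q : MvPolynomial (Fin (N + 1)) ℂ} (hp : p.IsHomogeneous D) (hq : q.IsHomogeneous D) {x y : Fin (N + 1) → ℂ}
    (h : ∀ i j, x i * y j = x j * y i) : eval x p * eval y q = eval x q * eval y p := by
  by_cases hy : y = 0
  · by_cases hx : x = 0
    · rw [hx, hy, mul_comm]
    · obtain ⟨c, hc⟩ := eq_smul_of_prop hx (x := y) fun i j => by linear_combination -h i j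
      rw [hc, eval_smul hp, eval_smul hq]
      ring
  · obtain ⟨c, hc⟩ := eq_smul_of_prop hy h
    rw [hc, eval_smul hp, eval_smul hq]
    ring

/-- the growth of a form -/
theorem norm_eval_form {D : ℕ} {p : MvPolynomial (Fin (N + 1)) ℂ} (hp : p.IsHomogeneous D) (x : Fin (N + 1) → ℂ) :
    ‖eval x p‖ ≤ (∑ d ∈ p.support, ‖p.coeff d‖) * ‖x‖ ^ D := by
  rw [eval_eq', Finset.sum_mul]
  refine (norm_sum_le _ _).trans (Finset.sum_le_sum fun d hd => ?_)
  rw [norm_mul, norm_prod]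
  refine mul_le_mul_of_nonneg_left ?_ (norm_nonneg _)
  have h1 : ∑ i, d i = D := by
    have h2 := hp (mem_support_iff.1 hd)
    rw [Finsupp.weight_apply, Finsupp.sum_fintype _ _ (fun _ => by simp)] at h2
    simpa using h2
  calc ∏ i, ‖x i ^ d i‖ ≤ ∏ i, ‖x‖ ^ d i := by
        refine Finset.prod_le_prod (fun _ _ => norm_nonneg _) fun i _ => ?_
        rw [norm_pow]
        exact pow_le_pow_left₀ (norm_nonneg _) (norm_le_pi_norm x i) _
    _ = ‖x‖ ^ D := by rw [Finset.prod_pow_eq_pow_sum, h1]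

/-- a form of positive type vanishes along the maps of the types (i), (iv) -/
theorem sabUnion_vanishes {k : ℕ} {P : Ideal (MvPolynomial (Fin (N + 1)) ℂ)} {Λ : AddSubgroup (Fin (k + 1) → ℂ)}
    {u : PN N → (Fin (k + 1) → ℂ) ⧸ Λ} {D : Set (Fin (k + 1) → ℂ)} (hs : SimpleTorus Λ)
    (hcases : ∀ S : SabMap N, imageOf S.F ⊆ projVar P → SabCases (projVar P) Λ u D S)
    {Q : MvPolynomial (Fin (N + 1)) ℂ} {e : ℕ} (hQ : Q.IsHomogeneous e)
    (hQD : ∀ x ∈ projVar P, (∃ b ∈ D, u x = (b : (Fin (k + 1) → ℂ) ⧸ Λ)) → VanishesAt Q x)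
    (hQm : ∀ Φ ∈ merSections (projVar P) Λ u, ∀ y, eval (Φ y) Q = 0) : ∀ x ∈ sabUnion (projVar P), VanishesAt Q x := by
  rintro x ⟨S, hSX, ⟨y, hy, z, hz, hyz⟩, hx⟩
  rcases hcases S hSX with ⟨b, hb, h1⟩ | h1 | ⟨B, c, hBc, ⟨h1, h2, h3⟩ | ⟨hsur, Φ, hΦ, h1⟩⟩
  · exact hQD x (hSX hx) ⟨b, hb, h1 x hx⟩
  · exact absurd (h1 y hy z hz) hyz
  · rcases hs _ h1 with h4 | h4
    · exact absurd h4 h2
    · exact absurd h4 h3
  · obtain ⟨w, hw, rfl⟩ := hx
    rw [vanishesAt_mk_iff hQ]
    have hc : Continuous fun z => Φ (B z + c) := by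
      have h2 : Continuous fun z => B z + c := by
        have h3 : Continuous B := B.continuous_of_finiteDimensional
        exact h3.add continuous_const
      exact hΦ.1.continuous.comp h2
    refine eq_zero_of_off (eval_differentiable S.differentiable Q) hc ?_ (fun v hv => ?_) w
    · obtain ⟨y, hy⟩ := hΦ.2.1
      obtain ⟨v, hv⟩ := hsur (y - c)
      refine ⟨v, ?_⟩
      show Φ (B v + c) ≠ 0
      rwa [hv, sub_add_cancel]
    · obtain ⟨a, ha⟩ := eq_smul_of_prop hv (h1 v)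
      rw [ha, eval_smul hQ, hQm Φ hΦ, mul_zero]

theorem sabSpecialSet_subset {X : Set (PN N)} {Q : MvPolynomial (Fin (N + 1)) ℂ} {e : ℕ} (hQ : Q.IsHomogeneous e)
    (h : ∀ x ∈ sabUnion X, VanishesAt Q x) : ∀ x ∈ sabSpecialSet X, VanishesAt Q x := fun x hx => hx.2 Q e hQ h

/-- a special set in a hypersurface is not the whole variety -/
theorem sabSpecialSet_ne {P : Ideal (MvPolynomial (Fin (N + 1)) ℂ)} [P.IsPrime] (hP : Homog P) (hX : ∃ i, (X i : MvPolynomial (Fin (N + 1)) ℂ) ∉ P)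
    {Q : MvPolynomial (Fin (N + 1)) ℂ} {e : ℕ} (hQ : Q.IsHomogeneous e) (hQP : Q ∉ P) (h : ∀ x ∈ sabUnion (projVar P), VanishesAt Q x) :
    sabSpecialSet (projVar P) ≠ projVar P := by
  intro heq
  obtain ⟨x, hx, hxQ⟩ := exists_point hP hX hQP hQ
  rw [← heq] at hx
  exact hxQ (sabSpecialSet_subset hQ h x hx)

/-- the composition of a map of semi-abelian type and a rational map -/
def SabMap.comp (S : SabMap M) {D : ℕ} {γ : Fin (N + 1) → MvPolynomial (Fin (M + 1)) ℂ} (hγ : ∀ i, (γ i).IsHomogeneous D)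
    (h0 : ∃ z, vals γ (S.F z) ≠ 0) : SabMap N where
  g := S.g
  F := fun z => vals γ (S.F z)
  differentiable := differentiable_pi.2 fun i => eval_differentiable S.differentiable (γ i)
  ne_zero := h0
  growth := by
    obtain ⟨C, hC⟩ := S.growth
    obtain ⟨A, hA0, hA⟩ : ∃ A : ℝ, 0 ≤ A ∧ ∀ x, ‖vals γ x‖ ≤ A * ‖x‖ ^ D := by
      refine ⟨∑ i, ∑ d ∈ (γ i).support, ‖(γ i).coeff d‖, by positivity, fun x => ?_⟩
      rw [pi_norm_le_iff_of_nonneg (by positivity)]
      intro i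
      refine (norm_eval_form (hγ i) x).trans (mul_le_mul_of_nonneg_right ?_ (by positivity))
      exact Finset.single_le_sum (f := fun i => ∑ d ∈ (γ i).support, ‖(γ i).coeff d‖) (fun i _ => by positivity) (Finset.mem_univ i)
    refine ⟨A + D * |C|, fun z => ?_⟩
    have h1 : ‖S.F z‖ ^ D ≤ Real.exp (D * |C| * (1 + ‖z‖ ^ 2)) := by
      calc ‖S.F z‖ ^ D ≤ Real.exp (|C| * (1 + ‖z‖ ^ 2)) ^ D := by
            refine pow_le_pow_left₀ (norm_nonneg _) ((hC z).trans (Real.exp_le_exp.2 ?_)) D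
            exact mul_le_mul_of_nonneg_right (le_abs_self C) (by positivity)
        _ = Real.exp (D * |C| * (1 + ‖z‖ ^ 2)) := by rw [← Real.exp_nat_mul, mul_assoc]
    calc ‖vals γ (S.F z)‖ ≤ A * ‖S.F z‖ ^ D := hA _
      _ ≤ Real.exp A * Real.exp (D * |C| * (1 + ‖z‖ ^ 2)) :=
          mul_le_mul (by linarith [Real.add_one_le_exp A]) h1 (by positivity) (Real.exp_pos _).le
      _ = Real.exp (A + D * |C| * (1 + ‖z‖ ^ 2)) := by rw [Real.exp_add]
      _ ≤ Real.exp ((A + D * |C|) * (1 + ‖z‖ ^ 2)) := Real.exp_le_exp.2 (by nlinarith [sq_nonneg ‖z‖])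
  T := S.T
  torus := by
    intro z
    obtain ⟨C, hC⟩ := S.torus z
    obtain ⟨A, hA0, hA⟩ : ∃ A : ℝ, 0 ≤ A ∧ ∀ x, ‖vals γ x‖ ≤ A * ‖x‖ ^ D := by
      refine ⟨∑ i, ∑ d ∈ (γ i).support, ‖(γ i).coeff d‖, by positivity, fun x => ?_⟩
      rw [pi_norm_le_iff_of_nonneg (by positivity)]
      intro i
      refine (norm_eval_form (hγ i) x).trans (mul_le_mul_of_nonneg_right ?_ (by positivity))
      exact Finset.single_le_sum (f := fun i => ∑ d ∈ (γ i).support, ‖(γ i).coeff d‖) (fun i _ => by positivity) (Finset.mem_univ i)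
    refine ⟨A + D * |C|, fun t ht => ?_⟩
    have h1 : ‖S.F (z + t)‖ ^ D ≤ Real.exp (D * |C| * (1 + ‖t‖)) := by
      calc ‖S.F (z + t)‖ ^ D ≤ Real.exp (|C| * (1 + ‖t‖)) ^ D := by
            refine pow_le_pow_left₀ (norm_nonneg _) ((hC t ht).trans (Real.exp_le_exp.2 ?_)) D
            exact mul_le_mul_of_nonneg_right (le_abs_self C) (by positivity)
        _ = Real.exp (D * |C| * (1 + ‖t‖)) := by rw [← Real.exp_nat_mul, mul_assoc]
    calc ‖vals γ (S.F (z + t))‖ ≤ A * ‖S.F (z + t)‖ ^ D := hA _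
      _ ≤ Real.exp A * Real.exp (D * |C| * (1 + ‖t‖)) :=
          mul_le_mul (by linarith [Real.add_one_le_exp A]) h1 (by positivity) (Real.exp_pos _).le
      _ = Real.exp (A + D * |C| * (1 + ‖t‖)) := by rw [Real.exp_add]
      _ ≤ Real.exp ((A + D * |C|) * (1 + ‖t‖)) := Real.exp_le_exp.2 (by nlinarith [norm_nonneg t])
  L := S.L
  periodic := fun l hl z i j => eval_prop (hγ i) (hγ j) (S.periodic l hl z)
  span := S.span

/-- **Varieties with a dominant rational map.** -/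
theorem sabUnion_up {P : Ideal (MvPolynomial (Fin (N + 1)) ℂ)} [P.IsPrime] {P' : Ideal (MvPolynomial (Fin (M + 1)) ℂ)} [P'.IsPrime]
    (hP : Homog P) (hP' : Homog P') {k : ℕ} {z : Fin (k + 1) → FunField P} (hz : IsTranscendenceBasis ℂ z) {z' : Fin (k + 1) → FunField P'}
    (hz' : IsTranscendenceBasis ℂ z') (e : FunField P →ₐ[ℂ] FunField P') {R : MvPolynomial (Fin (N + 1)) ℂ} {nR : ℕ} (hnR : R.IsHomogeneous nR)
    (hRP : R ∉ P) (hR : ∀ x ∈ sabUnion (projVar P), VanishesAt R x) :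
    ∃ (T : MvPolynomial (Fin (M + 1)) ℂ) (e : ℕ), T.IsHomogeneous e ∧ T ∉ P' ∧ ∀ x ∈ sabUnion (projVar P'), VanishesAt T x := by
  obtain ⟨i₀, hi₀⟩ := Pool.Agent.H92.GT.Proj.exists_coordFun_ne_zero P z hz
  obtain ⟨j, hj⟩ := Pool.Agent.H92.GT.Proj.exists_coordFun_ne_zero P' z' hz'
  obtain ⟨D, γ, hγ, hmaps, hγ₀⟩ := exists_rat e hi₀ hj
  have hjP : X j ∉ P' := coordFun_ne_zero_iff.1 hj
  choose m D₁ α hα hαP hrel using exists_eq_aux hz hz' hγ hmaps (coordFun_ne_zero_iff.1 hi₀) hjP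
  obtain ⟨B, hB⟩ : ∃ B : MvPolynomial (Fin (N + 1)) ℂ, B = R * ∏ i, α i (Fin.last (m i)) := ⟨_, rfl⟩
  have hBhom : B.IsHomogeneous (nR + ∑ i, D₁ i) := by
    rw [hB]
    exact hnR.mul (IsHomogeneous.prod _ _ _ fun i _ => hα i _)
  have hBP : B ∉ P := by
    rw [hB]
    intro h1
    rcases Ideal.IsPrime.mem_or_mem inferInstance h1 with h2 | h2
    · exact hRP h2
    · obtain ⟨i, -, h3⟩ := (Ideal.IsPrime.prod_mem_iff (p := P)).1 h2
      exact hαP i h3
  obtain ⟨T, hT⟩ : ∃ T : MvPolynomial (Fin (M + 1)) ℂ, T = aeval γ B * γ i₀ * X j := ⟨_, rfl⟩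
  have hThom : T.IsHomogeneous (D * (nR + ∑ i, D₁ i) + D + 1) := by
    rw [hT]
    exact ((hBhom.aeval γ hγ).mul (hγ i₀)).mul (isHomogeneous_X ℂ j)
  have hTP : T ∉ P' := by
    rw [hT]
    intro h1
    rcases Ideal.IsPrime.mem_or_mem inferInstance h1 with h2 | h2
    · rcases Ideal.IsPrime.mem_or_mem inferInstance h2 with h3 | h3
      · exact hBP ((hmaps _ B hBhom).1 h3)
      · exact hγ₀ h3
    · exact hjP h2
  refine ⟨T, _, hThom, hTP, ?_⟩
  rintro _ ⟨S, hSX, ⟨y₁, hy₁, y₂, hy₂, hne⟩, ⟨w, hw, rfl⟩⟩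
  rw [vanishesAt_mk_iff hThom]
  by_contra hTw
  rw [hT, map_mul, map_mul, mul_eq_zero, mul_eq_zero, not_or, not_or, eval_X, eval_comp] at hTw
  obtain ⟨⟨hw1, hw2⟩, hw3⟩ := hTw
  rw [hB, map_mul, mul_eq_zero, not_or, map_prod, Finset.prod_eq_zero_iff] at hw1
  push Not at hw1
  obtain ⟨hwR, hwα⟩ := hw1
  have hv0 : vals γ (S.F w) ≠ 0 := fun h0 => hw2 (congrFun h0 i₀)
  obtain ⟨S', hS'⟩ : ∃ S' : SabMap N, S' = S.comp hγ ⟨w, hv0⟩ := ⟨_, rfl⟩
  -- the values are in `P`
  have hP'v : ∀ v, S.F v ≠ 0 → ∀ G ∈ P', eval (S.F v) G = 0 := by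
    intro v hv G hG
    have h1 := hSX ⟨v, hv, rfl⟩
    rw [mk_mem_projVar hP' hv] at h1
    exact h1.2 G hG
  have hmem : ∀ v, ∀ h : vals γ (S.F v) ≠ 0, Projectivization.mk ℂ (vals γ (S.F v)) h ∈ projVar P := by
    intro v hv G hG n hGn
    rw [vanishesAt_mk_iff hGn, ← eval_comp]
    refine eq_zero_of_off (eval_differentiable S.differentiable (aeval γ G)) S.differentiable.continuous S.ne_zero (fun v' hv' => ?_) v
    exact hP'v v' hv' _ ((hmaps n G hGn).2 hG)
  have himg : imageOf (fun z => vals γ (S.F z)) ⊆ projVar P := by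
    rintro _ ⟨v, hv, rfl⟩
    exact hmem v hv
  by_cases hcon : ∀ x ∈ imageOf (fun z => vals γ (S.F z)), ∀ y ∈ imageOf (fun z => vals γ (S.F z)), x = y
  · -- the composition is constant
    apply hne
    have key : ∀ v i, S.F v i * S.F w j = S.F v j * S.F w i := by
      intro v i
      -- the line
      obtain ⟨φ, hφ⟩ : ∃ φ : ℂ → Fin (M + 1) → ℂ, φ = fun ζ => S.F (w + ζ • (v - w)) := ⟨_, rfl⟩
      have hφd : Differentiable ℂ φ := by
        have h1 : Differentiable ℂ fun ζ : ℂ => w + ζ • (v - w) := by fun_prop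
        rw [hφ]
        exact S.differentiable.comp h1
      have hφi : ∀ i, Differentiable ℂ fun ζ => φ ζ i := differentiable_pi.1 hφd
      have hφ0 : φ 0 = S.F w := by rw [hφ]; simp
      have hφ1 : φ 1 = S.F v := by rw [hφ]; simp
      have hvc : Continuous fun ζ => vals γ (φ ζ) := by
        have h1 : Continuous fun z => vals γ (S.F z) :=
          continuous_pi fun i => (eval_differentiable S.differentiable (γ i)).continuous
        have h2 : Continuous fun ζ : ℂ => w + ζ • (v - w) := by fun_prop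
        rw [hφ]
        exact h1.comp h2
      have hev : ∀ᶠ ζ in 𝓝 (0 : ℂ), vals γ (φ ζ) ≠ 0 ∧ φ ζ j ≠ 0 := by
        refine (hvc.continuousAt.eventually_ne ?_).and ((hφi j).continuous.continuousAt.eventually_ne ?_)
        · rw [hφ0]
          exact hv0
        · rw [hφ0]
          exact hw3
      obtain ⟨r, hr, hball⟩ := Metric.eventually_nhds_iff_ball.1 hev
      have hconst : ∀ ζ ∈ ball (0 : ℂ) r, φ ζ i / φ ζ j = φ 0 i / φ 0 j := by
        refine const_of_root (b := fun l => eval (vals γ (S.F w)) (α i l)) (hwα i (Finset.mem_univ i)) (ρ := fun ζ => φ ζ i / φ ζ j)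
          (fun ζ hζ => ?_) fun ζ hζ => ?_
        · exact ((hφi i).continuous.continuousAt.div (hφi j).continuous.continuousAt (hball ζ hζ).2).continuousWithinAt
        · obtain ⟨h1, h2⟩ := hball ζ hζ
          have h3 : φ ζ = S.F (w + ζ • (v - w)) := by rw [hφ]
          have h4 : φ ζ ≠ 0 := fun h => h2 (congrFun h j)
          have h5 : eval (φ ζ) (∑ l : Fin (m i + 1), aeval γ (α i l) * X i ^ (l : ℕ) * X j ^ (m i - (l : ℕ))) = 0 := by
            rw [h3]
            exact hP'v _ (by rw [← h3]; exact h4) _ (hrel i)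
          rw [← rel_vals] at h5
          have h1' : vals γ (S.F (w + ζ • (v - w))) ≠ 0 := by
            rw [← h3]
            exact h1
          have h6 := hcon _ ⟨w + ζ • (v - w), h1', rfl⟩ _ ⟨w, hv0, rfl⟩
          rw [Projectivization.mk_eq_mk_iff'] at h6
          obtain ⟨c, hc⟩ := h6
          have hc : c • vals γ (S.F w) = vals γ (φ ζ) := by
            rw [h3]
            exact hc
          have hc0 : c ≠ 0 := by
            rintro rfl
            rw [zero_smul] at hc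
            exact h1 hc.symm
          have h7 : rel (α i) i j (c • vals γ (S.F w)) ((1 : ℂ) • φ ζ) = 0 := by
            rw [hc, one_smul]
            exact h5
          rw [rel_smul (hα i), one_pow, mul_one, mul_eq_zero] at h7
          have h8 := h7.resolve_left (pow_ne_zero _ hc0)
          unfold rel at h8
          have h9 : ∀ l : Fin (m i + 1), eval (vals γ (S.F w)) (α i l) * φ ζ i ^ (l : ℕ) * φ ζ j ^ (m i - (l : ℕ)) =
              φ ζ j ^ m i * (eval (vals γ (S.F w)) (α i l) * (φ ζ i / φ ζ j) ^ (l : ℕ)) := by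
            intro l
            have h9 : (l : ℕ) ≤ m i := Nat.lt_succ_iff.1 l.2
            have h10 : φ ζ j ^ m i = φ ζ j ^ (l : ℕ) * φ ζ j ^ (m i - (l : ℕ)) := by
              rw [← pow_add, Nat.add_sub_cancel' h9]
            rw [h10, div_pow]
            field_simp
          rw [Finset.sum_congr rfl fun l _ => h9 l, ← Finset.mul_sum, mul_eq_zero] at h8
          exact h8.resolve_left (pow_ne_zero _ h2)
      have hd : Differentiable ℂ fun ζ => φ ζ i * φ 0 j - φ ζ j * φ 0 i := ((hφi i).mul_const _).sub ((hφi j).mul_const _)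
      have h1 : AnalyticOnNhd ℂ (fun ζ => φ ζ i * φ 0 j - φ ζ j * φ 0 i) Set.univ := fun ζ _ => hd.analyticAt ζ
      have h2 := h1.eqOn_zero_of_preconnected_of_eventuallyEq_zero isPreconnected_univ (Set.mem_univ (0 : ℂ)) (by
        filter_upwards [ball_mem_nhds (0 : ℂ) hr] with ζ hζ
        have h3 := hconst ζ hζ
        rw [div_eq_div_iff (hball ζ hζ).2 (hball 0 (mem_ball_self hr)).2] at h3
        show φ ζ i * φ 0 j - φ ζ j * φ 0 i = 0
        linear_combination h3) (Set.mem_univ (1 : ℂ))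
      have h3 : φ 1 i * φ 0 j - φ 1 j * φ 0 i = 0 := h2
      rw [hφ0, hφ1] at h3
      linear_combination h3
    obtain ⟨v₁, hv₁, rfl⟩ := hy₁
    obtain ⟨v₂, hv₂, rfl⟩ := hy₂
    have hform : ∀ v, S.F v = (S.F v j / S.F w j) • S.F w := by
      intro v
      funext i
      show S.F v i = S.F v j / S.F w j * S.F w i
      have h1 := key v i
      field_simp
      linear_combination h1
    refine mk_eq_of_prop hv₁ hv₂ fun a b => ?_
    rw [hform v₁, hform v₂]
    simp only [Pi.smul_apply, smul_eq_mul]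
    ring
  · push Not at hcon
    apply hwR
    rw [← vanishesAt_mk_iff (v := vals γ (S.F w)) (hv := hv0) hnR]
    exact hR _ ⟨S.comp hγ ⟨w, hv0⟩, himg, hcon, ⟨w, hv0, rfl⟩⟩

end Pool.Agent.TG
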