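import Pool.Agent.TG.SmA

/-!
# TG SmC: meromorphic sections are sections

`CLip y₀`: the holomorphic curves in `X` over the lines near `y₀` are uniformly Lipschitz.  `mer_lip`: so are the meromorphic sections.  `mer_sec`: if
`CLip` holds at the points off `D`, a meromorphic section gives an element of `Sec`.
-/

set_option autoImplicit false

open Topology Filter Metric

namespace Pool.Agent.TG

open Pool.Agent.H36.BP (EN fs wd)
open Pool.Agent.H14.PP (IsCone)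
open Pool.Agent.H62.EF (MN pr pr_smul pr_eq_iff continuousAt_pr isCompact_pr nm_close)
open Pool.Agent.AD (Vd)

variable {N k : ℕ} {X : Set (EN N)} {Λ : AddSubgroup (Vd (k + 1))} {u : EN N → Vd (k + 1)} {D : Set (Vd (k + 1))}

/-- the holomorphic curves in `X` over the lines near `y₀` are uniformly Lipschitz -/
def CLip (X : Set (EN N)) (Λ : AddSubgroup (Vd (k + 1))) (u : EN N → Vd (k + 1)) (y₀ : Vd (k + 1)) : Prop :=
  ∃ ρ C : ℝ, 0 < ρ ∧ 0 ≤ C ∧ ∀ y ∈ ball y₀ ρ, ∀ e : Vd (k + 1), ‖e‖ ≤ 1 → ∀ g : ℂ → MN N, (∀ z ∈ ball (0 : ℂ) ρ, LiftAt X Λ u y e g z) →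
    ∀ z ∈ ball (0 : ℂ) (ρ / 2), ∀ w ∈ ball (0 : ℂ) (ρ / 2), dist (g z) (g w) ≤ C * ‖z - w‖

theorem Mer.not_ev {F : Vd (k + 1) → EN N} (hF : Mer X Λ u F) (y : Vd (k + 1)) : ¬ ∀ᶠ z in 𝓝 y, F z = 0 := by
  intro h
  obtain ⟨y₁, h1⟩ := hF.ne
  exact h1 (AnalyticOnNhd.eqOn_zero_of_preconnected_of_eventuallyEq_zero (U := Set.univ) (fun z _ => hF.an z) isPreconnected_univ
    (Set.mem_univ y) h (Set.mem_univ y₁))

theorem Mer.freq {F : Vd (k + 1) → EN N} (hF : Mer X Λ u F) (y : Vd (k + 1)) : ∃ᶠ z in 𝓝 y, F z ≠ 0 := Filter.not_eventually.mp (hF.not_ev y)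

/-- a meromorphic section on a line where it is not identically `0` -/
theorem line_ext (hX : IsCone X) (ht : TMap X Λ u) (hl : Lat Λ) {F : Vd (k + 1) → EN N} (hF : Mer X Λ u F) {y e : Vd (k + 1)}
    (hne : ∃ t : ℂ, F (y + t • e) ≠ 0) :
    ∃ g : ℂ → MN N, (∀ t, LiftAt X Λ u y e g t) ∧ ∀ t, F (y + t • e) ≠ 0 → g t = pr (F (y + t • e)) := by
  set f : ℂ → EN N := fun t => F (y + t • e) with hf
  have han : ∀ t, AnalyticAt ℂ f t := by
    intro t
    refine AnalyticAt.fun_comp (hF.an _) ?_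
    exact analyticAt_const.add (analyticAt_id.smul analyticAt_const)
  have hnl : ∀ t, ¬ ∀ᶠ z in 𝓝 t, f z = 0 := by
    intro t h
    obtain ⟨t₁, h1⟩ := hne
    exact h1 (AnalyticOnNhd.eqOn_zero_of_preconnected_of_eventuallyEq_zero (U := Set.univ) (fun z _ => han z) isPreconnected_univ
      (Set.mem_univ t) h (Set.mem_univ t₁))
  have hch : ∀ t, ∃ (n : ℕ) (H : ℂ → EN N), AnalyticAt ℂ H t ∧ H t ≠ 0 ∧ ∀ᶠ z in 𝓝 t, f z = (z - t) ^ n • H z := fun t =>
    (han t).exists_eventuallyEq_pow_smul_nonzero_iff.mpr (hnl t)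
  choose n H hHan hHne hHev using hch
  have hval : ∀ t, f t ≠ 0 → H t t = f t := by
    intro t h0
    have h1 := (hHev t).self_of_nhds
    rw [sub_self] at h1
    rcases Nat.eq_zero_or_pos (n t) with h2 | h2
    · rw [h2, pow_zero, one_smul] at h1
      exact h1.symm
    · rw [zero_pow h2.ne', zero_smul] at h1
      exact absurd h1 h0
  refine ⟨fun t => pr (H t t), fun t => ⟨H t, hHan t, ?_⟩, fun t h0 => by
    show pr (H t t) = pr (f t)
    rw [hval t h0]⟩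
  have hE : ∀ᶠ z in 𝓝 t, H t z ≠ 0 ∧ AnalyticAt ℂ (H t) z ∧ f z = (z - t) ^ n t • H t z :=
    ((hHan t).continuousAt.eventually_ne (hHne t)).and ((hHan t).eventually_analyticAt.and (hHev t))
  have hgood : ∀ z, H t z ≠ 0 → f z = (z - t) ^ n t • H t z → z ≠ t → H t z ∈ X ∧ u (H t z) - (y + z • e) ∈ Λ ∧ pr (H t z) = pr (f z) ∧ f z ≠ 0 := by
    intro z h1 h2 h3
    have h4 : (z - t) ^ n t ≠ 0 := pow_ne_zero _ (sub_ne_zero.mpr h3)
    have h5 : f z ≠ 0 := by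
      rw [h2]
      exact smul_ne_zero h4 h1
    have h6 : pr (H t z) = pr (f z) := by
      rw [h2, pr_smul _ h4]
    obtain ⟨h7, h8⟩ := hF.mem _ h5
    obtain ⟨h9, h10⟩ := mem_of_pr hX ht h7 h8 h1 h6
    exact ⟨h9, h10, h6, h5⟩
  filter_upwards [hE.eventually_nhds] with w hw
  obtain ⟨hw1, hw2, hw3⟩ := hw.self_of_nhds
  have hcl : H t w ∈ X ∧ u (H t w) - (y + w • e) ∈ Λ := by
    refine close_lift (υ := fun w : ℂ => y + w • e) hX ht hl hw2.continuousAt hw1 (by fun_prop) ?_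
    have hfr : ∃ᶠ z in 𝓝 w, z ≠ t := by
      have hd : Dense ({t}ᶜ : Set ℂ) := dense_compl_singleton t
      exact mem_closure_iff_frequently.mp (hd w)
    refine (hfr.and_eventually hw).mono fun z hz => ?_
    obtain ⟨h1, h2, h3, h4⟩ := hz
    have h5 := hgood z h2 h4 h1
    exact ⟨h5.1, h5.2.1⟩
  refine ⟨hcl.1, ?_, hcl.2⟩
  by_cases e1 : w = t
  · rw [e1]
  · have h5 := hgood w hw1 hw3 e1
    show pr (H w w) = pr (H t w)
    rw [h5.2.2.1, hval w h5.2.2.2]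

/-- the meromorphic sections are uniformly Lipschitz near `y₀` -/
theorem mer_lip (hX : IsCone X) (ht : TMap X Λ u) (hl : Lat Λ) {y₀ : Vd (k + 1)} (h : CLip X Λ u y₀) :
    ∃ ρ C : ℝ, 0 < ρ ∧ 0 ≤ C ∧ ∀ F, Mer X Λ u F → ∀ y ∈ ball y₀ ρ, ∀ z ∈ ball y₀ ρ, F y ≠ 0 → F z ≠ 0 → dist (pr (F y)) (pr (F z)) ≤ C * ‖y - z‖ := by
  obtain ⟨ρ, C, hρ, hC, h⟩ := h
  refine ⟨ρ / 4, C, by positivity, hC, fun F hF y hy z hz hy0 hz0 => ?_⟩
  by_cases hyz : y = z
  · rw [hyz]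
    simp
  · have hp : 0 < ‖z - y‖ := norm_pos_iff.mpr (sub_ne_zero.mpr (Ne.symm hyz))
    have hlt : ‖z - y‖ < ρ / 2 := by
      rw [mem_ball, dist_eq_norm] at hy hz
      have h1 : z - y = (z - y₀) - (y - y₀) := by abel
      rw [h1]
      linarith [norm_sub_le (z - y₀) (y - y₀)]
    set e : Vd (k + 1) := ((‖z - y‖⁻¹ : ℝ) : ℂ) • (z - y) with he
    have hen : ‖e‖ ≤ 1 := by
      rw [he, norm_smul, Complex.norm_real, norm_inv, norm_norm, inv_mul_cancel₀ hp.ne']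
    have hze : y + ((‖z - y‖ : ℝ) : ℂ) • e = z := by
      rw [he, smul_smul, ← Complex.ofReal_mul, mul_inv_cancel₀ hp.ne', Complex.ofReal_one, one_smul]
      abel
    have hye : y + (0 : ℂ) • e = y := by simp
    obtain ⟨g, hg1, hg2⟩ := line_ext hX ht hl hF (y := y) (e := e) ⟨0, by rw [hye]; exact hy0⟩
    have h1 := h y (ball_subset_ball (by linarith) hy) e hen g (fun z _ => hg1 z) 0 (mem_ball_self (by positivity)) ((‖z - y‖ : ℝ) : ℂ) (by
      rw [mem_ball_zero_iff, Complex.norm_real, norm_norm]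
      exact hlt)
    rw [hg2 0 (by rw [hye]; exact hy0), hg2 _ (by rw [hze]; exact hz0), hye, hze, zero_sub, norm_neg, Complex.norm_real, norm_norm] at h1
    rw [norm_sub_rev y z]
    exact h1

/-- a meromorphic section is holomorphic off `D` -/
theorem mer_germ (hX : IsCone X) (ht : TMap X Λ u) (hl : Lat Λ) {y₀ : Vd (k + 1)} (h : CLip X Λ u y₀) {F : Vd (k + 1) → EN N} (hF : Mer X Λ u F) :
    ∃ φ : Vd (k + 1) → EN N, AnalyticAt ℂ φ y₀ ∧ (∀ᶠ y in 𝓝 y₀, φ y ∈ X ∧ u (φ y) - y ∈ Λ) ∧ ∀ᶠ y in 𝓝 y₀, F y ≠ 0 → pr (φ y) = pr (F y) := by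
  obtain ⟨ρ, C, hρ, -, hlip⟩ := mer_lip hX ht hl h
  obtain ⟨φ, h1, h2, h3⟩ := lip_lift (hF.an y₀) (hF.not_ev y₀) hρ (hlip F hF)
  refine ⟨φ, h1, ?_, h3⟩
  have hE : ∀ᶠ y in 𝓝 y₀, φ y ≠ 0 ∧ AnalyticAt ℂ φ y ∧ (F y ≠ 0 → pr (φ y) = pr (F y)) :=
    (h1.continuousAt.eventually_ne h2).and (h1.eventually_analyticAt.and h3)
  filter_upwards [hE.eventually_nhds] with y hy
  obtain ⟨hy1, hy2, hy3⟩ := hy.self_of_nhds
  refine close_lift (υ := fun y => y) hX ht hl hy2.continuousAt hy1 continuousAt_id ?_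
  refine ((hF.freq y).and_eventually hy).mono fun z hz => ?_
  obtain ⟨h4, h5, h6, h7⟩ := hz
  exact mem_of_pr hX ht (hF.mem z h4).1 (hF.mem z h4).2 h5 (h7 h4)

/-- two limits of the same map agree -/
theorem pr_lim {E : Type*} [TopologicalSpace E] {F φ ψ : E → EN N} {y : E} (hφ : ContinuousAt φ y) (hφ0 : φ y ≠ 0) (hψ : ContinuousAt ψ y) (hψ0 : ψ y ≠ 0)
    (hF : ∃ᶠ z in 𝓝 y, F z ≠ 0) (h1 : ∀ᶠ z in 𝓝 y, F z ≠ 0 → pr (φ z) = pr (F z)) (h2 : ∀ᶠ z in 𝓝 y, F z ≠ 0 → pr (ψ z) = pr (F z)) :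
    pr (φ y) = pr (ψ y) := by
  have hc1 : ContinuousAt (fun z => dist (pr (φ z)) (pr (ψ z))) y :=
    ((continuousAt_pr hφ0).comp hφ).dist ((continuousAt_pr hψ0).comp hψ)
  have hm : dist (pr (φ y)) (pr (ψ y)) ∈ closure ({0} : Set ℝ) := by
    rw [mem_closure_iff_frequently]
    refine hc1.tendsto.frequently ((hF.and_eventually (h1.and h2)).mono fun z hz => ?_)
    show dist (pr (φ z)) (pr (ψ z)) = 0
    rw [hz.2.1 hz.1, hz.2.2 hz.1, dist_self]
  rw [closure_singleton, Set.mem_singleton_iff] at hm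
  exact dist_eq_zero.mp hm

/-- division by a power of the first variable, for vectors -/
theorem exists_div_vec {E : Type} [NormedAddCommGroup E] [NormedSpace ℂ E] [FiniteDimensional ℂ E] {g : ℂ × E → EN N} (hg : AnalyticAt ℂ g 0)
    (hne : ¬ ∀ᶠ y in 𝓝 (0 : ℂ × E), g y = 0) :
    ∃ (a : ℕ) (g' : ℂ × E → EN N), AnalyticAt ℂ g' 0 ∧ (∀ᶠ y in 𝓝 (0 : ℂ × E), g y = y.1 ^ a • g' y) ∧ ¬ ∀ᶠ x in 𝓝 (0 : E), g' (0, x) = 0 := by
  classical
  have hch : ∀ i : Fin (N + 1), ∃ (a : ℕ) (g' : ℂ × E → ℂ), (¬ ∀ᶠ y in 𝓝 (0 : ℂ × E), g y i = 0) → AnalyticAt ℂ g' 0 ∧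
      (∀ᶠ y in 𝓝 (0 : ℂ × E), g y i = y.1 ^ a * g' y) ∧ ¬ ∀ᶠ x in 𝓝 (0 : E), g' (0, x) = 0 := by
    intro i
    by_cases h : ∀ᶠ y in 𝓝 (0 : ℂ × E), g y i = 0
    · exact ⟨0, fun _ => 0, fun h' => absurd h h'⟩
    · obtain ⟨a, g', h1, h2, h3⟩ := Pool.Agent.H22.HF.exists_div (coord_an hg i) h
      exact ⟨a, g', fun _ => ⟨h1, h2, h3⟩⟩
  choose a g' hprop using hch
  set S : Finset (Fin (N + 1)) := Finset.univ.filter fun i => ¬ ∀ᶠ y in 𝓝 (0 : ℂ × E), g y i = 0 with hS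
  have hmemS : ∀ i, i ∈ S ↔ ¬ ∀ᶠ y in 𝓝 (0 : ℂ × E), g y i = 0 := by
    intro i
    simp [hS]
  have hSne : S.Nonempty := by
    by_contra hcon
    rw [Finset.not_nonempty_iff_eq_empty] at hcon
    refine hne ?_
    have h1 : ∀ i, ∀ᶠ y in 𝓝 (0 : ℂ × E), g y i = 0 := by
      intro i
      by_contra hi
      have := (hmemS i).mpr hi
      rw [hcon] at this
      simp at this
    filter_upwards [Filter.eventually_all.mpr h1] with y hy
    ext i
    exact hy i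
  obtain ⟨i₀, hi₀, hmin⟩ := S.exists_min_image a hSne
  refine ⟨a i₀, fun y => WithLp.toLp 2 fun i => if i ∈ S then y.1 ^ (a i - a i₀) * g' i y else 0, an_of_coord fun i => ?_, ?_, ?_⟩
  · show AnalyticAt ℂ (fun y : ℂ × E => if i ∈ S then y.1 ^ (a i - a i₀) * g' i y else 0) 0
    by_cases hi : i ∈ S
    · simp only [hi, if_true]
      exact ((analyticAt_fst (𝕜 := ℂ)).pow _).mul (hprop i ((hmemS i).mp hi)).1
    · simp only [hi, if_false]
      exact analyticAt_const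
  · have h1 : ∀ i, ∀ᶠ y in 𝓝 (0 : ℂ × E), g y i = y.1 ^ a i₀ * (if i ∈ S then y.1 ^ (a i - a i₀) * g' i y else 0) := by
      intro i
      by_cases hi : i ∈ S
      · simp only [hi, if_true]
        filter_upwards [(hprop i ((hmemS i).mp hi)).2.1] with y hy
        rw [hy, ← mul_assoc, ← pow_add, Nat.add_sub_cancel' (hmin i hi)]
      · simp only [hi, if_false, mul_zero]
        by_contra hcon
        exact hi ((hmemS i).mpr hcon)
    filter_upwards [Filter.eventually_all.mpr h1] with y hy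
    ext i
    exact hy i
  · intro hcon
    refine (hprop i₀ ((hmemS i₀).mp hi₀)).2.2 ?_
    filter_upwards [hcon] with x hx
    have h1 := congrArg (fun v : EN N => v i₀) hx
    simpa [hi₀] using h1

/-- a meromorphic section gives an element of `Sec` -/
theorem mer_sec (hX : IsCone X) (ht : TMap X Λ u) (hl : Lat Λ) (hD : IsClosed D) (hlip : ∀ y ∉ D, CLip X Λ u y) {F : Vd (k + 1) → EN N}
    (hF : Mer X Λ u F) : ∃ f ∈ Sec X Λ u D, ∀ y ∉ D, F y ≠ 0 → f y = pr (F y) := by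
  classical
  have hch : ∀ y : Vd (k + 1), ∃ φ : Vd (k + 1) → EN N, y ∉ D → AnalyticAt ℂ φ y ∧ (∀ᶠ z in 𝓝 y, φ z ∈ X ∧ u (φ z) - z ∈ Λ) ∧
      ∀ᶠ z in 𝓝 y, F z ≠ 0 → pr (φ z) = pr (F z) := by
    intro y
    by_cases hy : y ∈ D
    · exact ⟨fun _ => 0, fun h => absurd hy h⟩
    · obtain ⟨φ, h⟩ := mer_germ hX ht hl (hlip y hy) hF
      exact ⟨φ, fun _ => h⟩
  choose φ hφ using hch
  have hX0 : ∀ x ∈ X, x ≠ 0 := fun x hx e => hX.zero_notMem (e ▸ hx)
  have hloc : ∀ y ∉ D, ∀ᶠ z in 𝓝 y, pr (φ z z) = pr (φ y z) := by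
    intro y hy
    obtain ⟨h1, h2, h3⟩ := hφ y hy
    filter_upwards [hD.isOpen_compl.mem_nhds hy, h1.eventually_analyticAt, h2, h3.eventually_nhds] with z hz hz1 hz2 hz3
    obtain ⟨h4, h5, h6⟩ := hφ z hz
    exact pr_lim h4.continuousAt (hX0 _ h5.self_of_nhds.1) hz1.continuousAt (hX0 _ hz2.1) (hF.freq z) h6 hz3
  refine ⟨fun y => pr (φ y y), ⟨fun y hy => ?_, fun y e hye => ?_⟩, fun y hy h0 => (hφ y hy).2.2.self_of_nhds h0⟩
  · obtain ⟨h1, h2, h3⟩ := hφ y hy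
    refine ⟨φ y, h1, ?_⟩
    filter_upwards [h2, hloc y hy] with z hz1 hz2
    exact ⟨hz1.1, hz2, hz1.2⟩
  · obtain ⟨p, hp⟩ := hF.ne
    set w : Vd (k + 1) := p - y with hw
    set P : ℂ × ℂ → EN N := fun q => F (y + q.2 • e + q.1 • w) with hP
    have hPan : ∀ q, AnalyticAt ℂ P q := by
      intro q
      refine AnalyticAt.fun_comp (hF.an _) ?_
      exact (analyticAt_const.add (analyticAt_snd.smul analyticAt_const)).add (analyticAt_fst.smul analyticAt_const)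
    have hPne : ¬ ∀ᶠ q in 𝓝 (0 : ℂ × ℂ), P q = 0 := by
      intro h
      have h1 := AnalyticOnNhd.eqOn_zero_of_preconnected_of_eventuallyEq_zero (U := Set.univ) (fun z _ => hPan z) isPreconnected_univ
        (Set.mem_univ (0 : ℂ × ℂ)) h (Set.mem_univ ((1, 0) : ℂ × ℂ))
      have h2 : P (1, 0) = F p := by
        rw [hP]
        simp [hw]
      exact hp (h2 ▸ h1)
    obtain ⟨a, G, hG1, hG2, hG3⟩ := exists_div_vec (hPan 0) hPne
    have hG0 : AnalyticAt ℂ (fun z : ℂ => G (0, z)) 0 := by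
      refine AnalyticAt.fun_comp (g := G) (f := fun z : ℂ => ((0 : ℂ), z)) hG1 ?_
      exact AnalyticAt.prod analyticAt_const analyticAt_id
    obtain ⟨n, H, hH1, hH2, hH3⟩ := hG0.exists_eventuallyEq_pow_smul_nonzero_iff.mpr hG3
    have hHn : ∀ᶠ z in 𝓝 (0 : ℂ), H z ≠ 0 := hH1.continuousAt.eventually_ne hH2
    have hinj : Tendsto (fun z : ℂ => ((0 : ℂ), z)) (𝓝 0) (𝓝 (0 : ℂ × ℂ)) := by
      have : Continuous (fun z : ℂ => ((0 : ℂ), z)) := by fun_prop
      exact this.tendsto 0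
    have hkey : ∀ᶠ z in 𝓝[≠] (0 : ℂ), pr (φ (y + z • e) (y + z • e)) = pr (H z) ∧ y + z • e ∉ D ∧ H z ≠ 0 := by
      have hev1 : ∀ᶠ z in 𝓝 (0 : ℂ), AnalyticAt ℂ G (0, z) ∧ ∀ᶠ q in 𝓝 ((0, z) : ℂ × ℂ), P q = q.1 ^ a • G q :=
        hinj.eventually (hG1.eventually_analyticAt.and hG2.eventually_nhds)
      filter_upwards [hye, hev1.filter_mono nhdsWithin_le_nhds, hH3.filter_mono nhdsWithin_le_nhds, hHn.filter_mono nhdsWithin_le_nhds,
        self_mem_nhdsWithin] with z hz1 hz2 hz3 hz4 hz5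
      refine ⟨?_, hz1, hz4⟩
      have hz5 : z ≠ 0 := hz5
      rw [sub_zero] at hz3
      have hzn : z ^ n ≠ 0 := pow_ne_zero _ hz5
      have hGne : G (0, z) ≠ 0 := by
        rw [hz3]
        exact smul_ne_zero hzn hz4
      have hpr : pr (H z) = pr (G (0, z)) := by
        rw [hz3, pr_smul _ hzn]
      rw [hpr]
      obtain ⟨h4, h5, h6⟩ := hφ _ hz1
      -- the two curves in `c`
      have hc1 : ContinuousAt (fun c : ℂ => y + z • e + c • w) 0 := by fun_prop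
      have e0 : y + z • e + (0 : ℂ) • w = y + z • e := by simp
      have hA : ContinuousAt (fun c : ℂ => φ (y + z • e) (y + z • e + c • w)) 0 := by
        have h7 : ContinuousAt (φ (y + z • e)) (y + z • e + (0 : ℂ) • w) := by
          rw [e0]
          exact h4.continuousAt
        exact ContinuousAt.comp (f := fun c : ℂ => y + z • e + c • w) h7 hc1
      have hc2 : ContinuousAt (fun c : ℂ => ((c, z) : ℂ × ℂ)) 0 := by fun_prop
      have hB : ContinuousAt (fun c : ℂ => G (c, z)) 0 := ContinuousAt.comp (f := fun c : ℂ => ((c, z) : ℂ × ℂ)) hz2.1.continuousAt hc2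
      have hBn : ∀ᶠ c in 𝓝 (0 : ℂ), G (c, z) ≠ 0 := hB.eventually_ne hGne
      have hPG : ∀ᶠ c in 𝓝 (0 : ℂ), P (c, z) = c ^ a • G (c, z) := hc2.eventually hz2.2
      have hF6 : ∀ᶠ c in 𝓝 (0 : ℂ), F (y + z • e + c • w) ≠ 0 → pr (φ (y + z • e) (y + z • e + c • w)) = pr (F (y + z • e + c • w)) := by
        refine hc1.tendsto.eventually (p := fun x => F x ≠ 0 → pr (φ (y + z • e) x) = pr (F x)) ?_
        rw [e0]
        exact h6
      have hfin := pr_lim (F := fun c : ℂ => c • G (c, z)) (φ := fun c : ℂ => φ (y + z • e) (y + z • e + c • w)) (ψ := fun c : ℂ => G (c, z)) hA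
        (by
          show φ (y + z • e) (y + z • e + (0 : ℂ) • w) ≠ 0
          rw [e0]
          exact hX0 _ h5.self_of_nhds.1) hB hGne
        (by
          have hfr : ∃ᶠ c in 𝓝 (0 : ℂ), c ≠ 0 := by
            have hd : Dense ({0}ᶜ : Set ℂ) := dense_compl_singleton 0
            exact mem_closure_iff_frequently.mp (hd 0)
          exact (hfr.and_eventually hBn).mono fun c hc => smul_ne_zero hc.1 hc.2)
        (by
          filter_upwards [hPG, hF6] with c hc1 hc2 hc3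
          have hc0 : c ≠ 0 := fun h => hc3 (by simp [h])
          have hcG : G (c, z) ≠ 0 := fun h => hc3 (by simp [h])
          have hca : c ^ a ≠ 0 := pow_ne_zero _ hc0
          have hFP : F (y + z • e + c • w) = c ^ a • G (c, z) := hc1
          have hF0 : F (y + z • e + c • w) ≠ 0 := by
            rw [hFP]
            exact smul_ne_zero hca hcG
          rw [hc2 hF0, hFP, pr_smul _ hca, pr_smul _ hc0])
        (by
          filter_upwards [] with c hc3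
          have hc0 : c ≠ 0 := fun h => hc3 (by simp [h])
          rw [pr_smul _ hc0])
      simp only [e0] at hfin
      exact hfin
    refine ⟨fun z => pr (H z), ⟨H, hH1, ?_⟩, hkey.mono fun z hz => hz.1.symm⟩
    have hgood : ∀ᶠ z in 𝓝[≠] (0 : ℂ), H z ∈ X ∧ u (H z) - (y + z • e) ∈ Λ := by
      filter_upwards [hkey] with z hz
      obtain ⟨hz1, hz2, hz3⟩ := hz
      obtain ⟨h4, h5, h6⟩ := hφ _ hz2
      have h7 := h5.self_of_nhds
      exact mem_of_pr hX ht h7.1 h7.2 hz3 hz1.symm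
    have h0 : H 0 ∈ X ∧ u (H 0) - (y + (0 : ℂ) • e) ∈ Λ := by
      refine close_lift (υ := fun z : ℂ => y + z • e) hX ht hl hH1.continuousAt hH2 (by fun_prop) ?_
      exact hgood.frequently.filter_mono nhdsWithin_le_nhds
    rw [eventually_nhdsWithin_iff] at hgood
    filter_upwards [hgood] with z hz
    by_cases hz0 : z = 0
    · subst hz0
      exact ⟨h0.1, rfl, h0.2⟩
    · have := hz hz0
      exact ⟨this.1, rfl, this.2⟩

end Pool.Agent.TG
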