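import Pool.Agent.TG.Zl
import Pool.Agent.TG.SmC

/-!
# TG CLp: the curves over the lines near a point off `D` are uniformly Lipschitz
-/

set_option autoImplicit false

open Topology Filter Metric

namespace Pool.Agent.TG

open Pool.Agent.H36.BP (EN)
open Pool.Agent.H62.EF (MN pr)
open Pool.Agent.AD (Vd)

variable {N k : ℕ} {X : Set (EN N)} {Λ : AddSubgroup (Vd (k + 1))} {u : EN N → Vd (k + 1)} {D B : Set (Vd (k + 1))}

theorem Geo.clip (G : Geo X Λ u D B) : ∀ y ∉ D, CLip X Λ u y := by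
  intro y₀ hy₀
  obtain ⟨δ, hδ, hyG⟩ := G.exists_gd hy₀
  obtain ⟨L, hL, h⟩ := curve_bound_disc G (δ := δ / 16) (by positivity)
  refine ⟨δ / 2, L, by positivity, hL.le, fun y hy e he g hg z hz w hw => ?_⟩
  rw [mem_ball, dist_eq_norm] at hy
  obtain ⟨F, hF, hFX, hFg⟩ := disc_lift_mem G.cone G.tor hg (r := 3 * δ / 8) (by linarith)
  have hsub : ball (0 : ℂ) (δ / 2 / 2) ⊆ ball (0 : ℂ) (3 * δ / 8) := ball_subset_ball (by linarith)
  rw [hFg z (hsub hz), hFg w (hsub hw)]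
  refine h y e he (3 * δ / 8) (δ / 2 / 2) (by linarith) (fun v hv => ?_) F hF hFX z hz w hw
  have h1 : ‖y + v • e - y₀‖ ≤ δ / 2 + δ / 4 := by
    have h2 : y + v • e - y₀ = (y - y₀) + v • e := by abel
    rw [mem_ball_zero_iff] at hv
    rw [h2]
    refine (norm_add_le _ _).trans (add_le_add hy.le ?_)
    rw [norm_smul]
    calc ‖v‖ * ‖e‖ ≤ ‖v‖ * 1 := mul_le_mul_of_nonneg_left he (norm_nonneg _)
      _ ≤ δ / 4 := by linarith
  exact gd_mono (by linarith) (gd_near hyG h1)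

end Pool.Agent.TG
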