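import Pool.Agent.TG.Nr
import Pool.Agent.TG.IsoA

/-!
# TG Iz: isolated pairs near a section inside the zeros of the form

Compare `Pool/Agent/H62/EL/Iz.lean`.  Let `x₁ = φ y₁`, `χ, c, ρ` a chart with `Cap .. y₁ (pr x₁) (3ε)` (`Cst.cap`, `y₁ ∈ O ⊆ Gd D δ`), `A` a primitive (`exists_prim`), `a = tc α χ (ms c ρ) = ∂_0 A`; for `y` near `y₁`: `φ y ∈ χ.U`, `π y = χ.q (φ y)`, analytic,
`ms c ρ (π y) = y` (`Cap`).  `S p := π (ms c ρ p)` (the point of the graph with the same `tl`), `h p = A p - A (S p)`, `G p = h p * a p`, analytic near `p₁ = π y₁` (`ms c ρ p₁ = y₁`).  `G` is not `0` near `p₁`: otherwise, as `a` is not identically `0`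
near `p₁` (`Thin`; `Str.lift`), `a ≠ 0` at a point near `p₁`, hence on a small ball, where then `h = 0`; `h` is analytic on a ball about `p₁` (connected), so `h = 0` near `p₁` and `a = ∂_0 h = 0` near `p₁` (`S` does not depend on `p 0`): contradiction.
Put `G' (t, s) = G (cons (t + g s) s)`, where `g s = (S (cons 0 s)) 0` (so `cons (g s) s` is on the graph), analytic at `cons 0 (tl p₁)`, not `0` near it (composition with a local biholomorphism: if `G' = 0` near `cons 0 (tl p₁)` then `G = 0` near `p₁`).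
`exists_isolated` with `W` = the set of `s` near `tl p₁` such that `y = c + ρ s ∈ O` and everything above holds near `y`: `s₁`, `d`.  `y₀ = c + ρ s₁`.  `r', ε'` small: `ball y₀ r' ⊆ O`, and for `y ∈ ball y₀ r'`, `m ∈ Fb .. y` with `dist m (pr (φ y)) < ε'`: let `x'`
be a lift of `m`, `x' ∈ χ.U`, `p = χ.q x'`, `ms c ρ p = y` (`Cap`), so `‖tl p - s₁‖ < d`, and `‖p 0 - g (tl p)‖ < d`: for this one needs that `χ.q x'` is near `χ.q (φ y)` if `m` is near `pr (φ y)`, uniformly for `y` near `y₀`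
(sequences: `y_n → y'`, `m_n → pr (φ y')`: `fb_lim`; or shrink `r'` and use continuity at `y₀` only: `dist m (pr (φ y₀)) < ε' + dist (pr (φ y)) (pr (φ y₀))`).  If `Zr α y m`: `a p = 0` (`zr_iff`), `G p = 0`.  If `II α ε y (pr (φ y)) m = 0`
(`ε' ≤ ε₀`: there is `v` with `IRel`, `Cst.rel`) by `II_eq` `A p = A (π y)`, `h p = 0`, `G p = 0`.  So `p 0 = g (tl p)`: `p = π y`, `χ.q x' = χ.q (φ y)`, so `x'` and `φ y` are proportional and `m = pr (φ y)`.
-/

set_option autoImplicit false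

open Topology Filter Metric

namespace Pool.Agent.TG

open Pool.Agent.H36.BP (EN fs wd)
open Pool.Agent.H14.PP (IsCone CurveAt Tan)
open Pool.Agent.H62.EF (MN pr)
open Pool.Agent.AD (Vd Chart Charts IsGerm)

variable {N k : ℕ}


variable {X : Set (EN N)} {Λ : AddSubgroup (Vd (k + 1))} {u : EN N → Vd (k + 1)} {D B : Set (Vd (k + 1))}

theorem iso_zr (G : Geo X Λ u D B) {α : VForm X Λ u} (hthin : Thin α) {δ ε ε₀ : ℝ} (hc : Cst X Λ u D δ ε ε₀) {O : Set (Vd (k + 1))}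
    (hO : IsOpen O) (hOG : O ⊆ Gd D δ) {y₁ : Vd (k + 1)} (hy₁ : y₁ ∈ O) {φ : Vd (k + 1) → EN N} (hφ : AnalyticAt ℂ φ y₁)
    (hφX : ∀ᶠ y in 𝓝 y₁, φ y ∈ X ∧ u (φ y) - y ∈ Λ) :
    ∃ (y₀ : Vd (k + 1)) (r' ε' : ℝ), 0 < r' ∧ 0 < ε' ∧ ball y₀ r' ⊆ O ∧ ∀ y ∈ ball y₀ r', ∀ m ∈ Fb X Λ u y,
      dist m (pr (φ y)) < ε' → (II α ε y (pr (φ y)) m = 0 ∨ Zr α y m) → m = pr (φ y) := by
  have hX := G.cone
  have hε := hc.ε_pos
  have hX0 : ∀ w ∈ X, w ≠ 0 := fun w hw => ne_zero hX hw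
  obtain ⟨hφ1, hφu1⟩ := hφX.self_of_nhds
  obtain ⟨χ, c, ρ, hcap⟩ := hc.cap y₁ (hOG hy₁) (pr (φ y₁)) (mem_fb hφ1 hφu1)
  have hm := hcap.str
  have hρ0 := hm.pos
  have hρ : (ρ : ℂ) ≠ 0 := by exact_mod_cast hρ0.ne'
  obtain ⟨A, hA⟩ := exists_prim α χ hm
  -- a good ball
  have hgood : ∀ᶠ y in 𝓝 y₁, y ∈ O ∧ ‖y - y₁‖ < 3 * ε ∧ AnalyticAt ℂ φ y ∧ (φ y ∈ X ∧ u (φ y) - y ∈ Λ) ∧ dist (pr (φ y)) (pr (φ y₁)) < ε := by
    have h1 : ∀ᶠ y in 𝓝 y₁, ‖y - y₁‖ < 3 * ε := by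
      filter_upwards [ball_mem_nhds y₁ (show 0 < 3 * ε by positivity)] with y hy
      rwa [mem_ball, dist_eq_norm] at hy
    have h2 : ContinuousAt (fun y => pr (φ y)) y₁ :=
      ContinuousAt.comp (g := pr) (f := φ) (Pool.Agent.H62.EF.continuousAt_pr (hX0 _ hφ1)) hφ.continuousAt
    have h3 : ∀ᶠ y in 𝓝 y₁, dist (pr (φ y)) (pr (φ y₁)) < ε := h2.tendsto.eventually (ball_mem_nhds _ hε)
    filter_upwards [hO.mem_nhds hy₁, h1, hφ.eventually_analyticAt, hφX, h3] with y a1 a2 a3 a4 a5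
    exact ⟨a1, a2, a3, a4, a5⟩
  obtain ⟨η, hη, hηg⟩ := Metric.eventually_nhds_iff_ball.mp hgood
  have hcapφ : ∀ y ∈ ball y₁ η, φ y ∈ χ.U ∧ χ.q (φ y) ∈ closedBall (0 : Vd (k + 2)) 1 ∧ ms c ρ (χ.q (φ y)) = y := by
    intro y hy
    obtain ⟨h1, h2, h3, h4, h5⟩ := hηg y hy
    refine hcap.cap y ?_ _ h4.1 h4.2 (by linarith)
    rw [mem_closedBall, dist_eq_norm]
    exact h2.le
  set π : Vd (k + 1) → Vd (k + 2) := fun y => χ.q (φ y) with hπdef
  have h1η : y₁ ∈ ball y₁ η := mem_ball_self hη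
  have hπ : ∀ y ∈ ball y₁ η, AnalyticAt ℂ π y := fun y hy =>
    AnalyticAt.fun_comp (g := χ.q) (f := φ) (χ.q_an _ (hcapφ y hy).1) (hηg y hy).2.2.1
  have hπ2 : ∀ y ∈ ball y₁ η, π y ∈ ball (0 : Vd (k + 2)) 2 := fun y hy => closedBall_subset_ball (by norm_num) (hcapφ y hy).2.1
  set p₁ : Vd (k + 2) := π y₁ with hp₁def
  have hp₁ : p₁ ∈ ball (0 : Vd (k + 2)) 2 := hπ2 y₁ h1η
  have hmsp : ms c ρ p₁ = y₁ := (hcapφ y₁ h1η).2.2
  have htl : ∀ p q : Vd (k + 2), ms c ρ p = ms c ρ q → tl p = tl q := by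
    intro p q h
    have h1 : (ρ : ℂ) • tl p = (ρ : ℂ) • tl q := add_left_cancel h
    exact smul_right_injective _ hρ h1
  set a : Vd (k + 2) → ℂ := tc α χ (ms c ρ) with hadef
  have hlift : ∀ p ∈ ball (0 : Vd (k + 2)) 2, ∀ᶠ q in 𝓝 p, u (χ.σ q) - ms c ρ q ∈ Λ := by
    intro p hp
    filter_upwards [isOpen_ball.mem_nhds hp] with q hq using hm.lift q hq
  have haan : ∀ p ∈ ball (0 : Vd (k + 2)) 2, AnalyticAt ℂ a p := fun p hp => tc_an α χ hp (ms_an c ρ p) (hlift p hp)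
  set h : Vd (k + 2) → ℂ := fun p => A p - A (π (ms c ρ p)) with hhdef
  have hhan : ∀ p ∈ ball (0 : Vd (k + 2)) 2, ms c ρ p ∈ ball y₁ η → AnalyticAt ℂ h p := by
    intro p hp hpy
    have h3 : AnalyticAt ℂ (fun p : Vd (k + 2) => π (ms c ρ p)) p := AnalyticAt.fun_comp (hπ _ hpy) (ms_an c ρ p)
    have h5 : AnalyticAt ℂ (fun p : Vd (k + 2) => A (π (ms c ρ p))) p := AnalyticAt.fun_comp (hA.an _ (hπ2 _ hpy)) h3
    exact (hA.an _ hp).sub h5
  have hms1 : ∀ᶠ p in 𝓝 p₁, ms c ρ p ∈ ball y₁ η := by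
    have h1 := (ms_an c ρ p₁).continuousAt
    rw [ContinuousAt, hmsp] at h1
    exact h1.eventually (isOpen_ball.mem_nhds h1η)
  have hGan : AnalyticAt ℂ (fun p => h p * a p) p₁ := (hhan p₁ hp₁ (by rw [hmsp]; exact h1η)).mul (haan _ hp₁)
  have hG0 : ¬ ∀ᶠ p in 𝓝 p₁, h p * a p = 0 := by
    intro hcon
    obtain ⟨s, hs, hsb⟩ := Metric.eventually_nhds_iff_ball.mp (hcon.and (hms1.and (isOpen_ball.mem_nhds hp₁)))
    have hthin' := hthin χ (ms c ρ) p₁ hp₁ (ms_an c ρ _) (hlift p₁ hp₁)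
    obtain ⟨y, hy1, hy2⟩ := ((not_eventually.mp hthin').and_eventually (ball_mem_nhds p₁ hs)).exists
    have hy3 : y ∈ ball (0 : Vd (k + 2)) 2 := (hsb y hy2).2.2
    have hay : ∀ᶠ p in 𝓝 y, a p ≠ 0 := (haan y hy3).continuousAt.eventually_ne hy1
    have hhy : h =ᶠ[𝓝 y] 0 := by
      filter_upwards [hay, isOpen_ball.mem_nhds hy2] with p h1 h2
      exact (mul_eq_zero.mp (hsb p h2).1).resolve_right h1
    have hhan' : AnalyticOnNhd ℂ h (ball p₁ s) := fun p hp => hhan p (hsb p hp).2.2 (hsb p hp).2.1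
    have hzero := hhan'.eqOn_zero_of_preconnected_of_eventuallyEq_zero (convex_ball _ _).isPreconnected hy2 hhy
    -- the derivative in the direction of the coordinate `0`
    have hline : HasDerivAt (fun t : ℂ => y + t • (Pi.single 0 1 : Vd (k + 2))) (Pi.single 0 1 : Vd (k + 2)) 0 := by
      have h1 := ((hasDerivAt_id (0 : ℂ)).smul_const (Pi.single 0 1 : Vd (k + 2))).const_add y
      rw [one_smul] at h1
      exact h1
    have hy0 : y + (0 : ℂ) • (Pi.single 0 1 : Vd (k + 2)) = y := by simp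
    have h1 : HasFDerivAt A (fderiv ℂ A y) (y + (0 : ℂ) • (Pi.single 0 1 : Vd (k + 2))) := by
      rw [hy0]
      exact (hA.an y hy3).differentiableAt.hasFDerivAt
    have h2 : HasDerivAt (fun t : ℂ => A (y + t • (Pi.single 0 1 : Vd (k + 2)))) (fderiv ℂ A y (Pi.single 0 1)) 0 := h1.comp_hasDerivAt 0 hline
    have h3 : (fun t : ℂ => A (y + t • (Pi.single 0 1 : Vd (k + 2)))) =ᶠ[𝓝 0] fun _ => A (π (ms c ρ y)) := by
      have h4 : ∀ᶠ t : ℂ in 𝓝 0, y + t • (Pi.single 0 1 : Vd (k + 2)) ∈ ball p₁ s := by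
        have h5 := hline.continuousAt.tendsto
        rw [hy0] at h5
        exact h5.eventually (isOpen_ball.mem_nhds hy2)
      filter_upwards [h4] with t ht
      have h5 : h (y + t • (Pi.single 0 1 : Vd (k + 2))) = 0 := hzero ht
      have h6 : ms c ρ (y + t • (Pi.single 0 1 : Vd (k + 2))) = ms c ρ y := by
        unfold ms
        have h7 : tl (y + t • (Pi.single 0 1 : Vd (k + 2))) = tl y := by
          funext i
          show (y + t • (Pi.single 0 1 : Vd (k + 2))) i.succ = y i.succ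
          simp
        rw [h7]
      simp only [hhdef] at h5
      rw [h6] at h5
      exact sub_eq_zero.mp h5
    have h4 : HasDerivAt (fun t : ℂ => A (y + t • (Pi.single 0 1 : Vd (k + 2)))) 0 0 := (hasDerivAt_const (0 : ℂ) _).congr_of_eventuallyEq h3
    have h5 := h2.unique h4
    rw [hA.der y hy3] at h5
    exact hy1 h5
  -- flatten the graph
  set s₁ : Vd (k + 1) := tl p₁ with hs₁def
  have hcs : ∀ p : Vd (k + 2), c + (ρ : ℂ) • tl p = ms c ρ p := fun p => rfl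
  have hcs1 : c + (ρ : ℂ) • s₁ = y₁ := by rw [hs₁def, hcs, hmsp]
  have hsan : ∀ s : Vd (k + 1), AnalyticAt ℂ (fun s : Vd (k + 1) => c + (ρ : ℂ) • s) s := fun s =>
    analyticAt_const.add (AnalyticAt.fun_smul analyticAt_const analyticAt_id)
  set g : Vd (k + 1) → ℂ := fun s => π (c + (ρ : ℂ) • s) 0 with hgdef
  have hgan : AnalyticAt ℂ g s₁ := by
    have h1 : AnalyticAt ℂ (fun s : Vd (k + 1) => π (c + (ρ : ℂ) • s)) s₁ :=
      AnalyticAt.fun_comp (g := π) (f := fun s : Vd (k + 1) => c + (ρ : ℂ) • s) (by rw [hcs1]; exact hπ y₁ h1η) (hsan s₁)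
    exact (analyticAt_pi_iff.1 h1) 0
  have hg1 : g s₁ = p₁ 0 := by
    rw [hgdef]
    simp only []
    rw [hcs1]
  set T : Vd (k + 2) → Vd (k + 2) := fun p => Fin.cons (α := fun _ => ℂ) (p 0 + g (tl p)) (tl p) with hTdef
  set T' : Vd (k + 2) → Vd (k + 2) := fun p => Fin.cons (α := fun _ => ℂ) (p 0 - g (tl p)) (tl p) with hT'def
  have hTT' : ∀ p, T (T' p) = p := by
    intro p
    funext i
    refine Fin.cases ?_ ?_ i
    · show p 0 - g (tl p) + g (tl p) = p 0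
      ring
    · intro j
      rfl
  set q₁ : Vd (k + 2) := Fin.cons (α := fun _ => ℂ) 0 s₁ with hq₁def
  have htlq : tl q₁ = s₁ := rfl
  have hTq : T q₁ = p₁ := by
    funext i
    refine Fin.cases ?_ ?_ i
    · show (0 : ℂ) + g s₁ = p₁ 0
      rw [zero_add, hg1]
    · intro j
      rfl
  have hT'p : T' p₁ = q₁ := by
    funext i
    refine Fin.cases ?_ ?_ i
    · show p₁ 0 - g s₁ = 0
      rw [hg1, sub_self]
    · intro j
      rfl
  have htlan : ∀ p : Vd (k + 2), AnalyticAt ℂ (fun p : Vd (k + 2) => tl p) p := by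
    intro p
    rw [analyticAt_pi_iff]
    intro i
    exact (ContinuousLinearMap.proj (R := ℂ) (φ := fun _ : Fin (k + 2) => ℂ) i.succ).analyticAt p
  have hp0an : ∀ p : Vd (k + 2), AnalyticAt ℂ (fun p : Vd (k + 2) => p 0) p := fun p =>
    (ContinuousLinearMap.proj (R := ℂ) (φ := fun _ : Fin (k + 2) => ℂ) 0).analyticAt p
  have hTan : AnalyticAt ℂ T q₁ := by
    rw [analyticAt_pi_iff]
    intro i
    refine Fin.cases ?_ ?_ i
    · have h1 : AnalyticAt ℂ (fun p : Vd (k + 2) => g (tl p)) q₁ := AnalyticAt.fun_comp (g := g) (f := fun p : Vd (k + 2) => tl p)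
        (by rw [htlq]; exact hgan) (htlan q₁)
      exact (hp0an q₁).add h1
    · intro j
      exact (analyticAt_pi_iff.1 (htlan q₁)) j
  have hT'c : ContinuousAt T' p₁ := by
    refine continuousAt_pi.2 fun i => ?_
    refine Fin.cases ?_ ?_ i
    · have h1 : ContinuousAt (fun p : Vd (k + 2) => g (tl p)) p₁ := ContinuousAt.comp (g := g) (f := fun p : Vd (k + 2) => tl p)
        hgan.continuousAt (htlan p₁).continuousAt
      exact (hp0an p₁).continuousAt.sub h1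
    · intro j
      exact continuousAt_pi.1 (htlan p₁).continuousAt j
  have hG'an : AnalyticAt ℂ (fun q => h (T q) * a (T q)) q₁ := by
    have h1 : AnalyticAt ℂ (fun p => h p * a p) (T q₁) := by rw [hTq]; exact hGan
    exact AnalyticAt.fun_comp (g := fun p => h p * a p) h1 hTan
  have hG'0 : ¬ ∀ᶠ q in 𝓝 q₁, h (T q) * a (T q) = 0 := by
    intro hcon
    apply hG0
    rw [← hT'p] at hcon
    filter_upwards [hT'c.eventually hcon] with p hp
    rwa [hTT'] at hp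
  have hW : {s : Vd (k + 1) | c + (ρ : ℂ) • s ∈ ball y₁ η} ∈ 𝓝 s₁ := by
    have h1 := (hsan s₁).continuousAt
    rw [ContinuousAt, hcs1] at h1
    exact h1.eventually (isOpen_ball.mem_nhds h1η)
  obtain ⟨s₂, hs₂, d, hd, hiso⟩ := exists_isolated hG'an hG'0 hW
  set y₀ : Vd (k + 1) := c + (ρ : ℂ) • s₂ with hy₀def
  have hy₀ : y₀ ∈ ball y₁ η := hs₂
  obtain ⟨-, -, hφan0, ⟨hφX0, -⟩, -⟩ := hηg y₀ hy₀
  -- nearby points
  have hU : {x : EN N | x ∈ χ.U ∧ ‖χ.q x - χ.q (φ y₀)‖ < d / 2} ∈ 𝓝 (φ y₀) := by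
    have h1 := (hcapφ y₀ hy₀).1
    have h2 : ContinuousAt (fun x => ‖χ.q x - χ.q (φ y₀)‖) (φ y₀) := ((χ.q_an _ h1).continuousAt.sub continuousAt_const).norm
    have h3 : ∀ᶠ x in 𝓝 (φ y₀), ‖χ.q x - χ.q (φ y₀)‖ < d / 2 := h2.eventually_lt_const (by simpa using hd)
    filter_upwards [χ.isOpen_U.mem_nhds h1, h3] with x a1 a2
    exact ⟨a1, a2⟩
  obtain ⟨d', hd', hnear⟩ := Pool.Agent.H62.EF.near_of_pr (hX0 _ hφX0) hU
  have hloc : ∀ᶠ y in 𝓝 y₀, y ∈ ball y₁ η ∧ dist (pr (φ y)) (pr (φ y₀)) < d' / 2 ∧ ‖π y - π y₀‖ < d / 2 ∧ ‖y - y₀‖ < ρ * d := by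
    have h1 : ContinuousAt (fun y => pr (φ y)) y₀ :=
      ContinuousAt.comp (g := pr) (f := φ) (Pool.Agent.H62.EF.continuousAt_pr (hX0 _ hφX0)) hφan0.continuousAt
    have h2 : ∀ᶠ y in 𝓝 y₀, dist (pr (φ y)) (pr (φ y₀)) < d' / 2 := h1.tendsto.eventually (ball_mem_nhds _ (half_pos hd'))
    have h3 : ∀ᶠ y in 𝓝 y₀, dist (π y) (π y₀) < d / 2 := (hπ y₀ hy₀).continuousAt.tendsto.eventually (ball_mem_nhds _ (half_pos hd))
    filter_upwards [isOpen_ball.mem_nhds hy₀, h2, h3, ball_mem_nhds y₀ (mul_pos hρ0 hd)] with y a1 a2 a3 a4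
    rw [dist_eq_norm] at a3
    rw [mem_ball, dist_eq_norm] at a4
    exact ⟨a1, a2, a3, a4⟩
  obtain ⟨r', hr', hr'b⟩ := Metric.eventually_nhds_iff_ball.mp hloc
  refine ⟨y₀, r', min ε₀ (min ε (d' / 2)), hr', lt_min hc.ε₀_pos (lt_min hε (half_pos hd')), ?_, ?_⟩
  · intro y hy
    exact (hηg y (hr'b y hy).1).1
  · intro y hy m hmF hdist hor
    obtain ⟨hyη, hyd, hyπ, hyρ⟩ := hr'b y hy
    obtain ⟨hy1, hy2, hy3, hy4, hy5⟩ := hηg y hyη
    obtain ⟨x, hx, hxm, hux⟩ := hmF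
    have hyr : y ∈ closedBall y₁ (3 * ε) := by
      rw [mem_closedBall, dist_eq_norm]
      exact hy2.le
    have hd1 : dist m (pr (φ y)) < ε₀ := lt_of_lt_of_le hdist (min_le_left _ _)
    have hd2 : dist m (pr (φ y)) < ε := lt_of_lt_of_le hdist ((min_le_right _ _).trans (min_le_left _ _))
    have hd3 : dist m (pr (φ y)) < d' / 2 := lt_of_lt_of_le hdist ((min_le_right _ _).trans (min_le_right _ _))
    have hxe : dist (pr x) (pr (φ y₁)) ≤ 3 * ε := by
      rw [hxm]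
      have := dist_triangle m (pr (φ y)) (pr (φ y₁))
      linarith
    obtain ⟨hxU, hxq, hxc⟩ := hcap.cap y hyr _ hx hux hxe
    have hpb : χ.q x ∈ ball (0 : Vd (k + 2)) 2 := closedBall_subset_ball (by norm_num) hxq
    have hprx : pr (χ.σ (χ.q x)) = m := by rw [pr_sigma_q χ hx hxU, hxm]
    -- `G (χ.q x) = 0`
    have hGz : h (χ.q x) * a (χ.q x) = 0 := by
      rcases hor with hII | hZ
      · have hrel' := hc.rel y (hOG hy1) (pr (φ y)) (mem_fb hy4.1 hy4.2) m ⟨x, hx, hxm, hux⟩ (by rw [dist_comm]; exact hd1.le) α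
        have h1 := II_eq hX G.tor G.lat hrel' hcap hA hyr (by linarith) hy4.1 hx rfl hxm
        rw [hII] at h1
        have h2 : A (χ.q x) - A (χ.q (φ y)) = 0 := by
          have h3 := h1.symm
          rcases div_eq_zero_iff.mp h3 with h4 | h4
          · exact h4
          · exact absurd h4 (pow_ne_zero _ hρ)
        have h3 : h (χ.q x) = 0 := by
          simp only [hhdef, hπdef]
          rw [hxc]
          exact h2
        rw [h3, zero_mul]
      · have h1 : Zr α (ms c ρ (χ.q x)) (pr (χ.σ (χ.q x))) := by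
          rw [hxc, hprx]
          exact hZ
        have h2 := (zr_iff hX G.tor α χ hpb (hm.lift _ hpb)).mp h1
        rw [hadef, h2, mul_zero]
    have htlx : c + (ρ : ℂ) • tl (χ.q x) = y := hxc
    have h1 := hiso (T' (χ.q x)) ?_ ?_ ?_
    · -- the conclusion
      have h2 : χ.q x 0 = π y 0 := by
        have h3 : χ.q x 0 - g (tl (χ.q x)) = 0 := h1
        have h4 : g (tl (χ.q x)) = π y 0 := by
          rw [hgdef]
          simp only []
          rw [htlx]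
        rw [h4] at h3
        exact sub_eq_zero.1 h3
      have h3 : tl (χ.q x) = tl (π y) := htl _ _ (by rw [hxc, (hcapφ y hyη).2.2])
      have h4 : χ.q x = χ.q (φ y) := by
        funext i
        refine Fin.cases h2 (fun j => ?_) i
        exact congrFun h3 j
      rw [← hprx, h4, pr_sigma_q χ hy4.1 (hcapφ y hyη).1]
    · show ‖χ.q x 0 - g (tl (χ.q x))‖ < d
      have h2 : g (tl (χ.q x)) = π y 0 := by
        rw [hgdef]
        simp only []
        rw [htlx]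
      rw [h2]
      have h3 : ‖χ.q x - π y₀‖ < d / 2 := by
        have h4 : dist (pr x) (pr (φ y₀)) < d' := by
          rw [hxm]
          have := dist_triangle m (pr (φ y)) (pr (φ y₀))
          linarith
        obtain ⟨κ, hκ, hκU⟩ := hnear _ (hX0 _ hx) h4
        have h5 := hκU.2
        rwa [χ.q_smul _ hxU κ hκ] at h5
      have h4 : ‖χ.q x - π y‖ < d := by
        have h5 : χ.q x - π y = (χ.q x - π y₀) - (π y - π y₀) := by abel
        rw [h5]
        have := norm_sub_le (χ.q x - π y₀) (π y - π y₀)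
        linarith
      exact (norm_le_pi_norm (χ.q x - π y) 0).trans_lt h4
    · show ‖tl (χ.q x) - s₂‖ < d
      have h2 : (ρ : ℂ) • (tl (χ.q x) - s₂) = y - y₀ := by
        rw [smul_sub, ← htlx, hy₀def]
        abel
      have h3 : ρ * ‖tl (χ.q x) - s₂‖ < ρ * d := by
        have h4 : ‖(ρ : ℂ) • (tl (χ.q x) - s₂)‖ = ρ * ‖tl (χ.q x) - s₂‖ := by
          rw [norm_smul, Complex.norm_real, Real.norm_of_nonneg hρ0.le]
        rw [← h4, h2]
        exact hyρ
      exact lt_of_mul_lt_mul_left h3 hρ0.le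
    · show h (T (T' (χ.q x))) * a (T (T' (χ.q x))) = 0
      rw [hTT']
      exact hGz

end Pool.Agent.TG
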