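import Pool.Agent.TG.SmC

/-!
# TG SmE: finiteness and periodicity of the meromorphic sections

If `Sec` is finite modulo equality off `D`, the meromorphic sections are finite modulo `SameMap` and `M Λ`-periodic for some `M ≥ 1`.
-/

set_option autoImplicit false

open Topology Filter Metric

namespace Pool.Agent.TG

open Pool.Agent.H36.BP (EN fs wd)
open Pool.Agent.H14.PP (IsCone)
open Pool.Agent.H62.EF (MN pr pr_smul pr_eq_iff continuousAt_pr isCompact_pr nm_close)
open Pool.Agent.AD (Vd)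

variable {N k : ℕ} {X : Set (EN N)} {Λ : AddSubgroup (Vd (k + 1))} {u : EN N → Vd (k + 1)} {D : Set (Vd (k + 1))}

theorem freq_freq {E : Type*} [TopologicalSpace E] {y : E} {R : E → Prop} (h : ∃ᶠ z in 𝓝 y, ∃ᶠ w in 𝓝 z, R w) : ∃ᶠ w in 𝓝 y, R w := by
  intro hc
  refine h (hc.eventually_nhds.mono fun z hz hz' => hz' hz)

theorem eq_zero_of_freq {E : Type*} [TopologicalSpace E] {f : E → ℂ} {y : E} (hf : ContinuousAt f y) (h : ∃ᶠ z in 𝓝 y, f z = 0) : f y = 0 := by
  have hm : f y ∈ closure ({0} : Set ℂ) := by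
    rw [mem_closure_iff_frequently]
    exact hf.tendsto.frequently h
  rwa [closure_singleton, Set.mem_singleton_iff] at hm

theorem SameMap.refl (F : Vd (k + 1) → EN N) : SameMap F F := fun _ _ _ => mul_comm _ _

theorem SameMap.symm {F G : Vd (k + 1) → EN N} (h : SameMap F G) : SameMap G F := by
  intro y i j
  have := h y i j
  rw [mul_comm (F y i), mul_comm (F y j)] at this
  rw [this]

/-- proportional vectors -/
theorem cross_iff {x y : EN N} (hx : x ≠ 0) (hy : y ≠ 0) : (∀ i j, x i * y j = x j * y i) ↔ pr x = pr y := by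
  rw [pr_eq_iff hx hy]
  constructor
  · intro h
    obtain ⟨j, hj⟩ : ∃ j, y j ≠ 0 := by
      by_contra hcon
      push Not at hcon
      exact hy (by ext i; exact hcon i)
    have h1 : x = (x j / y j) • y := by
      ext i
      have := h i j
      rw [PiLp.smul_apply, smul_eq_mul, div_mul_eq_mul_div, eq_div_iff hj]
      exact this
    refine ⟨x j / y j, fun h0 => hx ?_, h1⟩
    rw [h1, h0, zero_smul]
  · rintro ⟨c, -, rfl⟩ i j
    simp only [PiLp.smul_apply, smul_eq_mul]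
    ring

theorem sameMap_of_freq {F G : Vd (k + 1) → EN N} (hF : ∀ y, AnalyticAt ℂ F y) (hG : ∀ y, AnalyticAt ℂ G y)
    (h : ∀ y, ∃ᶠ z in 𝓝 y, ∀ i j, F z i * G z j = F z j * G z i) : SameMap F G := by
  intro y i j
  have hc : ContinuousAt (fun z => F z i * G z j - F z j * G z i) y :=
    (((coord_an (hF y) i).continuousAt).mul ((coord_an (hG y) j).continuousAt)).sub (((coord_an (hF y) j).continuousAt).mul ((coord_an (hG y) i).continuousAt))
  have := eq_zero_of_freq hc ((h y).mono fun z hz => by rw [hz i j, sub_self])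
  exact sub_eq_zero.mp this

theorem SameMap.trans {F G H : Vd (k + 1) → EN N} (hF : Mer X Λ u F) (hG : Mer X Λ u G) (hH : Mer X Λ u H) (h1 : SameMap F G) (h2 : SameMap G H) :
    SameMap F H := by
  refine sameMap_of_freq hF.an hH.an fun y => ?_
  have hfr : ∃ᶠ z in 𝓝 y, F z ≠ 0 ∧ G z ≠ 0 ∧ H z ≠ 0 := by
    refine freq_freq ((hF.freq y).mono fun z hz => ?_)
    have hz' := (hF.an z).continuousAt.eventually_ne hz
    refine freq_freq (((hG.freq z).and_eventually hz'.eventually_nhds).mono fun w hw => ?_)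
    have hw' := (hG.an w).continuousAt.eventually_ne hw.1
    exact ((hH.freq w).and_eventually (hw'.and hw.2)).mono fun v hv => ⟨hv.2.2, hv.2.1, hv.1⟩
  refine hfr.mono fun z hz => ?_
  obtain ⟨hf, hg, hh⟩ := hz
  rw [cross_iff hf hh]
  rw [(cross_iff hf hg).mp (h1 z), (cross_iff hg hh).mp (h2 z)]

theorem SameMap.shift {F G : Vd (k + 1) → EN N} (h : SameMap F G) (l : Vd (k + 1)) : SameMap (fun y => F (y + l)) (fun y => G (y + l)) :=
  fun y => h (y + l)

theorem Mer.shift {F : Vd (k + 1) → EN N} (hF : Mer X Λ u F) {l : Vd (k + 1)} (hl : l ∈ Λ) : Mer X Λ u fun y => F (y + l) where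
  an := fun y => by
    refine AnalyticAt.fun_comp (hF.an _) ?_
    exact analyticAt_id.add analyticAt_const
  ne := by
    obtain ⟨y, hy⟩ := hF.ne
    exact ⟨y - l, by rwa [sub_add_cancel]⟩
  mem := fun y hy => by
    obtain ⟨h1, h2⟩ := hF.mem _ hy
    refine ⟨h1, ?_⟩
    have e : u (F (y + l)) - y = (u (F (y + l)) - (y + l)) + l := by abel
    rw [e]
    exact Λ.add_mem h2 hl

/-- `Sec` is finite modulo equality off `D` -/
def FinSec (X : Set (EN N)) (Λ : AddSubgroup (Vd (k + 1))) (u : EN N → Vd (k + 1)) (D : Set (Vd (k + 1))) : Prop :=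
  ∃ T : Set (Vd (k + 1) → MN N), T.Finite ∧ ∀ f ∈ Sec X Λ u D, ∃ g ∈ T, ∀ y ∉ D, f y = g y

/-- `D` contains no ball -/
def DThin (D : Set (Vd (k + 1))) : Prop :=
  ∀ y : Vd (k + 1), ∃ h : Vd (k + 1) → ℂ, AnalyticAt ℂ h y ∧ (∀ᶠ z in 𝓝 y, z ∈ D → h z = 0) ∧ ¬ ∀ᶠ z in 𝓝 y, h z = 0

theorem DThin.freq (h : DThin D) (y : Vd (k + 1)) : ∃ᶠ z in 𝓝 y, z ∉ D := by
  obtain ⟨h, h1, h2, h3⟩ := h y
  exact ((Filter.not_eventually.mp h3).and_eventually h2).mono fun z hz hzD => hz.1 (hz.2 hzD)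

theorem same_of_sec (hDc : IsClosed D) (hD : DThin D) {F G : Vd (k + 1) → EN N} (hF : Mer X Λ u F) (hG : Mer X Λ u G) {f g : Vd (k + 1) → MN N}
    (hf : ∀ y ∉ D, F y ≠ 0 → f y = pr (F y)) (hg : ∀ y ∉ D, G y ≠ 0 → g y = pr (G y)) (hfg : ∀ y ∉ D, f y = g y) : SameMap F G := by
  refine sameMap_of_freq hF.an hG.an fun y => ?_
  have hfr : ∃ᶠ z in 𝓝 y, z ∉ D ∧ F z ≠ 0 ∧ G z ≠ 0 := by
    refine freq_freq ((hD.freq y).mono fun z hz => ?_)
    have hz' : ∀ᶠ w in 𝓝 z, w ∉ D := hDc.isOpen_compl.mem_nhds hz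
    refine freq_freq (((hF.freq z).and_eventually hz'.eventually_nhds).mono fun w hw => ?_)
    have hw' := (hF.an w).continuousAt.eventually_ne hw.1
    exact ((hG.freq w).and_eventually (hw'.and hw.2)).mono fun v hv => ⟨hv.2.2, hv.2.1, hv.1⟩
  refine hfr.mono fun z hz => ?_
  obtain ⟨h1, h2, h3⟩ := hz
  rw [cross_iff h2 h3, ← hf z h1 h2, ← hg z h1 h3]
  exact hfg z h1

/-- the meromorphic sections are finite in number -/
theorem mer_finite (hX : IsCone X) (ht : TMap X Λ u) (hl : Lat Λ) (hDc : IsClosed D) (hD : DThin D) (hlip : ∀ y ∉ D, CLip X Λ u y)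
    (hfin : FinSec X Λ u D) :
    ∃ T : Set (Vd (k + 1) → EN N), T.Finite ∧ (∀ F ∈ T, Mer X Λ u F) ∧ ∀ F, Mer X Λ u F → ∃ G ∈ T, SameMap F G := by
  classical
  obtain ⟨T₀, hT₀, hT₀s⟩ := hfin
  let P : (Vd (k + 1) → MN N) → (Vd (k + 1) → EN N) → Prop := fun g F => Mer X Λ u F ∧ ∃ f : Vd (k + 1) → MN N,
    (∀ y ∉ D, F y ≠ 0 → f y = pr (F y)) ∧ ∀ y ∉ D, f y = g y
  have hch : ∀ g : Vd (k + 1) → MN N, ∃ F : Vd (k + 1) → EN N, (∃ F, P g F) → P g F := by
    intro g
    by_cases h : ∃ F, P g F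
    · obtain ⟨F, hF⟩ := h
      exact ⟨F, fun _ => hF⟩
    · exact ⟨fun _ => 0, fun h' => absurd h' h⟩
  choose c hc using hch
  refine ⟨c '' {g | g ∈ T₀ ∧ ∃ F, P g F}, (hT₀.subset fun g hg => hg.1).image c, ?_, fun F hF => ?_⟩
  · rintro _ ⟨g, ⟨-, hg⟩, rfl⟩
    exact (hc g hg).1
  · obtain ⟨f, hf, hfF⟩ := mer_sec hX ht hl hDc hlip hF
    obtain ⟨g, hg, hfg⟩ := hT₀s f hf
    have hPg : ∃ F, P g F := ⟨F, hF, f, hfF, hfg⟩
    obtain ⟨h1, f', h2, h3⟩ := hc g hPg
    refine ⟨c g, ⟨g, ⟨hg, hPg⟩, rfl⟩, ?_⟩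
    exact same_of_sec hDc hD hF h1 hfF h2 fun y hy => (hfg y hy).trans (h3 y hy).symm

/-- the meromorphic sections are periodic -/
theorem mer_periodic {T : Set (Vd (k + 1) → EN N)} (hT : T.Finite) (hTm : ∀ F ∈ T, Mer X Λ u F) (hTs : ∀ F, Mer X Λ u F → ∃ G ∈ T, SameMap F G) :
    ∃ M : ℕ, 0 < M ∧ ∀ F, Mer X Λ u F → ∀ l ∈ Λ, SameMap F fun y => F (y + M • l) := by
  classical
  refine ⟨(hT.toFinset.card).factorial, Nat.factorial_pos _, fun F hF l hl => ?_⟩
  have hml : ∀ n : ℕ, n • l ∈ Λ := fun n => Λ.nsmul_mem hl n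
  have hmer : ∀ n : ℕ, Mer X Λ u fun y => F (y + n • l) := fun n => hF.shift (hml n)
  choose G hG1 hG2 using fun n : ℕ => hTs _ (hmer n)
  obtain ⟨a, ha, b, hb, hab, hGab⟩ : ∃ a ∈ Finset.range (hT.toFinset.card + 1), ∃ b ∈ Finset.range (hT.toFinset.card + 1), a ≠ b ∧ G a = G b := by
    refine Finset.exists_ne_map_eq_of_card_lt_of_maps_to (t := hT.toFinset) ?_ ?_
    · rw [Finset.card_range]
      exact Nat.lt_succ_self _
    · intro n _
      simpa using hG1 n
  rw [Finset.mem_range] at ha hb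
  have key : ∃ d : ℕ, 0 < d ∧ d ≤ hT.toFinset.card ∧ SameMap F fun y => F (y + d • l) := by
    have hgen : ∀ a b : ℕ, a < b → b < hT.toFinset.card + 1 → G a = G b →
        ∃ d : ℕ, 0 < d ∧ d ≤ hT.toFinset.card ∧ SameMap F fun y => F (y + d • l) := by
      intro a b hab hb he
      refine ⟨b - a, by omega, by omega, ?_⟩
      have h1 : SameMap (fun y => F (y + a • l)) (fun y => F (y + b • l)) :=
        SameMap.trans (hmer a) (hTm _ (hG1 a)) (hmer b) (hG2 a) (by rw [he]; exact (hG2 b).symm)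
      have h2 := h1.shift (-(a • l))
      have e1 : (fun y => F (y + -(a • l) + a • l)) = F := by
        funext y
        congr 1
        abel
      have e2 : (fun y => F (y + -(a • l) + b • l)) = fun y => F (y + (b - a) • l) := by
        funext y
        congr 1
        have e3 : b • l = (b - a) • l + a • l := by
          rw [← add_nsmul, Nat.sub_add_cancel hab.le]
        rw [e3]
        abel
      rw [e1, e2] at h2
      exact h2
    rcases lt_or_gt_of_ne hab with h | h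
    · exact hgen a b h hb hGab
    · exact hgen b a h ha hGab.symm
  obtain ⟨d, hd0, hdn, hd⟩ := key
  have hq : ∀ q : ℕ, SameMap F fun y => F (y + (q * d) • l) := by
    intro q
    induction q with
    | zero =>
      have : (fun y => F (y + (0 * d) • l)) = F := by
        funext y
        simp
      rw [this]
      exact SameMap.refl F
    | succ q ih =>
      have h1 := ih.shift (d • l)
      have e1 : (fun y => F (y + d • l + (q * d) • l)) = fun y => F (y + ((q + 1) * d) • l) := by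
        funext y
        congr 1
        rw [add_assoc, ← add_nsmul]
        congr 2
        ring
      rw [e1] at h1
      exact SameMap.trans hF (hmer d) (hmer _) hd h1
  obtain ⟨q, hq'⟩ := Nat.dvd_factorial hd0 hdn
  have := hq q
  rw [mul_comm q d, ← hq'] at this
  exact this

end Pool.Agent.TG
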