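import Pool.Agent.TG.XPd
import Pool.Agent.TG.DyF
import Pool.Agent.TG.Nr
import Pool.Agent.TG.Iz
import Pool.Agent.TG.SmE
import Pool.Agent.H62.EF.PrA

/-!
# TG Core: the sections are finitely many

The dynamical situation `Dyn` (Euclidean norm) from the geometric situation (sup norm), by the identity `EN k ≃L[ℂ] Vd (k + 1)`.
-/

set_option autoImplicit false

open Topology Filter Metric MeasureTheory

namespace Pool.Agent.TG

open Pool.Agent.H36.BP (EN fs wd)
open Pool.Agent.H14.PP (IsCone CurveAt Tan)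
open Pool.Agent.H62.EF (MN pr)
open Pool.Agent.AD (Vd Chart Charts IsGerm)

variable {N k : ℕ} {X : Set (EN N)} {Λ : AddSubgroup (Vd (k + 1))} {u : EN N → Vd (k + 1)} {D B : Set (Vd (k + 1))}

/-- the identity from the Euclidean space to the space with the sup norm -/
noncomputable def TE (k : ℕ) : EN k ≃L[ℂ] Vd (k + 1) := EuclideanSpace.equiv (Fin (k + 1)) ℂ

theorem TE_apply (z : EN k) : TE k z = fun i => z i := rfl

theorem TE_norm (z : EN k) : ‖TE k z‖ ≤ ‖z‖ := (pi_norm_le_iff_of_nonneg (norm_nonneg _)).2 fun i => PiLp.norm_apply_le z i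

theorem TE_dist (z w : EN k) : ‖TE k z - TE k w‖ ≤ ‖z - w‖ := by
  rw [← map_sub]
  exact TE_norm _

theorem exists_TE_symm_bound (k : ℕ) : ∃ C : ℝ, 0 < C ∧ ∀ y : Vd (k + 1), ‖(TE k).symm y‖ ≤ C * ‖y‖ := by
  refine ⟨‖((TE k).symm : Vd (k + 1) →L[ℂ] EN k)‖ + 1, by positivity, fun y => ?_⟩
  exact (((TE k).symm : Vd (k + 1) →L[ℂ] EN k).le_opNorm y).trans (mul_le_mul_of_nonneg_right (by linarith) (norm_nonneg _))

/-- the open set on which the conclusions hold -/
theorem interior_gd_add (G : Geo X Λ u D B) {Γ : AddSubgroup (Vd (k + 1))} (hle : Γ ≤ Λ) (d : ℝ) {y l : Vd (k + 1)} (hl : l ∈ Γ) :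
    y + l ∈ interior (Gd D d) ↔ y ∈ interior (Gd D d) := by
  have h1 : interior (Gd D d) = (fun y => y + l) ⁻¹' interior (Gd D d) := by
    have h2 : (fun y => y + l) ⁻¹' Gd D d = Gd D d := by
      ext y
      exact G.gd_add d (hle hl)
    have h3 : (fun y => y + l) ⁻¹' interior (Gd D d) = interior ((fun y => y + l) ⁻¹' Gd D d) :=
      (Homeomorph.addRight l).preimage_interior (Gd D d)
    rw [h3, h2]
  constructor
  · intro h
    rw [h1]
    exact h
  · intro h
    rw [h1] at h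
    exact h

/-- **the dynamical situation** -/
theorem dyn (G : Geo X Λ u D B) (h0 : (0 : Vd (k + 1)) ∉ D) {Γ : AddSubgroup (Vd (k + 1))} (hΓ : Lat Γ) (hle : Γ ≤ Λ) {α : VForm X Λ u}
    (hper : Per α Γ) (hvan : VanZero α) (hthin : Thin α) :
    ∃ (d d₂ ε : ℝ), 0 < d ∧ d ≤ d₂ ∧ Dyn (pr '' X) (Γ.comap ((TE k : EN k →L[ℂ] Vd (k + 1)) : EN k →+ Vd (k + 1))) (TE k ⁻¹' D) (TE k ⁻¹' Gd D d)
      (TE k ⁻¹' interior (Gd D d₂)) {h | (fun y => h ((TE k).symm y)) ∈ Sb X Λ u D} (fun z m => Zr α (TE k z) m)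
      (fun z m m' => II α ε (TE k z) m m' = 0) := by
  -- a point off `D`
  obtain ⟨δ, hδ, h0δ⟩ := G.exists_gd h0
  have hd₂ : 0 < δ / 2 := half_pos hδ
  obtain ⟨d₀, hd₀, hd₀₂, hhalf⟩ := half_zero G h0 hΓ hle hper hvan hd₂
  obtain ⟨ε, ε₀, -, -, hc⟩ := exists_cst G (δ := d₀) (η := 1) hd₀ one_pos
  obtain ⟨ε₁, r₂, hε₁, hr₂, hh⟩ := hhalf d₀ ε ε₀ le_rfl hc
  have hOG : interior (Gd D (δ / 2)) ⊆ Gd D d₀ := fun y hy => gd_mono hd₀₂ (interior_subset hy)
  have hsy : ∀ z : EN k, (TE k).symm (TE k z) = z := fun z => (TE k).symm_apply_apply z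
  have hys : ∀ y : Vd (k + 1), TE k ((TE k).symm y) = y := fun y => (TE k).apply_symm_apply y
  obtain ⟨C, hC, hCb⟩ := exists_TE_symm_bound k
  refine ⟨d₀, δ / 2, ε, hd₀, hd₀₂, ?_⟩
  refine
    { compact := Pool.Agent.H62.EF.isCompact_pr G.cone
      cpt := ?_
      D_closed := G.D_closed.preimage (TE k).continuous
      D_inv := fun z l hl => by
        show TE k (z + l) ∈ D ↔ TE k z ∈ D
        rw [map_add]
        exact G.D_sub (hle hl)
      G_closed := (gd_closed D d₀).preimage (TE k).continuous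
      G_inv := fun z l hl => by
        show TE k (z + l) ∈ Gd D d₀ ↔ TE k z ∈ Gd D d₀
        rw [map_add]
        exact G.gd_add d₀ (hle hl)
      G_D := fun z hz => gd_notMem hd₀ hz
      O_open := isOpen_interior.preimage (TE k).continuous
      O_inv := fun z l hl => by
        show TE k (z + l) ∈ interior (Gd D (δ / 2)) ↔ TE k z ∈ interior (Gd D (δ / 2))
        rw [map_add]
        exact interior_gd_add G hle _ hl
      O_sub := fun z hz => hOG hz
      O_ne := ?_
      mem := ?_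
      lip := ?_
      trans := ?_
      lim := ?_
      uniq := ?_
      Z_inv := fun z l hl m => by
        show Zr α (TE k (z + l)) m ↔ Zr α (TE k z) m
        rw [map_add]
        exact zr_per hle hper hl _ m
      Z_lim := ?_
      N_inv := fun z l hl m m' => by
        show II α ε (TE k (z + l)) m m' = 0 ↔ II α ε (TE k z) m m' = 0
        rw [map_add, II_per G.tor hle hper (l := TE k l) hl]
      half := ?_
      near := ?_
      iso := ?_ }
  · obtain ⟨R, hR, hRb⟩ := hΓ.cpt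
    refine ⟨C * R, by positivity, fun z => ?_⟩
    obtain ⟨l, hl, h1⟩ := hRb (TE k z)
    refine ⟨(TE k).symm l, ?_, ?_⟩
    · show TE k ((TE k).symm l) ∈ Γ
      rwa [hys]
    · have e : z - (TE k).symm l = (TE k).symm (TE k z - l) := by rw [map_sub, hsy]
      rw [e]
      exact (hCb _).trans (mul_le_mul_of_nonneg_left h1 hC.le)
  · refine ⟨(TE k).symm 0, ?_⟩
    show TE k ((TE k).symm 0) ∈ interior (Gd D (δ / 2))
    rw [hys, mem_interior_iff_mem_nhds]
    filter_upwards [closedBall_mem_nhds (0 : Vd (k + 1)) hd₂] with y hy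
    have h1 := gd_near h0δ (r := δ / 2) (w := y) (by rwa [← dist_eq_norm])
    have e : δ - δ / 2 = δ / 2 := by ring
    rwa [e] at h1
  · intro f hf z hz
    have h1 := sb_mem G hf (y := TE k z) hz
    simp only [hsy] at h1
    obtain ⟨x, hx, hxm, -⟩ := h1
    exact ⟨x, hx, hxm⟩
  · intro z hz
    obtain ⟨δ₁, hδ₁, hzδ⟩ := G.exists_gd (y := TE k z) hz
    obtain ⟨L, hL, hl⟩ := sb_lip G (half_pos hδ₁)
    refine ⟨L, δ₁ / 8, hL, by positivity, fun f hf w hw w' hw' => ?_⟩
    have h1 : ‖TE k w - TE k z‖ ≤ δ₁ / 8 := (TE_dist w z).trans (by rw [← dist_eq_norm]; exact (mem_ball.1 hw).le)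
    have h2 : ‖TE k w' - TE k z‖ ≤ δ₁ / 8 := (TE_dist w' z).trans (by rw [← dist_eq_norm]; exact (mem_ball.1 hw').le)
    have h3 : TE k w ∈ Gd D (δ₁ / 2) := gd_mono (by linarith) (gd_near hzδ h1)
    have h4 : TE k w' ∈ closedBall (TE k w) (δ₁ / 2 / 2) := by
      rw [mem_closedBall, dist_eq_norm]
      have e : TE k w' - TE k w = (TE k w' - TE k z) - (TE k w - TE k z) := by abel
      rw [e]
      refine (norm_sub_le _ _).trans ?_
      linarith
    have h5 := hl _ hf _ h3 _ h4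
    simp only [hsy] at h5
    exact h5.trans (mul_le_mul_of_nonneg_left (TE_dist w w') hL.le)
  · intro f hf l hl
    show (fun y => f ((TE k).symm y + l)) ∈ Sb X Λ u D
    have h1 := sb_trans G hf (hle hl)
    have e : (fun y => f ((TE k).symm (y + TE k l))) = fun y => f ((TE k).symm y + l) := by
      funext y
      rw [map_add, hsy]
    rw [← e]
    exact h1
  · intro 𝒰 F f hF hf
    refine sb_lim G 𝒰 (fun n y => F n ((TE k).symm y)) (fun y => f ((TE k).symm y)) hF fun y hy => ?_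
    exact hf _ (by show TE k ((TE k).symm y) ∉ D; rwa [hys])
  · intro f hf g hg z₀ hz₀ h
    have h1 : ∀ᶠ y in 𝓝 (TE k z₀), f ((TE k).symm y) = g ((TE k).symm y) := by
      have h2 : Tendsto (TE k).symm (𝓝 (TE k z₀)) (𝓝 z₀) := by
        have := (TE k).symm.continuous.tendsto (TE k z₀)
        rwa [hsy] at this
      exact h2.eventually h
    have h2 := sb_uniq G hf hg hz₀ h1
    intro z hz
    have h3 := h2 (TE k z) hz
    simp only [hsy] at h3
    exact h3
  · intro 𝒰 F f hf hF hFf z hz h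
    have hzD : TE k z ∉ D := gd_notMem hd₀ (hOG hz)
    exact zr_lim G (l := (𝒰 : Filter ℕ)) (y := fun _ => TE k z) (m := fun n => F n z) hzD tendsto_const_nhds (hFf z hzD) h
  · refine ⟨r₂, ε₁, hr₂, hε₁, fun f hf g hg ζ t hζ hcl z hz hzt => ?_⟩
    have h1 := hh _ hf _ hg ζ t hζ (fun x hx hxt => ?_) (TE k z) (interior_subset hz) (by rw [TE_apply, iw_eq]; exact hzt)
    · simp only [hsy] at h1
      exact h1
    · refine hcl ((TE k).symm x) ?_ ?_
      · show TE k ((TE k).symm x) ∈ Gd D d₀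
        rwa [hys]
      · rw [← iw_eq, ← TE_apply, hys]
        exact hxt
  · intro 𝒰 F H w f hf z hz hFH hF hH hw h
    have hzG : TE k z ∈ Gd D d₀ := hOG hz
    have hzD : TE k z ∉ D := gd_notMem hd₀ hzG
    have hw' : Tendsto (fun n => TE k (w n)) 𝒰 (𝓝 (TE k z)) := ((TE k).continuous.tendsto z).comp hw
    have hoff : ∀ y : Vd (k + 1), y ∉ D → TE k ((TE k).symm y) ∉ D := fun y hy => by rwa [hys]
    have h1 := sb_along G 𝒰 (fun n y => F n ((TE k).symm y)) (f := fun y => f ((TE k).symm y)) (hFH.mono fun n hn => hn.1) (fun y hy => hF _ (hoff y hy)) hzD hw'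
    have h2 := sb_along G 𝒰 (fun n y => H n ((TE k).symm y)) (f := fun y => f ((TE k).symm y)) (hFH.mono fun n hn => hn.2) (fun y hy => hH _ (hoff y hy)) hzD hw'
    simp only [hsy] at h1 h2
    refine near_zr G hc (l := (𝒰 : Filter ℕ)) hzG hw' h1 h2 ?_
    filter_upwards [h, hFH] with n hn hn2
    have hnG : TE k (w n) ∈ Gd D d₀ := hOG hn.1
    have hnD : TE k (w n) ∉ D := gd_notMem hd₀ hnG
    have h3 := sb_mem G hn2.1 hnD
    have h4 := sb_mem G hn2.2 hnD
    simp only [hsy] at h3 h4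
    exact ⟨hnG, h3, h4, hn.2.1, hn.2.2⟩
  · intro e he _
    -- a point of `O`
    have h1 : (0 : Vd (k + 1)) ∈ interior (Gd D (δ / 2)) := by
      rw [mem_interior_iff_mem_nhds]
      filter_upwards [closedBall_mem_nhds (0 : Vd (k + 1)) hd₂] with y hy
      have h1 := gd_near h0δ (r := δ / 2) (w := y) (by rwa [← dist_eq_norm])
      have e : δ - δ / 2 = δ / 2 := by ring
      rwa [e] at h1
    obtain ⟨φ, hφ, hφX⟩ := sb_lift G he h0
    have h2 : ∀ᶠ y in 𝓝 (0 : Vd (k + 1)), y ∈ interior (Gd D (δ / 2)) ∧ pr (φ y) = e ((TE k).symm y) :=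
      Filter.Eventually.and (isOpen_interior.mem_nhds h1) (hφX.mono fun y hy => hy.2.2)
    obtain ⟨O₁, hO₁, hO₁o, h0O⟩ := _root_.eventually_nhds_iff.1 h2
    obtain ⟨y₀, r', ε', hr', hε', hball, hiso⟩ := iso_zr G hthin hc hO₁o (fun y hy => hOG (hO₁ y hy).1) h0O hφ (hφX.mono fun y hy => ⟨hy.1, hy.2.1⟩)
    refine ⟨(TE k).symm y₀, r', ε', hr', hε', ?_, fun g hg z hz hd hor => ?_⟩
    · intro z hz
      refine (hO₁ _ (hball ?_)).1
      rw [mem_ball, dist_eq_norm] at hz ⊢
      refine lt_of_le_of_lt ?_ hz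
      have := TE_dist z ((TE k).symm y₀)
      rwa [hys] at this
    · have hzb : TE k z ∈ ball y₀ r' := by
        rw [mem_ball, dist_eq_norm] at hz ⊢
        refine lt_of_le_of_lt ?_ hz
        have := TE_dist z ((TE k).symm y₀)
        rwa [hys] at this
      have hzO := hO₁ _ (hball hzb)
      have hzD : TE k z ∉ D := gd_notMem hd₀ (hOG hzO.1)
      have hpe : pr (φ (TE k z)) = e z := by rw [hzO.2, hsy]
      have hgz := sb_mem G hg hzD
      simp only [hsy] at hgz
      rw [← hpe]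
      exact hiso _ hzb _ hgz (by rwa [hpe]) (by rw [hpe]; exact hor)

/-- **The sections are finitely many**, modulo equality off `D`. -/
theorem finSec (G : Geo X Λ u D B) (h0 : (0 : Vd (k + 1)) ∉ D) {Γ : AddSubgroup (Vd (k + 1))} (hΓ : Lat Γ) (hle : Γ ≤ Λ) {α : VForm X Λ u}
    (hper : Per α Γ) (hvan : VanZero α) (hthin : Thin α) : FinSec X Λ u D := by
  obtain ⟨d, d₂, ε, -, -, hD⟩ := dyn G h0 hΓ hle hper hvan hthin
  obtain ⟨𝓕, hfin, -, h𝓕⟩ := hD.finite
  refine ⟨(fun h : EN k → MN N => fun y => h ((TE k).symm y)) '' 𝓕, hfin.image _, fun f hf => ?_⟩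
  have h1 : (fun z => f (TE k z)) ∈ {h : EN k → MN N | (fun y => h ((TE k).symm y)) ∈ Sb X Λ u D} := by
    show (fun y => f (TE k ((TE k).symm y))) ∈ Sb X Λ u D
    simp only [ContinuousLinearEquiv.apply_symm_apply]
    exact sec_sb hf
  obtain ⟨g, hg, hfg⟩ := h𝓕 _ h1
  refine ⟨_, ⟨g, hg, rfl⟩, fun y hy => ?_⟩
  have h2 := hfg ((TE k).symm y) (by show TE k ((TE k).symm y) ∉ D; rwa [(TE k).apply_symm_apply])
  simp only [ContinuousLinearEquiv.apply_symm_apply] at h2
  exact h2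

end Pool.Agent.TG
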