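import Pool.Agent.TG.Y.YCap
import Pool.Agent.TG.Y.NcY
import Pool.Agent.TG.Y.LnE
import Pool.Agent.TG.Y.Cr
import Pool.Agent.TG.Lf
import Pool.Agent.TG.Y.NcA

/-!
# TG Cross: crossing `D`

`κ, c, Γ₀, s` from `exists_ln`; `T, s', η` from `Pool.Agent.TGY.exists_tube` for `Y = Yl X Λ u p e s`, `w = wl`, `b = 0` (`Ln.isCone`, `Ln.torusMap`, `L.lat₀`, `Ln.isNC`).  `s₀ = min s s'`.  Let `r₁ < r₂ < s₀`, `r` from `Ln.ycap`, `ε₁ = r / 3`.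
For `f ∈ Sec`: `sec_line` with `y = p`, `R = s` (all points `p + z • e`, `0 < ‖z‖ ≤ s`, are off `D`) gives `F` on `ball 0 t` with `r₂ < t < s₀`: `Pool.Agent.TGY.SecOn Y Γ₀ wl 0 t F` (`wl (F z) = z` by `Ln.wl_eq`), `pr (F z) = f (p + z • e)` for `z ≠ 0`.  Same for `g`: `G`.
`crossing_on` (`TG/Y/Cr`) for the form `L.form α`: `hcap` from `Ln.ycap` (`wl (F z₀) = z₀`; `EL.Cap` is monotone in `r`: `3 ε ≤ r`), `hrel` from `Ln.irel_bridge`.  It gives `J'` holomorphic on `ball 0 r₂` with `J' z = EL.II (L.form α) ε z (pr (F z)) (pr (G z))` on the annulus; the latter is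
`- dt κ e c z * II α ε (p + z • e) (f ..) (g ..)`: `II` satisfies `IRel` (`Exists.choose_spec`), `irel_bridge`, and `EL.II_eq`, `EL.IRel.eq_cap` (uniqueness, chart from `ycap`, `EL.exists_prim`).  `J z = - J' z / dt κ e c z` (`L.dt_ne`; `dt κ e c` is differentiable on `ball 0 s`: `L.κ_an`, `L.c_an`).
-/

set_option autoImplicit false

open Topology Filter Metric

namespace Pool.Agent.TG

open Pool.Agent.H36.BP (EN fs wd)
open Pool.Agent.H14.PP (IsCone CurveAt Tan)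
open Pool.Agent.H62.EF (MN pr)
open Pool.Agent.AD (Vd Chart Charts IsGerm)

variable {N k : ℕ}


variable {X : Set (EN N)} {Λ : AddSubgroup (Vd (k + 1))} {u : EN N → Vd (k + 1)} {D B : Set (Vd (k + 1))}
  {κ : Vd (k + 1) → Vd (k + 1)} {p e : Vd (k + 1)} {c : ℂ → Vd (k + 1)} {Γ₀ : AddSubgroup ℂ} {s : ℝ}

/-- the lift of a section over the line is a section of the slab -/
private theorem cross_lift (L : Ln X Λ u D κ p e c Γ₀ s) (hD : IsClosed D) {f : Vd (k + 1) → MN N} (hf : f ∈ Sec X Λ u D) {R t : ℝ} (hR : R ≤ s) (ht : t < R) :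
    ∃ F : ℂ → EN N, Pool.Agent.TGY.SecOn (Yl X Λ u p e s) Γ₀ (wl Λ u p e s) 0 t F ∧ (∀ z : ℂ, ‖z‖ < t → wl Λ u p e s (F z) = z) ∧
      ∀ z : ℂ, z ≠ 0 → ‖z‖ < t → pr (F z) = f (p + z • e) := by
  have hiso : ∀ z ∈ ball (0 : ℂ) R, ∀ᶠ w in 𝓝[≠] z, p + w • e ∉ D := by
    intro z hz
    have hzR : ‖z‖ < R := mem_ball_zero_iff.1 hz
    have h1 : ∀ᶠ w in 𝓝 z, ‖w‖ < R := continuous_norm.continuousAt.eventually (gt_mem_nhds hzR)
    by_cases h0 : z = 0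
    · subst h0
      filter_upwards [nhdsWithin_le_nhds h1, self_mem_nhdsWithin] with w hw hne
      exact L.off w hne (hw.le.trans hR)
    · have h2 : ∀ᶠ w in 𝓝 z, w ≠ 0 := eventually_ne_nhds h0
      filter_upwards [nhdsWithin_le_nhds h1, nhdsWithin_le_nhds h2] with w hw hne
      exact L.off w hne (hw.le.trans hR)
  obtain ⟨F, h1, h2, h3⟩ := sec_line L.cone L.tor hD hf (y := p) (e := e) hiso ht
  have hle : ∀ z : ℂ, ‖z‖ < t → ‖z‖ ≤ s := fun z hz => hz.le.trans (ht.le.trans hR)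
  refine ⟨F, ⟨h1, fun z hz => ?_, fun z hz => ?_⟩, fun z hz => ?_, fun z h0 hz => ?_⟩
  · have hz' := mem_ball_zero_iff.1 hz
    exact ⟨(h2 z hz).1, z, hle z hz', (h2 z hz).2⟩
  · have hz' := mem_ball_zero_iff.1 hz
    rw [L.wl_eq (hle z hz') (h2 z hz).2, sub_self]
    exact Γ₀.zero_mem
  · exact L.wl_eq (hle z hz) (h2 z (mem_ball_zero_iff.2 hz)).2
  · exact h3 z (mem_ball_zero_iff.2 hz) (L.off z h0 (hle z hz))

theorem crossing (G : Geo X Λ u D B) (hp : p ∈ D) (hpB : p ∉ B) (ht : TransAt D p e) :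
    ∃ s₀ : ℝ, 0 < s₀ ∧ (∀ z : ℂ, z ≠ 0 → ‖z‖ < s₀ → p + z • e ∉ D) ∧ ∀ r₁ r₂ : ℝ, 0 < r₁ → r₁ < r₂ → r₂ < s₀ →
      ∃ ε₁ : ℝ, 0 < ε₁ ∧ ∀ ε : ℝ, 0 < ε → ε ≤ ε₁ → ∀ α : VForm X Λ u, ∀ f ∈ Sec X Λ u D, ∀ g ∈ Sec X Λ u D,
        (∀ z : ℂ, r₁ ≤ ‖z‖ → ‖z‖ ≤ r₂ → ∃ v, IRel α ε (p + z • e) (f (p + z • e)) (g (p + z • e)) v) →
        ∃ J : ℂ → ℂ, DifferentiableOn ℂ J (ball 0 r₂) ∧
          ∀ z : ℂ, r₁ < ‖z‖ → ‖z‖ < r₂ → J z = II α ε (p + z • e) (f (p + z • e)) (g (p + z • e)) := by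
  obtain ⟨κ, c, Γ₀, s, L⟩ := exists_ln G hp hpB ht
  obtain ⟨T, s', η, hT⟩ := Pool.Agent.TGY.exists_tube L.isCone L.torusMap L.lat₀ (b := 0) (fun x hx h => L.isNC x hx h)
  refine ⟨min s s', lt_min L.pos hT.geo.pos, fun z hz hzs => L.off z hz (hzs.le.trans (min_le_left _ _)), fun r₁ r₂ hr₁ hr hr₂ => ?_⟩
  have hr₂s : r₂ < s := hr₂.trans_le (min_le_left _ _)
  have hr₂s' : r₂ < s' := hr₂.trans_le (min_le_right _ _)
  obtain ⟨r, hr0, hcap⟩ := L.ycap hT.geo hr₁ hr₂s hr₂s'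
  refine ⟨r / 3, by positivity, fun ε hε hεr α f hf g hg hrel => ?_⟩
  have h3ε : 3 * ε ≤ r := by linarith
  set t : ℝ := (r₂ + min s s') / 2 with htd
  have ht1 : r₂ < t := by rw [htd]; linarith
  have ht2 : t < min s s' := by rw [htd]; linarith
  obtain ⟨F, hF1, hF2, hF3⟩ := cross_lift L G.D_closed hf (min_le_left s s') ht2
  obtain ⟨H, hH1, hH2, hH3⟩ := cross_lift L G.D_closed hg (min_le_left s s') ht2
  have hne : ∀ z : ℂ, r₁ < ‖z‖ → z ≠ 0 := by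
    rintro z hz rfl
    rw [norm_zero] at hz
    linarith
  have hcapF : ∀ z₀ : ℂ, r₁ < ‖z₀‖ → ‖z₀‖ < r₂ → ∃ (χ : Pool.Agent.H14.PP.Chart (Yl X Λ u p e s)) (c' : ℂ) (ρ : ℝ) (k' : Fin T.m),
      Pool.Agent.H62.EL.Cap Γ₀ (wl Λ u p e s) χ c' ρ z₀ (pr (F z₀)) (3 * ε) ∧ ∀ y ∈ ball (0 : ℂ × ℂ) 2, χ.σ y ∈ T.W k' := by
    intro z₀ h1 h2
    have hw := hF2 z₀ (h2.trans ht1)
    obtain ⟨χ, c', ρ, k', hc, hW⟩ := hcap (F z₀) (hF1.2.1 z₀ (mem_ball_zero_iff.2 (h2.trans ht1))) (by rw [hw]; exact h1.le) (by rw [hw]; exact h2.le)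
    rw [hw] at hc
    refine ⟨χ, c', ρ, k', ⟨hc.mon, fun z hz x hx hxz hd => ?_⟩, hW⟩
    exact hc.cap z (closedBall_subset_closedBall h3ε hz) x hx hxz (hd.trans h3ε)
  have hrelY : ∀ z₀ : ℂ, r₁ < ‖z₀‖ → ‖z₀‖ < r₂ → Pool.Agent.H62.EL.IRel (L.form α) ε z₀ (pr (F z₀)) (pr (H z₀))
      (-dt κ e c z₀ * II α ε (p + z₀ • e) (f (p + z₀ • e)) (g (p + z₀ • e))) := by
    intro z₀ h1 h2
    rw [hF3 z₀ (hne z₀ h1) (h2.trans ht1), hH3 z₀ (hne z₀ h1) (h2.trans ht1)]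
    refine L.irel_bridge (h2.trans hr₂s) ?_
    have h4 := hrel z₀ h1.le h2.le
    have h5 : II α ε (p + z₀ • e) (f (p + z₀ • e)) (g (p + z₀ • e)) = h4.choose := by
      unfold II
      rw [dif_pos h4]
    rw [h5]
    exact h4.choose_spec
  obtain ⟨J', hJ'1, hJ'2⟩ := Pool.Agent.TGY.crossing_on (b := 0) L.isCone L.torusMap L.lat₀ hT (α := L.form α) hr₁ hr ht1
    (ht2.le.trans (min_le_right _ _)) hε hF1 hH1
    (fun z₀ h1 h2 => by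
      rw [sub_zero] at h1 h2
      exact hcapF z₀ h1 h2)
    (fun z₀ h1 h2 => by
      rw [sub_zero] at h1 h2
      exact ⟨_, hrelY z₀ h1 h2⟩)
  refine ⟨fun z => -(J' z / dt κ e c z), ?_, fun z h1 h2 => ?_⟩
  · intro z hz
    have hzs : z ∈ closedBall (0 : ℂ) s := by
      rw [mem_closedBall_zero_iff]
      exact (mem_ball_zero_iff.1 hz).le.trans hr₂s.le
    exact ((hJ'1 z hz).div (L.dt_an hzs).differentiableAt.differentiableWithinAt (L.dt_ne z hzs)).neg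
  · have hzs : z ∈ closedBall (0 : ℂ) s := by
      rw [mem_closedBall_zero_iff]
      exact h2.le.trans hr₂s.le
    have h3 := hJ'2 z (by rwa [sub_zero]) (by rwa [sub_zero])
    obtain ⟨χ, c', ρ, k', hc, -⟩ := hcapF z h1 h2
    obtain ⟨A, hA⟩ := Pool.Agent.H62.EL.exists_prim (L.form α) χ hc.mon
    have hv := hrelY z h1 h2
    have hFz := hF1.2.1 z (mem_ball_zero_iff.2 (h2.trans ht1))
    have hHz := hH1.2.1 z (mem_ball_zero_iff.2 (h2.trans ht1))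
    have hzc : z ∈ closedBall z (3 * ε) := mem_closedBall_self (by linarith)
    have hd0 : dist (pr (F z)) (pr (F z)) + ε ≤ 3 * ε := by
      rw [dist_self]
      linarith
    have e1 := Pool.Agent.H62.EL.IRel.eq_cap L.isCone L.torusMap L.lat₀ hv hc hA hzc hd0 hFz hHz rfl rfl
    have e2 := Pool.Agent.H62.EL.II_eq L.isCone L.torusMap L.lat₀ ⟨_, hv⟩ hc hA hzc hd0 hFz hHz rfl rfl
    have hdt := L.dt_ne z hzs
    show -(J' z / dt κ e c z) = _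
    rw [h3, e2, ← e1]
    field_simp

end Pool.Agent.TG
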