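import Pool.Agent.TG.DyL

/-!
# TG DyB: the members of `S` inside `Zr` are uniformly separated

By contradiction: for every `n` there are `e_n`, `g_n` in `ZS`, not in agreement, and `a_n` with `dist (e_n z) (g_n z) ≤ 1/(n+1)` for
`z ∈ G`, `‖z - a_n‖ ≤ n`.  Choose `l_n ∈ Λ`, `‖a_n - l_n‖ ≤ R` (lattice) and translate: `e'_n = e_n (· + l_n)`, `g'_n`; they are in
`ZS` (`zs_trans`: `trans`, `Z_inv`, `gd_add`), and `1/(n+1)`-close at the points of `G` with `‖z‖ ≤ n - R`.  Let `𝒰` be an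
ultrafilter `≤ atTop` and `e ∈ S` the limit of `e'_n` (`exists_lim`); `e ∈ ZS` by `Z_lim`; `g'_n` has the same limit.  Let `z₀, r, ε` be
from `iso e`.  By `unif` (`ball z₀ (r/2)` is bounded and inside `Gd D (2δ)`), eventually `dist (e'_n z) (e z) < ε` and
`dist (g'_n z) (e z) < ε` on `ball z₀ (r/2)`, so `e'_n z = e z = g'_n z` there (`iso`, second alternative; `e'_n, g'_n ∈ ZS`).  By `uniq`
(`z₀ ∉ D`) `Ag D e'_n g'_n`, so `Ag D e_n g_n` (translate back): contradiction.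
-/

set_option autoImplicit false
set_option linter.unusedSectionVars false

open Topology Filter Metric RealInnerProductSpace

namespace Pool.Agent.TG


variable {E : Type} [NormedAddCommGroup E] [InnerProductSpace ℝ E] [ProperSpace E]
variable {Y : Type} [MetricSpace Y] {K : Set Y} {Λ : AddSubgroup E} {D G O : Set E} {S : Set (E → Y)}
  {Zr : E → Y → Prop} {N : E → Y → Y → Prop}

theorem DynE.sep (h : DynE K Λ D G O S Zr N) : ∃ ε₁ n₁ : ℝ, 0 < ε₁ ∧ 0 < n₁ ∧ ∀ e ∈ ZS O S Zr, ∀ g ∈ ZS O S Zr, ∀ a : E,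
    (∀ z ∈ G, ‖z - a‖ ≤ n₁ → dist (e z) (g z) ≤ ε₁) → Ag D e g := by
  by_contra hcon
  have hcon' : ∀ n : ℕ, ∃ e ∈ ZS O S Zr, ∃ g ∈ ZS O S Zr, ∃ a : E,
      (∀ z ∈ G, ‖z - a‖ ≤ (n : ℝ) + 1 → dist (e z) (g z) ≤ 1 / ((n : ℝ) + 1)) ∧ ¬ Ag D e g := by
    intro n
    by_contra h1
    apply hcon
    refine ⟨1 / ((n : ℝ) + 1), (n : ℝ) + 1, by positivity, by positivity, ?_⟩
    intro e he g hg a h2
    by_contra h3
    exact h1 ⟨e, he, g, hg, a, h2, h3⟩
  choose e he g hg a hclose hne using hcon'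
  obtain ⟨R, hR, hlat⟩ := h.cpt
  choose l hl hla using fun n => hlat (a n)
  obtain ⟨𝒰, h𝒰⟩ : ∃ 𝒰 : Ultrafilter ℕ, (𝒰 : Filter ℕ) ≤ atTop := ⟨Ultrafilter.of atTop, Ultrafilter.of_le _⟩
  have he' : ∀ n, (fun z => e n (z + l n)) ∈ ZS O S Zr := fun n => h.zs_trans (he n) (hl n)
  have hg' : ∀ n, (fun z => g n (z + l n)) ∈ ZS O S Zr := fun n => h.zs_trans (hg n) (hl n)
  have hclose' : ∀ n : ℕ, ∀ z ∈ G, ‖z‖ + R ≤ (n : ℝ) + 1 →
      dist (e n (z + l n)) (g n (z + l n)) ≤ 1 / ((n : ℝ) + 1) := by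
    intro n z hz hzn
    refine hclose n (z + l n) ((h.g_add (hl n)).2 hz) ?_
    have h1 : z + l n - a n = z - (a n - l n) := by abel
    rw [h1]
    exact (norm_sub_le _ _).trans (by linarith [hla n])
  obtain ⟨f, hfS, hf⟩ := h.exists_lim 𝒰 (fun n z => e n (z + l n)) (Filter.Eventually.of_forall fun n => (he' n).1)
  obtain ⟨f₂, hf₂S, hf₂⟩ := h.exists_lim 𝒰 (fun n z => g n (z + l n)) (Filter.Eventually.of_forall fun n => (hg' n).1)
  have hfZ : f ∈ ZS O S Zr := h.zs_lim 𝒰 (fun n z => e n (z + l n)) (Filter.Eventually.of_forall he') hf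
  -- the two limits agree
  have heq : ∀ z ∈ G, f z = f₂ z := by
    intro z hz
    have hzB : z ∉ D := h.G_D z hz
    have h1 : Tendsto (fun n : ℕ => dist (e n (z + l n)) (g n (z + l n))) 𝒰 (𝓝 0) := by
      have h2 : Tendsto (fun n : ℕ => 1 / ((n : ℝ) + 1)) 𝒰 (𝓝 0) :=
        tendsto_one_div_add_atTop_nhds_zero_nat.mono_left h𝒰
      refine tendsto_of_tendsto_of_tendsto_of_le_of_le' tendsto_const_nhds h2
        (Filter.Eventually.of_forall fun n => dist_nonneg) ?_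
      have h3 : ∀ᶠ n : ℕ in atTop, ‖z‖ + R ≤ (n : ℝ) + 1 := by
        filter_upwards [tendsto_natCast_atTop_atTop.eventually_ge_atTop (‖z‖ + R)] with n hn
        linarith
      filter_upwards [h𝒰 h3] with n hn
      exact hclose' n z hz hn
    exact tendsto_nhds_unique ((tendsto_iff_of_dist h1).1 (hf z hzB)) (hf₂ z hzB)
  obtain ⟨z₀, r, ε, hr, hε, hball, hiso⟩ := h.iso f hfS hfZ.2
  have hz₀ : z₀ ∈ ball z₀ r := mem_ball_self hr
  have hz₀B : z₀ ∉ D := h.o_notMem (hball hz₀)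
  have hAg : Ag D f f₂ := by
    refine h.uniq f hfS f₂ hf₂S z₀ hz₀B ?_
    filter_upwards [isOpen_ball.mem_nhds hz₀] with z hz
    exact heq z (h.O_sub (hball hz))
  have hf₂' : ∀ z, z ∉ D → Tendsto (fun n => g n (z + l n)) 𝒰 (𝓝 (f z)) := by
    intro z hz
    rw [hAg z hz]
    exact hf₂ z hz
  have hu1 := h.unif 𝒰 (fun n z => e n (z + l n)) (Filter.Eventually.of_forall fun n => (he' n).1) hfS hf
    (‖z₀‖ + r) ε hε
  have hu2 := h.unif 𝒰 (fun n z => g n (z + l n)) (Filter.Eventually.of_forall fun n => (hg' n).1) hfS hf₂'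
    (‖z₀‖ + r) ε hε
  obtain ⟨n, h1, h2⟩ := (hu1.and hu2).exists
  refine hne n ((h.ag_trans (hl n)).1 ?_)
  refine h.uniq _ (he' n).1 _ (hg' n).1 z₀ hz₀B ?_
  have h3 : ∀ᶠ z in 𝓝 z₀, e n (z + l n) = g n (z + l n) := by
    filter_upwards [isOpen_ball.mem_nhds hz₀] with z hz
    have hzn : ‖z‖ ≤ ‖z₀‖ + r := by
      rw [mem_ball, dist_eq_norm] at hz
      have h4 : z = z₀ + (z - z₀) := by abel
      calc ‖z‖ = ‖z₀ + (z - z₀)‖ := by rw [← h4]
        _ ≤ ‖z₀‖ + ‖z - z₀‖ := norm_add_le _ _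
        _ ≤ ‖z₀‖ + r := by linarith
    have h5 : e n (z + l n) = f z :=
      hiso _ (he' n).1 z hz (h1 z (h.O_sub (hball hz)) hzn) (Or.inr ((he' n).2 z (hball hz)))
    have h6 : g n (z + l n) = f z :=
      hiso _ (hg' n).1 z hz (h2 z (h.O_sub (hball hz)) hzn) (Or.inr ((hg' n).2 z (hball hz)))
    rw [h5, h6]
  exact h3

end Pool.Agent.TG
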