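import Pool.Agent.TG.DyC
import Pool.Agent.TG.DyD

/-!
# TG DyE: two members of `S` which are close on a half space agree

`chain`: a transitive relation which holds for pairs of points of a convex set of distance `≤ 1` holds for all pairs (subdivide).

`half_plane`: let `ε₁, n₁` be from `sep`, `ε₂, R₂` from `rigid`, `r', ε₀` from `half`; `ε' = min (min (ε₁/2) ε₂) ε₀`, `n₂ = n₁ + 1`;
`ε₃, R₃` from `near_zs ε' n₂`.  `ε* = min ε₃ ε₀`.  Let `f, g` be `ε*`-close on `G ∩ {⟪ζ, z⟫ ≤ t}` and suppose not `Ag D f g`.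
(1) `N z (f z) (g z)` for `z ∈ O`, `⟪ζ, z⟫ ≤ t - r'`.
(2) For every `a` in `H' = {⟪ζ, a⟫ ≤ t - r' - R₃}` there is `e_a ∈ ZS` with `f`, `g` `ε'`-close to `e_a` on `G ∩ closedBall a n₂`.
(3) for `a, a' ∈ H'`, `‖a - a'‖ ≤ 1`: `e_a`, `e_a'` are `2ε' ≤ ε₁`-close on `G ∩ closedBall a n₁`, so `Ag D e_a e_a'` (`sep`); by `chain` this
holds for all `a, a' ∈ H'`.  Fix `a₀ = (t - r' - R₃) ζ` and `e = e_{a₀}`.  So (take `a = z`) `f` and `g` are
`ε'`-close to `e` on `G ∩ H'`.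
(4) `half` for `(e, f)` and `(e, g)` on `H'`: `N z (e z) (f z)`, `N z (e z) (g z)` for `z ∈ O`, `⟪ζ, z⟫ ≤ t - 2r' - R₃`.
(5) `rigid` with `a = (t - 2r' - R₃ - R₂) ζ`: `Ag D e f` and `Ag D e g`.  So `Ag D f g`: contradiction.
-/

set_option autoImplicit false
set_option linter.unusedSectionVars false

open Topology Filter Metric RealInnerProductSpace

namespace Pool.Agent.TG


variable {E : Type} [NormedAddCommGroup E] [InnerProductSpace ℝ E] [ProperSpace E]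
variable {Y : Type} [MetricSpace Y] {K : Set Y} {Λ : AddSubgroup E} {D G O : Set E} {S : Set (E → Y)}
  {Zr : E → Y → Prop} {N : E → Y → Y → Prop}

theorem dyE_re {ζ : E} (hζ : ‖ζ‖ = 1) (z a : E) : ⟪ζ, z⟫ ≤ ⟪ζ, a⟫ + ‖z - a‖ := by
  have h1 : ⟪ζ, z⟫ = ⟪ζ, a⟫ + ⟪ζ, z - a⟫ := by
    rw [inner_sub_right]
    ring
  have h2 : ⟪ζ, z - a⟫ ≤ ‖z - a‖ := by
    refine (real_inner_le_norm _ _).trans ?_
    rw [hζ, one_mul]
  rw [h1]
  linarith

theorem dyE_mul {ζ : E} (hζ : ‖ζ‖ = 1) (s : ℝ) : ⟪ζ, s • ζ⟫ = s := by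
  rw [real_inner_smul_right, real_inner_self_eq_norm_sq, hζ]
  ring

theorem chain {H : Set E} (hH : Convex ℝ H) {r : E → E → Prop} (htr : ∀ a b c, r a b → r b c → r a c)
    (h1 : ∀ a ∈ H, ∀ b ∈ H, ‖a - b‖ ≤ 1 → r a b) {a b : E} (ha : a ∈ H) (hb : b ∈ H) : r a b := by
  obtain ⟨n, hn⟩ := exists_nat_ge ‖b - a‖
  have hn0 : (0 : ℝ) < (n : ℝ) + 1 := by positivity
  have hp : ∀ i : ℕ, i ≤ n + 1 → a + ((i : ℝ) / ((n : ℝ) + 1)) • (b - a) ∈ H := by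
    intro i hi
    have h2 : (i : ℝ) / ((n : ℝ) + 1) ≤ 1 := by
      rw [div_le_one hn0]
      exact_mod_cast hi
    have h3 : 0 ≤ (i : ℝ) / ((n : ℝ) + 1) := by positivity
    have h4 := hH ha hb (sub_nonneg.mpr h2) h3 (by ring)
    have h5 : a + ((i : ℝ) / ((n : ℝ) + 1)) • (b - a) =
        (1 - (i : ℝ) / ((n : ℝ) + 1)) • a + ((i : ℝ) / ((n : ℝ) + 1)) • b := by
      rw [smul_sub, sub_smul, one_smul]
      abel
    rw [h5]
    exact h4
  have key : ∀ i : ℕ, i ≤ n + 1 → r a (a + ((i : ℝ) / ((n : ℝ) + 1)) • (b - a)) := by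
    intro i
    induction i with
    | zero =>
      intro _
      have h2 : a + (((0 : ℕ) : ℝ) / ((n : ℝ) + 1)) • (b - a) = a := by simp
      rw [h2]
      refine h1 a ha a ha ?_
      rw [sub_self, norm_zero]
      exact zero_le_one
    | succ i ih =>
      intro hi
      refine htr _ _ _ (ih (by omega)) (h1 _ (hp i (by omega)) _ (hp (i + 1) hi) ?_)
      have h2 : a + ((i : ℝ) / ((n : ℝ) + 1)) • (b - a) - (a + (((i + 1 : ℕ) : ℝ) / ((n : ℝ) + 1)) • (b - a)) =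
          (-1 / ((n : ℝ) + 1)) • (b - a) := by
        rw [add_sub_add_left_eq_sub, ← sub_smul]
        congr 1
        push_cast
        ring
      rw [h2, norm_smul, Real.norm_eq_abs, abs_div, abs_neg, abs_one, abs_of_pos hn0,
        div_mul_eq_mul_div, one_mul, div_le_one hn0]
      linarith
  have h2 := key (n + 1) le_rfl
  have h3 : a + (((n + 1 : ℕ) : ℝ) / ((n : ℝ) + 1)) • (b - a) = b := by
    have h4 : (((n + 1 : ℕ) : ℝ) / ((n : ℝ) + 1)) = 1 := by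
      push_cast
      exact div_self hn0.ne'
    rw [h4, one_smul]
    abel
  rwa [h3] at h2

theorem DynE.half_plane (h : DynE K Λ D G O S Zr N) : ∃ ε : ℝ, 0 < ε ∧ ∀ f ∈ S, ∀ g ∈ S, ∀ (ζ : E) (t : ℝ), ‖ζ‖ = 1 →
    (∀ z ∈ G, ⟪ζ, z⟫ ≤ t → dist (f z) (g z) ≤ ε) → Ag D f g := by
  obtain ⟨ε₁, n₁, hε₁, hn₁, hsep⟩ := h.sep
  obtain ⟨ε₂, R₂, hε₂, hR₂, hrig⟩ := h.rigid
  obtain ⟨r', ε₀, hr', hε₀, hzero⟩ := h.half
  obtain ⟨ε', hε'def⟩ : ∃ ε' : ℝ, ε' = min (min (ε₁ / 2) ε₂) ε₀ := ⟨_, rfl⟩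
  have hε' : 0 < ε' := by
    rw [hε'def]
    exact lt_min (lt_min (by positivity) hε₂) hε₀
  have hε'1 : ε' ≤ ε₁ / 2 := by
    rw [hε'def]
    exact (min_le_left _ _).trans (min_le_left _ _)
  have hε'2 : ε' ≤ ε₂ := by
    rw [hε'def]
    exact (min_le_left _ _).trans (min_le_right _ _)
  have hε'0 : ε' ≤ ε₀ := by
    rw [hε'def]
    exact min_le_right _ _
  obtain ⟨ε₃, R₃, hε₃, hR₃, hnear⟩ := h.near_zs hε' (n₁ + 1)
  refine ⟨min ε₃ ε₀, lt_min hε₃ hε₀, ?_⟩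
  intro f hf g hg ζ t hζ hclose
  by_contra hag
  -- (1)
  have h1 : ∀ z ∈ O, ⟪ζ, z⟫ ≤ t - r' → N z (f z) (g z) :=
    hzero f hf g hg ζ t hζ (fun z hz hzt => (hclose z hz hzt).trans (min_le_right _ _))
  -- (2)
  have h2 : ∀ a : E, ⟪ζ, a⟫ ≤ t - r' - R₃ → ∃ e ∈ ZS O S Zr, ∀ z ∈ G,
      ‖z - a‖ ≤ n₁ + 1 → dist (f z) (e z) ≤ ε' ∧ dist (g z) (e z) ≤ ε' := by
    intro a ha
    refine hnear f hf g hg hag a ?_ ?_
    · intro z hz hza
      refine (hclose z hz ?_).trans (min_le_left _ _)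
      have := dyE_re hζ z a
      linarith
    · intro z hz hza
      refine h1 z hz ?_
      have := dyE_re hζ z a
      linarith
  have : Nonempty (E → Y) := ⟨f⟩
  choose! e heZ he using h2
  -- (3)
  have hconv : Convex ℝ {a : E | ⟪ζ, a⟫ ≤ t - r' - R₃} := by
    refine convex_halfSpace_le (f := fun a : E => ⟪ζ, a⟫) ?_ _
    refine IsLinearMap.mk (fun x y => ?_) (fun c x => ?_)
    · rw [inner_add_right]
    · rw [real_inner_smul_right, smul_eq_mul]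
  have h3 : ∀ a b : E, ⟪ζ, a⟫ ≤ t - r' - R₃ → ⟪ζ, b⟫ ≤ t - r' - R₃ →
      Ag D (e a) (e b) := by
    intro a b ha hb
    refine chain hconv (r := fun a b => Ag D (e a) (e b)) ?_ ?_ ha hb
    · intro a b c hab hbc z hz
      exact (hab z hz).trans (hbc z hz)
    · intro a ha b hb hab
      refine hsep _ (heZ a ha) _ (heZ b hb) a ?_
      intro z hz hza
      have h4 := (he a ha z hz (by linarith)).1
      have h5 : ‖z - b‖ ≤ n₁ + 1 := by
        have h6 : z - b = (z - a) + (a - b) := by abel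
        rw [h6]
        refine (norm_add_le _ _).trans ?_
        linarith
      have h7 := (he b hb z hz h5).1
      have h8 := dist_triangle_left (e a z) (e b z) (f z)
      linarith
  have ha₀ : ⟪ζ, (t - r' - R₃) • ζ⟫ ≤ t - r' - R₃ := (dyE_mul hζ _).le
  obtain ⟨E₁, hEdef⟩ : ∃ E₁, E₁ = e ((t - r' - R₃) • ζ) := ⟨_, rfl⟩
  have hEZ : E₁ ∈ ZS O S Zr := by
    rw [hEdef]
    exact heZ _ ha₀
  have h4 : ∀ z ∈ G, ⟪ζ, z⟫ ≤ t - r' - R₃ → dist (f z) (E₁ z) ≤ ε' ∧ dist (g z) (E₁ z) ≤ ε' := by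
    intro z hz hzt
    have h5 := he z hzt z hz (by
      rw [sub_self, norm_zero]
      linarith)
    have h6 := h3 z _ hzt ha₀ z (h.G_D z hz)
    rw [← hEdef] at h6
    rwa [h6] at h5
  -- (4)
  have h5 : ∀ z ∈ O, ⟪ζ, z⟫ ≤ t - r' - R₃ - r' → N z (E₁ z) (f z) :=
    hzero E₁ hEZ.1 f hf ζ (t - r' - R₃) hζ (fun z hz hzt => by
      rw [dist_comm]
      exact (h4 z hz hzt).1.trans hε'0)
  have h6 : ∀ z ∈ O, ⟪ζ, z⟫ ≤ t - r' - R₃ - r' → N z (E₁ z) (g z) :=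
    hzero E₁ hEZ.1 g hg ζ (t - r' - R₃) hζ (fun z hz hzt => by
      rw [dist_comm]
      exact (h4 z hz hzt).2.trans hε'0)
  -- (5)
  have hre : ∀ z : E, ‖z - (t - r' - R₃ - r' - R₂) • ζ‖ ≤ R₂ → ⟪ζ, z⟫ ≤ t - r' - R₃ - r' := by
    intro z hz
    have h7 := dyE_re hζ z ((t - r' - R₃ - r' - R₂) • ζ)
    rw [dyE_mul hζ] at h7
    linarith
  have h7 : Ag D E₁ f := hrig E₁ hEZ f hf ((t - r' - R₃ - r' - R₂) • ζ)
    (fun z hz hza => (h4 z hz (by linarith [hre z hza])).1.trans hε'2) (fun z hz hza => h5 z hz (hre z hza))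
  have h8 : Ag D E₁ g := hrig E₁ hEZ g hg ((t - r' - R₃ - r' - R₂) • ζ)
    (fun z hz hza => (h4 z hz (by linarith [hre z hza])).2.trans hε'2) (fun z hz hza => h6 z hz (hre z hza))
  exact hag fun z hz => (h7 z hz).symm.trans (h8 z hz)

end Pool.Agent.TG
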