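import Pool.Agent.TG.Dyn

/-!
# TG DyL: the abstract dynamical situation in a real inner product space, limits and translations

`DynE` is `Dyn` with a real inner product space `E` for `ℂ^(k+1)` (fields as there).
-/

set_option autoImplicit false
set_option linter.unusedSectionVars false

open Topology Filter Metric RealInnerProductSpace

namespace Pool.Agent.TG

/-- the abstract situation in a real inner product space -/
structure DynE {E : Type} [NormedAddCommGroup E] [InnerProductSpace ℝ E] {Y : Type} [MetricSpace Y] (K : Set Y) (Λ : AddSubgroup E)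
    (D G O : Set E) (S : Set (E → Y)) (Zr : E → Y → Prop) (N : E → Y → Y → Prop) : Prop where
  compact : IsCompact K
  cpt : ∃ R : ℝ, 0 < R ∧ ∀ z : E, ∃ l ∈ Λ, ‖z - l‖ ≤ R
  D_closed : IsClosed D
  D_inv : ∀ z, ∀ l ∈ Λ, (z + l ∈ D ↔ z ∈ D)
  G_closed : IsClosed G
  G_inv : ∀ z, ∀ l ∈ Λ, (z + l ∈ G ↔ z ∈ G)
  G_D : ∀ z ∈ G, z ∉ D
  O_open : IsOpen O
  O_inv : ∀ z, ∀ l ∈ Λ, (z + l ∈ O ↔ z ∈ O)
  O_sub : O ⊆ G
  O_ne : O.Nonempty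
  mem : ∀ f ∈ S, ∀ z, z ∉ D → f z ∈ K
  lip : ∀ z, z ∉ D → ∃ L r : ℝ, 0 < L ∧ 0 < r ∧ ∀ f ∈ S, ∀ w ∈ ball z r, ∀ w' ∈ ball z r, dist (f w) (f w') ≤ L * ‖w - w'‖
  trans : ∀ f ∈ S, ∀ l ∈ Λ, (fun z => f (z + l)) ∈ S
  lim : ∀ (𝒰 : Ultrafilter ℕ) (F : ℕ → E → Y) (f : E → Y), (∀ᶠ n in (𝒰 : Filter ℕ), F n ∈ S) →
    (∀ z, z ∉ D → Tendsto (fun n => F n z) 𝒰 (𝓝 (f z))) → f ∈ S
  uniq : ∀ f ∈ S, ∀ g ∈ S, ∀ z₀, z₀ ∉ D → (∀ᶠ z in 𝓝 z₀, f z = g z) → Ag D f g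
  Z_inv : ∀ z, ∀ l ∈ Λ, ∀ y, Zr (z + l) y ↔ Zr z y
  Z_lim : ∀ (𝒰 : Ultrafilter ℕ) (F : ℕ → E → Y), ∀ f ∈ S, (∀ᶠ n in (𝒰 : Filter ℕ), F n ∈ S) →
    (∀ z, z ∉ D → Tendsto (fun n => F n z) 𝒰 (𝓝 (f z))) → ∀ z ∈ O, (∀ᶠ n in (𝒰 : Filter ℕ), Zr z (F n z)) → Zr z (f z)
  N_inv : ∀ z, ∀ l ∈ Λ, ∀ y y', N (z + l) y y' ↔ N z y y'
  half : ∃ r₁ ε₀ : ℝ, 0 < r₁ ∧ 0 < ε₀ ∧ ∀ f ∈ S, ∀ g ∈ S, ∀ (ζ : E) (t : ℝ), ‖ζ‖ = 1 →
    (∀ z ∈ G, ⟪ζ, z⟫ ≤ t → dist (f z) (g z) ≤ ε₀) → ∀ z ∈ O, ⟪ζ, z⟫ ≤ t - r₁ → N z (f z) (g z)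
  near : ∀ (𝒰 : Ultrafilter ℕ) (F H : ℕ → E → Y) (w : ℕ → E), ∀ f ∈ S, ∀ z ∈ O,
    (∀ᶠ n in (𝒰 : Filter ℕ), F n ∈ S ∧ H n ∈ S) → (∀ z, z ∉ D → Tendsto (fun n => F n z) 𝒰 (𝓝 (f z))) →
    (∀ z, z ∉ D → Tendsto (fun n => H n z) 𝒰 (𝓝 (f z))) → Tendsto w 𝒰 (𝓝 z) →
    (∀ᶠ n in (𝒰 : Filter ℕ), w n ∈ O ∧ F n (w n) ≠ H n (w n) ∧ N (w n) (F n (w n)) (H n (w n))) → Zr z (f z)
  iso : ∀ e ∈ S, (∀ z ∈ O, Zr z (e z)) → ∃ (z₀ : E) (r ε : ℝ), 0 < r ∧ 0 < ε ∧ ball z₀ r ⊆ O ∧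
    ∀ g ∈ S, ∀ z ∈ ball z₀ r, dist (g z) (e z) < ε → (N z (e z) (g z) ∨ Zr z (g z)) → g z = e z

variable {E : Type} [NormedAddCommGroup E] [InnerProductSpace ℝ E] [ProperSpace E]
variable {Y : Type} [MetricSpace Y] {K : Set Y} {Λ : AddSubgroup E} {D G O : Set E} {S : Set (E → Y)}
  {Zr : E → Y → Prop} {N : E → Y → Y → Prop}

theorem DynE.g_add (h : DynE K Λ D G O S Zr N) {z l : E} (hl : l ∈ Λ) : z + l ∈ G ↔ z ∈ G := h.G_inv z l hl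

theorem DynE.o_add (h : DynE K Λ D G O S Zr N) {z l : E} (hl : l ∈ Λ) : z + l ∈ O ↔ z ∈ O := h.O_inv z l hl

theorem DynE.notMem_add (h : DynE K Λ D G O S Zr N) {z l : E} (hl : l ∈ Λ) : z + l ∉ D ↔ z ∉ D :=
  not_iff_not.2 (h.D_inv z l hl)

theorem DynE.o_notMem (h : DynE K Λ D G O S Zr N) {z : E} (hz : z ∈ O) : z ∉ D := h.G_D z (h.O_sub hz)

theorem DynE.exists_lim (h : DynE K Λ D G O S Zr N) (𝒰 : Ultrafilter ℕ) (F : ℕ → E → Y) (hF : ∀ᶠ n in (𝒰 : Filter ℕ), F n ∈ S) :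
    ∃ f ∈ S, ∀ z, z ∉ D → Tendsto (fun n => F n z) 𝒰 (𝓝 (f z)) := by
  have key : ∀ z, ∃ y : Y, z ∉ D → Tendsto (fun n => F n z) 𝒰 (𝓝 y) := by
    intro z
    by_cases hz : z ∈ D
    · exact ⟨F 0 z, fun h' => absurd hz h'⟩
    · have h1 : ((𝒰.map fun n => F n z : Ultrafilter Y) : Filter Y) ≤ 𝓟 K := by
        rw [Filter.le_principal_iff]
        show ∀ᶠ n in (𝒰 : Filter ℕ), F n z ∈ K
        filter_upwards [hF] with n hn
        exact h.mem _ hn z hz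
      obtain ⟨y, _, hy⟩ := h.compact.ultrafilter_le_nhds _ h1
      exact ⟨y, fun _ => hy⟩
  choose f hf using key
  exact ⟨f, h.lim 𝒰 F f hF hf, hf⟩

/-- the convergence is locally uniform outside `D`: uniform on the bounded parts of `G` -/
theorem DynE.unif (h : DynE K Λ D G O S Zr N) (𝒰 : Ultrafilter ℕ) (F : ℕ → E → Y) (hF : ∀ᶠ n in (𝒰 : Filter ℕ), F n ∈ S)
    {f : E → Y} (hfS : f ∈ S) (hf : ∀ z, z ∉ D → Tendsto (fun n => F n z) 𝒰 (𝓝 (f z))) (R ε : ℝ)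
    (hε : 0 < ε) : ∀ᶠ n in (𝒰 : Filter ℕ), ∀ z ∈ G, ‖z‖ ≤ R → dist (F n z) (f z) < ε := by
  have hcpt : IsCompact (G ∩ closedBall (0 : E) R) := (isCompact_closedBall 0 R).inter_left h.G_closed
  have key : ∀ x ∈ G ∩ closedBall (0 : E) R, ∃ s : ℝ, 0 < s ∧ ∀ᶠ n in (𝒰 : Filter ℕ), ∀ z ∈ ball x s, dist (F n z) (f z) < ε := by
    intro x hx
    have hxD := h.G_D x hx.1
    obtain ⟨L, r, hL, hr, hlip⟩ := h.lip x hxD
    refine ⟨min r (ε / (4 * L)), lt_min hr (by positivity), ?_⟩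
    have h1 : ∀ᶠ n in (𝒰 : Filter ℕ), dist (F n x) (f x) < ε / 4 :=
      (tendsto_iff_dist_tendsto_zero.mp (hf x hxD)).eventually_lt_const (by positivity)
    filter_upwards [hF, h1] with n hn hn2 z hz
    rw [mem_ball] at hz
    have hz1 : z ∈ ball x r := by
      rw [mem_ball]
      exact hz.trans_le (min_le_left _ _)
    have hz2 : L * ‖x - z‖ ≤ ε / 4 := by
      have h2 : ‖x - z‖ ≤ ε / (4 * L) := by
        rw [← dist_eq_norm, dist_comm]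
        exact hz.le.trans (min_le_right _ _)
      calc L * ‖x - z‖ ≤ L * (ε / (4 * L)) := mul_le_mul_of_nonneg_left h2 hL.le
        _ = ε / 4 := by field_simp
    have h3 := hlip (F n) hn x (mem_ball_self hr) z hz1
    have h4 := hlip f hfS x (mem_ball_self hr) z hz1
    have h5 := dist_triangle4 (F n z) (F n x) (f x) (f z)
    rw [dist_comm (F n z) (F n x)] at h5
    linarith
  choose! s hs hs2 using key
  obtain ⟨t, htC, hcov⟩ := hcpt.elim_nhds_subcover (fun x => ball x (s x)) (fun x hx => ball_mem_nhds x (hs x hx))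
  have hev : ∀ᶠ n in (𝒰 : Filter ℕ), ∀ x ∈ t, ∀ z ∈ ball x (s x), dist (F n z) (f z) < ε := by
    rw [Filter.eventually_all_finset]
    intro x hx
    exact hs2 x (htC x hx)
  filter_upwards [hev] with n hn z hz hzR
  obtain ⟨x, hx, hzx⟩ := Set.mem_iUnion₂.mp (hcov ⟨hz, by rwa [mem_closedBall, dist_zero_right]⟩)
  exact hn x hx z hzx

theorem DynE.tendsto_along (h : DynE K Λ D G O S Zr N) (𝒰 : Ultrafilter ℕ) (F : ℕ → E → Y) (hF : ∀ᶠ n in (𝒰 : Filter ℕ), F n ∈ S)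
    {f : E → Y} (hf : ∀ z, z ∉ D → Tendsto (fun n => F n z) 𝒰 (𝓝 (f z))) {w : ℕ → E} {z : E} (hz : z ∉ D)
    (hw : Tendsto w 𝒰 (𝓝 z)) : Tendsto (fun n => F n (w n)) 𝒰 (𝓝 (f z)) := by
  obtain ⟨L, r, hL, hr, hlip⟩ := h.lip z hz
  rw [tendsto_iff_dist_tendsto_zero]
  have h1 : Tendsto (fun n => L * dist z (w n) + dist (F n z) (f z)) 𝒰 (𝓝 (L * 0 + 0)) := by
    refine Tendsto.add (Tendsto.const_mul L ?_) (tendsto_iff_dist_tendsto_zero.mp (hf z hz))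
    have h2 := tendsto_iff_dist_tendsto_zero.mp hw
    simp only [dist_comm z]
    exact h2
  rw [mul_zero, add_zero] at h1
  refine squeeze_zero' (Eventually.of_forall fun _ => dist_nonneg) ?_ h1
  have h2 : ∀ᶠ n in (𝒰 : Filter ℕ), w n ∈ ball z r := hw.eventually (ball_mem_nhds z hr)
  filter_upwards [hF, h2] with n hn hn2
  have h3 := hlip (F n) hn z (mem_ball_self hr) (w n) hn2
  rw [← dist_eq_norm] at h3
  have h4 := dist_triangle_left (F n (w n)) (f z) (F n z)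
  linarith

/-- two different members of `S` differ at points of `O` near any point of it -/
theorem DynE.exists_ne (h : DynE K Λ D G O S Zr N) {f g : E → Y} (hf : f ∈ S) (hg : g ∈ S) (hne : ¬ Ag D f g) {z : E}
    (hz : z ∈ O) {ε : ℝ} (hε : 0 < ε) : ∃ w ∈ O, ‖w - z‖ < ε ∧ f w ≠ g w := by
  by_contra hcon
  push Not at hcon
  apply hne
  refine h.uniq f hf g hg z (h.o_notMem hz) ?_
  filter_upwards [ball_mem_nhds z hε, h.O_open.mem_nhds hz] with w hw hwO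
  exact hcon w hwO (by rwa [mem_ball, dist_eq_norm] at hw)

theorem DynE.zs_trans (h : DynE K Λ D G O S Zr N) {e : E → Y} (he : e ∈ ZS O S Zr) {l : E} (hl : l ∈ Λ) :
    (fun z => e (z + l)) ∈ ZS O S Zr := by
  refine ⟨h.trans e he.1 l hl, fun z hz => ?_⟩
  exact (h.Z_inv z l hl _).1 (he.2 (z + l) ((h.o_add hl).2 hz))

theorem DynE.zs_lim (h : DynE K Λ D G O S Zr N) (𝒰 : Ultrafilter ℕ) (F : ℕ → E → Y) (hF : ∀ᶠ n in (𝒰 : Filter ℕ), F n ∈ ZS O S Zr)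
    {f : E → Y} (hf : ∀ z, z ∉ D → Tendsto (fun n => F n z) 𝒰 (𝓝 (f z))) : f ∈ ZS O S Zr := by
  have h1 : ∀ᶠ n in (𝒰 : Filter ℕ), F n ∈ S := hF.mono fun n hn => hn.1
  have h2 : f ∈ S := h.lim 𝒰 F f h1 hf
  refine ⟨h2, fun z hz => ?_⟩
  exact h.Z_lim 𝒰 F f h2 h1 hf z hz (hF.mono fun n hn => hn.2 z hz)

theorem DynE.ag_trans (h : DynE K Λ D G O S Zr N) {f g : E → Y} {l : E} (hl : l ∈ Λ) :
    Ag D (fun z => f (z + l)) (fun z => g (z + l)) ↔ Ag D f g := by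
  constructor
  · intro h1 z hz
    have h2 : z - l ∉ D := by
      have h3 := (h.notMem_add (z := z - l) hl).1
      rw [sub_add_cancel] at h3
      exact h3 hz
    have h4 : f (z - l + l) = g (z - l + l) := h1 (z - l) h2
    rwa [sub_add_cancel] at h4
  · intro h1 z hz
    exact h1 (z + l) ((h.notMem_add hl).2 hz)

end Pool.Agent.TG
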