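import Pool.Agent.H36.BP.Defs

/-!
# TG Dyn: the abstract dynamical situation (`EL/Dyn` with `EN k = ℂ^(k+1)` for `ℂ`)

`S` is a compact, `Γ`-invariant family of maps `ℂ^(k+1) \ D → Y` (maps `EN k → Y` whose values on `D` do not matter), `D` is a closed
`Γ`-invariant set.  `Nz z y y'` means that the integral between the near points `y`, `y'` over `z` is `0`; it may hold for different points, but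
only near the closed set `Zr`.  Closeness is known on the closed set `G`, and the conclusions hold on the open set `O ⊆ G`.
-/

set_option autoImplicit false

open Topology Filter Metric

namespace Pool.Agent.TG

open Pool.Agent.H36.BP (EN)

/-- the two maps agree outside `D` -/
def Ag {V Y : Type} (D : Set V) (f g : V → Y) : Prop := ∀ z, z ∉ D → f z = g z

/-- the abstract situation -/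
structure Dyn {k : ℕ} {Y : Type} [MetricSpace Y] (K : Set Y) (Γ : AddSubgroup (EN k)) (D G O : Set (EN k)) (S : Set (EN k → Y))
    (Zr : EN k → Y → Prop) (Nz : EN k → Y → Y → Prop) : Prop where
  compact : IsCompact K
  cpt : ∃ R : ℝ, 0 < R ∧ ∀ z : EN k, ∃ l ∈ Γ, ‖z - l‖ ≤ R
  D_closed : IsClosed D
  D_inv : ∀ z, ∀ l ∈ Γ, (z + l ∈ D ↔ z ∈ D)
  G_closed : IsClosed G
  G_inv : ∀ z, ∀ l ∈ Γ, (z + l ∈ G ↔ z ∈ G)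
  G_D : ∀ z ∈ G, z ∉ D
  O_open : IsOpen O
  O_inv : ∀ z, ∀ l ∈ Γ, (z + l ∈ O ↔ z ∈ O)
  O_sub : O ⊆ G
  O_ne : O.Nonempty
  mem : ∀ f ∈ S, ∀ z, z ∉ D → f z ∈ K
  lip : ∀ z, z ∉ D → ∃ L r : ℝ, 0 < L ∧ 0 < r ∧ ∀ f ∈ S, ∀ w ∈ ball z r, ∀ w' ∈ ball z r, dist (f w) (f w') ≤ L * ‖w - w'‖
  trans : ∀ f ∈ S, ∀ l ∈ Γ, (fun z => f (z + l)) ∈ S
  lim : ∀ (𝒰 : Ultrafilter ℕ) (F : ℕ → EN k → Y) (f : EN k → Y), (∀ᶠ n in (𝒰 : Filter ℕ), F n ∈ S) →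
    (∀ z, z ∉ D → Tendsto (fun n => F n z) 𝒰 (𝓝 (f z))) → f ∈ S
  uniq : ∀ f ∈ S, ∀ g ∈ S, ∀ z₀, z₀ ∉ D → (∀ᶠ z in 𝓝 z₀, f z = g z) → Ag D f g
  Z_inv : ∀ z, ∀ l ∈ Γ, ∀ y, Zr (z + l) y ↔ Zr z y
  Z_lim : ∀ (𝒰 : Ultrafilter ℕ) (F : ℕ → EN k → Y), ∀ f ∈ S, (∀ᶠ n in (𝒰 : Filter ℕ), F n ∈ S) →
    (∀ z, z ∉ D → Tendsto (fun n => F n z) 𝒰 (𝓝 (f z))) → ∀ z ∈ O, (∀ᶠ n in (𝒰 : Filter ℕ), Zr z (F n z)) → Zr z (f z)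
  N_inv : ∀ z, ∀ l ∈ Γ, ∀ y y', Nz (z + l) y y' ↔ Nz z y y'
  half : ∃ r₁ ε₀ : ℝ, 0 < r₁ ∧ 0 < ε₀ ∧ ∀ f ∈ S, ∀ g ∈ S, ∀ (ζ : EN k) (t : ℝ), ‖ζ‖ = 1 →
    (∀ z ∈ G, (inner ℂ ζ z : ℂ).re ≤ t → dist (f z) (g z) ≤ ε₀) → ∀ z ∈ O, (inner ℂ ζ z : ℂ).re ≤ t - r₁ → Nz z (f z) (g z)
  near : ∀ (𝒰 : Ultrafilter ℕ) (F H : ℕ → EN k → Y) (w : ℕ → EN k), ∀ f ∈ S, ∀ z ∈ O,
    (∀ᶠ n in (𝒰 : Filter ℕ), F n ∈ S ∧ H n ∈ S) → (∀ z, z ∉ D → Tendsto (fun n => F n z) 𝒰 (𝓝 (f z))) →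
    (∀ z, z ∉ D → Tendsto (fun n => H n z) 𝒰 (𝓝 (f z))) → Tendsto w 𝒰 (𝓝 z) →
    (∀ᶠ n in (𝒰 : Filter ℕ), w n ∈ O ∧ F n (w n) ≠ H n (w n) ∧ Nz (w n) (F n (w n)) (H n (w n))) → Zr z (f z)
  iso : ∀ e ∈ S, (∀ z ∈ O, Zr z (e z)) → ∃ (z₀ : EN k) (r ε : ℝ), 0 < r ∧ 0 < ε ∧ ball z₀ r ⊆ O ∧
    ∀ g ∈ S, ∀ z ∈ ball z₀ r, dist (g z) (e z) < ε → (Nz z (e z) (g z) ∨ Zr z (g z)) → g z = e z

/-- the members of `S` inside `Zr` -/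
def ZS {V Y : Type} (O : Set V) (S : Set (V → Y)) (Zr : V → Y → Prop) : Set (V → Y) :=
  {e | e ∈ S ∧ ∀ z ∈ O, Zr z (e z)}

end Pool.Agent.TG
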