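import Pool.Agent.TG.FDefs
import Pool.Agent.TG.MerConc
import Pool.Agent.TG.CLp

/-!
# TG FAsm: the conclusions from the geometric data and the finiteness of the sections
-/

set_option autoImplicit false

open Topology Filter MvPolynomial
open Pool.Agent.H17 (PN VanishesAt)
open Pool.Agent.H62.FC (Homog)
open Pool.Agent.H17LG.Variety (FunField)
open Pool.Agent.H17EF (projVar coneE)
open Pool.Agent.AD (uV)
open Pool.Agent.TG (Geo FinSec merConc sabUnion sabSpecialSet sabUnion_vanishes sabSpecialSet_subset sabSpecialSet_ne sabUnion_up SabMap imageOf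
  SabCases SimpleTorus merSections SameProjMap)

noncomputable section

namespace Pool.Agent.TGF

variable {N k : ℕ}

theorem sabUnion_mono {X Y : Set (PN N)} (h : X ⊆ Y) : sabUnion X ⊆ sabUnion Y := by
  rintro x ⟨S, h1, h2, h3⟩
  exact ⟨S, h1.trans h, h2, h3⟩

theorem projVar_anti {P R : Ideal (MvPolynomial (Fin (N + 1)) ℂ)} (h : P ≤ R) : projVar R ⊆ projVar P := by
  intro x hx G hG n hn
  exact hx G (h hG) n hn

/-- the product vanishes -/
theorem vanishesAt_mul_left {A B : MvPolynomial (Fin (N + 1)) ℂ} {x : PN N} (h : VanishesAt A x) : VanishesAt (A * B) x := by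
  unfold VanishesAt at *
  rw [map_mul, h, zero_mul]

theorem fAsm {P : Ideal (MvPolynomial (Fin (N + 1)) ℂ)} [P.IsPrime] (hP : Homog P) (hdim : ∃ z : Fin (k + 2) → FunField P, IsTranscendenceBasis ℂ z)
    {Λ : AddSubgroup (Cn (k + 1))} {u : PN N → Cn (k + 1) ⧸ Λ} {D B : Set (Cn (k + 1))}
    (G : Geo (coneE P) Λ (uV Λ u) D B) (hfin : FinSec (coneE P) Λ (uV Λ u) D)
    (hR : ∃ (e : ℕ) (R : MvPolynomial (Fin (N + 1)) ℂ), R.IsHomogeneous e ∧ R ∉ P ∧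
      ∀ x ∈ projVar P, (∃ y ∈ D, u x = (y : Cn (k + 1) ⧸ Λ)) → VanishesAt R x) :
    ∃ Q : MvPolynomial (Fin (N + 1)) ℂ, TorusFibration P Λ u D Q := by
  obtain ⟨z, hz⟩ := hdim
  obtain ⟨e, R, hRe, hRP, hRv⟩ := hR
  have mc := merConc hP hz G G.clip hfin
  obtain ⟨d, Q₀, hQ₀, hQ₀P, hQ₀v⟩ := mc.form
  have hmaps : ∀ S : SabMap N, imageOf S.F ⊆ projVar P → SabCases (projVar P) Λ u D S := fun S hS => G.sabCases hP S hS
  have hQ : (R * Q₀).IsHomogeneous (e + d) := hRe.mul hQ₀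
  have hQP : R * Q₀ ∉ P := by
    intro h
    rcases Ideal.IsPrime.mem_or_mem inferInstance h with h1 | h1
    · exact hRP h1
    · exact hQ₀P h1
  have hQD : ∀ x ∈ projVar P, (∃ y ∈ D, u x = (y : Cn (k + 1) ⧸ Λ)) → VanishesAt (R * Q₀) x := fun x hx hy => vanishesAt_mul_left (hRv x hx hy)
  have hQm : ∀ Φ ∈ merSections (projVar P) Λ u, ∀ y, eval (Φ y) (R * Q₀) = 0 := fun Φ hΦ y => by
    rw [map_mul, hQ₀v Φ hΦ y, mul_zero]
  have hvan : SimpleTorus Λ → ∀ x ∈ sabUnion (projVar P), VanishesAt (R * Q₀) x := fun hs => sabUnion_vanishes hs hmaps hQ hQD hQm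
  refine ⟨R * Q₀, ⟨mc.finite, mc.periodic, ⟨⟨_, hQ⟩, hQP⟩, hQD, hQm, hmaps, fun hs => sabSpecialSet_subset hQ (hvan hs), ?_⟩⟩
  rintro hs M P' hprime hP' ⟨z', hz'⟩ ⟨f⟩
  obtain ⟨T, eT, hT, hTP, hTv⟩ := sabUnion_up hP hP' hz hz' f hQ hQP (hvan hs)
  obtain ⟨j, hj⟩ := Pool.Agent.H92.GT.Proj.exists_coordFun_ne_zero P' z' hz'
  have hjP : (X j : MvPolynomial (Fin (M + 1)) ℂ) ∉ P' := Pool.Agent.H17R.coordFun_ne_zero_iff.1 hj
  refine ⟨sabSpecialSet_ne hP' ⟨j, hjP⟩ hT hTP hTv, T * X j, ⟨_, hT.mul (isHomogeneous_X ℂ j)⟩, ?_, ?_⟩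
  · intro h
    rcases Ideal.IsPrime.mem_or_mem inferInstance h with h1 | h1
    · exact hTP h1
    · exact hjP h1
  · intro Rr hRprime hRh hPR hTR
    have hTR1 : T ∉ Rr := fun h => hTR (Ideal.mul_mem_right _ _ h)
    have hTR2 : (X j : MvPolynomial (Fin (M + 1)) ℂ) ∉ Rr := fun h => hTR (Ideal.mul_mem_left _ _ h)
    exact sabSpecialSet_ne hRh ⟨j, hTR2⟩ hT hTR1 fun x hx => hTv x (sabUnion_mono (projVar_anti hPR) hx)

end Pool.Agent.TGF
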