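import Pool.Agent.TG.SaDefs
import Pool.Agent.AD.T.NCDefs
import Pool.Agent.H17G.PNG

/-!
# TG FDefs: projective manifolds over complex tori, with arbitrary singular fibres, and maps from semi-abelian varieties

`X` is a smooth projective variety of dimension `n + 1`, `n = k + 1`, `u` a holomorphic map from `X` to a complex torus `ℂ^n / Λ`.  `D ⊆ ℂ^n` is a `Λ`-invariant analytic
subset outside which `u` is a submersion, and whose fibres outside `D` contain no entire curves with bounded derivative; outside the small set `B` the set `D` is smooth and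
the map `u` is `(x^a y^b, s)` in suitable local coordinates.
-/

set_option autoImplicit false

open Topology Filter MvPolynomial
open Pool.Agent.H17 (PN VanishesAt)
open Pool.Agent.H62.FC (Homog)
open Pool.Agent.H17LG.Variety (FunField)
open Pool.Agent.H17EF (projVar)
open Pool.Agent.H17G (IsTangent)
open Pool.Agent.H14.V (brodyCurves)
open Pool.Agent.TG (SabMap imageOf SabCases SimpleTorus merSections SameProjMap sabSpecialSet)

noncomputable section

namespace Pool.Agent.TGF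

variable {N k g : ℕ}

/-- `Cn n` is `ℂ^n`. -/
abbrev Cn (n : ℕ) : Type := Fin n → ℂ

/-- The point with the homogeneous coordinates `x` is a point of `X` over `y`. -/
def Over (X : Set (PN N)) (Λ : AddSubgroup (Cn (k + 1))) (u : PN N → Cn (k + 1) ⧸ Λ) (y : Cn (k + 1)) (x : Cn (N + 1)) : Prop :=
  ∃ h : x ≠ 0, Projectivization.mk ℂ x h ∈ X ∧ u (Projectivization.mk ℂ x h) = (y : Cn (k + 1) ⧸ Λ)

/-- `σ` is a local parametrisation of the manifold `X` (of dimension `k + 2`) at the point `x`, given by homogeneous coordinates. -/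
structure IsParam (X : Set (PN N)) (x : PN N) (σ : Cn (k + 2) → Cn (N + 1)) : Prop where
  holomorphic : AnalyticAt ℂ σ 0
  point : ∃ h : σ 0 ≠ 0, Projectivization.mk ℂ (σ 0) h = x
  mem : ∀ᶠ p in 𝓝 (0 : Cn (k + 2)), ∃ h : σ p ≠ 0, Projectivization.mk ℂ (σ p) h ∈ X
  immersion : ∀ (v : Cn (k + 2)) (a : ℂ), fderiv ℂ σ 0 v = a • σ 0 → v = 0

/-- In suitable local coordinates of `X` at `x` the map `u` is `p ↦ y + (p 1, …, p (k + 1))`. -/
def Submersion (X : Set (PN N)) (Λ : AddSubgroup (Cn (k + 1))) (u : PN N → Cn (k + 1) ⧸ Λ) (y : Cn (k + 1)) (x : PN N) : Prop :=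
  ∃ σ : Cn (k + 2) → Cn (N + 1), IsParam X x σ ∧ ∀ᶠ p in 𝓝 (0 : Cn (k + 2)), Over X Λ u (y + fun i => p i.succ) (σ p)

/-- In suitable local coordinates of `X` at `x` the map `u` is `p ↦ κ (p 0 ^ a * p 1 ^ b, p 2, …, p (k + 1))`. -/
def NormalCrossing (X : Set (PN N)) (Λ : AddSubgroup (Cn (k + 1))) (u : PN N → Cn (k + 1) ⧸ Λ) (κ : Cn (k + 1) → Cn (k + 1)) (x : PN N) : Prop :=
  ∃ (σ : Cn (k + 2) → Cn (N + 1)) (a b : ℕ), IsParam X x σ ∧ 0 < a + b ∧
    ∀ᶠ p in 𝓝 (0 : Cn (k + 2)), Over X Λ u (κ (Fin.cons (p 0 ^ a * p 1 ^ b) fun i : Fin k => p i.succ.succ)) (σ p)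

/-- `κ` is (the inverse of) a system of local coordinates of `ℂ^(k+1)` at `y` in which `D` is the hyperplane `q 0 = 0`. -/
structure IsCoord (D : Set (Cn (k + 1))) (κ : Cn (k + 1) → Cn (k + 1)) (y : Cn (k + 1)) : Prop where
  holomorphic : AnalyticAt ℂ κ 0
  point : κ 0 = y
  immersion : ∀ v, fderiv ℂ κ 0 v = 0 → v = 0
  mem_iff : ∀ᶠ q in 𝓝 (0 : Cn (k + 1)), (κ q ∈ D ↔ q 0 = 0)

/-- `Z` is a (closed) analytic subset of `ℂ^n`: near every point of `ℂ^n` it is the common zero set of finitely many holomorphic functions. -/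
def IsAnalyticSubset {n : ℕ} (Z : Set (Cn n)) : Prop :=
  ∀ y : Cn n, ∃ (m : ℕ) (h : Cn n → Cn m), AnalyticAt ℂ h y ∧ ∀ᶠ z in 𝓝 y, (z ∈ Z ↔ h z = 0)

/-- `B ⊆ ℂ^n` is small (for an analytic subset: of complex codimension at least two): it is empty, or its Hausdorff dimension is at most `2 n - 4`. -/
def IsSmall {n : ℕ} (B : Set (Cn n)) : Prop := B = ∅ ∨ dimH B + 4 ≤ 2 * (n : ENNReal)

/-- `D` contains the critical values of `u`, and the map is of normal crossing type over `D \ B`. -/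
structure IsDiscriminant (X : Set (PN N)) (Λ : AddSubgroup (Cn (k + 1))) (u : PN N → Cn (k + 1) ⧸ Λ) (D B : Set (Cn (k + 1))) : Prop where
  analytic : IsAnalyticSubset D
  proper : D ≠ Set.univ
  invariant : ∀ y ∈ D, ∀ l ∈ Λ, y + l ∈ D
  small : IsSmall B
  submersion : ∀ y ∉ D, ∀ x ∈ X, u x = (y : Cn (k + 1) ⧸ Λ) → Submersion X Λ u y x
  /-- entire curves `f` with `|f'| ≤ 1` in the fibres outside `D` are constant -/
  hyperbolic : ∀ y ∉ D, ∀ f ∈ brodyCurves X 1, (∀ z, u (f z) = (y : Cn (k + 1) ⧸ Λ)) → ∀ z w, f z = f w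
  crossing : ∀ y ∈ D, y ∉ B → ∃ κ : Cn (k + 1) → Cn (k + 1), IsCoord D κ y ∧ ∀ x ∈ X, u x = (y : Cn (k + 1) ⧸ Λ) → NormalCrossing X Λ u κ x

/-- `Ω` is a holomorphic `(k + 2)`-form on the manifold `X' = {(x, c) ∈ X × ℂ^(k+1) / Γ : u x = c mod Λ}` (`Γ` a subgroup of `Λ`; for `Γ = Λ` this is `X`).
It is given as a function of `c`, the homogeneous coordinates of `x`, and `k + 2` tangent vectors of the cone over `X`. -/
structure IsTopForm (X : Set (PN N)) (Λ Γ : AddSubgroup (Cn (k + 1))) (u : PN N → Cn (k + 1) ⧸ Λ)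
    (Ω : Cn (k + 1) → Cn (N + 1) → (Fin (k + 2) → Cn (N + 1)) → ℂ) : Prop where
  /-- the form depends only on `y` modulo `Γ` -/
  periodic : ∀ y, ∀ l ∈ Γ, ∀ x, Over X Λ u y x → ∀ v : Fin (k + 2) → Cn (N + 1), (∀ i, IsTangent X x (v i)) → Ω (y + l) x v = Ω y x v
  /-- the form depends only on the images of the tangent vectors in the tangent space of the projective space -/
  horizontal : ∀ y x, Over X Λ u y x → ∀ v : Fin (k + 2) → Cn (N + 1), (∀ i, IsTangent X x (v i)) → ∀ a : Fin (k + 2) → ℂ,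
    Ω y x (fun i => v i + a i • x) = Ω y x v
  /-- the form is multilinear and alternating -/
  alternating : ∀ y x, Over X Λ u y x → ∀ v : Fin (k + 2) → Cn (N + 1), (∀ i, IsTangent X x (v i)) → ∀ A : Matrix (Fin (k + 2)) (Fin (k + 2)) ℂ,
    Ω y x (fun i => ∑ j, A i j • v j) = A.det * Ω y x v
  /-- the form does not depend on the choice of the homogeneous coordinates -/
  homogeneous : ∀ y x, Over X Λ u y x → ∀ v : Fin (k + 2) → Cn (N + 1), (∀ i, IsTangent X x (v i)) → ∀ c : ℂ, c ≠ 0 →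
    Ω y (c • x) (fun i => c • v i) = Ω y x v
  /-- the form is holomorphic -/
  holomorphic : ∀ (φ : Cn (k + 2) → Cn (N + 1)) (υ : Cn (k + 2) → Cn (k + 1)) (p : Cn (k + 2)), AnalyticAt ℂ φ p → AnalyticAt ℂ υ p →
    (∀ᶠ q in 𝓝 p, Over X Λ u (υ q) (φ q)) → AnalyticAt ℂ (fun q => Ω (υ q) (φ q) fun i => fderiv ℂ φ q (Pi.single i 1)) p

/-- The form `Ω` is `0` at all points of the fibre over `y`. -/
def VanishesOver (X : Set (PN N)) (Λ : AddSubgroup (Cn (k + 1))) (u : PN N → Cn (k + 1) ⧸ Λ)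
    (Ω : Cn (k + 1) → Cn (N + 1) → (Fin (k + 2) → Cn (N + 1)) → ℂ) (y : Cn (k + 1)) : Prop :=
  ∀ x, Over X Λ u y x → ∀ v : Fin (k + 2) → Cn (N + 1), (∀ i, IsTangent X x (v i)) → Ω y x v = 0

/-- The form `Ω` is `0` on no nonempty open set. -/
def IsNowhereZero (X : Set (PN N)) (Λ : AddSubgroup (Cn (k + 1))) (u : PN N → Cn (k + 1) ⧸ Λ)
    (Ω : Cn (k + 1) → Cn (N + 1) → (Fin (k + 2) → Cn (N + 1)) → ℂ) : Prop :=
  ∀ y x, Over X Λ u y x → ∃ᶠ q in 𝓝 (y, x), Over X Λ u q.1 q.2 ∧ ∃ v : Fin (k + 2) → Cn (N + 1), (∀ i, IsTangent X q.2 (v i)) ∧ Ω q.1 q.2 v ≠ 0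

/-- On the covering `X' = {(x, c) ∈ X × ℂ^(k+1) / Γ : u x = c mod Λ}` there is a holomorphic `(k + 2)`-form which is `0` at all points of a fibre over a point
outside `D`, but on no nonempty open set. -/
def HasForm (X : Set (PN N)) (Λ Γ : AddSubgroup (Cn (k + 1))) (u : PN N → Cn (k + 1) ⧸ Λ) (D : Set (Cn (k + 1))) : Prop :=
  ∃ Ω, IsTopForm X Λ Γ u Ω ∧ IsNowhereZero X Λ u Ω ∧ ∃ y ∉ D, VanishesOver X Λ u Ω y

/-- The conclusion, for the variety `X` of dimension `k + 2` given by `P`: the meromorphic maps from `ℂ^(k+1)` to `X` over the torus are finitely many, periodic, and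
algebraic, and the maps from semi-abelian varieties to `X` come from these maps, from fibres over `D`, or from proper subtori. -/
structure TorusFibration (P : Ideal (MvPolynomial (Fin (N + 1)) ℂ)) [P.IsPrime] (Λ : AddSubgroup (Cn (k + 1))) (u : PN N → Cn (k + 1) ⧸ Λ)
    (D : Set (Cn (k + 1))) (Q : MvPolynomial (Fin (N + 1)) ℂ) : Prop where
  /-- there are finitely many meromorphic maps `ℂ^(k+1) → X` over the torus -/
  finite : ∃ s : Set (Cn (k + 1) → Cn (N + 1)), s.Finite ∧ s ⊆ merSections (projVar P) Λ u ∧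
    ∀ Φ ∈ merSections (projVar P) Λ u, ∃ Ψ ∈ s, SameProjMap Φ Ψ
  /-- they are invariant under `M Λ` -/
  periodic : ∃ M : ℕ, 1 ≤ M ∧ ∀ Φ ∈ merSections (projVar P) Λ u, ∀ l ∈ Λ, SameProjMap Φ fun y => Φ (y + M • l)
  /-- the form `Q` is not `0` on `X` -/
  form : (∃ e, Q.IsHomogeneous e) ∧ Q ∉ P
  /-- it is `0` on the fibres over `D` -/
  singular : ∀ x ∈ projVar P, (∃ y ∈ D, u x = (y : Cn (k + 1) ⧸ Λ)) → VanishesAt Q x
  /-- it is `0` on the images of the meromorphic maps over the torus -/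
  sections : ∀ Φ ∈ merSections (projVar P) Λ u, ∀ y, eval (Φ y) Q = 0
  /-- the maps from semi-abelian varieties -/
  maps : ∀ S : SabMap N, imageOf S.F ⊆ projVar P → SabCases (projVar P) Λ u D S
  /-- if the torus is simple, the special set is contained in the hypersurface `Q = 0` -/
  special : SimpleTorus Λ → ∀ x ∈ sabSpecialSet (projVar P), VanishesAt Q x
  /-- if the torus is simple, the special set of every variety `Y` of the same dimension with a dominant rational map to `X` is a proper subset of `Y`, and so is the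
  special set of every closed subvariety of `Y` which is not contained in a certain proper closed subset `{T = 0}` of `Y` -/
  models : SimpleTorus Λ → ∀ (M : ℕ) (P' : Ideal (MvPolynomial (Fin (M + 1)) ℂ)) [P'.IsPrime], Homog P' →
    (∃ z : Fin (k + 2) → FunField P', IsTranscendenceBasis ℂ z) → Nonempty (FunField P →ₐ[ℂ] FunField P') →
    sabSpecialSet (projVar P') ≠ projVar P' ∧ ∃ T : MvPolynomial (Fin (M + 1)) ℂ, (∃ e, T.IsHomogeneous e) ∧ T ∉ P' ∧
      ∀ (R : Ideal (MvPolynomial (Fin (M + 1)) ℂ)) [R.IsPrime], Homog R → P' ≤ R → T ∉ R → sabSpecialSet (projVar R) ≠ projVar R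

end Pool.Agent.TGF
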