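import Pool.Agent.H22.AlgD.Form

/-!
# TG HyA: entire maps `ℂ^n → ℂ^(N+1)` as maps to the projective space; circles which avoid a thin set
-/

set_option autoImplicit false

open Topology Filter Metric

namespace Pool.Agent.TG

variable {N n : ℕ}

/-- `x` and `w` are proportional -/
def Pl {ι : Type*} (x w : ι → ℂ) : Prop := ∀ i k, x i * w k = x k * w i

theorem Pl.symm {ι : Type*} {x w : ι → ℂ} (h : Pl x w) : Pl w x := fun i k => by
  have := h k i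
  rw [mul_comm (w i), mul_comm (w k)]
  exact this

theorem Pl.smul {ι : Type*} {x w : ι → ℂ} (h : Pl x w) (hw : w ≠ 0) : ∃ g : ℂ, x = g • w := by
  obtain ⟨k, hk⟩ := Function.ne_iff.1 hw
  have hk' : w k ≠ 0 := hk
  refine ⟨x k / w k, ?_⟩
  funext i
  rw [Pi.smul_apply, smul_eq_mul, div_mul_eq_mul_div, eq_div_iff hk']
  exact h i k

theorem Pl.trans {ι : Type*} {x v w : ι → ℂ} (h : Pl x v) (h' : Pl v w) (hv : v ≠ 0) : Pl x w := by
  obtain ⟨g, rfl⟩ := h.smul hv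
  intro i k
  simp only [Pi.smul_apply, smul_eq_mul]
  have := h' i k
  linear_combination g * this

/-- the values of a function which is zero off a thin set on small circles -/
theorem exists_dir {h : (Fin n → ℂ) → ℂ} {y₀ : Fin n → ℂ} (han : AnalyticAt ℂ h y₀) (hne : ¬ ∀ᶠ z in 𝓝 y₀, h z = 0) :
    ∃ e : Fin n → ℂ, ∀ᶠ t in 𝓝[≠] (0 : ℂ), h (y₀ + t • e) ≠ 0 := by
  obtain ⟨r, hr, hball⟩ := han.exists_ball_analyticOnNhd
  have h1 : ∃ᶠ z in 𝓝 y₀, h z ≠ 0 := fun hcon => hne (hcon.mono fun z hz => not_not.1 hz)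
  obtain ⟨y₁, hy₁, hy₁b⟩ := (h1.and_eventually (ball_mem_nhds y₀ hr)).exists
  obtain ⟨e, he⟩ : ∃ e, e = y₁ - y₀ := ⟨_, rfl⟩
  refine ⟨e, ?_⟩
  obtain ⟨A, hA⟩ : ∃ A : ℂ → (Fin n → ℂ), A = fun t => y₀ + t • e := ⟨_, rfl⟩
  have hAan : ∀ t, AnalyticAt ℂ A t := fun t => by
    rw [hA]
    exact analyticAt_const.add (analyticAt_id.smul analyticAt_const)
  have hAc : Continuous A := by
    rw [hA]
    fun_prop
  have hU : IsPreconnected (A ⁻¹' ball y₀ r) := by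
    apply Convex.isPreconnected
    have h2 : A ⁻¹' ball y₀ r = {t : ℂ | ‖t • e‖ < r} := by
      ext t
      simp [hA, mem_ball, dist_eq_norm]
    rw [h2]
    intro a ha b hb s t hs ht hst
    simp only [Set.mem_ofPred_eq] at ha hb ⊢
    have h3 : (s • a + t • b) • e = s • (a • e) + t • (b • e) := by
      rw [add_smul, smul_assoc, smul_assoc]
    rw [h3]
    calc ‖s • (a • e) + t • (b • e)‖ ≤ ‖s • (a • e)‖ + ‖t • (b • e)‖ := norm_add_le _ _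
      _ = s * ‖a • e‖ + t * ‖b • e‖ := by rw [norm_smul s (a • e), norm_smul t (b • e), Real.norm_of_nonneg hs, Real.norm_of_nonneg ht]
      _ < r := by
        rcases hs.eq_or_lt with h4 | h4
        · have h5 : t = 1 := by linarith
          rw [← h4, h5]
          linarith
        · nlinarith
  have hg : AnalyticOnNhd ℂ (fun t => h (A t)) (A ⁻¹' ball y₀ r) := fun t ht => (hball _ ht).comp (hAan t)
  have h0 : (0 : ℂ) ∈ A ⁻¹' ball y₀ r := by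
    show A 0 ∈ ball y₀ r
    rw [hA]
    simpa using hr
  have h1' : (1 : ℂ) ∈ A ⁻¹' ball y₀ r := by
    show A 1 ∈ ball y₀ r
    rw [hA]
    simp only [one_smul]
    rw [he, add_sub_cancel]
    exact hy₁b
  have hA1 : A 1 = y₁ := by
    rw [hA, he]
    simp
  rcases (hg 0 h0).eventually_eq_zero_or_eventually_ne_zero with h2 | h2
  · exfalso
    have h3 := hg.eqOn_zero_of_preconnected_of_eventuallyEq_zero hU h0 h2 h1'
    apply hy₁
    have h4 : h (A 1) = 0 := h3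
    rwa [hA1] at h4
  · rw [hA] at h2
    exact h2

/-- an entire map which is not zero is not zero on small circles -/
theorem exists_dir_of_entire {F : (Fin n → ℂ) → Fin (N + 1) → ℂ} (hF : Differentiable ℂ F) (hne : ∃ y, F y ≠ 0) (y₀ : Fin n → ℂ) :
    ∃ e : Fin n → ℂ, ∀ᶠ t in 𝓝[≠] (0 : ℂ), F (y₀ + t • e) ≠ 0 := by
  obtain ⟨y₁, hy₁⟩ := hne
  obtain ⟨i, hi⟩ := Function.ne_iff.1 hy₁
  refine ⟨y₁ - y₀, ?_⟩
  have hd : Differentiable ℂ fun t : ℂ => F (y₀ + t • (y₁ - y₀)) i := by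
    have h1 : Differentiable ℂ fun t : ℂ => y₀ + t • (y₁ - y₀) := by fun_prop
    exact fun t => (differentiableAt_pi.1 ((hF _).comp t (h1 t))) i
  have hg : AnalyticOnNhd ℂ (fun t : ℂ => F (y₀ + t • (y₁ - y₀)) i) Set.univ := fun t _ => hd.analyticAt t
  rcases (hg 0 (Set.mem_univ _)).eventually_eq_zero_or_eventually_ne_zero with h2 | h2
  · exfalso
    have h3 := hg.eqOn_zero_of_preconnected_of_eventuallyEq_zero isPreconnected_univ (Set.mem_univ _) h2 (Set.mem_univ (1 : ℂ))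
    apply hi
    have h4 : F (y₀ + (1 : ℂ) • (y₁ - y₀)) i = 0 := h3
    rw [one_smul, add_sub_cancel] at h4
    exact h4
  · filter_upwards [h2] with t ht h0
    exact ht (by rw [h0]; rfl)

theorem frequently_ne {F : (Fin n → ℂ) → Fin (N + 1) → ℂ} (hF : Differentiable ℂ F) (hne : ∃ y, F y ≠ 0) (y₀ : Fin n → ℂ) :
    ∃ᶠ y in 𝓝 y₀, F y ≠ 0 := by
  obtain ⟨e, he⟩ := exists_dir_of_entire hF hne y₀
  have ht : Tendsto (fun t : ℂ => y₀ + t • e) (𝓝[≠] (0 : ℂ)) (𝓝 y₀) := by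
    have h1 : Continuous fun t : ℂ => y₀ + t • e := by fun_prop
    have h2 := (h1.tendsto 0).mono_left (nhdsWithin_le_nhds (s := {(0 : ℂ)}ᶜ))
    simpa using h2
  exact ht.frequently he.frequently

/-- a continuous function which vanishes where `F ≠ 0` is zero -/
theorem eq_zero_of_dense {F : (Fin n → ℂ) → Fin (N + 1) → ℂ} (hF : Differentiable ℂ F) (hne : ∃ y, F y ≠ 0) {y₀ : Fin n → ℂ}
    {A : (Fin n → ℂ) → ℂ} (hA : ContinuousAt A y₀) (h : ∀ᶠ y in 𝓝 y₀, F y ≠ 0 → A y = 0) : A y₀ = 0 := by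
  by_contra hcon
  have h1 : ∀ᶠ y in 𝓝 y₀, A y ≠ 0 := hA.eventually_ne hcon
  obtain ⟨y, hy, h2, h3⟩ := ((frequently_ne hF hne y₀).and_eventually (h.and h1)).exists
  exact h3 (h2 hy)

/-- small circles on which the points have a distance from `D` -/
theorem exists_circle_off {D : Set (Fin n → ℂ)} (hD : IsClosed D) {y₀ : Fin n → ℂ}
    (thin : ∃ h : (Fin n → ℂ) → ℂ, AnalyticAt ℂ h y₀ ∧ (∀ᶠ z in 𝓝 y₀, z ∈ D → h z = 0) ∧ ¬ ∀ᶠ z in 𝓝 y₀, h z = 0) :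
    ∃ (e : Fin n → ℂ) (r δ : ℝ), 0 < r ∧ r * ‖e‖ ≤ 1 ∧ 0 < δ ∧ ∀ y ∈ ball y₀ δ, ∀ t : ℂ, ‖t‖ = r → ∀ b ∈ D, δ ≤ ‖y + t • e - b‖ := by
  obtain ⟨h, h1, h2, h3⟩ := thin
  obtain ⟨e, he⟩ := exists_dir h1 h3
  have ht : Tendsto (fun t : ℂ => y₀ + t • e) (𝓝[≠] (0 : ℂ)) (𝓝 y₀) := by
    have h1 : Continuous fun t : ℂ => y₀ + t • e := by fun_prop
    have h2 := (h1.tendsto 0).mono_left (nhdsWithin_le_nhds (s := {(0 : ℂ)}ᶜ))
    simpa using h2
  have h4 : ∀ᶠ t in 𝓝[≠] (0 : ℂ), y₀ + t • e ∉ D := by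
    filter_upwards [he, ht.eventually h2] with t ht1 ht2 hmem
    exact ht1 (ht2 hmem)
  rw [eventually_nhdsWithin_iff, Metric.eventually_nhds_iff] at h4
  obtain ⟨ε, hε, h5⟩ := h4
  obtain ⟨r, hr⟩ : ∃ r : ℝ, r = min (ε / 2) (1 / (‖e‖ + 1)) := ⟨_, rfl⟩
  have hr0 : 0 < r := by
    rw [hr]
    exact lt_min (by linarith) (by positivity)
  have hrε : r < ε := lt_of_le_of_lt (hr ▸ min_le_left _ _) (by linarith)
  have hre : r * ‖e‖ ≤ 1 := by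
    have h6 : r ≤ 1 / (‖e‖ + 1) := hr ▸ min_le_right _ _
    have h7 : 0 < ‖e‖ + 1 := by positivity
    rw [le_div_iff₀ h7] at h6
    nlinarith [norm_nonneg e]
  have hK : IsCompact ((fun t : ℂ => y₀ + t • e) '' sphere 0 r) := (isCompact_sphere 0 r).image (by fun_prop)
  have hKD : (fun t : ℂ => y₀ + t • e) '' sphere 0 r ⊆ Dᶜ := by
    rintro _ ⟨t, ht1, rfl⟩
    rw [mem_sphere_zero_iff_norm] at ht1
    refine h5 ?_ ?_
    · rw [dist_zero_right, ht1]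
      exact hrε
    · intro h0
      rw [Set.mem_singleton_iff] at h0
      rw [h0, norm_zero] at ht1
      linarith
  obtain ⟨δ, hδ, hsub⟩ := hK.exists_thickening_subset_open hD.isOpen_compl hKD
  refine ⟨e, r, δ / 2, hr0, hre, by linarith, fun y hy t ht1 b hb => ?_⟩
  by_contra hcon
  push Not at hcon
  have h6 : b ∈ thickening δ ((fun t : ℂ => y₀ + t • e) '' sphere 0 r) := by
    rw [mem_thickening_iff]
    refine ⟨y₀ + t • e, ⟨t, by rwa [mem_sphere_zero_iff_norm], rfl⟩, ?_⟩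
    rw [dist_comm, dist_eq_norm]
    rw [mem_ball, dist_eq_norm] at hy
    calc ‖y₀ + t • e - b‖ = ‖(y₀ - y) + (y + t • e - b)‖ := by congr 1; abel
      _ ≤ ‖y₀ - y‖ + ‖y + t • e - b‖ := norm_add_le _ _
      _ < δ := by
        rw [norm_sub_rev] at hy
        linarith
  exact hsub h6 hb

/-- uniformly on compact sets -/
theorem exists_circle_unif {D : Set (Fin n → ℂ)} (hD : IsClosed D)
    (thin : ∀ y₀ : Fin n → ℂ, ∃ h : (Fin n → ℂ) → ℂ, AnalyticAt ℂ h y₀ ∧ (∀ᶠ z in 𝓝 y₀, z ∈ D → h z = 0) ∧ ¬ ∀ᶠ z in 𝓝 y₀, h z = 0)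
    {K : Set (Fin n → ℂ)} (hK : IsCompact K) :
    ∃ δ : ℝ, 0 < δ ∧ ∀ y ∈ K, ∃ (e : Fin n → ℂ) (r : ℝ), 0 < r ∧ r * ‖e‖ ≤ 1 ∧ ∀ t : ℂ, ‖t‖ = r → ∀ b ∈ D, δ ≤ ‖y + t • e - b‖ := by
  refine hK.induction_on (p := fun K => ∃ δ : ℝ, 0 < δ ∧ ∀ y ∈ K, ∃ (e : Fin n → ℂ) (r : ℝ), 0 < r ∧ r * ‖e‖ ≤ 1 ∧
    ∀ t : ℂ, ‖t‖ = r → ∀ b ∈ D, δ ≤ ‖y + t • e - b‖) ?_ ?_ ?_ ?_
  · exact ⟨1, one_pos, fun y hy => absurd hy (Set.notMem_empty y)⟩
  · rintro s t hst ⟨δ, hδ, h⟩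
    exact ⟨δ, hδ, fun y hy => h y (hst hy)⟩
  · rintro s t ⟨δ, hδ, h⟩ ⟨δ', hδ', h'⟩
    refine ⟨min δ δ', lt_min hδ hδ', fun y hy => ?_⟩
    rcases hy with hy | hy
    · obtain ⟨e, r, hr, hre, h1⟩ := h y hy
      exact ⟨e, r, hr, hre, fun t ht b hb => (min_le_left _ _).trans (h1 t ht b hb)⟩
    · obtain ⟨e, r, hr, hre, h1⟩ := h' y hy
      exact ⟨e, r, hr, hre, fun t ht b hb => (min_le_right _ _).trans (h1 t ht b hb)⟩
  · intro y₀ _
    obtain ⟨e, r, δ, hr, hre, hδ, h⟩ := exists_circle_off hD (thin y₀)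
    exact ⟨ball y₀ δ, mem_nhdsWithin_of_mem_nhds (ball_mem_nhds y₀ hδ), δ, hδ, fun y hy => ⟨e, r, hr, hre, h y hy⟩⟩

end Pool.Agent.TG
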