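import Pool.Agent.TG.HyA

/-!
# TG HyB: the values of the extension of an entire map; comparison of a form at a point and on a small circle
-/

set_option autoImplicit false

open Topology Filter Metric MvPolynomial
open Pool.Agent.H22.AlgD (eval_smul_form analyticAt_eval)

namespace Pool.Agent.TG

variable {N n : ℕ}

/-- `v` represents the value at `y` of the holomorphic extension of `[F]` -/
def VAt (F : (Fin n → ℂ) → Fin (N + 1) → ℂ) (y : Fin n → ℂ) (v : Fin (N + 1) → ℂ) : Prop :=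
  ∃ φ : (Fin n → ℂ) → Fin (N + 1) → ℂ, AnalyticAt ℂ φ y ∧ φ y = v ∧ v ≠ 0 ∧ ∀ᶠ z in 𝓝 y, Pl (F z) (φ z)

variable {F : (Fin n → ℂ) → Fin (N + 1) → ℂ}

theorem VAt.unique (hF : Differentiable ℂ F) (hne : ∃ y, F y ≠ 0) {y : Fin n → ℂ} {v w : Fin (N + 1) → ℂ} (h : VAt F y v) (h' : VAt F y w) : Pl v w := by
  obtain ⟨φ, hφ, rfl, hv, h1⟩ := h
  obtain ⟨ψ, hψ, rfl, hw, h2⟩ := h'
  intro i k
  have hc : ∀ (χ : (Fin n → ℂ) → Fin (N + 1) → ℂ), AnalyticAt ℂ χ y → ∀ i, ContinuousAt (fun z => χ z i) y := fun χ hχ i =>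
    (continuousAt_pi.1 hχ.continuousAt) i
  have h3 := eq_zero_of_dense hF hne (y₀ := y) (A := fun z => φ z i * ψ z k - φ z k * ψ z i)
    (((hc φ hφ i).mul (hc ψ hψ k)).sub ((hc φ hφ k).mul (hc ψ hψ i))) (by
      filter_upwards [h1, h2] with z hz1 hz2 hz0
      rw [sub_eq_zero]
      exact (hz1.symm.trans hz2 hz0) i k)
  exact sub_eq_zero.1 h3

theorem VAt.shift (hF : Differentiable ℂ F) (hne : ∃ y, F y ≠ 0) {l : Fin n → ℂ} (hl : ∀ y, Pl (F (y + l)) (F y)) {y : Fin n → ℂ}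
    {v : Fin (N + 1) → ℂ} (h : VAt F y v) : VAt F (y + l) v := by
  obtain ⟨φ, hφ, hv, hv0, h1⟩ := h
  have ht : Tendsto (fun z : Fin n → ℂ => z - l) (𝓝 (y + l)) (𝓝 y) := by
    have h2 : Continuous fun z : Fin n → ℂ => z - l := by fun_prop
    have h3 := h2.tendsto (y + l)
    rwa [add_sub_cancel_right] at h3
  have hv' : φ (y + l - l) = v := by rw [add_sub_cancel_right]; exact hv
  refine ⟨fun z => φ (z - l), ?_, hv', hv0, ?_⟩
  · have h2 : AnalyticAt ℂ φ (y + l - l) := by rwa [add_sub_cancel_right]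
    exact AnalyticAt.comp (g := φ) (f := fun z : Fin n → ℂ => z - l) h2 (analyticAt_id.sub analyticAt_const)
  · filter_upwards [ht.eventually (h1.eventually_nhds.and hφ.eventually_analyticAt)] with z hz i k
    obtain ⟨hz1, hz2⟩ := hz
    have ht' : Tendsto (fun w : Fin n → ℂ => w - l) (𝓝 z) (𝓝 (z - l)) := by
      have h2 : Continuous fun w : Fin n → ℂ => w - l := by fun_prop
      exact h2.tendsto z
    have hc : ∀ i, ContinuousAt (fun w => φ (w - l) i) z := fun i =>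
      ContinuousAt.comp (g := fun w => φ w i) (f := fun w : Fin n → ℂ => w - l) ((continuousAt_pi.1 hz2.continuousAt) i) ht'
    have hcF : ∀ i, ContinuousAt (fun w => F w i) z := fun i => (continuousAt_pi.1 hF.continuous.continuousAt) i
    have h3 := eq_zero_of_dense (F := fun w => F (w - l)) (fun w => (hF _).comp w (differentiableAt_id.sub_const l))
      (by
        obtain ⟨y₁, hy₁⟩ := hne
        exact ⟨y₁ + l, by rwa [add_sub_cancel_right]⟩) (y₀ := z)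
      (A := fun w => F w i * φ (w - l) k - F w k * φ (w - l) i)
      (((hcF i).mul (hc k)).sub ((hcF k).mul (hc i))) (by
        filter_upwards [ht'.eventually hz1] with w hw1 hw0
        rw [sub_eq_zero]
        have h4 := hl (w - l)
        rw [sub_add_cancel] at h4
        exact (h4.trans hw1 hw0) i k)
    exact sub_eq_zero.1 h3

/-- the value of a form at a point is bounded by its values on small circles -/
theorem exists_cmp (hF : Differentiable ℂ F) (hne : ∃ y, F y ≠ 0) {y₀ : Fin n → ℂ} {v₀ : Fin (N + 1) → ℂ} (h : VAt F y₀ v₀) :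
    ∃ c : ℝ, 0 < c ∧ ∀ᶠ y in 𝓝 y₀, ∀ v, VAt F y v → ∀ (d : ℕ) (Q : MvPolynomial (Fin (N + 1)) ℂ), Q.IsHomogeneous d →
      ∃ y' : Fin n → ℂ, ‖y' - y‖ ≤ 1 ∧ c ^ d * ‖eval v Q‖ ≤ ‖v‖ ^ d * ‖eval (F y') Q‖ := by
  obtain ⟨φ, hφ, hv, hv0, h1⟩ := h
  have hn0 : 0 < ‖φ y₀‖ := by rw [hv]; exact norm_pos_iff.2 hv0
  have h2 : ∀ᶠ z in 𝓝 y₀, AnalyticAt ℂ φ z ∧ Pl (F z) (φ z) ∧ ‖φ y₀‖ / 2 < ‖φ z‖ ∧ ‖φ z‖ < 2 * ‖φ y₀‖ :=
    hφ.eventually_analyticAt.and (h1.and ((hφ.continuousAt.norm.eventually (lt_mem_nhds (by linarith))).and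
      (hφ.continuousAt.norm.eventually (gt_mem_nhds (by linarith)))))
  rw [Metric.eventually_nhds_iff] at h2
  obtain ⟨ρ, hρ, h3⟩ := h2
  obtain ⟨e, he⟩ := exists_dir_of_entire hF hne y₀
  rw [eventually_nhdsWithin_iff, Metric.eventually_nhds_iff] at he
  obtain ⟨ε, hε, h4⟩ := he
  obtain ⟨r, hr⟩ : ∃ r : ℝ, r = min (ε / 2) (min 1 (ρ / 2) / (‖e‖ + 1)) := ⟨_, rfl⟩
  have he1 : 0 < ‖e‖ + 1 := by positivity
  have hm : 0 < min 1 (ρ / 2) := lt_min one_pos (by linarith)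
  have hr0 : 0 < r := by
    rw [hr]
    exact lt_min (by linarith) (div_pos hm he1)
  have hrε : r < ε := lt_of_le_of_lt (hr ▸ min_le_left _ _) (by linarith)
  have hre : r * ‖e‖ ≤ min 1 (ρ / 2) := by
    have h6 : r ≤ min 1 (ρ / 2) / (‖e‖ + 1) := hr ▸ min_le_right _ _
    rw [le_div_iff₀ he1] at h6
    nlinarith [norm_nonneg e]
  have hre1 : r * ‖e‖ ≤ 1 := hre.trans (min_le_left _ _)
  have hreρ : r * ‖e‖ ≤ ρ / 2 := hre.trans (min_le_right _ _)
  have h5 : ∀ t ∈ sphere (0 : ℂ) r, F (y₀ + t • e) ≠ 0 := by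
    intro t ht
    rw [mem_sphere_zero_iff_norm] at ht
    refine h4 ?_ ?_
    · rw [dist_zero_right, ht]
      exact hrε
    · intro h0
      rw [Set.mem_singleton_iff] at h0
      rw [h0, norm_zero] at ht
      linarith
  have hcs : Continuous fun t : ℂ => ‖F (y₀ + t • e)‖ := by
    have := hF.continuous
    fun_prop
  obtain ⟨t₀, ht₀, hmin⟩ := (isCompact_sphere (0 : ℂ) r).exists_isMinOn (NormedSpace.sphere_nonempty.2 hr0.le) hcs.continuousOn
  obtain ⟨c₂, hc₂⟩ : ∃ c₂ : ℝ, c₂ = ‖F (y₀ + t₀ • e)‖ := ⟨_, rfl⟩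
  have hc₂0 : 0 < c₂ := by
    rw [hc₂]
    exact norm_pos_iff.2 (h5 t₀ ht₀)
  have h6 : ∀ᶠ y in 𝓝 y₀, ∀ t ∈ sphere (0 : ℂ) r, c₂ / 2 < ‖F (y + t • e)‖ := by
    refine (isCompact_sphere (0 : ℂ) r).eventually_forall_of_forall_eventually fun t ht => ?_
    have h7 : c₂ / 2 < ‖F (y₀ + t • e)‖ := by
      have h8 : c₂ ≤ ‖F (y₀ + t • e)‖ := by
        rw [hc₂]
        exact hmin ht
      linarith
    have h9 : Continuous fun z : (Fin n → ℂ) × ℂ => ‖F (z.1 + z.2 • e)‖ := by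
      have := hF.continuous
      fun_prop
    exact h9.continuousAt.eventually (lt_mem_nhds h7)
  have hb : ∀ᶠ y in 𝓝 y₀, dist y y₀ < ρ / 2 := Metric.eventually_nhds_iff.2 ⟨ρ / 2, by linarith, fun {y} hy => hy⟩
  refine ⟨c₂ / 2 * (‖φ y₀‖ / 2) / (2 * ‖φ y₀‖), by positivity, ?_⟩
  filter_upwards [h6, hb] with y hy1 hy2 v hvy d Q hQ
  have hdist : ∀ t ∈ closedBall (0 : ℂ) r, dist (y + t • e) y₀ < ρ := by
    intro t ht
    rw [mem_closedBall_zero_iff] at ht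
    calc dist (y + t • e) y₀ ≤ dist (y + t • e) y + dist y y₀ := dist_triangle _ _ _
      _ < ρ / 2 + ρ / 2 := by
        refine add_lt_add_of_le_of_lt ?_ hy2
        rw [dist_eq_norm, add_sub_cancel_left, norm_smul]
        exact (mul_le_mul_of_nonneg_right ht (norm_nonneg e)).trans hreρ
      _ = ρ := by ring
  -- the maximum of the form on the circle
  obtain ⟨G, hG⟩ : ∃ G : ℂ → ℂ, G = fun t => eval (φ (y + t • e)) Q := ⟨_, rfl⟩
  have hGan : ∀ t ∈ closedBall (0 : ℂ) r, AnalyticAt ℂ G t := by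
    intro t ht
    have h8 : AnalyticAt ℂ (fun w => eval (φ w) Q) (y + t • e) := analyticAt_eval (h3 (hdist t ht)).1 Q
    rw [hG]
    exact AnalyticAt.comp (g := fun w => eval (φ w) Q) (f := fun t : ℂ => y + t • e) h8
      (analyticAt_const.add (analyticAt_id.smul analyticAt_const))
  have hGd : DiffContOnCl ℂ G (ball 0 r) := by
    constructor
    · exact fun t ht => (hGan t (ball_subset_closedBall ht)).differentiableAt.differentiableWithinAt
    · rw [closure_ball _ hr0.ne']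
      exact fun t ht => (hGan t ht).continuousAt.continuousWithinAt
  obtain ⟨t, ht, hmax⟩ := Complex.exists_mem_frontier_isMaxOn_norm isBounded_ball (nonempty_ball.2 hr0) hGd
  rw [frontier_ball _ hr0.ne'] at ht
  have h7 : ‖G 0‖ ≤ ‖G t‖ := hmax (subset_closure (mem_ball_self hr0))
  rw [hG] at h7
  simp only [zero_smul, add_zero] at h7
  have htc : t ∈ closedBall (0 : ℂ) r := sphere_subset_closedBall ht
  obtain ⟨ha, hb1, hb2, hb3⟩ := h3 (hdist t htc)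
  have h0c : (0 : ℂ) ∈ closedBall (0 : ℂ) r := mem_closedBall_self hr0.le
  have hd0 := hdist 0 h0c
  rw [zero_smul, add_zero] at hd0
  obtain ⟨ha0, hp0, hb20, hb30⟩ := h3 hd0
  have hφ0 : φ y ≠ 0 := fun h => by
    rw [h, norm_zero] at hb20
    linarith
  have hφt : φ (y + t • e) ≠ 0 := fun h => by
    rw [h, norm_zero] at hb2
    linarith
  obtain ⟨g, hg⟩ := hb1.smul hφt
  have hev : ∀ᶠ z in 𝓝 y, Pl (F z) (φ z) := by
    have h8 : ∀ᶠ z in 𝓝 y, dist z y₀ < ρ := (isOpen_ball (x := y₀) (ε := ρ)).mem_nhds (by simpa using hd0)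
    filter_upwards [h8] with z hz
    exact (h3 hz).2.1
  obtain ⟨a, ha'⟩ := (hvy.unique hF hne ⟨φ, ha0, rfl, hφ0, hev⟩).smul hφ0
  refine ⟨y + t • e, ?_, ?_⟩
  · rw [add_sub_cancel_left, norm_smul]
    rw [mem_sphere_zero_iff_norm] at ht
    rw [ht]
    exact hre1
  · rw [hg, ha', eval_smul_form hQ, eval_smul_form hQ, norm_mul, norm_mul, norm_pow, norm_pow, norm_smul]
    -- the factor `g` is not small
    have hg1 : c₂ / 2 / (2 * ‖φ y₀‖) ≤ ‖g‖ := by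
      rw [div_le_iff₀ (by positivity)]
      have h8 := hy1 t ht
      rw [hg, norm_smul] at h8
      have h9 : ‖g‖ * ‖φ (y + t • e)‖ ≤ ‖g‖ * (2 * ‖φ y₀‖) := mul_le_mul_of_nonneg_left hb3.le (norm_nonneg g)
      linarith
    have h10 : c₂ / 2 * (‖φ y₀‖ / 2) / (2 * ‖φ y₀‖) ≤ ‖g‖ * ‖φ y‖ := by
      calc c₂ / 2 * (‖φ y₀‖ / 2) / (2 * ‖φ y₀‖) = c₂ / 2 / (2 * ‖φ y₀‖) * (‖φ y₀‖ / 2) := by ring
        _ ≤ ‖g‖ * ‖φ y‖ := mul_le_mul hg1 hb20.le (by positivity) (norm_nonneg g)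
    have h11 : (c₂ / 2 * (‖φ y₀‖ / 2) / (2 * ‖φ y₀‖)) ^ d ≤ (‖g‖ * ‖φ y‖) ^ d := pow_le_pow_left₀ (by positivity) h10 d
    calc (c₂ / 2 * (‖φ y₀‖ / 2) / (2 * ‖φ y₀‖)) ^ d * (‖a‖ ^ d * ‖eval (φ y) Q‖)
        ≤ (‖g‖ * ‖φ y‖) ^ d * (‖a‖ ^ d * ‖eval (φ (y + t • e)) Q‖) :=
          mul_le_mul h11 (mul_le_mul_of_nonneg_left h7 (by positivity)) (by positivity) (by positivity)
      _ = (‖a‖ * ‖φ y‖) ^ d * (‖g‖ ^ d * ‖eval (φ (y + t • e)) Q‖) := by ring

end Pool.Agent.TG
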