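import Pool.Agent.TG.SmE
import Pool.Agent.TG.HyC

/-!
# TG MerForm: the meromorphic sections lie in a hypersurface
-/

set_option autoImplicit false

open Topology Filter Metric MvPolynomial

namespace Pool.Agent.TG

open Pool.Agent.H36.BP (EN)
open Pool.Agent.H14.PP (IsCone)
open Pool.Agent.H62.EF (MN pr)
open Pool.Agent.AD (Vd)
open Pool.Agent.H17LG.Variety (FunField)
open Pool.Agent.H22.AlgD (eval_smul_form analyticAt_eval)

variable {N k : ℕ} {X : Set (EN N)} {Λ : AddSubgroup (Vd (k + 1))} {u : EN N → Vd (k + 1)} {D : Set (Vd (k + 1))}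

theorem analyticAt_ofLp {n : ℕ} {F : Vd n → EN N} {y : Vd n} (h : AnalyticAt ℂ F y) : AnalyticAt ℂ (fun z => (F z).ofLp) y :=
  ((EuclideanSpace.equiv (Fin (N + 1)) ℂ).toContinuousLinearMap.analyticAt _).comp h

/-- a form which vanishes on one of two equal meromorphic sections vanishes on the other one -/
theorem SameMap.eval_eq_zero {F G : Vd (k + 1) → EN N} (hF : Mer X Λ u F) (hG : Mer X Λ u G) (h : SameMap F G) {Q : MvPolynomial (Fin (N + 1)) ℂ} {d : ℕ}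
    (hQ : Q.IsHomogeneous d) (h0 : ∀ y, eval (G y).ofLp Q = 0) (y : Vd (k + 1)) : eval (F y).ofLp Q = 0 := by
  refine eq_zero_of_freq (f := fun y => eval (F y).ofLp Q) ?_ ?_
  · exact (analyticAt_eval (analyticAt_ofLp (hF.an y)) Q).continuousAt
  · refine (hG.freq y).mono fun z hz => ?_
    have hz' : (G z).ofLp ≠ 0 := fun h => hz (by
      ext i
      exact congrFun h i)
    obtain ⟨g, hg⟩ := Pl.smul (x := (F z).ofLp) (w := (G z).ofLp) (fun i k => h z i k) hz'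
    show eval (F z).ofLp Q = 0
    rw [hg, eval_smul_form hQ, h0, mul_zero]

/-- **The images of all meromorphic sections lie in a hypersurface** which does not contain the variety of `P`. -/
theorem mer_form {P : Ideal (MvPolynomial (Fin (N + 1)) ℂ)} [P.IsPrime] {z : Fin (k + 2) → FunField P} (hz : IsTranscendenceBasis ℂ z)
    (hXP : ∃ i, (MvPolynomial.X i : MvPolynomial (Fin (N + 1)) ℂ) ∉ P) (hX : IsCone X) (ht : TMap X Λ u) (hl : Lat Λ) (hDc : IsClosed D)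
    (hDinv : ∀ y ∈ D, ∀ l ∈ Λ, y + l ∈ D) (hD : DThin D) (hlip : ∀ y ∉ D, CLip X Λ u y) (hfin : FinSec X Λ u D) :
    ∃ (d : ℕ) (Q : MvPolynomial (Fin (N + 1)) ℂ), 1 ≤ d ∧ Q.IsHomogeneous d ∧ Q ∉ P ∧ ∀ F, Mer X Λ u F → ∀ y, eval (F y).ofLp Q = 0 := by
  obtain ⟨T, hT, hTm, hTs⟩ := mer_finite hX ht hl hDc hD hlip hfin
  obtain ⟨M, hM, hper⟩ := mer_periodic hT hTm hTs
  obtain ⟨R, hR, hcpt⟩ := hl.cpt
  have hMc : (0 : ℝ) < M := by exact_mod_cast hM
  let e : Fin hT.toFinset.card ≃ hT.toFinset := hT.toFinset.equivFin.symm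
  have hmem : ∀ j, (e j : Vd (k + 1) → EN N) ∈ T := fun j => hT.mem_toFinset.1 (e j).2
  have hmer : ∀ j, Mer X Λ u (e j : Vd (k + 1) → EN N) := fun j => hTm _ (hmem j)
  have key := exists_form_of_entire (n := k + 1) hz hXP (Γ := Λ.map (nsmulAddMonoidHom M)) (D := D)
    (F := fun j y => ((e j : Vd (k + 1) → EN N) y).ofLp) ?_ hDc ?_ hD ?_ ?_ ?_ ?_
  · obtain ⟨d, Q, hd, hQ, hQP, hQ0⟩ := key
    refine ⟨d, Q, hd, hQ, hQP, fun F hF => ?_⟩
    obtain ⟨G, hG, hFG⟩ := hTs F hF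
    obtain ⟨j, hj⟩ := e.surjective ⟨G, hT.mem_toFinset.2 hG⟩
    have hj' : (e j : Vd (k + 1) → EN N) = G := by rw [hj]
    refine hFG.eval_eq_zero hF (hTm G hG) hQ fun y => ?_
    rw [← hj']
    exact hQ0 j y
  · refine ⟨M * R, fun y => ?_⟩
    obtain ⟨l, hl', hyl⟩ := hcpt ((M : ℝ)⁻¹ • y)
    refine ⟨M • l, ⟨l, hl', rfl⟩, ?_⟩
    have h1 : y - M • l = (M : ℝ) • ((M : ℝ)⁻¹ • y - l) := by
      rw [smul_sub, smul_smul, mul_inv_cancel₀ hMc.ne', one_smul, Nat.cast_smul_eq_nsmul ℝ]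
    rw [h1, norm_smul, Real.norm_of_nonneg hMc.le]
    exact mul_le_mul_of_nonneg_left hyl hMc.le
  · rintro y hy _ ⟨l, hl', rfl⟩
    exact hDinv y hy _ (Λ.nsmul_mem hl' M)
  · intro j y
    exact (analyticAt_ofLp ((hmer j).an y)).differentiableAt
  · intro j
    obtain ⟨y, hy⟩ := (hmer j).ne
    refine ⟨y, fun h => hy ?_⟩
    ext i
    exact congrFun h i
  · rintro j _ ⟨l, hl', rfl⟩ y a b
    have h1 := hper _ (hmer j) l hl' y b a
    show ((e j : Vd (k + 1) → EN N) (y + M • l)).ofLp a * ((e j : Vd (k + 1) → EN N) y).ofLp b =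
      ((e j : Vd (k + 1) → EN N) (y + M • l)).ofLp b * ((e j : Vd (k + 1) → EN N) y).ofLp a
    linear_combination h1
  · intro j y₀ hy₀
    obtain ⟨φ, h1, h2, h3⟩ := mer_germ hX ht hl (hlip y₀ hy₀) (hmer j)
    have hne : ∀ y, φ y ∈ X → φ y ≠ 0 := fun y hy h0 => hX.zero_notMem (h0 ▸ hy)
    refine ⟨fun y => (φ y).ofLp, analyticAt_ofLp h1, fun h => ?_, ?_⟩
    · refine hne y₀ h2.self_of_nhds.1 ?_
      ext i
      exact congrFun h i
    · filter_upwards [h2, h3] with y hy2 hy3 a b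
      by_cases hy : (e j : Vd (k + 1) → EN N) y = 0
      · rw [hy]
        simp
      · exact (cross_iff hy (hne y hy2.1)).2 (hy3 hy).symm a b

end Pool.Agent.TG
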