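import Pool.Agent.TG.SaA
import Pool.Agent.TN.Osg

/-!
# TG SaB: meromorphic maps of order two from `ℂ^g` to varieties over complex tori are mapped to affine maps

`F : ℂ^g → EN N` is an entire function, zeros allowed, with `F z ∈ X` if `F z ≠ 0` and `log |F z| ≤ C (1 + |z|²)`.
-/

set_option autoImplicit false

open Topology Filter Metric

noncomputable section

namespace Pool.Agent.TG

open Pool.Agent.H36.BP (EN fs wd)
open Pool.Agent.H14.PP (IsCone CurveAt Tan)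
open Pool.Agent.AD (Vd Charts TorusMapV DiscreteSub)

variable {N n g d : ℕ} {X : Set (EN N)} {Λ : AddSubgroup (Vd n)} {u : EN N → Vd n}

/-- differentiable functions of several variables are analytic -/
theorem analyticAt_vd {E : Type*} [NormedAddCommGroup E] [NormedSpace ℂ E] [CompleteSpace E] {f : Vd g → E} (hf : Differentiable ℂ f) (w : Vd g) :
    AnalyticAt ℂ f w := by
  have h1 : ∀ᶠ y in 𝓝 w, ‖f y‖ < ‖f w‖ + 1 := hf.continuous.norm.continuousAt.eventually_lt continuousAt_const (lt_add_one _)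
  obtain ⟨r, hr, hb⟩ := Metric.eventually_nhds_iff_ball.1 h1
  refine Pool.Agent.TN.osgood_pi hr (M := ‖f w‖ + 1) (fun y hy => (hb y hy).le) fun y _ l => ?_
  have h2 : Differentiable ℂ fun t : ℂ => y + t • (Pi.single l 1 : Vd g) := by fun_prop
  exact (hf.comp h2) 0

/-- a holomorphic curve in `ℂ^n` with values in a discrete group near `0` is constant near `0` -/
theorem deriv_zero_of_mem (hΛ : DiscreteSub Λ) {h : ℂ → Vd n} (hh : AnalyticAt ℂ h 0) (hm : ∀ᶠ z in 𝓝 (0 : ℂ), h z ∈ Λ) : ∀ᶠ z in 𝓝 (0 : ℂ), h z = h 0 :=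
  Pool.Agent.AD.eventually_const_of_mem hΛ hh.continuousAt hm

theorem eq_of_smul_mem (hΛ : DiscreteSub Λ) {a b : Vd n} (hm : ∀ᶠ z : ℂ in 𝓝 (0 : ℂ), z • a - z • b ∈ Λ) : a = b := by
  have h1 := deriv_zero_of_mem hΛ (h := fun z : ℂ => z • a - z • b) (by fun_prop) hm
  have h2 : ∀ᶠ z : ℂ in 𝓝[≠] (0 : ℂ), z • a - z • b = (0 : ℂ) • a - (0 : ℂ) • b := h1.filter_mono nhdsWithin_le_nhds
  obtain ⟨z, hz, hz0⟩ := (h2.and self_mem_nhdsWithin).exists
  rw [zero_smul, zero_smul, sub_zero, ← smul_sub, smul_eq_zero] at hz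
  exact sub_eq_zero.1 (hz.resolve_left hz0)

/-- the restriction of `F` to a line has order two -/
theorem line_growth {F : Vd g → EN N} {C : ℝ} (hC : ∀ z, ‖F z‖ ≤ Real.exp (C * (1 + ‖z‖ ^ 2))) (y v : Vd g) :
    ∀ s : ℂ, ‖F (y + s • v)‖ ≤ Real.exp (|C| * (1 + 2 * ‖y‖ ^ 2 + 2 * ‖v‖ ^ 2) * (1 + ‖s‖ ^ 2)) := by
  intro s
  refine (hC _).trans (Real.exp_le_exp.2 ?_)
  have h1 : ‖y + s • v‖ ≤ ‖y‖ + ‖s‖ * ‖v‖ := (norm_add_le _ _).trans (by rw [norm_smul])
  have h2 : ‖y + s • v‖ ^ 2 ≤ 2 * ‖y‖ ^ 2 + 2 * (‖s‖ ^ 2 * ‖v‖ ^ 2) := by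
    have h3 : ‖y + s • v‖ ^ 2 ≤ (‖y‖ + ‖s‖ * ‖v‖) ^ 2 := pow_le_pow_left₀ (norm_nonneg _) h1 2
    nlinarith [sq_nonneg (‖y‖ - ‖s‖ * ‖v‖)]
  have h4 : 1 + ‖y + s • v‖ ^ 2 ≤ (1 + 2 * ‖y‖ ^ 2 + 2 * ‖v‖ ^ 2) * (1 + ‖s‖ ^ 2) := by
    nlinarith [sq_nonneg ‖s‖, sq_nonneg ‖y‖, sq_nonneg ‖v‖, mul_nonneg (sq_nonneg ‖s‖) (sq_nonneg ‖y‖), mul_nonneg (sq_nonneg ‖s‖) (sq_nonneg ‖v‖)]
  calc C * (1 + ‖y + s • v‖ ^ 2) ≤ |C| * (1 + ‖y + s • v‖ ^ 2) := mul_le_mul_of_nonneg_right (le_abs_self C) (by positivity)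
    _ ≤ |C| * ((1 + 2 * ‖y‖ ^ 2 + 2 * ‖v‖ ^ 2) * (1 + ‖s‖ ^ 2)) := mul_le_mul_of_nonneg_left h4 (abs_nonneg _)
    _ = _ := by ring

theorem line_diff {F : Vd g → EN N} (hF : Differentiable ℂ F) (y v : Vd g) : Differentiable ℂ fun s : ℂ => F (y + s • v) := by
  have h1 : Differentiable ℂ fun s : ℂ => y + s • v := by fun_prop
  exact hF.comp h1

/-- **Meromorphic maps of order two are mapped to affine maps.** -/
theorem exists_linear (hX : IsCone X) (hch : Charts d X) (hu : TorusMapV X Λ u) (hΛ : DiscreteSub Λ) {F : Vd g → EN N}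
    (hF : Differentiable ℂ F) (hFX : ∀ z, F z ≠ 0 → F z ∈ X) {C : ℝ} (hC : ∀ z, ‖F z‖ ≤ Real.exp (C * (1 + ‖z‖ ^ 2))) {y : Vd g} (hy : F y ≠ 0) :
    ∃ B : Vd g →L[ℂ] Vd n, (∀ z, F z ≠ 0 → u (F z) - (u (F y) + B (z - y)) ∈ Λ) ∧
      ∀ w, F w ≠ 0 → ∀ v, ∃ G : ℂ → EN N, Differentiable ℂ G ∧ (∀ s, G s ∈ X) ∧ (∀ s : ℂ, ∃ c : ℂ, F (w + s • v) = c • G s) ∧
        ∀ s : ℂ, u (G s) - (u (F w) + s • B v) ∈ Λ := by
  have hyX := hFX y hy
  obtain ⟨v₀, hv₀, hv₀u⟩ := hu.loc _ hyX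
  have hFan : ∀ z, AnalyticAt ℂ F z := analyticAt_vd hF
  have hFc := hF.continuous
  obtain ⟨ψ, hψ⟩ : ∃ ψ : Vd g → Vd n, ψ = fun z => v₀ (F z) := ⟨_, rfl⟩
  have hψan : AnalyticAt ℂ ψ y := by
    rw [hψ]
    exact AnalyticAt.comp (g := v₀) (f := F) hv₀ (hFan y)
  have hψu : ∀ᶠ z in 𝓝 y, u (F z) - ψ z ∈ Λ := by
    filter_upwards [hFc.continuousAt.eventually hv₀u, hFc.continuousAt.eventually_ne hy] with z h1 h2
    rw [hψ]
    exact h1 (hFX z h2)
  -- a line through a point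
  have hline : ∀ w, F w ≠ 0 → ∀ v, ∃ (G : ℂ → EN N) (a : Vd n), Differentiable ℂ G ∧ (∀ s, G s ∈ X) ∧ (∀ s : ℂ, ∃ c : ℂ, F (w + s • v) = c • G s) ∧
      ∀ s : ℂ, u (G s) - (u (F w) + s • a) ∈ Λ := by
    intro w hw v
    obtain ⟨G, a, h1, h2, h3, h4⟩ := exists_curve_affine hX hch hu hΛ (F := fun s : ℂ => F (w + s • v)) (line_diff hF w v)
      (fun s hs => hFX _ hs) (by simpa using hw) (line_growth hC w v)
    refine ⟨G, a, h1, h2, h3, fun s => ?_⟩
    have h5 := h4 s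
    simp only [zero_smul, add_zero] at h5
    exact h5
  -- the value of `u` at a point of the line
  have hval : ∀ w (v : Vd g) (G : ℂ → EN N) (s : ℂ), (∀ s, G s ∈ X) → F (w + s • v) ≠ 0 → (∃ c : ℂ, F (w + s • v) = c • G s) →
      u (F (w + s • v)) - u (G s) ∈ Λ := by
    rintro w v G s hGX hne ⟨c, hc⟩
    have hc0 : c ≠ 0 := by
      rintro rfl
      rw [zero_smul] at hc
      exact hne hc
    rw [hc]
    exact hu.smul _ (hGX s) c hc0
  have hB : ∀ z, F z ≠ 0 → u (F z) - (u (F y) + fderiv ℂ ψ y (z - y)) ∈ Λ := by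
    intro z hz
    obtain ⟨G, a, hG, hGX, hFG, hGu⟩ := hline y hy (z - y)
    have hcl : ContinuousAt (fun s : ℂ => y + s • (z - y)) 0 := by fun_prop
    have hcl' : Tendsto (fun s : ℂ => y + s • (z - y)) (𝓝 0) (𝓝 y) := by
      have := hcl.tendsto
      simpa using this
    have ha : fderiv ℂ ψ y (z - y) = a := by
      have h1 := Pool.Agent.AD.deriv_eq_of_mem (Λ := Λ) hΛ (h := fun s : ℂ => ψ (y + s • (z - y))) (k := fun s : ℂ => u (F y) + s • a) (z₀ := 0)
        (by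
          have h2 : AnalyticAt ℂ (fun s : ℂ => y + s • (z - y)) 0 := by fun_prop
          refine AnalyticAt.comp (g := ψ) (f := fun s : ℂ => y + s • (z - y)) ?_ h2
          show AnalyticAt ℂ ψ (y + (0 : ℂ) • (z - y))
          rwa [zero_smul, add_zero])
        (by fun_prop) (by
          filter_upwards [hcl'.eventually hψu, hcl'.eventually (hFc.continuousAt.eventually_ne hy)] with s h3 h4
          have h5 := Λ.add_mem (Λ.sub_mem (hval y (z - y) G s hGX h4 (hFG s)) h3) (hGu s)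
          have h6 : ψ (y + s • (z - y)) - (u (F y) + s • a) = u (F (y + s • (z - y))) - u (G s) - (u (F (y + s • (z - y))) - ψ (y + s • (z - y))) +
              (u (G s) - (u (F y) + s • a)) := by abel
          rw [h6]
          exact h5)
      have h2 : HasDerivAt (fun s : ℂ => ψ (y + s • (z - y))) (fderiv ℂ ψ y (z - y)) 0 := by
        have h3 : HasFDerivAt ψ (fderiv ℂ ψ y) (y + (0 : ℂ) • (z - y)) := by
          rw [zero_smul, add_zero]
          exact hψan.differentiableAt.hasFDerivAt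
        have h4 : HasDerivAt (fun s : ℂ => y + s • (z - y)) (z - y) 0 := by
          have h5 : HasDerivAt (fun s : ℂ => s • (z - y)) ((1 : ℂ) • (z - y)) 0 := (hasDerivAt_id (0 : ℂ)).smul_const (z - y)
          rw [one_smul] at h5
          exact h5.const_add y
        exact h3.comp_hasDerivAt (0 : ℂ) h4
      have h3 : HasDerivAt (fun s : ℂ => u (F y) + s • a) a 0 := by
        have h5 : HasDerivAt (fun s : ℂ => s • a) ((1 : ℂ) • a) 0 := (hasDerivAt_id (0 : ℂ)).smul_const a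
        rw [one_smul] at h5
        exact h5.const_add (u (F y))
      rw [h2.deriv, h3.deriv] at h1
      exact h1
    have h1 := hGu 1
    have hz1 : y + (1 : ℂ) • (z - y) = z := by rw [one_smul, add_sub_cancel]
    have h2 := hval y (z - y) G 1 hGX (by rwa [hz1]) (hFG 1)
    rw [hz1] at h2
    rw [one_smul] at h1
    rw [ha]
    have h3 := Λ.add_mem h2 h1
    have h4 : u (F z) - u (G 1) + (u (G 1) - (u (F y) + a)) = u (F z) - (u (F y) + a) := by abel
    rwa [h4] at h3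
  refine ⟨fderiv ℂ ψ y, hB, fun w hw v => ?_⟩
  obtain ⟨G, a, hG, hGX, hFG, hGu⟩ := hline w hw v
  have hcl : ContinuousAt (fun s : ℂ => w + s • v) 0 := by fun_prop
  have hcl' : Tendsto (fun s : ℂ => w + s • v) (𝓝 0) (𝓝 w) := by
    have := hcl.tendsto
    simpa using this
  have ha : fderiv ℂ ψ y v = a := by
    refine eq_of_smul_mem hΛ ?_
    filter_upwards [hcl'.eventually (hFc.continuousAt.eventually_ne hw)] with s h1
    have h2 := hB _ h1
    have h3 := hB w hw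
    have h4 := hval w v G s hGX h1 (hFG s)
    have h5 := Λ.add_mem (Λ.sub_mem (Λ.sub_mem h4 h2) (Λ.neg_mem h3)) (hGu s)
    have h6 : fderiv ℂ ψ y (w + s • v - y) = fderiv ℂ ψ y (w - y) + s • fderiv ℂ ψ y v := by
      have h7 : w + s • v - y = (w - y) + s • v := by abel
      rw [h7, map_add, map_smul]
    rw [h6] at h5
    have h7 : u (F (w + s • v)) - u (G s) - (u (F (w + s • v)) - (u (F y) + (fderiv ℂ ψ y (w - y) + s • fderiv ℂ ψ y v))) -
        -(u (F w) - (u (F y) + fderiv ℂ ψ y (w - y))) + (u (G s) - (u (F w) + s • a)) = s • fderiv ℂ ψ y v - s • a := by abel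
    rwa [h7] at h5
  refine ⟨G, hG, hGX, hFG, fun s => ?_⟩
  rw [ha]
  exact hGu s

/-- **The linear part is zero in the directions of exponential growth.** -/
theorem map_zero_of_growth (hX : IsCone X) (hch : Charts d X) (hu : TorusMapV X Λ u) (hΛ : DiscreteSub Λ) {F : Vd g → EN N}
    (hF : Differentiable ℂ F) (hFX : ∀ z, F z ≠ 0 → F z ∈ X) {y : Vd g} (hy : F y ≠ 0) {B : Vd g →L[ℂ] Vd n}
    (hB : ∀ z, F z ≠ 0 → u (F z) - (u (F y) + B (z - y)) ∈ Λ) {t : Vd g} {C : ℝ}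
    (hC : ∀ s : ℂ, ‖F (y + s • t)‖ ≤ Real.exp (C * (1 + ‖s • t‖))) : B t = 0 := by
  have hFc := hF.continuous
  have hd : Differentiable ℂ fun s : ℂ => F (y + (s ^ 2) • t) := by
    have h1 : Differentiable ℂ fun s : ℂ => y + (s ^ 2) • t := by fun_prop
    exact hF.comp h1
  obtain ⟨G, a, hG, hGX, hFG, hGu⟩ := exists_curve_affine hX hch hu hΛ (F := fun s : ℂ => F (y + (s ^ 2) • t)) hd
    (fun s hs => hFX _ hs) (by simpa using hy) (C := |C| * (1 + ‖t‖)) (fun s => by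
      refine (hC _).trans (Real.exp_le_exp.2 ?_)
      rw [norm_smul, norm_pow]
      calc C * (1 + ‖s‖ ^ 2 * ‖t‖) ≤ |C| * (1 + ‖s‖ ^ 2 * ‖t‖) := mul_le_mul_of_nonneg_right (le_abs_self C) (by positivity)
        _ ≤ |C| * ((1 + ‖t‖) * (1 + ‖s‖ ^ 2)) := mul_le_mul_of_nonneg_left (by nlinarith [sq_nonneg ‖s‖, norm_nonneg t]) (abs_nonneg _)
        _ = _ := by ring)
  simp only [ne_eq, OfNat.ofNat_ne_zero, not_false_eq_true, zero_pow, zero_smul, add_zero] at hGu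
  have hcl : ContinuousAt (fun s : ℂ => y + (s ^ 2) • t) 0 := by fun_prop
  have hcl' : Tendsto (fun s : ℂ => y + (s ^ 2) • t) (𝓝 0) (𝓝 y) := by
    have := hcl.tendsto
    simpa using this
  have h1 : ∀ᶠ s : ℂ in 𝓝 (0 : ℂ), (s ^ 2) • B t - s • a ∈ Λ := by
    filter_upwards [hcl'.eventually (hFc.continuousAt.eventually_ne hy)] with s h1
    have h2 := hB _ h1
    obtain ⟨c, hc⟩ := hFG s
    have hc0 : c ≠ 0 := by
      rintro rfl
      rw [zero_smul] at hc
      exact h1 hc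
    have h3 := hu.smul _ (hGX s) c hc0
    rw [← hc] at h3
    have h4 := Λ.add_mem (Λ.sub_mem h3 h2) (hGu s)
    rw [add_sub_cancel_left, map_smul] at h4
    have h5 : u (F (y + s ^ 2 • t)) - u (G s) - (u (F (y + s ^ 2 • t)) - (u (F y) + s ^ 2 • B t)) + (u (G s) - (u (F y) + s • a)) =
        s ^ 2 • B t - s • a := by abel
    rwa [h5] at h4
  have h2 := deriv_zero_of_mem hΛ (h := fun s : ℂ => (s ^ 2) • B t - s • a) (by fun_prop) h1
  simp only [ne_eq, OfNat.ofNat_ne_zero, not_false_eq_true, zero_pow, zero_smul, sub_zero] at h2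
  have h3 : ∀ᶠ s : ℂ in 𝓝[≠] (0 : ℂ), s • B t = a := by
    filter_upwards [h2.filter_mono nhdsWithin_le_nhds, self_mem_nhdsWithin] with s h3 h4
    have h5 : s • (s • B t - a) = 0 := by rw [smul_sub, smul_smul, ← sq, h3]
    exact sub_eq_zero.1 ((smul_eq_zero.1 h5).resolve_left h4)
  have h4 : Tendsto (fun s : ℂ => s • B t) (𝓝[≠] 0) (𝓝 ((0 : ℂ) • B t)) :=
    ((continuous_id.smul continuous_const).tendsto (0 : ℂ)).mono_left nhdsWithin_le_nhds
  rw [zero_smul] at h4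
  have h5 : a = 0 := tendsto_nhds_unique (tendsto_const_nhds.congr' (h3.mono fun s hs => hs.symm)) h4
  obtain ⟨s, hs, hs0⟩ := (h3.and self_mem_nhdsWithin).exists
  rw [h5, smul_eq_zero] at hs
  exact hs.resolve_left hs0

/-- two nonzero entire functions on `ℂ^g` are both not zero at some point -/
theorem exists_both_ne {E E' : Type*} [NormedAddCommGroup E] [NormedSpace ℂ E] [CompleteSpace E] [NormedAddCommGroup E'] [NormedSpace ℂ E'] [CompleteSpace E']
    {F : Vd g → E} (hF : Differentiable ℂ F) {F' : Vd g → E'} (hF' : Continuous F') (hy : ∃ y, F y ≠ 0) (hy' : ∃ y, F' y ≠ 0) : ∃ z, F z ≠ 0 ∧ F' z ≠ 0 := by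
  by_contra hcon
  push Not at hcon
  obtain ⟨y, hy⟩ := hy
  obtain ⟨y', hy'⟩ := hy'
  apply hy
  have h1 : AnalyticOnNhd ℂ F Set.univ := fun z _ => analyticAt_vd hF z
  refine h1.eqOn_zero_of_preconnected_of_eventuallyEq_zero isPreconnected_univ (Set.mem_univ y') ?_ (Set.mem_univ y)
  filter_upwards [hF'.continuousAt.eventually_ne hy'] with z hz
  by_contra h2
  exact hz (hcon z h2)

/-- **The linear part maps periods to periods.** -/
theorem map_period (hu : TorusMapV X Λ u) {F : Vd g → EN N}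
    (hF : Differentiable ℂ F) (hFX : ∀ z, F z ≠ 0 → F z ∈ X) {y : Vd g} (hy : F y ≠ 0) {B : Vd g →L[ℂ] Vd n}
    (hB : ∀ z, F z ≠ 0 → u (F z) - (u (F y) + B (z - y)) ∈ Λ) {l : Vd g}
    (hl : ∀ z i j, F (z + l) i * F z j = F (z + l) j * F z i) : B l ∈ Λ := by
  obtain ⟨z, h1, h2⟩ := exists_both_ne (F := F) (F' := fun z => F (z + l)) hF (hF.continuous.comp (continuous_id.add continuous_const)) ⟨y, hy⟩
    ⟨y - l, by simpa using hy⟩
  obtain ⟨j, hj⟩ := en_coord_ne h1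
  have h3 : F (z + l) = (F (z + l) j / F z j) • F z := by
    ext i
    show F (z + l) i = F (z + l) j / F z j * F z i
    have h4 := hl z i j
    field_simp
    linear_combination h4
  have h4 : F (z + l) j / F z j ≠ 0 := by
    intro h
    rw [h, zero_smul] at h3
    exact h2 h3
  have h5 := hu.smul _ (hFX z h1) _ h4
  rw [← h3] at h5
  have h6 := Λ.add_mem (Λ.sub_mem h5 (hB _ h2)) (hB z h1)
  have h7 : B (z + l - y) = B (z - y) + B l := by
    rw [← map_add]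
    congr 1
    abel
  rw [h7] at h6
  have h8 : u (F (z + l)) - u (F z) - (u (F (z + l)) - (u (F y) + (B (z - y) + B l))) + (u (F z) - (u (F y) + B (z - y))) = B l := by abel
  rwa [h8] at h6

end Pool.Agent.TG
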