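import Pool.Agent.TG.SaB
import Pool.Agent.AD.V.KobFs
import Pool.Agent.H22.W.Zal

/-!
# TG SaC: maps from semi-abelian varieties to varieties over complex tori, the four cases

`F : ℂ^g → EN N` is an entire function, zeros allowed, with `F z ∈ X` if `F z ≠ 0`, `log |F z| ≤ C (1 + |z|²)`, `log |F (z + t)| ≤ C_z (1 + |t|)` for `t ∈ T`,
and the periods `L`; `T` and `L` span `ℂ^g` over the real numbers.
-/

set_option autoImplicit false

open Topology Filter Metric

noncomputable section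

namespace Pool.Agent.TG

open Pool.Agent.H36.BP (EN fs wd)
open Pool.Agent.H14.PP (IsCone CurveAt Tan)
open Pool.Agent.AD (Vd Charts TorusMapV DiscreteSub zeroLength)

variable {N n g d : ℕ} {X : Set (EN N)} {Λ : AddSubgroup (Vd n)} {u : EN N → Vd n}

/-- the fibre over `y` -/
def SaFb (X : Set (EN N)) (Λ : AddSubgroup (Vd n)) (u : EN N → Vd n) (y : Vd n) : Set (EN N) := {x | x ∈ X ∧ u x - y ∈ Λ}

theorem isCone_saFb (hX : IsCone X) (hu : TorusMapV X Λ u) (hΛ : DiscreteSub Λ) (y : Vd n) : IsCone (SaFb X Λ u y) := by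
  refine ⟨fun h => hX.zero_notMem h.1, fun x hx c hc => ⟨hX.smul_mem x hx.1 c hc, ?_⟩, ?_⟩
  · have h1 := Λ.add_mem (hu.smul x hx.1 c hc) hx.2
    rwa [sub_add_sub_cancel] at h1
  · rw [← isOpen_compl_iff, isOpen_iff_mem_nhds]
    intro x hx
    have hx0 : x ≠ 0 := fun h => hx (h ▸ Set.mem_insert _ _)
    have hxF : x ∉ SaFb X Λ u y := fun h => hx (Or.inr h)
    have hne : ∀ᶠ w in 𝓝 x, w ≠ 0 := continuousAt_id.eventually_ne hx0
    by_cases hxX : x ∈ X
    · obtain ⟨v, hv, hvu⟩ := hu.loc x hxX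
      obtain ⟨δ, hδ, hd⟩ := hΛ
      have hvx : v x - y ∉ Λ := by
        intro h
        apply hxF
        refine ⟨hxX, ?_⟩
        have h1 := Λ.add_mem (hvu.self_of_nhds hxX) h
        rwa [sub_add_sub_cancel] at h1
      by_cases hfar : ∀ᶠ w in 𝓝 x, v w - y ∉ Λ
      · filter_upwards [hne, hfar, hvu] with w h1 h2 h3 h4
        rcases h4 with h4 | h4
        · exact h1 h4
        · apply h2
          have h5 := Λ.sub_mem h4.2 (h3 h4.1)
          rwa [sub_sub_sub_cancel_left] at h5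
      · have hball : ∀ᶠ w in 𝓝 x, ‖v w - v x‖ < δ / 2 := by
          have h1 := hv.continuousAt.eventually (ball_mem_nhds (v x) (half_pos hδ))
          filter_upwards [h1] with w hw
          rw [← dist_eq_norm]
          exact hw
        obtain ⟨w₀, hw₀, hw₀'⟩ : ∃ w₀, v w₀ - y ∈ Λ ∧ ‖v w₀ - v x‖ < δ / 2 := by
          by_contra hcon
          push Not at hcon
          apply hfar
          filter_upwards [hball] with w hw hw2
          exact absurd hw (not_lt.2 (hcon w hw2))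
        have hxw : v x ≠ v w₀ := by
          intro h
          rw [h] at hvx
          exact hvx hw₀
        filter_upwards [hne, hball, hvu, hv.continuousAt.eventually_ne hxw] with w h1 h2 h3 h4 h5
        rcases h5 with h5 | h5
        · exact h1 h5
        · apply h4
          have h6 := Λ.sub_mem h5.2 (h3 h5.1)
          rw [sub_sub_sub_cancel_left] at h6
          have h7 := Λ.sub_mem h6 hw₀
          rw [sub_sub_sub_cancel_right] at h7
          have h8 : ‖v w - v w₀‖ < δ := by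
            calc ‖v w - v w₀‖ = ‖(v w - v x) - (v w₀ - v x)‖ := by congr 1; abel
              _ ≤ ‖v w - v x‖ + ‖v w₀ - v x‖ := norm_sub_le _ _
              _ < δ := by linarith
          exact sub_eq_zero.1 (hd _ h7 h8)
    · have h1 : (insert 0 X)ᶜ ∈ 𝓝 x := hX.closed.isOpen_compl.mem_nhds (by
        rintro (h | h)
        · exact hx0 h
        · exact hxX h)
      filter_upwards [h1] with w hw hw2
      rcases hw2 with hw2 | hw2
      · exact hw (Or.inl hw2)
      · exact hw (Or.inr hw2.1)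

/-- **Brody's lemma in a fibre**: if the entire curves with bounded derivative in the fibre are constant then all entire curves in the fibre are constant. -/
theorem fibre_const (hX : IsCone X) (hu : TorusMapV X Λ u) (hΛ : DiscreteSub Λ) {y : Vd n}
    (h : ∀ F : ℂ → EN N, Differentiable ℂ F → (∀ z, F z ∈ X) → (∀ z, u (F z) - y ∈ Λ) → (∃ L : ℝ, ∀ z, fs (F z) (deriv F z) ≤ L) →
      ∀ z w, ∃ c : ℂ, F z = c • F w)
    {F : ℂ → EN N} (hF : Differentiable ℂ F) (hFX : ∀ z, F z ∈ X) (hFu : ∀ z, u (F z) - y ∈ Λ) (z w : ℂ) : ∃ c : ℂ, F z = c • F w := by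
  have hc := isCone_saFb hX hu hΛ y
  obtain ⟨L, -, hL⟩ := Pool.Agent.H22.W.exists_lipschitz hc (zeroLength (SaFb X Λ u y)) (fun G hG hGX hG1 _ =>
    h G hG (fun z => (hGX z).1) (fun z => (hGX z).2) ⟨1, hG1⟩)
  exact h F hF hFX hFu ⟨L, hL F hF (fun z => ⟨hFX z, hFu z⟩) fun z => zero_le_one⟩ z w

/-- `F` is an entire representative of a meromorphic map from `ℂ^g / L` to `X`, of the type of the rational maps from semi-abelian varieties -/
structure Rep (X : Set (EN N)) (F : Vd g → EN N) (T : Submodule ℂ (Vd g)) (L : AddSubgroup (Vd g)) : Prop where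
  diff : Differentiable ℂ F
  ne : ∃ z, F z ≠ 0
  mem : ∀ z, F z ≠ 0 → F z ∈ X
  growth : ∃ C : ℝ, ∀ z, ‖F z‖ ≤ Real.exp (C * (1 + ‖z‖ ^ 2))
  torus : ∀ z, ∃ C : ℝ, ∀ t ∈ T, ‖F (z + t)‖ ≤ Real.exp (C * (1 + ‖t‖))
  periodic : ∀ l ∈ L, ∀ z i j, F (z + l) i * F z j = F (z + l) j * F z i
  span : T.restrictScalars ℝ ⊔ Submodule.span ℝ (L : Set (Vd g)) = ⊤

/-- two entire functions which are proportional on a nonempty open set are proportional -/
theorem prop_of_open {F G : Vd g → EN N} (hF : Differentiable ℂ F) (hG : Differentiable ℂ G) {z₀ : Vd g}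
    (h : ∀ᶠ z in 𝓝 z₀, ∀ i j, F z i * G z j = F z j * G z i) (z : Vd g) (i j : Fin (N + 1)) : F z i * G z j = F z j * G z i := by
  have hco : ∀ {H : Vd g → EN N}, Differentiable ℂ H → ∀ k, Differentiable ℂ fun z => H z k := fun {H} hH k =>
    (EuclideanSpace.proj (𝕜 := ℂ) k : EN N →L[ℂ] ℂ).differentiable.comp hH
  have hd : Differentiable ℂ fun z => F z i * G z j - F z j * G z i := ((hco hF i).mul (hco hG j)).sub ((hco hF j).mul (hco hG i))
  have h1 : AnalyticOnNhd ℂ (fun z => F z i * G z j - F z j * G z i) Set.univ := fun z _ => analyticAt_vd hd z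
  have h2 := h1.eqOn_zero_of_preconnected_of_eventuallyEq_zero isPreconnected_univ (Set.mem_univ z₀) (by
    filter_upwards [h] with z hz
    show F z i * G z j - F z j * G z i = 0
    rw [hz, sub_self]) (Set.mem_univ z)
  exact sub_eq_zero.1 h2

theorem prop_of_smul {x y : EN N} {c : ℂ} (h : x = c • y) (i j : Fin (N + 1)) : x i * y j = x j * y i := by
  rw [h]
  show c * y i * y j = c * y j * y i
  ring

theorem prop_trans {x y z : EN N} (hy : y ≠ 0) (h1 : ∀ i j, x i * y j = x j * y i) (h2 : ∀ i j, y i * z j = y j * z i) (i j : Fin (N + 1)) :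
    x i * z j = x j * z i := by
  obtain ⟨k, hk⟩ := en_coord_ne hy
  apply mul_left_cancel₀ (mul_ne_zero hk hk)
  have e1 : x i * y k = x k * y i := h1 i k
  have e2 : x j * y k = x k * y j := h1 j k
  have e3 : y k * z j = y j * z k := h2 k j
  have e4 : y k * z i = y i * z k := h2 k i
  calc y k * y k * (x i * z j) = (x i * y k) * (y k * z j) := by ring
    _ = (x k * y i) * (y j * z k) := by rw [e1, e3]
    _ = (x k * y j) * (y i * z k) := by ring
    _ = (x j * y k) * (y k * z i) := by rw [← e2, ← e4]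
    _ = y k * y k * (x j * z i) := by ring

/-- the points on a line in a fibre over a good value are proportional -/
theorem prop_line (hu : TorusMapV X Λ u) {D : Set (Vd n)}
    (hfib : ∀ y, y ∉ D → ∀ G : ℂ → EN N, Differentiable ℂ G → (∀ z, G z ∈ X) → (∀ z, u (G z) - y ∈ Λ) → ∀ z w, ∃ c : ℂ, G z = c • G w)
    {F : Vd g → EN N} {B : Vd g →L[ℂ] Vd n} {w v : Vd g} {y : Vd n} (hy : y ∉ D) (hwy : u (F w) - y ∈ Λ) (hv : B v = 0)
    (hw : F w ≠ 0)
    (hl : ∃ G : ℂ → EN N, Differentiable ℂ G ∧ (∀ s, G s ∈ X) ∧ (∀ s : ℂ, ∃ c : ℂ, F (w + s • v) = c • G s) ∧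
        ∀ s : ℂ, u (G s) - (u (F w) + s • B v) ∈ Λ) (i j : Fin (N + 1)) : F (w + v) i * F w j = F (w + v) j * F w i := by
  obtain ⟨G, hG, hGX, hFG, hGu⟩ := hl
  have h1 := hfib y hy G hG hGX (fun s => by
    have h2 := Λ.add_mem (hGu s) hwy
    rw [hv, smul_zero, add_zero, sub_add_sub_cancel] at h2
    exact h2)
  obtain ⟨c₁, hc₁⟩ := hFG 1
  obtain ⟨c₀, hc₀⟩ := hFG 0
  rw [one_smul] at hc₁
  rw [zero_smul, add_zero] at hc₀
  obtain ⟨c, hc⟩ := h1 1 0
  have hc₀' : c₀ ≠ 0 := by
    rintro rfl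
    rw [zero_smul] at hc₀
    exact hw hc₀
  refine prop_of_smul (c := c₁ * c * c₀⁻¹) ?_ i j
  rw [hc₁, hc, hc₀, smul_smul, smul_smul, mul_assoc (c₁ * c), inv_mul_cancel₀ hc₀', mul_one]

/-- **The four cases.** -/
theorem rep_cases (hX : IsCone X) (hch : Charts d X) (hu : TorusMapV X Λ u) (hΛ : DiscreteSub Λ) {D : Set (Vd n)} (hD : IsClosed D) (hDi : interior D = ∅)
    (hfib : ∀ y, y ∉ D → ∀ G : ℂ → EN N, Differentiable ℂ G → (∀ z, G z ∈ X) → (∀ z, u (G z) - y ∈ Λ) → ∀ z w, ∃ c : ℂ, G z = c • G w)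
    {F : Vd g → EN N} {T : Submodule ℂ (Vd g)} {L : AddSubgroup (Vd g)} (hF : Rep X F T L) :
    (∃ b ∈ D, ∀ z, F z ≠ 0 → u (F z) - b ∈ Λ) ∨ (∀ z w i j, F z i * F w j = F z j * F w i) ∨
      ∃ (B : Vd g →L[ℂ] Vd n) (c : Vd n), (∀ z, F z ≠ 0 → u (F z) - (B z + c) ∈ Λ) ∧
        ((∃ z, B z ≠ 0) ∧ (∃ y, ∀ z, B z ≠ y) ∧ (∀ z, B z ∈ Submodule.span ℝ {l : Vd n | l ∈ Λ ∧ ∃ z, B z = l}) ∨
        Function.Surjective B ∧ ∃ G : Vd n → EN N, Differentiable ℂ G ∧ (∃ y, G y ≠ 0) ∧ (∀ y, G y ≠ 0 → G y ∈ X ∧ u (G y) - y ∈ Λ) ∧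
          ∀ z i j, F z i * G (B z + c) j = F z j * G (B z + c) i) := by
  obtain ⟨y, hy⟩ := hF.ne
  obtain ⟨C, hC⟩ := hF.growth
  obtain ⟨B, hB, hBl⟩ := exists_linear hX hch hu hΛ hF.diff hF.mem hC hy
  have hBT : ∀ t ∈ T, B t = 0 := by
    intro t ht
    obtain ⟨C', hC'⟩ := hF.torus y
    exact map_zero_of_growth hX hch hu hΛ hF.diff hF.mem hy hB (C := C') fun s => hC' _ (T.smul_mem s ht)
  have hBL : ∀ l ∈ L, B l ∈ Λ := fun l hl => map_period hu hF.diff hF.mem hy hB (hF.periodic l hl)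
  have hspan : ∀ z, B z ∈ Submodule.span ℝ {l : Vd n | l ∈ Λ ∧ ∃ z, B z = l} := by
    intro z
    have hz : z ∈ T.restrictScalars ℝ ⊔ Submodule.span ℝ (L : Set (Vd g)) := by
      rw [hF.span]
      exact Submodule.mem_top
    obtain ⟨t, ht, l, hl, rfl⟩ := Submodule.mem_sup.1 hz
    rw [map_add, hBT t ht, zero_add]
    have h1 : (B.restrictScalars ℝ : Vd g →ₗ[ℝ] Vd n) l ∈ Submodule.map (B.restrictScalars ℝ : Vd g →ₗ[ℝ] Vd n) (Submodule.span ℝ (L : Set (Vd g))) :=
      Submodule.mem_map_of_mem hl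
    rw [Submodule.map_span] at h1
    refine Submodule.span_mono ?_ h1
    rintro _ ⟨l', hl', rfl⟩
    exact ⟨hBL l' hl', l', rfl⟩
  obtain ⟨c, hc⟩ : ∃ c : Vd n, c = u (F y) - B y := ⟨_, rfl⟩
  have hBc : ∀ z, F z ≠ 0 → u (F z) - (B z + c) ∈ Λ := by
    intro z hz
    have h1 := hB z hz
    rw [map_sub] at h1
    have h2 : u (F z) - (B z + c) = u (F z) - (u (F y) + (B z - B y)) := by rw [hc]; abel
    rwa [h2]
  by_cases h0 : ∀ z, B z = 0
  · -- in one fibre
    have hconst : ∀ z, F z ≠ 0 → u (F z) - u (F y) ∈ Λ := by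
      intro z hz
      have h1 := hB z hz
      rwa [h0, add_zero] at h1
    by_cases hyD : u (F y) ∈ D
    · exact Or.inl ⟨_, hyD, hconst⟩
    · refine Or.inr (Or.inl fun z w => ?_)
      have hz : ∀ z i j, F z i * F y j = F z j * F y i := by
        intro z i j
        have h1 := prop_line (g := g) hu hfib (B := B) (w := y) (v := z - y) hyD (by rw [sub_self]; exact Λ.zero_mem) (h0 _) hy (hBl y hy (z - y)) i j
        rwa [add_sub_cancel] at h1
      exact prop_trans hy (hz z) fun i j => by linear_combination -hz w i j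
  · right; right
    push Not at h0
    refine ⟨B, c, hBc, ?_⟩
    by_cases hs : Function.Surjective B
    · right
      refine ⟨hs, ?_⟩
      obtain ⟨s, hs'⟩ : ∃ s : Vd n →L[ℂ] Vd g, ∀ y, B (s y) = y := by
        obtain ⟨s, hs'⟩ := (B : Vd g →ₗ[ℂ] Vd n).exists_rightInverse_of_surjective (LinearMap.range_eq_top.2 hs)
        exact ⟨LinearMap.toContinuousLinearMap s, fun y => LinearMap.congr_fun hs' y⟩
      obtain ⟨G, hG⟩ : ∃ G : Vd n → EN N, G = fun v => F (y + s (v - u (F y))) := ⟨_, rfl⟩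
      have hGd : Differentiable ℂ G := by
        rw [hG]
        have h1 : Differentiable ℂ fun v : Vd n => y + s (v - u (F y)) := by fun_prop
        exact hF.diff.comp h1
      have hGy : G (u (F y)) = F y := by
        rw [hG]
        simp
      have hGmem : ∀ v, G v ≠ 0 → G v ∈ X ∧ u (G v) - v ∈ Λ := by
        intro v hv
        have hv' : F (y + s (v - u (F y))) ≠ 0 := by rwa [hG] at hv
        have hGv : G v = F (y + s (v - u (F y))) := by rw [hG]
        rw [hGv]
        refine ⟨hF.mem _ hv', ?_⟩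
        have h1 := hB _ hv'
        rwa [add_sub_cancel_left, hs', add_sub_cancel] at h1
      refine ⟨G, hGd, ⟨_, by rw [hGy]; exact hy⟩, hGmem, ?_⟩
      -- a good point
      have hGB : Differentiable ℂ fun z : Vd g => G (B z + c) := by
        have h1 : Differentiable ℂ fun z : Vd g => B z + c := by fun_prop
        exact hGd.comp h1
      have hBy : B y + c = u (F y) := by rw [hc]; abel
      obtain ⟨z₁, hz₁, hz₁'⟩ := exists_both_ne (F := F) (F' := fun z : Vd g => G (B z + c)) hF.diff hGB.continuous ⟨y, hy⟩ ⟨y, by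
        show G (B y + c) ≠ 0
        rw [hBy, hGy]
        exact hy⟩
      obtain ⟨O, hO⟩ : ∃ O : Set (Vd g), O = {z | F z ≠ 0 ∧ G (B z + c) ≠ 0} := ⟨_, rfl⟩
      have hOo : IsOpen O := by
        rw [hO]
        exact (isOpen_ne_fun hF.diff.continuous continuous_const).inter (isOpen_ne_fun hGB.continuous continuous_const)
      have hBo : IsOpenMap B := B.isOpenMap hs
      have hBO : IsOpen ((fun v => v + c) '' (B '' O)) := (isOpenMap_add_right c) _ (hBo O hOo)
      obtain ⟨v, hv, hvD⟩ : ∃ v ∈ (fun v => v + c) '' (B '' O), v ∉ D := by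
        by_contra hcon
        push Not at hcon
        have h1 : (fun v => v + c) '' (B '' O) ⊆ interior D := interior_maximal hcon hBO
        rw [hDi] at h1
        exact h1 ⟨_, ⟨z₁, by rw [hO]; exact ⟨hz₁, hz₁'⟩, rfl⟩, rfl⟩
      obtain ⟨_, ⟨z₂, hz₂, rfl⟩, rfl⟩ := hv
      have hcont : Continuous fun z : Vd g => B z + c := by fun_prop
      refine prop_of_open hF.diff hGB (z₀ := z₂) ?_
      filter_upwards [hOo.mem_nhds hz₂, (hD.isOpen_compl.preimage hcont).mem_nhds hvD] with z h1 h2 i j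
      rw [hO] at h1
      obtain ⟨h3, h4⟩ := h1
      have hGz : G (B z + c) = F (y + s (B (z - y))) := by
        rw [hG]
        simp only
        congr 3
        rw [hc, map_sub]
        abel
      obtain ⟨w, hw⟩ : ∃ w, w = y + s (B (z - y)) := ⟨_, rfl⟩
      rw [hGz, ← hw]
      have hw0 : F w ≠ 0 := by
        rw [hw, ← hGz]
        exact h4
      have hBw : B w = B z := by
        rw [hw, map_add, hs', map_sub]
        abel
      have h5 := prop_line (g := g) hu hfib (B := B) (w := w) (v := z - w) (y := B z + c) h2 (by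
        have := hBc w hw0
        rwa [hBw] at this) (by rw [map_sub, hBw, sub_self]) hw0 (hBl w hw0 (z - w)) i j
      rwa [add_sub_cancel] at h5
    · left
      refine ⟨h0, ?_, hspan⟩
      unfold Function.Surjective at hs
      push Not at hs
      exact hs

end Pool.Agent.TG
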