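import Pool.Agent.TG.Zl

/-!
# TG SbA: the limits of the sections

Port of `Pool/Agent/H62/EL/SbA.lean`.
`sec_fb`: from the first condition of `Sec`.  `sec_trans`: translate `φ` (`AnalyticAt` of `z ↦ φ (z + l)`), `l ∈ Λ`; second condition: at `y, e` use the one at `y + l, e`.  `sec_sb`: take `f` itself.
`sb_lip`: `sec_lip` for `δ/2` ... as in `EL/SbA` (`f` is near members of `Sec` at `y` and at `w`, both in `Gd D (δ / 2)`).
`sb_mem`: `f y` is a limit of points of `Fb X Λ u y` (`fb_lim`; `Geo.exists_gd`).  `sb_trans`: `Geo.gd_add`.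
`sb_lim`: `Gd D δ' ∩ closedBall 0 R` is compact; the `F n` and `f` satisfy the Lipschitz condition with the same constant, so the convergence is uniform there (finite net).
`sb_exists_lim`: `f y := lim` along the ultrafilter for `y ∉ D` (`isCompact_pr`, `sb_mem`), then `sb_lim`.
`sb_along`: `w n → y ∉ D`: `dist (F n (w n)) (F n y) ≤ L ‖w n - y‖` (`sb_lip`).
-/

set_option autoImplicit false

open Topology Filter Metric

namespace Pool.Agent.TG

open Pool.Agent.H36.BP (EN fs wd)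
open Pool.Agent.H14.PP (IsCone CurveAt Tan)
open Pool.Agent.H62.EF (MN pr)
open Pool.Agent.AD (Vd Chart Charts IsGerm)

variable {N k : ℕ}


variable {X : Set (EN N)} {Λ : AddSubgroup (Vd (k + 1))} {u : EN N → Vd (k + 1)} {D B : Set (Vd (k + 1))}

theorem sec_fb {f : Vd (k + 1) → MN N} (hf : f ∈ Sec X Λ u D) {y : Vd (k + 1)} (hy : y ∉ D) : f y ∈ Fb X Λ u y := by
  obtain ⟨φ, -, h⟩ := hf.1 y hy
  obtain ⟨h1, h2, h3⟩ := h.self_of_nhds
  exact ⟨φ y, h1, h2.symm, h3⟩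

theorem sec_trans (G : Geo X Λ u D B) {f : Vd (k + 1) → MN N} (hf : f ∈ Sec X Λ u D) {l : Vd (k + 1)} (hl : l ∈ Λ) :
    (fun y => f (y + l)) ∈ Sec X Λ u D := by
  refine ⟨fun y hy => ?_, fun y e he => ?_⟩
  · have hyl : y + l ∉ D := fun h => hy ((G.D_sub hl).1 h)
    obtain ⟨φ, hφ, h⟩ := hf.1 _ hyl
    have hc : AnalyticAt ℂ (fun z : Vd (k + 1) => z + l) y := analyticAt_id.add analyticAt_const
    refine ⟨fun z => φ (z + l), AnalyticAt.fun_comp (g := φ) (f := fun z : Vd (k + 1) => z + l) hφ hc, ?_⟩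
    filter_upwards [hc.continuousAt.eventually h] with z hz
    refine ⟨hz.1, hz.2.1, ?_⟩
    have h1 := Λ.add_mem hz.2.2 hl
    have h2 : u (φ (z + l)) - (z + l) + l = u (φ (z + l)) - z := by abel
    rwa [h2] at h1
  · obtain ⟨g, ⟨Φ, hΦ, hg⟩, hgf⟩ := hf.2 (y + l) e (by
      filter_upwards [he] with z hz
      have h1 : y + l + z • e = y + z • e + l := by abel
      rw [h1]
      exact fun h => hz ((G.D_sub hl).1 h))
    refine ⟨g, ⟨Φ, hΦ, ?_⟩, ?_⟩
    · filter_upwards [hg] with z hz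
      refine ⟨hz.1, hz.2.1, ?_⟩
      have h1 := Λ.add_mem hz.2.2 hl
      have h2 : u (Φ z) - (y + l + z • e) + l = u (Φ z) - (y + z • e) := by abel
      rwa [h2] at h1
    · filter_upwards [hgf] with z hz
      have h1 : y + l + z • e = y + z • e + l := by abel
      rw [h1] at hz
      exact hz

theorem sec_sb {f : Vd (k + 1) → MN N} (hf : f ∈ Sec X Λ u D) : f ∈ Sb X Λ u D := by
  intro δ' _ R ε hε
  exact ⟨f, hf, fun y _ _ => by rw [dist_self]; exact hε⟩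

theorem sb_lip (G : Geo X Λ u D B) {δ : ℝ} (hδ : 0 < δ) : ∃ L : ℝ, 0 < L ∧ ∀ f ∈ Sb X Λ u D, ∀ y ∈ Gd D δ, ∀ w ∈ closedBall y (δ / 2),
    dist (f y) (f w) ≤ L * ‖y - w‖ := by
  obtain ⟨L, hL, h⟩ := sec_lip G hδ
  refine ⟨L, hL, fun f hf y hy w hw => ?_⟩
  refine le_of_forall_pos_le_add fun ε hε => ?_
  obtain ⟨F, hF, hFf⟩ := hf (δ / 2) (by positivity) (max ‖y‖ ‖w‖) (ε / 2) (by positivity)
  have hwG : w ∈ Gd D (δ / 2) := by
    rw [mem_closedBall, dist_eq_norm] at hw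
    exact gd_mono (by linarith) (gd_near hy hw)
  have h1 := hFf y (gd_mono (by linarith) hy) (le_max_left _ _)
  have h2 := hFf w hwG (le_max_right _ _)
  have h3 := h F hF y hy w hw
  have h4 := dist_triangle (f y) (F y) (f w)
  have h5 := dist_triangle (F y) (F w) (f w)
  rw [dist_comm (f y) (F y)] at h4
  linarith

theorem sb_mem (G : Geo X Λ u D B) {f : Vd (k + 1) → MN N} (hf : f ∈ Sb X Λ u D) {y : Vd (k + 1)} (hy : y ∉ D) : f y ∈ Fb X Λ u y := by
  obtain ⟨δ, hδ, hyG⟩ := G.exists_gd hy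
  have h1 : ∀ n : ℕ, ∃ F ∈ Sec X Λ u D, dist (F y) (f y) < 1 / ((n : ℝ) + 1) := by
    intro n
    obtain ⟨F, hF, h⟩ := hf δ hδ ‖y‖ (1 / ((n : ℝ) + 1)) (by positivity)
    exact ⟨F, hF, h y hyG le_rfl⟩
  choose F hF hFd using h1
  have h2 : Tendsto (fun n => F n y) atTop (𝓝 (f y)) := by
    rw [tendsto_iff_dist_tendsto_zero]
    exact squeeze_zero (fun _ => dist_nonneg) (fun n => (hFd n).le) tendsto_one_div_add_atTop_nhds_zero_nat
  exact (fb_lim G.cone G.lat G.tor h2 tendsto_const_nhds (Filter.Eventually.of_forall fun n => sec_fb (hF n) hy)).1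

theorem sb_trans (G : Geo X Λ u D B) {f : Vd (k + 1) → MN N} (hf : f ∈ Sb X Λ u D) {l : Vd (k + 1)} (hl : l ∈ Λ) :
    (fun y => f (y + l)) ∈ Sb X Λ u D := by
  intro δ' hδ' R ε hε
  obtain ⟨F, hF, h⟩ := hf δ' hδ' (R + ‖l‖) ε hε
  exact ⟨_, sec_trans G hF hl, fun y hy hR => h _ ((G.gd_add δ' hl).2 hy) ((norm_add_le _ _).trans (by linarith))⟩

theorem sb_lim (G : Geo X Λ u D B) (𝒰 : Ultrafilter ℕ) (F : ℕ → Vd (k + 1) → MN N) (f : Vd (k + 1) → MN N)
    (hF : ∀ᶠ n in (𝒰 : Filter ℕ), F n ∈ Sb X Λ u D) (hf : ∀ y, y ∉ D → Tendsto (fun n => F n y) 𝒰 (𝓝 (f y))) : f ∈ Sb X Λ u D := by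
  intro δ' hδ' R ε hε
  obtain ⟨L, hL, hlip⟩ := sb_lip G hδ'
  set r : ℝ := min (δ' / 2) (ε / (8 * L)) with hr
  have hr0 : 0 < r := lt_min (by positivity) (by positivity)
  have hrδ : r ≤ δ' / 2 := min_le_left _ _
  have hrL : L * r ≤ ε / 8 := by
    calc L * r ≤ L * (ε / (8 * L)) := mul_le_mul_of_nonneg_left (min_le_right _ _) hL.le
      _ = ε / 8 := by field_simp
  -- the limit is also Lipschitz
  have hlipf : ∀ y ∈ Gd D δ', ∀ w ∈ closedBall y (δ' / 2), dist (f y) (f w) ≤ L * ‖y - w‖ := by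
    intro y hy w hw
    have hwG : w ∈ Gd D (δ' / 2) := by
      rw [mem_closedBall, dist_eq_norm] at hw
      exact gd_mono (by linarith) (gd_near hy hw)
    have h1 := (hf y (gd_notMem hδ' hy)).dist (hf w (gd_notMem (by positivity) hwG))
    refine le_of_tendsto h1 ?_
    filter_upwards [hF] with n hn
    exact hlip _ hn y hy w hw
  have hK : IsCompact (closedBall (0 : Vd (k + 1)) R ∩ Gd D δ') := (isCompact_closedBall 0 R).inter_right (gd_closed D δ')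
  obtain ⟨t, htK, htf, hcov⟩ := hK.finite_cover_balls hr0
  have h1 : ∀ᶠ n in (𝒰 : Filter ℕ), ∀ y ∈ t, dist (F n y) (f y) < ε / 4 := by
    rw [Filter.eventually_all_finite htf]
    intro y hy
    exact (hf y (gd_notMem hδ' (htK hy).2)).eventually (ball_mem_nhds _ (by positivity))
  obtain ⟨n, hn, hnt⟩ := (hF.and h1).exists
  obtain ⟨H, hH, hHF⟩ := hn δ' hδ' R (ε / 2) (by positivity)
  refine ⟨H, hH, fun y hy hyR => ?_⟩
  have hyK : y ∈ closedBall (0 : Vd (k + 1)) R ∩ Gd D δ' := ⟨by rw [mem_closedBall_zero_iff]; exact hyR, hy⟩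
  obtain ⟨y', hy't, hyy'⟩ := Set.mem_iUnion₂.1 (hcov hyK)
  have hy'G := (htK hy't).2
  rw [mem_ball, dist_eq_norm] at hyy'
  have hyc : y ∈ closedBall y' (δ' / 2) := by
    rw [mem_closedBall, dist_eq_norm]
    linarith
  have h2 := hlip _ hn y' hy'G y hyc
  have h3 := hlipf y' hy'G y hyc
  have h4 := hnt y' hy't
  have h5 := hHF y hy hyR
  have h6 : L * ‖y' - y‖ ≤ ε / 8 := by
    rw [norm_sub_rev]
    exact (mul_le_mul_of_nonneg_left hyy'.le hL.le).trans hrL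
  have h7 := dist_triangle (H y) (F n y) (f y)
  have h8 := dist_triangle (F n y) (F n y') (f y)
  have h9 := dist_triangle (F n y') (f y') (f y)
  rw [dist_comm (F n y) (F n y')] at h8
  linarith

theorem sb_exists_lim (G : Geo X Λ u D B) (𝒰 : Ultrafilter ℕ) (F : ℕ → Vd (k + 1) → MN N)
    (hF : ∀ᶠ n in (𝒰 : Filter ℕ), F n ∈ Sb X Λ u D) :
    ∃ f ∈ Sb X Λ u D, ∀ y, y ∉ D → Tendsto (fun n => F n y) 𝒰 (𝓝 (f y)) := by
  have h1 : ∀ y : Vd (k + 1), ∃ m : MN N, y ∉ D → Tendsto (fun n => F n y) 𝒰 (𝓝 m) := by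
    intro y
    by_cases hy : y ∈ D
    · exact ⟨0, fun h => absurd hy h⟩
    · obtain ⟨m, -, hm⟩ := (Pool.Agent.H62.EF.isCompact_pr G.cone).ultrafilter_le_nhds (𝒰.map fun n => F n y) (by
        rw [le_principal_iff]
        have h2 : ∀ᶠ n in (𝒰 : Filter ℕ), F n y ∈ pr '' X := by
          filter_upwards [hF] with n hn
          obtain ⟨x, hx, hxm, -⟩ := sb_mem G hn hy
          exact ⟨x, hx, hxm⟩
        exact h2)
      exact ⟨m, fun _ => hm⟩
  choose f hf using h1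
  exact ⟨f, sb_lim G 𝒰 F f hF hf, hf⟩

theorem sb_along (G : Geo X Λ u D B) (𝒰 : Ultrafilter ℕ) (F : ℕ → Vd (k + 1) → MN N) {f : Vd (k + 1) → MN N}
    (hF : ∀ᶠ n in (𝒰 : Filter ℕ), F n ∈ Sb X Λ u D) (hf : ∀ y, y ∉ D → Tendsto (fun n => F n y) 𝒰 (𝓝 (f y)))
    {w : ℕ → Vd (k + 1)} {y : Vd (k + 1)} (hy : y ∉ D) (hw : Tendsto w 𝒰 (𝓝 y)) : Tendsto (fun n => F n (w n)) 𝒰 (𝓝 (f y)) := by
  obtain ⟨δ, hδ, hyG⟩ := G.exists_gd hy
  obtain ⟨L, hL, hlip⟩ := sb_lip G hδ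
  rw [tendsto_iff_dist_tendsto_zero]
  have h1 : Tendsto (fun n => L * ‖y - w n‖ + dist (F n y) (f y)) 𝒰 (𝓝 0) := by
    have h2 : Tendsto (fun n => y - w n) 𝒰 (𝓝 0) := by
      have h3 := hw.const_sub y
      rwa [sub_self] at h3
    have h3 := (h2.norm.const_mul L).add (tendsto_iff_dist_tendsto_zero.1 (hf y hy))
    rwa [norm_zero, mul_zero, add_zero] at h3
  refine squeeze_zero' (Filter.Eventually.of_forall fun _ => dist_nonneg) ?_ h1
  have h2 : ∀ᶠ n in (𝒰 : Filter ℕ), w n ∈ closedBall y (δ / 2) := hw.eventually (closedBall_mem_nhds y (by positivity))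
  filter_upwards [hF, h2] with n hn hwn
  have h3 := hlip _ hn y hyG (w n) hwn
  have h4 := dist_triangle (F n (w n)) (F n y) (f y)
  rw [dist_comm (F n (w n)) (F n y)] at h4
  linarith

end Pool.Agent.TG
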