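import Pool.Agent.TG.SbA
import Pool.Agent.TG.Cn
import Pool.Agent.TG.Jan
import Pool.Agent.TN.Osg

/-!
# TG SbB: the limits of the sections are holomorphic

`sb_lift`: let `y₀ ∈ Gd D (2δ)` (`Geo.exists_gd`), `m₀ = f y₀ = pr x₀` (`sb_mem`), `i` an index with `x₀ i ≠ 0`.  For a matrix `m` with `m (i, i) ≠ 0` let `ν m = (m (j, i) / m (i, i))_j ∈ EN N`; `ν (pr x) = x / x i` (`pr x (j, i) = x j conj (x i) / ‖x‖²`), and `pr (ν m) = m` for `m = pr x`.
`φ y := ν (f y)`.  On a small ball `β` about `y₀` (inside `Gd D δ`) `f y (i, i)` has absolute value `≥ c > 0` (`sb_lip`).  `f` is the limit of members `F n ∈ Sec`, uniformly on `β` (definition of `Sb`), and `ν ∘ F n` is analytic on `β` for large `n` (local lifts `φ'`: `ν (pr φ') =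
φ' / φ' i`), bounded, and converges uniformly to `φ`; so `φ` is separately holomorphic (`TendstoLocallyUniformlyOn.differentiableOn` on complex lines) and bounded, hence analytic (`Pool.Agent.TN.osgood_pi`).  `φ y` is a multiple of a lift of `f y ∈ Fb X Λ u y` (`sb_mem`), so
`φ y ∈ X`, `u (φ y) - y ∈ Λ` (`fb_lift`), `pr (φ y) = f y`.
`sb_uniq`: the set `{y ∉ D : f = g near y}` contains `y₀`, is open, and closed in `Dᶜ`: let `y ∉ D` be in its closure, local lifts `φ, ψ` at `y` (`sb_lift`); the minors `φ_i ψ_j - φ_j ψ_i` are analytic near `y` and vanish on a nonempty open set in every small ball about `y`, so near `y`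
(identity theorem: `AnalyticOnNhd.eqOn_of_preconnected_of_eventuallyEq`), so `f = g` near `y`.  `Dᶜ` is preconnected (`compl_conn`).
`sb_II_analytic`: `II_analytic` with the lifts of `f`, `g`, `Cst.cap` at `(y₀, f y₀)`.
-/

set_option autoImplicit false

open Topology Filter Metric

namespace Pool.Agent.TG

open Pool.Agent.H36.BP (EN fs wd)
open Pool.Agent.H14.PP (IsCone CurveAt Tan)
open Pool.Agent.H62.EF (MN pr)
open Pool.Agent.AD (Vd Chart Charts IsGerm)

variable {N k : ℕ}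


variable {X : Set (EN N)} {Λ : AddSubgroup (Vd (k + 1))} {u : EN N → Vd (k + 1)} {D B : Set (Vd (k + 1))}

private theorem sbb_pr_apply (x : EN N) (i j : Fin (N + 1)) : pr x (j, i) = x j * (starRingEnd ℂ) (x i) / ((‖x‖ ^ 2 : ℝ) : ℂ) := rfl

/-- the affine coordinates from the matrix -/
private noncomputable def sbR (i j : Fin (N + 1)) (m : MN N) : ℂ := m (j, i) / m (i, i)

private theorem sbb_ne {x : EN N} {i : Fin (N + 1)} (h : pr x (i, i) ≠ 0) : x i ≠ 0 := by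
  intro h0
  apply h
  rw [sbb_pr_apply, h0, zero_mul, zero_div]

private theorem sbR_pr {x : EN N} {i : Fin (N + 1)} (j : Fin (N + 1)) (h : x i ≠ 0) : sbR i j (pr x) = x j / x i := by
  have hx : x ≠ 0 := by
    rintro rfl
    exact h rfl
  have h1 : ((‖x‖ ^ 2 : ℝ) : ℂ) ≠ 0 := by
    exact_mod_cast pow_ne_zero 2 (norm_ne_zero_iff.mpr hx)
  have h2 : (starRingEnd ℂ) (x i) ≠ 0 := (map_ne_zero _).mpr h
  unfold sbR
  rw [sbb_pr_apply, sbb_pr_apply]
  field_simp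

private theorem sbb_norm_apply (m : MN N) (p : Fin (N + 1) × Fin (N + 1)) : ‖m p‖ ≤ ‖m‖ := PiLp.norm_apply_le m p

private theorem sbR_lip {c : ℝ} (hc : 0 < c) {i j : Fin (N + 1)} {m m' : MN N} (hm : ‖m‖ ≤ 1) (hm' : ‖m'‖ ≤ 1) (h : c ≤ ‖m (i, i)‖)
    (h' : c ≤ ‖m' (i, i)‖) : dist (sbR i j m) (sbR i j m') ≤ 2 / c ^ 2 * dist m m' := by
  have h0 : m (i, i) ≠ 0 := fun e => by
    rw [e, norm_zero] at h
    linarith
  have h0' : m' (i, i) ≠ 0 := fun e => by
    rw [e, norm_zero] at h'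
    linarith
  have h1 : sbR i j m - sbR i j m' = (m (j, i) * (m' (i, i) - m (i, i)) + m (i, i) * (m (j, i) - m' (j, i))) / (m (i, i) * m' (i, i)) := by
    unfold sbR
    field_simp
    ring
  have h2 : ‖m' (i, i) - m (i, i)‖ ≤ dist m m' := by
    rw [dist_comm, dist_eq_norm]
    exact sbb_norm_apply (m' - m) (i, i)
  have h3 : ‖m (j, i) - m' (j, i)‖ ≤ dist m m' := by
    rw [dist_eq_norm]
    exact sbb_norm_apply (m - m') (j, i)
  have h4 : ‖m (j, i)‖ ≤ 1 := (sbb_norm_apply m _).trans hm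
  have h5 : ‖m (i, i)‖ ≤ 1 := (sbb_norm_apply m _).trans hm
  rw [dist_eq_norm, h1, norm_div, norm_mul (m (i, i)) (m' (i, i)), div_le_iff₀ (mul_pos (norm_pos_iff.mpr h0) (norm_pos_iff.mpr h0'))]
  have h6 : ‖m (j, i) * (m' (i, i) - m (i, i)) + m (i, i) * (m (j, i) - m' (j, i))‖ ≤ 2 * dist m m' := by
    refine (norm_add_le _ _).trans ?_
    rw [norm_mul, norm_mul]
    have h7 : ‖m (j, i)‖ * ‖m' (i, i) - m (i, i)‖ ≤ 1 * dist m m' := mul_le_mul h4 h2 (norm_nonneg _) zero_le_one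
    have h8 : ‖m (i, i)‖ * ‖m (j, i) - m' (j, i)‖ ≤ 1 * dist m m' := mul_le_mul h5 h3 (norm_nonneg _) zero_le_one
    linarith
  have h7 : c ^ 2 ≤ ‖m (i, i)‖ * ‖m' (i, i)‖ := by
    rw [pow_two]
    exact mul_le_mul h h' hc.le (norm_nonneg _)
  have h8 : 0 ≤ 2 / c ^ 2 * dist m m' := by positivity
  calc _ ≤ 2 * dist m m' := h6
    _ = 2 / c ^ 2 * dist m m' * c ^ 2 := by field_simp
    _ ≤ 2 / c ^ 2 * dist m m' * (‖m (i, i)‖ * ‖m' (i, i)‖) := mul_le_mul_of_nonneg_left h7 h8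

/-- the affine coordinates of a section are analytic -/
private theorem sbR_sec {F : Vd (k + 1) → MN N} (hF : F ∈ Sec X Λ u D) {y : Vd (k + 1)} (hy : y ∉ D) {i : Fin (N + 1)} (j : Fin (N + 1))
    (h : F y (i, i) ≠ 0) : AnalyticAt ℂ (fun z => sbR i j (F z)) y := by
  obtain ⟨φ, hφ, hφF⟩ := hF.1 y hy
  have hco : ∀ l : Fin (N + 1), AnalyticAt ℂ (fun z => φ z l) y := fun l =>
    ((EuclideanSpace.proj (𝕜 := ℂ) l : EN N →L[ℂ] ℂ).analyticAt _).comp hφ
  have hne : φ y i ≠ 0 := by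
    have h1 := hφF.self_of_nhds.2.1
    rw [h1] at h
    exact sbb_ne h
  have h1 : AnalyticAt ℂ (fun z => φ z j / φ z i) y := (hco j).div (hco i) hne
  refine h1.congr ?_
  filter_upwards [hφF, (hco i).continuousAt.eventually_ne hne] with z hz hz2
  rw [hz.2.1, sbR_pr j hz2]

theorem sb_lift (G : Geo X Λ u D B) {f : Vd (k + 1) → MN N} (hf : f ∈ Sb X Λ u D) {y₀ : Vd (k + 1)} (hy₀ : y₀ ∉ D) :
    ∃ φ : Vd (k + 1) → EN N, AnalyticAt ℂ φ y₀ ∧ ∀ᶠ y in 𝓝 y₀, φ y ∈ X ∧ u (φ y) - y ∈ Λ ∧ pr (φ y) = f y := by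
  obtain ⟨δ, hδ, hyG⟩ := G.exists_gd hy₀
  obtain ⟨L, hL, hlip⟩ := sb_lip G hδ
  obtain ⟨x₀, hx₀, hpr, hux⟩ := sb_mem G hf hy₀
  have hx₀0 : x₀ ≠ 0 := ne_zero G.cone hx₀
  obtain ⟨i, hi⟩ : ∃ i, x₀ i ≠ 0 := by
    by_contra h
    push Not at h
    apply hx₀0
    ext i
    exact h i
  -- lower bound
  set c₀ : ℝ := ‖f y₀ (i, i)‖ with hc₀
  have hc₀0 : 0 < c₀ := by
    rw [hc₀, norm_pos_iff, ← hpr, sbb_pr_apply]
    exact div_ne_zero (mul_ne_zero hi ((map_ne_zero _).mpr hi)) (Complex.ofReal_ne_zero.mpr (pow_ne_zero 2 (norm_ne_zero_iff.mpr hx₀0)))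
  set r : ℝ := min (δ / 2) (c₀ / (4 * L)) with hr
  have hr0 : 0 < r := lt_min (by positivity) (by positivity)
  have hrδ : r ≤ δ / 2 := min_le_left _ _
  have hrL : L * r ≤ c₀ / 4 := by
    calc L * r ≤ L * (c₀ / (4 * L)) := mul_le_mul_of_nonneg_left (min_le_right _ _) hL.le
      _ = c₀ / 4 := by field_simp
  have hβG : ∀ y ∈ ball y₀ r, y ∈ Gd D (δ / 2) := by
    intro y hy
    rw [mem_ball, dist_eq_norm] at hy
    exact gd_mono (by linarith) (gd_near hyG hy.le)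
  have hβD : ∀ y ∈ ball y₀ r, y ∉ D := fun y hy => gd_notMem (by positivity) (hβG y hy)
  have hfc : ∀ y ∈ ball y₀ r, 3 * c₀ / 4 ≤ ‖f y (i, i)‖ := by
    intro y hy
    have h1 : y ∈ closedBall y₀ (δ / 2) := ball_subset_closedBall (ball_subset_ball hrδ hy)
    have h2 := hlip f hf y₀ hyG y h1
    have h3 : ‖y₀ - y‖ ≤ r := by
      rw [norm_sub_rev, ← dist_eq_norm]
      exact (mem_ball.1 hy).le
    have h4 : dist (f y₀) (f y) ≤ c₀ / 4 := h2.trans ((mul_le_mul_of_nonneg_left h3 hL.le).trans hrL)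
    have h5 : ‖f y₀ (i, i)‖ ≤ ‖f y (i, i)‖ + ‖f y₀ (i, i) - f y (i, i)‖ := by
      have := norm_add_le (f y (i, i)) (f y₀ (i, i) - f y (i, i))
      rwa [add_sub_cancel] at this
    have h6 : ‖f y₀ (i, i) - f y (i, i)‖ ≤ dist (f y₀) (f y) := by
      rw [dist_eq_norm]
      exact sbb_norm_apply (f y₀ - f y) (i, i)
    linarith
  have hfn : ∀ y ∈ ball y₀ r, ‖f y‖ ≤ 1 := by
    intro y hy
    obtain ⟨x, hx, hxf, -⟩ := sb_mem G hf (hβD y hy)
    rw [← hxf, Pool.Agent.H62.EF.norm_pr (ne_zero G.cone hx)]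
  -- the approximating sections
  have hch : ∀ n : ℕ, ∃ F ∈ Sec X Λ u D, ∀ y ∈ Gd D (δ / 2), ‖y‖ ≤ ‖y₀‖ + r → dist (F y) (f y) < min (c₀ / 4) (1 / ((n : ℝ) + 1)) := fun n =>
    hf (δ / 2) (by positivity) (‖y₀‖ + r) _ (lt_min (by positivity) (by positivity))
  choose F hF hFd using hch
  have hFd' : ∀ n, ∀ y ∈ ball y₀ r, dist (F n y) (f y) < min (c₀ / 4) (1 / ((n : ℝ) + 1)) := by
    intro n y hy
    refine hFd n y (hβG y hy) ?_
    rw [mem_ball, dist_eq_norm] at hy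
    have h1 : y = y₀ + (y - y₀) := by abel
    rw [h1]
    exact (norm_add_le _ _).trans (by linarith)
  have hFc : ∀ n, ∀ y ∈ ball y₀ r, c₀ / 2 ≤ ‖F n y (i, i)‖ := by
    intro n y hy
    have h1 := (hFd' n y hy).trans_le (min_le_left _ _)
    have h5 : ‖f y (i, i)‖ ≤ ‖F n y (i, i)‖ + ‖f y (i, i) - F n y (i, i)‖ := by
      have := norm_add_le (F n y (i, i)) (f y (i, i) - F n y (i, i))
      rwa [add_sub_cancel] at this
    have h6 : ‖f y (i, i) - F n y (i, i)‖ ≤ dist (F n y) (f y) := by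
      rw [dist_comm, dist_eq_norm]
      exact sbb_norm_apply (f y - F n y) (i, i)
    have := hfc y hy
    linarith
  have hFn : ∀ n, ∀ y ∈ ball y₀ r, ‖F n y‖ ≤ 1 := by
    intro n y hy
    obtain ⟨x, hx, hxf, -⟩ := sec_fb (hF n) (hβD y hy)
    rw [← hxf, Pool.Agent.H62.EF.norm_pr (ne_zero G.cone hx)]
  -- the affine coordinates of the limit are analytic
  have hR : ∀ j, AnalyticAt ℂ (fun y => sbR i j (f y)) y₀ := by
    intro j
    have hc2 : 0 < c₀ / 2 := by positivity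
    have hunif : TendstoUniformlyOn (fun n y => sbR i j (F n y)) (fun y => sbR i j (f y)) atTop (ball y₀ r) := by
      rw [Metric.tendstoUniformlyOn_iff]
      intro ε hε
      have h1 : Tendsto (fun n : ℕ => 2 / (c₀ / 2) ^ 2 * (1 / ((n : ℝ) + 1))) atTop (𝓝 0) := by
        have h2 := (tendsto_one_div_add_atTop_nhds_zero_nat (𝕜 := ℝ)).const_mul (2 / (c₀ / 2) ^ 2)
        rwa [mul_zero] at h2
      filter_upwards [h1.eventually_lt_const hε] with n hn y hy
      have h3 := sbR_lip (j := j) hc2 (hfn y hy) (hFn n y hy) (by have := hfc y hy; linarith) (hFc n y hy)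
      have h4 := (hFd' n y hy).trans_le (min_le_right _ _)
      rw [dist_comm] at h4
      have h5 : 2 / (c₀ / 2) ^ 2 * dist (f y) (F n y) ≤ 2 / (c₀ / 2) ^ 2 * (1 / ((n : ℝ) + 1)) :=
        mul_le_mul_of_nonneg_left h4.le (by positivity)
      linarith
    refine Pool.Agent.TN.osgood_pi (w := y₀) (r := r) (M := 2 / c₀) hr0 ?_ ?_
    · intro y hy
      have h1 := hfc y hy
      show ‖f y (j, i) / f y (i, i)‖ ≤ _
      rw [norm_div, div_le_div_iff₀ (by linarith) hc₀0]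
      have h2 : ‖f y (j, i)‖ ≤ 1 := (sbb_norm_apply _ _).trans (hfn y hy)
      calc ‖f y (j, i)‖ * c₀ ≤ 1 * c₀ := mul_le_mul_of_nonneg_right h2 hc₀0.le
        _ ≤ 2 * ‖f y (i, i)‖ := by linarith
    · intro y hy l
      set v : Vd (k + 1) := Pi.single l 1 with hv
      have hvn : ‖v‖ ≤ 1 := by
        rw [pi_norm_le_iff_of_nonneg zero_le_one]
        intro i'
        by_cases hi' : i' = l
        · subst hi'; simp [hv]
        · simp [hv, Pi.single_eq_of_ne hi']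
      set s : ℝ := r - dist y y₀ with hs
      have hs0 : 0 < s := by
        have := mem_ball.1 hy
        linarith
      have hin : ∀ t ∈ ball (0 : ℂ) s, y + t • v ∈ ball y₀ r := by
        intro t ht
        have ht' : ‖t‖ < s := by simpa using ht
        rw [mem_ball]
        have h1 : dist (y + t • v) y ≤ ‖t‖ := by
          rw [dist_eq_norm, add_sub_cancel_left, norm_smul]
          calc ‖t‖ * ‖v‖ ≤ ‖t‖ * 1 := mul_le_mul_of_nonneg_left hvn (norm_nonneg _)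
            _ = ‖t‖ := mul_one _
        have h2 := dist_triangle (y + t • v) y y₀
        linarith
      have hu1 : TendstoUniformlyOn (fun n (t : ℂ) => sbR i j (F n (y + t • v))) (fun t : ℂ => sbR i j (f (y + t • v))) atTop (ball (0 : ℂ) s) := by
        rw [Metric.tendstoUniformlyOn_iff] at hunif ⊢
        intro ε hε
        filter_upwards [hunif ε hε] with n hn t ht
        exact hn _ (hin t ht)
      have hd : DifferentiableOn ℂ (fun t : ℂ => sbR i j (f (y + t • v))) (ball (0 : ℂ) s) := by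
        refine hu1.tendstoLocallyUniformlyOn.differentiableOn (Filter.Eventually.of_forall fun n t ht => ?_) isOpen_ball
        have h1 : AnalyticAt ℂ (fun z => sbR i j (F n z)) (y + t • v) :=
          sbR_sec (hF n) (hβD _ (hin t ht)) j fun h => by
            have h2 := hFc n _ (hin t ht)
            rw [h, norm_zero] at h2
            linarith
        have h2 : DifferentiableAt ℂ (fun t : ℂ => y + t • v) t := by fun_prop
        exact (h1.differentiableAt.comp t h2).differentiableWithinAt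
      exact hd.differentiableAt (isOpen_ball.mem_nhds (mem_ball_self hs0))
  refine ⟨fun y => WithLp.toLp 2 fun j => sbR i j (f y), ?_, ?_⟩
  · have h1 : AnalyticAt ℂ (fun y => fun j => sbR i j (f y)) y₀ := analyticAt_pi_iff.2 hR
    exact ((PiLp.continuousLinearEquiv 2 ℂ (fun _ : Fin (N + 1) => ℂ)).symm.toContinuousLinearMap.analyticAt _).comp h1
  · filter_upwards [isOpen_ball.mem_nhds (mem_ball_self hr0 : y₀ ∈ ball y₀ r)] with y hy
    obtain ⟨x, hx, hxf, hux'⟩ := sb_mem G hf (hβD y hy)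
    have hxi : x i ≠ 0 := by
      apply sbb_ne
      rw [hxf]
      intro h
      have h2 := hfc y hy
      rw [h, norm_zero] at h2
      linarith
    have h1 : (WithLp.toLp 2 fun j => sbR i j (f y) : EN N) = (x i)⁻¹ • x := by
      ext j
      show sbR i j (f y) = (x i)⁻¹ * x j
      rw [← hxf, sbR_pr j hxi, div_eq_inv_mul]
    rw [h1]
    exact ⟨G.cone.smul_mem x hx _ (inv_ne_zero hxi), smul_mem_lat G.tor hx hux' (inv_ne_zero hxi), by
      rw [Pool.Agent.H62.EF.pr_smul _ (inv_ne_zero hxi), hxf]⟩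

/-- vectors with vanishing minors -/
private theorem sbb_pr_eq {x y : EN N} (hx : x ≠ 0) (hy : y ≠ 0) (h : ∀ i j, x i * y j = x j * y i) : pr x = pr y := by
  obtain ⟨j, hj⟩ : ∃ j, y j ≠ 0 := by
    by_contra h
    push Not at h
    apply hy
    ext i
    exact h i
  have h1 : x = (x j / y j) • y := by
    ext i
    show x i = x j / y j * y i
    rw [div_mul_eq_mul_div, ← h i j, mul_div_assoc, div_self hj, mul_one]
  have h2 : x j / y j ≠ 0 := by
    intro h0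
    rw [h0, zero_smul] at h1
    exact hx h1
  rw [Pool.Agent.H62.EF.pr_eq_iff hx hy]
  exact ⟨_, h2, h1⟩

theorem sb_uniq (G : Geo X Λ u D B) {f g : Vd (k + 1) → MN N} (hf : f ∈ Sb X Λ u D) (hg : g ∈ Sb X Λ u D) {y₀ : Vd (k + 1)} (hy₀ : y₀ ∉ D)
    (h : ∀ᶠ y in 𝓝 y₀, f y = g y) : Ag D f g := by
  have hcon : IsPreconnected (Dᶜ : Set (Vd (k + 1))) := compl_conn G.D_closed G.D_thin
  set U : Set (Vd (k + 1)) := {z | ∀ᶠ w in 𝓝 z, f w = g w} with hU
  have hUo : IsOpen U := by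
    rw [isOpen_iff_mem_nhds]
    intro z hz
    exact hz.eventually_nhds
  have hsub : (Dᶜ : Set (Vd (k + 1))) ⊆ U := by
    refine hcon.subset_of_closure_inter_subset hUo ⟨y₀, hy₀, h⟩ ?_
    rintro y ⟨hyc, hyD⟩
    obtain ⟨φ, hφ, hφf⟩ := sb_lift G hf hyD
    obtain ⟨ψ, hψ, hψg⟩ := sb_lift G hg hyD
    have h1 := hφ.eventually_analyticAt.and (hψ.eventually_analyticAt.and (hφf.and hψg))
    obtain ⟨r, hr, hb⟩ := Metric.eventually_nhds_iff_ball.1 h1
    obtain ⟨w, hwb, hwU⟩ := _root_.mem_closure_iff.1 hyc (ball y r) isOpen_ball (mem_ball_self hr)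
    have hco : ∀ {η : Vd (k + 1) → EN N} {z : Vd (k + 1)}, AnalyticAt ℂ η z → ∀ l : Fin (N + 1), AnalyticAt ℂ (fun z => η z l) z :=
      fun hη l => ((EuclideanSpace.proj (𝕜 := ℂ) l : EN N →L[ℂ] ℂ).analyticAt _).comp hη
    have h2 : ∀ i j : Fin (N + 1), ∀ z ∈ ball y r, φ z i * ψ z j = φ z j * ψ z i := by
      intro i j z hz
      have h3 : AnalyticOnNhd ℂ (fun z => φ z i * ψ z j - φ z j * ψ z i) (ball y r) := fun v hv => by
        have h4 := hb v hv
        exact ((hco h4.1 i).mul (hco h4.2.1 j)).sub ((hco h4.1 j).mul (hco h4.2.1 i))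
      have h4 : ∀ᶠ v in 𝓝 w, φ v i * ψ v j - φ v j * ψ v i = 0 := by
        filter_upwards [hwU, isOpen_ball.mem_nhds hwb] with v hv hvb
        obtain ⟨-, -, ⟨h5, h6, h7⟩, h8, h9, h10⟩ := hb v hvb
        obtain ⟨c, -, hc⟩ := (Pool.Agent.H62.EF.pr_eq_iff (ne_zero G.cone h5) (ne_zero G.cone h8)).1 (by rw [h7, h10, hv])
        rw [hc]
        show c * ψ v i * ψ v j - c * ψ v j * ψ v i = 0
        ring
      exact sub_eq_zero.1 (h3.eqOn_zero_of_preconnected_of_eventuallyEq_zero (convex_ball y r).isPreconnected hwb h4 hz)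
    show ∀ᶠ w in 𝓝 y, f w = g w
    filter_upwards [isOpen_ball.mem_nhds (mem_ball_self hr : y ∈ ball y r)] with z hz
    obtain ⟨-, -, ⟨h5, h6, h7⟩, h8, h9, h10⟩ := hb z hz
    rw [← h7, ← h10]
    exact sbb_pr_eq (ne_zero G.cone h5) (ne_zero G.cone h8) fun i j => h2 i j z hz
  intro z hz
  exact (hsub hz : z ∈ U).self_of_nhds

theorem sb_II_analytic (G : Geo X Λ u D B) {δ ε ε₀ : ℝ} (hc : Cst X Λ u D δ ε ε₀) {α : VForm X Λ u} {f g : Vd (k + 1) → MN N}
    (hf : f ∈ Sb X Λ u D) (hg : g ∈ Sb X Λ u D) {y₀ : Vd (k + 1)} (hy₀ : y₀ ∈ Gd D δ)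
    (hrel : ∀ᶠ y in 𝓝 y₀, ∃ v, IRel α ε y (f y) (g y) v) : AnalyticAt ℂ (fun y => II α ε y (f y) (g y)) y₀ := by
  have hyD : y₀ ∉ D := gd_notMem hc.δ_pos hy₀
  obtain ⟨φ, hφ, hφf⟩ := sb_lift G hf hyD
  obtain ⟨ψ, hψ, hψg⟩ := sb_lift G hg hyD
  obtain ⟨χ, c, ρ, hcap⟩ := hc.cap y₀ hy₀ (f y₀) (sb_mem G hf hyD)
  rw [← hφf.self_of_nhds.2.2] at hcap
  have h1 := II_analytic G.cone G.tor G.lat hφ hψ (hφf.mono fun y hy => ⟨hy.1, hy.2.1⟩) (hψg.mono fun y hy => ⟨hy.1, hy.2.1⟩) hcap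
    (by linarith [hc.ε_pos]) (α := α) (ε := ε) (by
      filter_upwards [hrel, hφf, hψg] with y hy h2 h3
      rw [h2.2.2, h3.2.2]
      exact hy)
  refine h1.congr ?_
  filter_upwards [hφf, hψg] with y h2 h3
  rw [h2.2.2, h3.2.2]

end Pool.Agent.TG
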