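import Pool.Agent.TG.Defs

/-!
# TG SmDefs: meromorphic sections

`Mer X Λ u F`: `F` is an entire vector on `ℂ^(k+1)`, not identically `0`, with `u [F y] = y` where `F y ≠ 0`.  `SameMap F G`: the same map to the
projective space.
-/

set_option autoImplicit false

open Topology Filter Metric

namespace Pool.Agent.TG

open Pool.Agent.H36.BP (EN)
open Pool.Agent.H62.EF (MN pr)
open Pool.Agent.AD (Vd)

variable {N k : ℕ}

/-- the meromorphic sections of `u` -/
structure Mer (X : Set (EN N)) (Λ : AddSubgroup (Vd (k + 1))) (u : EN N → Vd (k + 1)) (F : Vd (k + 1) → EN N) : Prop where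
  an : ∀ y, AnalyticAt ℂ F y
  ne : ∃ y, F y ≠ 0
  mem : ∀ y, F y ≠ 0 → F y ∈ X ∧ u (F y) - y ∈ Λ

/-- the two vectors of functions define the same map to the projective space -/
def SameMap (F G : Vd (k + 1) → EN N) : Prop := ∀ y, ∀ i j, F y i * G y j = F y j * G y i

end Pool.Agent.TG
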