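import Mathlib

/-!
# TG XBl: a bounded holomorphic function which vanishes on a relatively dense subgroup decays on large discs (copy of EL Bl, without discreteness)

Let `R₀ > 0` be the covering radius of `Γ` (`Lat.cocompact`): every disc of radius `R₀` contains a point of `Γ`.  `r₀ = 4 R₀`.
(1) Local inequality: `J` holomorphic on a neighbourhood of `closedBall z₀ r₀` (or continuous there and holomorphic inside), `|J| ≤ m` on the circle
`sphere z₀ r₀`, `J l = 0` for a point `l` with `‖l - z₀‖ ≤ R₀`: then `|J z₀| ≤ m / 4`.  [The function `J z (r₀² - conj (l - z₀) (z - z₀)) / (r₀ (z - l))`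
is holomorphic (removable singularity: `dslope J l`), has modulus `|J z|` on the circle; at `z₀` it is `J z₀ r₀² / (r₀ (z₀ - l))`, modulus
`|J z₀| r₀ / ‖z₀ - l‖ ≥ 4 |J z₀|`.  If `l = z₀`, `J z₀ = 0`.]  Simpler variant without the Blaschke factor: `G z = dslope J l z`, on the circle
`|G| ≤ m / (r₀ - R₀)`, so `|J z₀| = |G z₀| ‖z₀ - l‖ ≤ m R₀ / (r₀ - R₀) = m / 3` by the maximum principle (`J l = 0`): enough.
(2) With `κ = 1 / (32 R₀²)`... : let `κ r₀² ≤ 1/2`, so `exp (κ r₀²) ≤ 2`, `θ = 2/3`.  For every `c` and `z₀` as in (1):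
`|J z₀| exp (-κ ‖z₀ - c‖²) ≤ θ sup_{z ∈ sphere z₀ r₀} |J z| exp (-κ ‖z - c‖²)`: apply (1) to the function `J z * exp (-2 κ (z - z₀) conj (z₀ - c))`
and use `‖z - c‖² = ‖z₀ - c‖² + 2 re ((z - z₀) conj (z₀ - c)) + r₀²` on the circle.
(3) Let `z₁ ∈ ball c R`, `R ≥ r₀`, `‖z₁ - c‖ < R' < R`.  The continuous function `Φ z = |J z| exp (-κ ‖z - c‖²)` has a maximum on `closedBall c R'` at
a point `z₀`.  If `‖z₀ - c‖ ≤ R' - r₀` then `Φ z₀ ≤ θ Φ z₀` by (2), so `Φ z₀ = 0` and `J z₁ = 0`.  Otherwise `Φ z₁ ≤ Φ z₀ ≤ C exp (-κ (R' - r₀)²)`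
(for `R' ≥ r₀`), so `|J z₁| ≤ C exp (-κ ((R' - r₀)² - ‖z₁ - c‖²))`; let `R' → R`.
-/

set_option autoImplicit false

open Topology Filter Metric

namespace Pool.Agent.TG


/-- step (1): a holomorphic function which vanishes at a point close to the centre is small at the centre -/
private theorem xbl_local {U : Set ℂ} (hU : IsOpen U) {G : ℂ → ℂ} (hG : DifferentiableOn ℂ G U) {z₀ l : ℂ} {R₀ m : ℝ} (hR₀ : 0 < R₀)
    (hsub : closedBall z₀ (4 * R₀) ⊆ U) (hl : ‖z₀ - l‖ ≤ R₀) (hGl : G l = 0)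
    (hm : ∀ z ∈ sphere z₀ (4 * R₀), ‖G z‖ ≤ m) : ‖G z₀‖ ≤ m / 3 := by
  have hlball : l ∈ ball z₀ (4 * R₀) := by
    rw [mem_ball, dist_comm, dist_eq_norm]
    linarith
  have hlU : l ∈ U := hsub (ball_subset_closedBall hlball)
  have hlN : U ∈ 𝓝 l := hU.mem_nhds hlU
  have hD : DifferentiableOn ℂ (dslope G l) U := (Complex.differentiableOn_dslope hlN).2 hG
  have hDC : DiffContOnCl ℂ (dslope G l) (ball z₀ (4 * R₀)) := by
    apply DifferentiableOn.diffContOnCl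
    exact hD.mono (closure_ball_subset_closedBall.trans hsub)
  have hfac : ∀ z, G z = (z - l) * dslope G l z := by
    intro z
    have := sub_smul_dslope G l z
    rw [hGl, sub_zero, smul_eq_mul] at this
    exact this.symm
  have hbound : ∀ z ∈ frontier (ball z₀ (4 * R₀)), ‖dslope G l z‖ ≤ m / (3 * R₀) := by
    intro z hz
    have hz' : z ∈ sphere z₀ (4 * R₀) := frontier_ball_subset_sphere hz
    have hzn : ‖z - z₀‖ = 4 * R₀ := by
      rw [mem_sphere, dist_eq_norm] at hz'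
      exact hz'
    have hzl : 3 * R₀ ≤ ‖z - l‖ := by
      have h1 : ‖z - z₀‖ ≤ ‖z - l‖ + ‖z₀ - l‖ := by
        have : z - z₀ = (z - l) - (z₀ - l) := by ring
        rw [this]
        exact norm_sub_le _ _
      linarith
    have h2 := hm z hz'
    rw [hfac z, norm_mul] at h2
    rw [le_div_iff₀ (by positivity)]
    calc ‖dslope G l z‖ * (3 * R₀) ≤ ‖dslope G l z‖ * ‖z - l‖ := by gcongr
      _ = ‖z - l‖ * ‖dslope G l z‖ := mul_comm _ _
      _ ≤ m := h2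
  have hmax : ‖dslope G l z₀‖ ≤ m / (3 * R₀) := by
    apply Complex.norm_le_of_forall_mem_frontier_norm_le (isBounded_ball) hDC hbound
    exact subset_closure (mem_ball_self (by positivity))
  rw [hfac z₀, norm_mul]
  have h0 : 0 ≤ m / (3 * R₀) := (norm_nonneg _).trans hmax
  calc ‖z₀ - l‖ * ‖dslope G l z₀‖ ≤ R₀ * (m / (3 * R₀)) := by gcongr
    _ = m / 3 := by field_simp

/-- step (2): the weighted modulus cannot have a positive maximum at a point far from the boundary -/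
private theorem xbl_weight {Γ : AddSubgroup ℂ} {R₀ : ℝ} (hR₀ : 0 < R₀) (hcov : ∀ z : ℂ, ∃ l ∈ Γ, ‖z - l‖ ≤ R₀) {J : ℂ → ℂ} {c z₀ : ℂ} {R R' : ℝ}
    (hR' : R' < R) (hJ : DifferentiableOn ℂ J (ball c R)) (hΓ : ∀ l ∈ Γ, l ∈ ball c R → J l = 0)
    (hz₀ : ‖z₀ - c‖ ≤ R' - 4 * R₀)
    (hmax : ∀ z ∈ closedBall c R', ‖J z‖ * Real.exp (-(1 / (32 * R₀ ^ 2)) * ‖z - c‖ ^ 2) ≤
      ‖J z₀‖ * Real.exp (-(1 / (32 * R₀ ^ 2)) * ‖z₀ - c‖ ^ 2)) : ‖J z₀‖ = 0 := by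
  set κ : ℝ := 1 / (32 * R₀ ^ 2) with hκ
  have hκ0 : 0 < κ := by positivity
  have hκr : κ * (4 * R₀) ^ 2 = 1 / 2 := by
    rw [hκ]
    field_simp
    norm_num
  have hsub' : closedBall z₀ (4 * R₀) ⊆ closedBall c R' := by
    apply closedBall_subset_closedBall'
    rw [dist_eq_norm]
    linarith
  have hsub : closedBall z₀ (4 * R₀) ⊆ ball c R := hsub'.trans (closedBall_subset_ball hR')
  obtain ⟨l, hlΓ, hl⟩ := hcov z₀
  have hlball : l ∈ ball c R := by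
    apply hsub
    rw [mem_closedBall, dist_comm, dist_eq_norm]
    linarith
  set w : ℂ := (starRingEnd ℂ) (z₀ - c) with hw
  set G : ℂ → ℂ := fun z => J z * Complex.exp (((-2 * κ : ℝ) : ℂ) * ((z - z₀) * w)) with hGdef
  have hGd : DifferentiableOn ℂ G (ball c R) := by
    apply hJ.mul
    apply Differentiable.differentiableOn
    fun_prop
  have hGl : G l = 0 := by
    simp only [hGdef, hΓ l hlΓ hlball, zero_mul]
  have hG0 : ‖G z₀‖ = ‖J z₀‖ := by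
    simp [hGdef]
  have hnG : ∀ z, ‖G z‖ = ‖J z‖ * Real.exp (-2 * κ * ((z - z₀) * w).re) := by
    intro z
    simp only [hGdef, norm_mul, Complex.norm_exp, Complex.re_ofReal_mul]
  have hexp : ∀ z, ‖z - c‖ ^ 2 = ‖z₀ - c‖ ^ 2 + 2 * ((z - z₀) * w).re + ‖z - z₀‖ ^ 2 := by
    intro z
    rw [hw, ← Complex.normSq_eq_norm_sq, ← Complex.normSq_eq_norm_sq, ← Complex.normSq_eq_norm_sq]
    simp only [Complex.normSq_apply, Complex.mul_re, Complex.sub_re, Complex.sub_im, Complex.conj_re, Complex.conj_im, map_sub]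
    ring
  set M : ℝ := ‖J z₀‖ * Real.exp (-κ * ‖z₀ - c‖ ^ 2) with hM
  have hM0 : 0 ≤ M := by positivity
  have hmb : ∀ z ∈ sphere z₀ (4 * R₀), ‖G z‖ ≤ M * (Real.exp (κ * ‖z₀ - c‖ ^ 2) * Real.exp (1 / 2)) := by
    intro z hz
    have h1 := hmax z (hsub' (sphere_subset_closedBall hz))
    have hzn : ‖z - z₀‖ = 4 * R₀ := by
      rw [mem_sphere, dist_eq_norm] at hz
      exact hz
    rw [hnG z]
    have h2 : Real.exp (-2 * κ * ((z - z₀) * w).re) =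
        Real.exp (-κ * ‖z - c‖ ^ 2) * (Real.exp (κ * ‖z₀ - c‖ ^ 2) * Real.exp (1 / 2)) := by
      rw [← Real.exp_add, ← Real.exp_add]
      congr 1
      rw [hexp z, hzn, ← hκr]
      ring
    rw [h2, ← mul_assoc]
    gcongr
  have h3 := xbl_local isOpen_ball hGd hR₀ hsub hl hGl hmb
  rw [hG0] at h3
  have h4 : M * Real.exp (κ * ‖z₀ - c‖ ^ 2) = ‖J z₀‖ := by
    rw [hM, mul_assoc, ← Real.exp_add]
    have : -κ * ‖z₀ - c‖ ^ 2 + κ * ‖z₀ - c‖ ^ 2 = 0 := by ring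
    rw [this, Real.exp_zero, mul_one]
  rw [← mul_assoc, h4] at h3
  have h5 : Real.exp (1 / 2) ≤ 2 := by
    have h := Real.log_two_gt_d9
    calc Real.exp (1 / 2) ≤ Real.exp (Real.log 2) := by
          apply Real.exp_le_exp.2
          linarith
      _ = 2 := Real.exp_log (by norm_num)
  have h6 : ‖J z₀‖ * Real.exp (1 / 2) ≤ ‖J z₀‖ * 2 := by gcongr
  have h7 := norm_nonneg (J z₀)
  linarith

theorem dense_decay {R₀ : ℝ} (hR₀ : 0 < R₀) : ∃ κ r₀ : ℝ, 0 < κ ∧ 0 < r₀ ∧ ∀ Γ : AddSubgroup ℂ, (∀ z : ℂ, ∃ l ∈ Γ, ‖z - l‖ ≤ R₀) →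
    ∀ (J : ℂ → ℂ) (c : ℂ) (R C : ℝ), r₀ ≤ R → DifferentiableOn ℂ J (ball c R) → (∀ z ∈ ball c R, ‖J z‖ ≤ C) → (∀ l ∈ Γ, l ∈ ball c R → J l = 0) →
    ∀ z ∈ ball c R, ‖J z‖ ≤ C * Real.exp (-κ * ((R - r₀) ^ 2 - ‖z - c‖ ^ 2)) := by
  refine ⟨1 / (32 * R₀ ^ 2), 4 * R₀, by positivity, by positivity, ?_⟩
  intro Γ hcov
  intro J c R C hR hJ hC hJl z₁ hz₁
  set κ : ℝ := 1 / (32 * R₀ ^ 2) with hκ
  have hκ0 : 0 < κ := by positivity
  have hRpos : 0 < R := by linarith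
  have hC0 : 0 ≤ C := (norm_nonneg _).trans (hC z₁ hz₁)
  have hz₁' : ‖z₁ - c‖ < R := by
    rw [mem_ball, dist_eq_norm] at hz₁
    exact hz₁
  -- the estimate on the smaller disc
  have key : ∀ R', ‖z₁ - c‖ < R' → R' < R → ‖J z₁‖ ≤ C * Real.exp (-κ * ((max 0 (R' - 4 * R₀)) ^ 2 - ‖z₁ - c‖ ^ 2)) := by
    intro R' h1 h2
    have hsub : closedBall c R' ⊆ ball c R := closedBall_subset_ball h2
    have hcont : ContinuousOn (fun z => ‖J z‖ * Real.exp (-κ * ‖z - c‖ ^ 2)) (closedBall c R') := by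
      apply ContinuousOn.mul
      · exact (hJ.continuousOn.mono hsub).norm
      · fun_prop
    have hne : (closedBall c R').Nonempty := ⟨z₁, by rw [mem_closedBall, dist_eq_norm]; exact h1.le⟩
    obtain ⟨z₀, hz₀, hmax⟩ := (isCompact_closedBall c R').exists_isMaxOn hne hcont
    have hmax' : ∀ z ∈ closedBall c R', ‖J z‖ * Real.exp (-κ * ‖z - c‖ ^ 2) ≤ ‖J z₀‖ * Real.exp (-κ * ‖z₀ - c‖ ^ 2) := fun z hz => hmax hz
    have hz₁m := hmax' z₁ (by rw [mem_closedBall, dist_eq_norm]; exact h1.le)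
    have hfin : ∀ B : ℝ, ‖J z₁‖ * Real.exp (-κ * ‖z₁ - c‖ ^ 2) ≤ B → ‖J z₁‖ ≤ B * Real.exp (κ * ‖z₁ - c‖ ^ 2) := by
      intro B hB
      have : ‖J z₁‖ = ‖J z₁‖ * Real.exp (-κ * ‖z₁ - c‖ ^ 2) * Real.exp (κ * ‖z₁ - c‖ ^ 2) := by
        rw [mul_assoc, ← Real.exp_add]
        have : -κ * ‖z₁ - c‖ ^ 2 + κ * ‖z₁ - c‖ ^ 2 = 0 := by ring
        rw [this, Real.exp_zero, mul_one]
      rw [this]
      gcongr
    by_cases hfar : ‖z₀ - c‖ ≤ R' - 4 * R₀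
    · have h0 := xbl_weight hR₀ hcov h2 hJ hJl hfar hmax'
      rw [h0, zero_mul] at hz₁m
      have := hfin 0 hz₁m
      rw [zero_mul] at this
      exact this.trans (by positivity)
    · push Not at hfar
      have h3 : (max 0 (R' - 4 * R₀)) ^ 2 ≤ ‖z₀ - c‖ ^ 2 := by
        have : max 0 (R' - 4 * R₀) ≤ ‖z₀ - c‖ := max_le (norm_nonneg _) hfar.le
        have h0 : 0 ≤ max 0 (R' - 4 * R₀) := le_max_left _ _
        gcongr
      have h4 : ‖J z₀‖ * Real.exp (-κ * ‖z₀ - c‖ ^ 2) ≤ C * Real.exp (-κ * (max 0 (R' - 4 * R₀)) ^ 2) := by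
        have h5 : ‖J z₀‖ ≤ C := hC z₀ (hsub hz₀)
        have h6 : Real.exp (-κ * ‖z₀ - c‖ ^ 2) ≤ Real.exp (-κ * (max 0 (R' - 4 * R₀)) ^ 2) := by
          apply Real.exp_le_exp.2
          nlinarith
        gcongr
      have h7 := hfin _ (hz₁m.trans h4)
      refine h7.trans (le_of_eq ?_)
      rw [mul_assoc, ← Real.exp_add]
      congr 2
      ring
  -- the limit
  have hlim : Tendsto (fun R' : ℝ => C * Real.exp (-κ * ((max 0 (R' - 4 * R₀)) ^ 2 - ‖z₁ - c‖ ^ 2))) (𝓝[<] R)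
      (𝓝 (C * Real.exp (-κ * ((max 0 (R - 4 * R₀)) ^ 2 - ‖z₁ - c‖ ^ 2)))) := by
    apply tendsto_nhdsWithin_of_tendsto_nhds
    apply Continuous.tendsto
    fun_prop
  have hmaxR : max 0 (R - 4 * R₀) = R - 4 * R₀ := max_eq_right (by linarith)
  rw [hmaxR] at hlim
  refine ge_of_tendsto hlim ?_
  have : ∀ᶠ R' in 𝓝[<] R, ‖z₁ - c‖ < R' := by
    apply mem_nhdsWithin_of_mem_nhds
    exact lt_mem_nhds hz₁'
  filter_upwards [this, self_mem_nhdsWithin] with R' h1 h2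
  exact key R' h1 h2

end Pool.Agent.TG
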