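import Pool.Agent.TG.XDefs

/-!
# TG XCcl: circles off `D`

`exists_circle`.  Let `h` be from `thin y₀`.  There is `v` with `h (y₀ + v) ≠ 0`, `‖v‖` so small that `h` is analytic on the ball of radius `2 ‖v‖` and `D ⊆ {h = 0}` there, and `v ≠ 0` can be chosen (if only `v = 0` is
possible then `h` is `0` near `y₀` except at `y₀`, so `h y₀ = 0` by continuity, as `k + 1 ≥ 1`).  `e = v / ‖v‖`; the function `z ↦ h (y₀ + z • e)` is analytic near `0` and not `0` on
`‖z‖ ≤ ‖v‖` (preconnected), so its zero at `0` is isolated or it is not a zero: there is `r ∈ (0, 1)`, `r < ‖v‖`, with `h (y₀ + z • e) ≠ 0` for `‖z‖ = r`.  So the compact circle `{y₀ + z • e}` is disjoint from the closed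
set `D`; the distance is `≥ 2 c` for some `c > 0`, and `ρ = min (c / 4) (1/2)`.
-/

set_option autoImplicit false

open Topology Filter Metric MeasureTheory

namespace Pool.Agent.TG

open Pool.Agent.AD (Vd)

variable {k : ℕ} {D : Set (Vd (k + 1))}

theorem exists_circle (hD : IsClosed D) (hthin : ∀ y : Vd (k + 1), ∃ h : Vd (k + 1) → ℂ, AnalyticAt ℂ h y ∧ (∀ᶠ z in 𝓝 y, z ∈ D → h z = 0) ∧ ¬ ∀ᶠ z in 𝓝 y, h z = 0)
    (y₀ : Vd (k + 1)) : ∃ (e : Vd (k + 1)) (r c ρ : ℝ), e ≠ 0 ∧ ‖e‖ ≤ 1 ∧ 0 < r ∧ r < 1 ∧ 0 < c ∧ 0 < ρ ∧ ρ < 1 ∧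
      ∀ y ∈ ball y₀ (4 * ρ), ∀ z : ℂ, ‖z‖ = r → y + z • e ∈ Gd D c := by
  obtain ⟨h, han, hDh, hne⟩ := hthin y₀
  obtain ⟨R₀, hR₀, hball⟩ := Metric.eventually_nhds_iff_ball.1 (han.eventually_analyticAt.and hDh)
  set R : ℝ := min R₀ 1 with hRdef
  have hR : 0 < R := lt_min hR₀ one_pos
  have hRR : R ≤ R₀ := min_le_left _ _
  have hR1 : R ≤ 1 := min_le_right _ _
  have hline : ∀ v : Vd (k + 1), ∀ z : ℂ, AnalyticAt ℂ h (y₀ + z • v) → AnalyticAt ℂ (fun z : ℂ => h (y₀ + z • v)) z := by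
    intro v z hz
    have h1 : AnalyticAt ℂ (fun z : ℂ => y₀ + z • v) z := analyticAt_const.add (analyticAt_id.smul analyticAt_const)
    exact AnalyticAt.fun_comp (g := h) hz h1
  -- the direction
  have hv : ∃ v : Vd (k + 1), v ≠ 0 ∧ ‖v‖ ≤ 1 ∧ ∀ᶠ z in 𝓝[≠] (0 : ℂ), h (y₀ + z • v) ≠ 0 := by
    by_cases h0 : h y₀ = 0
    · have hfr : ∃ᶠ z in 𝓝 y₀, h z ≠ 0 := by
        intro hh
        exact hne (hh.mono fun z hz => not_not.1 hz)
      obtain ⟨z₀, hz₀, hz₀b⟩ := (hfr.and_eventually (Metric.ball_mem_nhds y₀ (half_pos hR))).exists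
      have hvR : ‖z₀ - y₀‖ < R / 2 := by simpa [mem_ball, dist_eq_norm] using hz₀b
      refine ⟨z₀ - y₀, ?_, by linarith, ?_⟩
      · intro hz
        rw [sub_eq_zero.1 hz] at hz₀
        exact hz₀ h0
      · have hanR : AnalyticOnNhd ℂ (fun z : ℂ => h (y₀ + z • (z₀ - y₀))) (ball (0 : ℂ) 2) := by
          intro z hz
          refine hline _ _ (hball _ ?_).1
          rw [mem_ball, dist_eq_norm] at hz ⊢
          rw [add_sub_cancel_left, norm_smul]
          rw [sub_zero] at hz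
          have := norm_nonneg z
          have := norm_nonneg (z₀ - y₀)
          nlinarith
        rcases (hanR 0 (mem_ball_self two_pos)).eventually_eq_zero_or_eventually_ne_zero with h1 | h1
        · exfalso
          have h2 := hanR.eqOn_zero_of_preconnected_of_eventuallyEq_zero (convex_ball (0 : ℂ) 2).isPreconnected (mem_ball_self two_pos) h1
          have h3 := h2 (show (1 : ℂ) ∈ ball (0 : ℂ) 2 by simp [mem_ball])
          simp only [one_smul, add_sub_cancel, Pi.zero_apply] at h3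
          exact hz₀ h3
        · exact h1
    · refine ⟨fun _ => 1, ?_, ?_, ?_⟩
      · intro hz
        exact one_ne_zero (congrFun hz 0)
      · refine (pi_norm_le_iff_of_nonneg zero_le_one).2 fun i => ?_
        simp
      · have h1 : ContinuousAt (fun z : ℂ => h (y₀ + z • (fun _ => (1 : ℂ) : Vd (k + 1)))) 0 := by
          refine (hline _ _ ?_).continuousAt
          simpa using han
        have h2 : ∀ᶠ z in 𝓝 (0 : ℂ), h (y₀ + z • (fun _ => (1 : ℂ) : Vd (k + 1))) ≠ 0 := by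
          refine h1.eventually_ne ?_
          simpa using h0
        exact h2.filter_mono nhdsWithin_le_nhds
  obtain ⟨v, hv0, hv1, hvz⟩ := hv
  obtain ⟨r₀, hr₀, hr⟩ := Metric.eventually_nhds_iff_ball.1 (eventually_nhdsWithin_iff.1 hvz)
  set r : ℝ := min (min r₀ 1) R / 2 with hrdef
  have hm : 0 < min (min r₀ 1) R := lt_min (lt_min hr₀ one_pos) hR
  have hr0 : 0 < r := half_pos hm
  have hrr₀ : r < r₀ := lt_of_lt_of_le (half_lt_self hm) ((min_le_left _ _).trans (min_le_left _ _))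
  have hr1 : r < 1 := lt_of_lt_of_le (half_lt_self hm) ((min_le_left _ _).trans (min_le_right _ _))
  have hrR : r < R := lt_of_lt_of_le (half_lt_self hm) (min_le_right _ _)
  have hcirc : ∀ z : ℂ, ‖z‖ = r → y₀ + z • v ∉ D := by
    intro z hz hzD
    have h1 : h (y₀ + z • v) ≠ 0 := by
      refine hr z ?_ ?_
      · rw [mem_ball, dist_eq_norm, sub_zero, hz]
        exact hrr₀
      · rw [Set.mem_compl_iff, Set.mem_singleton_iff]
        intro h0
        rw [h0, norm_zero] at hz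
        exact hr0.ne hz
    refine h1 ((hball _ ?_).2 hzD)
    rw [mem_ball, dist_eq_norm, add_sub_cancel_left, norm_smul, hz]
    have := norm_nonneg v
    nlinarith
  have hK : IsCompact ((fun z : ℂ => y₀ + z • v) '' sphere (0 : ℂ) r) :=
    (isCompact_sphere (0 : ℂ) r).image (by fun_prop)
  have hKD : (fun z : ℂ => y₀ + z • v) '' sphere (0 : ℂ) r ⊆ Dᶜ := by
    rintro _ ⟨z, hz, rfl⟩
    exact hcirc z (by simpa using hz)
  obtain ⟨δ, hδ, hth⟩ := hK.exists_thickening_subset_open hD.isOpen_compl hKD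
  refine ⟨v, r, δ / 2, min (δ / 8) (1 / 2), hv0, hv1, hr0, hr1, half_pos hδ, lt_min (by linarith) (by norm_num),
    lt_of_le_of_lt (min_le_right _ _) (by norm_num), ?_⟩
  intro y hy z hz b hb
  by_contra hcon
  rw [not_le] at hcon
  have h1 : ‖y - y₀‖ < δ / 2 := by
    rw [mem_ball, dist_eq_norm] at hy
    have := min_le_left (δ / 8) (1 / 2 : ℝ)
    linarith
  have h2 : b ∈ thickening δ ((fun z : ℂ => y₀ + z • v) '' sphere (0 : ℂ) r) := by
    rw [mem_thickening_iff]
    refine ⟨y₀ + z • v, ⟨z, by simpa using hz, rfl⟩, ?_⟩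
    rw [dist_comm, dist_eq_norm]
    have h3 : y₀ + z • v - b = (y + z • v - b) - (y - y₀) := by abel
    rw [h3]
    exact (norm_sub_le _ _).trans_lt (by linarith)
  exact hth h2 hb

end Pool.Agent.TG
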