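import Pool.Agent.TG.XDefs
import Pool.Agent.TN.Osg

/-!
# TG XCirc: the circle mean of an analytic function is analytic

`cm_analytic`.  PROOF.  By compactness of the circle there are `ρ > 0` and `M` such that `F` is analytic and `‖F‖ ≤ M` at the points `y + z • e`, `y ∈ ball y₀ (2 ρ)`, `‖z‖ = r` (the set where `F` is
analytic is open: `isOpen_analyticAt`; `generalized_tube_lemma` or `IsCompact.exists_cthickening_subset_open` for the compact set `{y₀ + z • e}`; `F` is bounded on a compact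
neighbourhood).  So `‖cm F e r y‖ ≤ M` on `ball y₀ ρ` (`circleIntegral.norm_integral_le_of_norm_le_const`), and by `TN.osgood_pi` it is enough that
`t ↦ cm F e r (y + t • Pi.single l 1)` is differentiable at `0` for `y ∈ ball y₀ ρ`: the circle integral is an interval integral over `θ`
(`circleIntegral`), use `hasDerivAt_integral_of_dominated_loc_of_deriv_le` (the derivative in `t` is `fderiv ℂ F (y + t • v + z • e) v`, continuous in `(t, θ)` and bounded on a
smaller ball since `F` is analytic near the compact set).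
-/

set_option autoImplicit false

open Topology Filter Metric MeasureTheory

namespace Pool.Agent.TG

open Pool.Agent.AD (Vd)

theorem cm_bound {n : ℕ} {F : Vd n → ℂ} {e y : Vd n} {r C : ℝ} (hr : 0 < r) (h : ∀ z : ℂ, ‖z‖ = r → ‖F (y + z • e)‖ ≤ C) : ‖cm F e r y‖ ≤ C := by
  have h1 : ‖(2 * Real.pi * Complex.I : ℂ)⁻¹ • ∮ z in C(0, r), (z - 0)⁻¹ • F (y + z • e)‖ ≤ r * (r⁻¹ * C) := by
    refine circleIntegral.norm_two_pi_i_inv_smul_integral_le_of_norm_le_const hr.le ?_
    intro z hz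
    have hz' : ‖z‖ = r := by simpa using hz
    rw [norm_smul, sub_zero, norm_inv, hz']
    exact mul_le_mul_of_nonneg_left (h z hz') (inv_nonneg.2 hr.le)
  rw [← mul_assoc, mul_inv_cancel₀ hr.ne', one_mul] at h1
  exact h1

/-- the compact neighbourhood of the circle -/
private theorem xcirc_cpt {n : ℕ} {F : Vd n → ℂ} {e y₀ : Vd n} {r : ℝ} (h : ∀ z : ℂ, ‖z‖ = r → AnalyticAt ℂ F (y₀ + z • e)) :
    ∃ δ M M' : ℝ, 0 < δ ∧ ∀ y ∈ ball y₀ δ, ∀ z : ℂ, ‖z‖ = r →
      AnalyticAt ℂ F (y + z • e) ∧ ‖F (y + z • e)‖ ≤ M ∧ ‖fderiv ℂ F (y + z • e)‖ ≤ M' := by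
  set K : Set (Vd n) := (fun z : ℂ => y₀ + z • e) '' sphere (0 : ℂ) r with hK
  have hKc : IsCompact K := (isCompact_sphere (0 : ℂ) r).image (by fun_prop)
  have hU : IsOpen {x : Vd n | AnalyticAt ℂ F x} := isOpen_analyticAt ℂ F
  have hKU : K ⊆ {x : Vd n | AnalyticAt ℂ F x} := by
    rintro _ ⟨z, hz, rfl⟩
    exact h z (by simpa using hz)
  obtain ⟨δ, hδ, hsub⟩ := hKc.exists_cthickening_subset_open hU hKU
  have hTc : IsCompact (cthickening δ K) := hKc.cthickening
  have hc1 : ContinuousOn F (cthickening δ K) := fun x hx => ((hsub hx : AnalyticAt ℂ F x).continuousAt).continuousWithinAt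
  have hc2 : ContinuousOn (fderiv ℂ F) (cthickening δ K) := fun x hx => ((hsub hx : AnalyticAt ℂ F x).fderiv.continuousAt).continuousWithinAt
  obtain ⟨M, hM⟩ := hTc.exists_bound_of_continuousOn hc1
  obtain ⟨M', hM'⟩ := hTc.exists_bound_of_continuousOn hc2
  refine ⟨δ, M, M', hδ, ?_⟩
  intro y hy z hz
  have hmem : y + z • e ∈ cthickening δ K := by
    refine mem_cthickening_of_dist_le (y + z • e) (y₀ + z • e) δ K ⟨z, by simpa using hz, rfl⟩ ?_
    rw [dist_add_right]
    exact (mem_ball.1 hy).le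
  exact ⟨hsub hmem, hM _ hmem, hM' _ hmem⟩

theorem cm_analytic {n : ℕ} {F : Vd n → ℂ} {e y₀ : Vd n} {r : ℝ} (hr : 0 < r) (h : ∀ z : ℂ, ‖z‖ = r → AnalyticAt ℂ F (y₀ + z • e)) :
    AnalyticAt ℂ (cm F e r) y₀ := by
  obtain ⟨δ, M, M', hδ, hb⟩ := xcirc_cpt h
  refine Pool.Agent.TN.osgood_pi hδ (M := M) (fun y hy => cm_bound hr fun z hz => (hb y hy z hz).2.1) ?_
  intro y hy l
  have hy' : dist y y₀ < δ := hy
  set v : Vd n := Pi.single l 1 with hv
  have hvn : ‖v‖ ≤ 1 := by
    rw [pi_norm_le_iff_of_nonneg zero_le_one]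
    intro i
    by_cases hi : i = l
    · subst hi; simp [hv]
    · simp [hv, Pi.single_eq_of_ne hi]
  set s : ℝ := δ - dist y y₀ with hs
  have hs0 : 0 < s := by linarith
  have hin : ∀ t ∈ ball (0 : ℂ) s, y + t • v ∈ ball y₀ δ := by
    intro t ht
    have ht' : ‖t‖ < s := by simpa using ht
    rw [mem_ball]
    have h1 : dist (y + t • v) y ≤ ‖t‖ := by
      rw [dist_eq_norm, add_sub_cancel_left, norm_smul]
      calc ‖t‖ * ‖v‖ ≤ ‖t‖ * 1 := mul_le_mul_of_nonneg_left hvn (norm_nonneg _)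
        _ = ‖t‖ := mul_one _
    have h2 := dist_triangle (y + t • v) y y₀
    linarith
  have hcn : ∀ θ : ℝ, ‖circleMap 0 r θ‖ = r := fun θ => by rw [norm_circleMap_zero, abs_of_pos hr]
  have hcc : Continuous (fun θ : ℝ => circleMap (0 : ℂ) r θ) := continuous_circleMap 0 r
  have hdc : Continuous (deriv (circleMap (0 : ℂ) r)) := by
    have e1 : deriv (circleMap (0 : ℂ) r) = fun θ => circleMap 0 r θ * Complex.I := by
      funext θ; exact deriv_circleMap 0 r θ
    rw [e1]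
    exact (continuous_circleMap 0 r).mul continuous_const
  have hdn : ∀ θ : ℝ, ‖deriv (circleMap (0 : ℂ) r) θ‖ = r := by
    intro θ
    rw [deriv_circleMap, norm_mul, Complex.norm_I, mul_one, hcn]
  have hic : Continuous (fun θ : ℝ => (circleMap (0 : ℂ) r θ - 0)⁻¹) := by
    refine Continuous.inv₀ (hcc.sub continuous_const) ?_
    intro θ h0
    have := hcn θ
    rw [sub_zero] at h0
    rw [h0, norm_zero] at this
    exact hr.ne this
  set g : ℂ → ℝ → ℂ := fun t θ => deriv (circleMap (0 : ℂ) r) θ • ((circleMap (0 : ℂ) r θ - 0)⁻¹ • F (y + t • v + circleMap (0 : ℂ) r θ • e)) with hg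
  set g' : ℂ → ℝ → ℂ := fun t θ => deriv (circleMap (0 : ℂ) r) θ • ((circleMap (0 : ℂ) r θ - 0)⁻¹ • fderiv ℂ F (y + t • v + circleMap (0 : ℂ) r θ • e) v) with hg'
  have hgc : ∀ t ∈ ball (0 : ℂ) s, Continuous (g t) := by
    intro t ht
    refine hdc.smul (hic.smul ?_)
    rw [continuous_iff_continuousAt]
    intro θ
    have h1 : ContinuousAt F (y + t • v + circleMap (0 : ℂ) r θ • e) := (hb _ (hin t ht) _ (hcn θ)).1.continuousAt
    exact ContinuousAt.comp (f := fun θ : ℝ => y + t • v + circleMap (0 : ℂ) r θ • e) h1 (continuous_const.add (hcc.smul continuous_const)).continuousAt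
  have hgc' : ∀ t ∈ ball (0 : ℂ) s, Continuous (g' t) := by
    intro t ht
    refine hdc.smul (hic.smul ?_)
    rw [continuous_iff_continuousAt]
    intro θ
    have h1 : ContinuousAt (fderiv ℂ F) (y + t • v + circleMap (0 : ℂ) r θ • e) := (hb _ (hin t ht) _ (hcn θ)).1.fderiv.continuousAt
    have h2 : ContinuousAt (fun θ : ℝ => fderiv ℂ F (y + t • v + circleMap (0 : ℂ) r θ • e)) θ :=
      ContinuousAt.comp (f := fun θ : ℝ => y + t • v + circleMap (0 : ℂ) r θ • e) h1 (continuous_const.add (hcc.smul continuous_const)).continuousAt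
    exact h2.clm_apply continuousAt_const
  have hb0 : ∀ θ : ℝ, ∀ t ∈ ball (0 : ℂ) s, ‖g' t θ‖ ≤ M' := by
    intro θ t ht
    have h1 : ‖fderiv ℂ F (y + t • v + circleMap (0 : ℂ) r θ • e) v‖ ≤ M' := by
      have h2 := (hb _ (hin t ht) _ (hcn θ)).2.2
      calc ‖fderiv ℂ F (y + t • v + circleMap (0 : ℂ) r θ • e) v‖ ≤ ‖fderiv ℂ F (y + t • v + circleMap (0 : ℂ) r θ • e)‖ * ‖v‖ := ContinuousLinearMap.le_opNorm _ _
        _ ≤ ‖fderiv ℂ F (y + t • v + circleMap (0 : ℂ) r θ • e)‖ * 1 := mul_le_mul_of_nonneg_left hvn (norm_nonneg _)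
        _ ≤ M' := by rw [mul_one]; exact h2
    rw [hg']
    show ‖deriv (circleMap (0 : ℂ) r) θ • ((circleMap (0 : ℂ) r θ - 0)⁻¹ • fderiv ℂ F (y + t • v + circleMap (0 : ℂ) r θ • e) v)‖ ≤ M'
    rw [norm_smul, norm_smul, hdn, norm_inv, sub_zero, hcn, ← mul_assoc, mul_inv_cancel₀ hr.ne', one_mul]
    exact h1
  have hdiff : ∀ θ : ℝ, ∀ t ∈ ball (0 : ℂ) s, HasDerivAt (fun t => g t θ) (g' t θ) t := by
    intro θ t ht
    have h1 : HasFDerivAt F (fderiv ℂ F (y + t • v + circleMap (0 : ℂ) r θ • e)) (y + t • v + circleMap (0 : ℂ) r θ • e) :=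
      (hb _ (hin t ht) _ (hcn θ)).1.differentiableAt.hasFDerivAt
    have h2 : HasDerivAt (fun t : ℂ => y + t • v + circleMap (0 : ℂ) r θ • e) v t := by
      have h3 : HasDerivAt (fun t : ℂ => t • v) ((1 : ℂ) • v) t := (hasDerivAt_id t).smul_const v
      rw [one_smul] at h3
      exact (h3.const_add y).add_const _
    have h4 : HasDerivAt (fun t : ℂ => F (y + t • v + circleMap (0 : ℂ) r θ • e)) (fderiv ℂ F (y + t • v + circleMap (0 : ℂ) r θ • e) v) t :=
      HasFDerivAt.comp_hasDerivAt t h1 h2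
    have h5 := (h4.const_smul ((circleMap (0 : ℂ) r θ - 0)⁻¹ : ℂ)).const_smul (deriv (circleMap (0 : ℂ) r) θ : ℂ)
    exact h5
  have hmain := intervalIntegral.hasDerivAt_integral_of_dominated_loc_of_deriv_le (μ := volume) (a := 0) (b := 2 * Real.pi) (F := g) (F' := g') (x₀ := (0 : ℂ))
    (s := ball (0 : ℂ) s) (bound := fun _ => M') (ball_mem_nhds 0 hs0)
    (by filter_upwards [ball_mem_nhds (0 : ℂ) hs0] with t ht; exact (hgc t ht).aestronglyMeasurable)
    ((hgc 0 (mem_ball_self hs0)).intervalIntegrable _ _)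
    (hgc' 0 (mem_ball_self hs0)).aestronglyMeasurable
    (Eventually.of_forall fun θ _ t ht => hb0 θ t ht)
    (continuous_const.intervalIntegrable _ _)
    (Eventually.of_forall fun θ _ t ht => hdiff θ t ht)
  have hfin := (hmain.2.const_smul ((2 * Real.pi * Complex.I : ℂ)⁻¹)).differentiableAt
  exact hfin

end Pool.Agent.TG
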