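import Pool.Agent.TG.Defs

/-!
# TG XDefs: the extension theorem in abstract form, definitions

`P` is a set of pairs of maps, `dd p y` the distance of the members of the pair `p` over `y`, `J p` a function on `ℂ^(k+1) \ D` (the integral), `Tr q e` means that the line
`q + ℂ e` is transversal to `D` at the point `q ∈ D`.
-/

set_option autoImplicit false

open Topology Filter Metric MeasureTheory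

namespace Pool.Agent.TG

open Pool.Agent.AD (Vd)

/-- the hypotheses of the extension theorem -/
structure PairData {k : ℕ} (Γ : AddSubgroup (Vd (k + 1))) (D : Set (Vd (k + 1))) (Tr : Vd (k + 1) → Vd (k + 1) → Prop) {P : Type} (dd : P → Vd (k + 1) → ℝ)
    (J : P → Vd (k + 1) → ℂ) : Prop where
  cpt : ∃ R : ℝ, 0 < R ∧ ∀ y : Vd (k + 1), ∃ l ∈ Γ, ‖y - l‖ ≤ R
  D_closed : IsClosed D
  D_inv : ∀ y ∈ D, ∀ l ∈ Γ, y + l ∈ D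
  thin : ∀ y : Vd (k + 1), ∃ h : Vd (k + 1) → ℂ, AnalyticAt ℂ h y ∧ (∀ᶠ z in 𝓝 y, z ∈ D → h z = 0) ∧ ¬ ∀ᶠ z in 𝓝 y, h z = 0
  ae_tr : ∀ e : Vd (k + 1), e ≠ 0 → ∀ᵐ y : Vd (k + 1), ∀ z : ℂ, y + z • e ∈ D → Tr (y + z • e) e
  tr_iso : ∀ q ∈ D, ∀ e : Vd (k + 1), Tr q e → ∀ᶠ z in 𝓝[≠] (0 : ℂ), q + z • e ∉ D
  shift : ∀ p, ∀ l ∈ Γ, ∃ p', (∀ y, dd p' y = dd p (y + l)) ∧ ∀ y, J p' y = J p (y + l)
  hol : ∀ d : ℝ, 0 < d → ∃ ε C : ℝ, 0 < ε ∧ ∀ p, ∀ y ∈ Gd D d, dd p y ≤ ε → AnalyticAt ℂ (J p) y ∧ ‖J p y‖ ≤ C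
  cross : ∀ q ∈ D, ∀ e : Vd (k + 1), Tr q e → ∃ s₀ : ℝ, 0 < s₀ ∧ ∀ r₁ r₂ : ℝ, 0 < r₁ → r₁ < r₂ → r₂ < s₀ → ∃ ε : ℝ, 0 < ε ∧
    ∀ p, (∀ z : ℂ, r₁ < ‖z‖ → ‖z‖ < r₂ → dd p (q + z • e) ≤ ε) →
      ∃ J' : ℂ → ℂ, DifferentiableOn ℂ J' (ball 0 r₂) ∧ ∀ z : ℂ, r₁ < ‖z‖ → ‖z‖ < r₂ → J' z = J p (q + z • e)

/-- the mean of `F` on the circle `y + r e^{it} e` -/
noncomputable def cm {n : ℕ} (F : Vd n → ℂ) (e : Vd n) (r : ℝ) (y : Vd n) : ℂ :=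
  (2 * Real.pi * Complex.I : ℂ)⁻¹ • ∮ z in C(0, r), (z - 0)⁻¹ • F (y + z • e)

end Pool.Agent.TG
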