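import Pool.Agent.TG.XDefs

/-!
# TG XDisc: the mean value property for a function which extends over finitely many small discs
-/

set_option autoImplicit false

open Topology Filter Metric MeasureTheory

namespace Pool.Agent.TG

theorem disc_mean {j : ℂ → ℂ} {r s : ℝ} (hr : 0 < r) (hs : 0 < s) (Z : Finset ℂ) (hZ : ∀ ζ ∈ Z, s < ‖ζ‖ ∧ ‖ζ‖ + s < r)
    (hsep : ∀ ζ ∈ Z, ∀ ζ' ∈ Z, ζ ≠ ζ' → 2 * s ≤ ‖ζ - ζ'‖)
    (hj : ∀ z : ℂ, ‖z‖ ≤ r → (∀ ζ ∈ Z, s / 3 < ‖z - ζ‖) → DifferentiableAt ℂ j z)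
    (hJ : ∀ ζ ∈ Z, ∃ J' : ℂ → ℂ, DifferentiableOn ℂ J' (ball 0 (2 * s / 3)) ∧ ∀ z : ℂ, s / 3 < ‖z‖ → ‖z‖ < 2 * s / 3 → J' z = j (ζ + z)) :
    (2 * Real.pi * Complex.I : ℂ)⁻¹ • (∮ z in C(0, r), (z - 0)⁻¹ • j z) = j 0 := by
  classical
  choose! J' hJ'1 hJ'2 using hJ
  let g : ℂ → ℂ := fun z => if h : ∃ ζ ∈ Z, ‖z - ζ‖ < s / 2 then J' h.choose (z - h.choose) else j z
  have hone : ∀ ζ ∈ Z, ∀ ζ' ∈ Z, ∀ z : ℂ, ‖z - ζ‖ < 2 * s / 3 → ‖z - ζ'‖ < 2 * s / 3 → ζ = ζ' := by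
    intro ζ hζ ζ' hζ' z h1 h2
    by_contra hne
    have h3 := hsep ζ hζ ζ' hζ' hne
    have h4 : ‖ζ - ζ'‖ ≤ ‖z - ζ‖ + ‖z - ζ'‖ := by
      have e : ζ - ζ' = (z - ζ') - (z - ζ) := by ring
      rw [e]
      refine (norm_sub_le _ _).trans (le_of_eq ?_)
      ring
    linarith
  have hg1 : ∀ ζ ∈ Z, ∀ z ∈ ball ζ (2 * s / 3), g z = J' ζ (z - ζ) := by
    intro ζ hζ z hz
    rw [mem_ball, dist_eq_norm] at hz
    by_cases h : ∃ ζ ∈ Z, ‖z - ζ‖ < s / 2
    · have h1 : g z = J' h.choose (z - h.choose) := dif_pos h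
      have h2 := h.choose_spec
      have h3 : h.choose = ζ := hone _ h2.1 _ hζ z (by linarith [h2.2]) hz
      rw [h1, h3]
    · have h1 : g z = j z := dif_neg h
      push Not at h
      rw [h1, hJ'2 ζ hζ (z - ζ) (by linarith [h ζ hζ]) hz]
      congr 1
      ring
  have hg2 : ∀ z : ℂ, (∀ ζ ∈ Z, s / 3 < ‖z - ζ‖) → g z = j z := by
    intro z hz
    by_cases h : ∃ ζ ∈ Z, ‖z - ζ‖ < s / 2
    · have h1 : g z = J' h.choose (z - h.choose) := dif_pos h
      have h2 := h.choose_spec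
      rw [h1, hJ'2 _ h2.1 (z - h.choose) (hz _ h2.1) (by linarith [h2.2])]
      congr 1
      ring
    · exact dif_neg h
  have hopen : IsOpen {z : ℂ | ∀ ζ ∈ Z, s / 3 < ‖z - ζ‖} := by
    have e : {z : ℂ | ∀ ζ ∈ Z, s / 3 < ‖z - ζ‖} = ⋂ ζ ∈ Z, {z : ℂ | s / 3 < ‖z - ζ‖} := by
      ext z
      simp
    rw [e]
    exact isOpen_biInter_finset fun ζ _ => isOpen_lt continuous_const (by fun_prop)
  have hgd : ∀ z ∈ closedBall (0 : ℂ) r, DifferentiableAt ℂ g z := by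
    intro z hz
    rw [mem_closedBall, dist_zero_right] at hz
    by_cases h : ∀ ζ ∈ Z, s / 3 < ‖z - ζ‖
    · refine (hj z hz h).congr_of_eventuallyEq ?_
      filter_upwards [hopen.mem_nhds h] with w hw
      exact hg2 w hw
    · push Not at h
      obtain ⟨ζ, hζ, h1⟩ := h
      have h2 : z ∈ ball ζ (2 * s / 3) := by
        rw [mem_ball, dist_eq_norm]
        linarith
      have h3 : DifferentiableAt ℂ (fun w : ℂ => J' ζ (w - ζ)) z := by
        have h4 : DifferentiableAt ℂ (J' ζ) (z - ζ) := by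
          refine (hJ'1 ζ hζ).differentiableAt (isOpen_ball.mem_nhds ?_)
          rw [mem_ball, dist_zero_right]
          linarith
        exact h4.comp z (differentiableAt_id.sub_const ζ)
      refine h3.congr_of_eventuallyEq ?_
      filter_upwards [isOpen_ball.mem_nhds h2] with w hw
      exact hg1 ζ hζ w hw
  have hdc : DiffContOnCl ℂ g (ball 0 r) := by
    apply DifferentiableOn.diffContOnCl
    intro z hz
    exact (hgd z (closure_ball_subset_closedBall hz)).differentiableWithinAt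
  have hc := hdc.circleIntegral_sub_inv_smul (mem_ball_self hr)
  have h0 : g 0 = j 0 := hg2 0 fun ζ hζ => by
    rw [zero_sub, norm_neg]
    linarith [(hZ ζ hζ).1]
  have hcirc : (∮ z in C(0, r), (z - 0)⁻¹ • g z) = ∮ z in C(0, r), (z - 0)⁻¹ • j z := by
    refine circleIntegral.integral_congr hr.le fun z hz => ?_
    have hzr : ‖z‖ = r := by rwa [mem_sphere, dist_zero_right] at hz
    have h1 : g z = j z := hg2 z fun ζ hζ => by
      have h2 := (hZ ζ hζ).2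
      have h3 : ‖z‖ ≤ ‖z - ζ‖ + ‖ζ‖ := by
        have := norm_add_le (z - ζ) ζ
        rwa [sub_add_cancel] at this
      linarith
    simp only [h1]
  rw [← hcirc, hc, h0, smul_smul, inv_mul_cancel₀ Complex.two_pi_I_ne_zero, one_smul]

end Pool.Agent.TG
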