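import Pool.Agent.TG.XLoc
import Pool.Agent.TG.XCcl

/-!
# TG XExt: the extension theorem
-/

set_option autoImplicit false

open Topology Filter Metric MeasureTheory

namespace Pool.Agent.TG

open Pool.Agent.AD (Vd)

variable {k : ℕ} {Γ : AddSubgroup (Vd (k + 1))} {D : Set (Vd (k + 1))} {Tr : Vd (k + 1) → Vd (k + 1) → Prop} {P : Type} {dd : P → Vd (k + 1) → ℝ}
  {J : P → Vd (k + 1) → ℂ}

/-- `D` has no interior, uniformly -/
theorem PairData.thick (h : PairData Γ D Tr dd J) {η : ℝ} (hη : 0 < η) : ∃ d : ℝ, 0 < d ∧ ∀ y : Vd (k + 1), ∃ y' : Vd (k + 1), ‖y' - y‖ < η ∧ y' ∈ Gd D d := by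
  obtain ⟨R, hR, hcpt⟩ := h.cpt
  have key : ∀ y : Vd (k + 1), ∃ (y' : Vd (k + 1)) (d : ℝ), ‖y' - y‖ < η / 2 ∧ 0 < d ∧ y' ∈ Gd D d := by
    intro y
    obtain ⟨y', hy', hyD⟩ : ∃ y' : Vd (k + 1), ‖y' - y‖ < η / 2 ∧ y' ∉ D := by
      by_contra hcon
      push Not at hcon
      obtain ⟨g, _, hg1, hg2⟩ := h.thin y
      apply hg2
      filter_upwards [hg1, ball_mem_nhds y (half_pos hη)] with z hz1 hz2
      exact hz1 (hcon z (by rwa [mem_ball, dist_eq_norm] at hz2))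
    obtain ⟨d, hd, hsub⟩ := gdx_compact h.D_closed (isCompact_singleton (x := y')) (fun x hx => by rw [Set.mem_singleton_iff.1 hx]; exact hyD)
    exact ⟨y', d, hy', hd, hsub rfl⟩
  choose f d hf hd hfd using key
  obtain ⟨t, -, hcov⟩ := (isCompact_closedBall (0 : Vd (k + 1)) R).elim_nhds_subcover (fun y => ball y (η / 2)) (fun y _ => ball_mem_nhds y (half_pos hη))
  obtain ⟨δ, hδ, hδ1⟩ : ∃ δ : ℝ, 0 < δ ∧ ∀ y ∈ t, δ ≤ d y := by
    have hev : ∀ᶠ δ : ℝ in 𝓝[>] 0, ∀ y ∈ t, δ ≤ d y := by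
      rw [Filter.eventually_all_finset]
      intro y _
      exact nhdsWithin_le_nhds (Iic_mem_nhds (hd y))
    obtain ⟨δ, h1, h2⟩ := (hev.and self_mem_nhdsWithin).exists
    exact ⟨δ, h2, h1⟩
  refine ⟨δ, hδ, fun y => ?_⟩
  obtain ⟨l, hl, hyl⟩ := hcpt y
  obtain ⟨y₁, hy₁, hy₁'⟩ := Set.mem_iUnion₂.mp (hcov (show y - l ∈ closedBall (0 : Vd (k + 1)) R by rwa [mem_closedBall, dist_zero_right]))
  rw [mem_ball, dist_eq_norm] at hy₁'
  refine ⟨f y₁ + l, ?_, (gdx_add h.D_inv hl).2 (gdx_mono (hδ1 y₁ hy₁) (hfd y₁))⟩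
  have e1 : f y₁ + l - y = (f y₁ - y₁) - (y - l - y₁) := by abel
  rw [e1]
  refine (norm_sub_le _ _).trans_lt ?_
  linarith [hf y₁]

/-- two analytic functions which are equal near a point of a convex set are equal on it -/
private theorem ext_unique {f g : Vd (k + 1) → ℂ} {U : Set (Vd (k + 1))} (hc : Convex ℝ U) (hf : ∀ y ∈ U, AnalyticAt ℂ f y)
    (hg : ∀ y ∈ U, AnalyticAt ℂ g y) {y₀ : Vd (k + 1)} (hy₀ : y₀ ∈ U) (h : ∀ᶠ y in 𝓝 y₀, f y = g y) : ∀ y ∈ U, f y = g y := by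
  have h1 : AnalyticOnNhd ℂ f U := hf
  exact h1.eqOn_of_preconnected_of_eventuallyEq hg hc.isPreconnected hy₀ h

theorem PairData.ext (h : PairData Γ D Tr dd J) : ∃ r₁ : ℝ, 0 < r₁ ∧ ∀ d₂ : ℝ, 0 < d₂ → ∃ d ε C : ℝ, 0 < d ∧ 0 < ε ∧ ∀ p, ∃ Jt : Vd (k + 1) → ℂ,
    ∀ y : Vd (k + 1), (∀ x ∈ Gd D d, ‖x - y‖ < r₁ → dd p x ≤ ε) → AnalyticAt ℂ Jt y ∧ ‖Jt y‖ ≤ C ∧ (y ∈ Gd D d₂ → Jt y = J p y) := by
  obtain ⟨R, hR, hcpt⟩ := h.cpt
  choose e r c ρ he0 he hr hr1 hc hρ hρ1 hcirc using exists_circle h.D_closed h.thin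
  obtain ⟨t, -, hcov⟩ := (isCompact_closedBall (0 : Vd (k + 1)) R).elim_nhds_subcover (fun y => ball y (ρ y / 2))
    (fun y _ => ball_mem_nhds y (half_pos (hρ y)))
  obtain ⟨ρ₀, hρ₀, hρ₀1⟩ : ∃ ρ₀ : ℝ, 0 < ρ₀ ∧ ∀ y ∈ t, ρ₀ ≤ ρ y / 2 := by
    have hev : ∀ᶠ δ : ℝ in 𝓝[>] 0, ∀ y ∈ t, δ ≤ ρ y / 2 := by
      rw [Filter.eventually_all_finset]
      intro y _
      exact nhdsWithin_le_nhds (Iic_mem_nhds (half_pos (hρ y)))
    obtain ⟨δ, h1, h2⟩ := (hev.and self_mem_nhdsWithin).exists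
    exact ⟨δ, h2, h1⟩
  -- the centre of a point
  have hcen : ∀ y : Vd (k + 1), ∃ y₀ ∈ t, ∃ l ∈ Γ, ‖y - l - y₀‖ < ρ y₀ / 2 := by
    intro y
    obtain ⟨l, hl, hyl⟩ := hcpt y
    obtain ⟨y₁, hy₁, hy₁'⟩ := Set.mem_iUnion₂.mp (hcov (show y - l ∈ closedBall (0 : Vd (k + 1)) R by rwa [mem_closedBall, dist_zero_right]))
    rw [mem_ball, dist_eq_norm] at hy₁'
    exact ⟨y₁, hy₁, l, hl, hy₁'⟩
  choose cen hcent L hL hcenL using hcen
  obtain ⟨d₃, hd₃, hthick⟩ := h.thick (half_pos hρ₀)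
  refine ⟨6, by norm_num, fun d₂ hd₂ => ?_⟩
  obtain ⟨d₄, hd₄, hd₄2, hd₄3⟩ : ∃ d₄ : ℝ, 0 < d₄ ∧ d₄ ≤ d₂ ∧ d₄ ≤ d₃ / 2 := ⟨min d₂ (d₃ / 2), lt_min hd₂ (half_pos hd₃), min_le_left _ _, min_le_right _ _⟩
  choose dl εl hdl hεl hloc using fun y₀ : Vd (k + 1) => h.loc (he0 y₀) (he y₀) (hr y₀) (hr1 y₀) (hc y₀) (hρ y₀) (hρ1 y₀) (hcirc y₀) hd₄
  choose εc Cc hεc hhol using fun y₀ : Vd (k + 1) => h.hol (c y₀) (hc y₀)
  obtain ⟨δ, hδ, hδ1⟩ : ∃ δ : ℝ, 0 < δ ∧ ∀ y ∈ t, δ ≤ dl y ∧ δ ≤ εl y ∧ δ ≤ c y ∧ δ ≤ εc y := by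
    have hev : ∀ᶠ δ : ℝ in 𝓝[>] 0, ∀ y ∈ t, δ ≤ dl y ∧ δ ≤ εl y ∧ δ ≤ c y ∧ δ ≤ εc y := by
      rw [Filter.eventually_all_finset]
      intro y _
      filter_upwards [nhdsWithin_le_nhds (Iic_mem_nhds (hdl y)), nhdsWithin_le_nhds (Iic_mem_nhds (hεl y)), nhdsWithin_le_nhds (Iic_mem_nhds (hc y)),
        nhdsWithin_le_nhds (Iic_mem_nhds (hεc y))] with δ h1 h2 h3 h4
      exact ⟨h1, h2, h3, h4⟩
    obtain ⟨δ, h1, h2⟩ := (hev.and self_mem_nhdsWithin).exists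
    exact ⟨δ, h2, h1⟩
  refine ⟨δ, δ, ∑ y ∈ t, |Cc y|, hδ, hδ, fun p => ?_⟩
  -- the function near `y`
  have hK : ∀ y : Vd (k + 1), (∀ x ∈ Gd D δ, ‖x - y‖ < 5 → dd p x ≤ δ) → ∀ w : Vd (k + 1), ‖w - y‖ < ρ₀ →
      AnalyticAt ℂ (cm (J p) (e (cen y)) (r (cen y))) w ∧ ‖cm (J p) (e (cen y)) (r (cen y)) w‖ ≤ ∑ y ∈ t, |Cc y| ∧
        (w ∈ Gd D d₄ → cm (J p) (e (cen y)) (r (cen y)) w = J p w) := by
    intro y hcl w hw
    have hct := hcent y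
    obtain ⟨hδa, hδb, hδc, hδd⟩ := hδ1 _ hct
    obtain ⟨p', hp'1, hp'2⟩ := h.shift p (L y) (hL y)
    have hnw : ‖w - L y - cen y‖ < ρ (cen y) := by
      have e1 : w - L y - cen y = (w - y) + (y - L y - cen y) := by abel
      rw [e1]
      refine (norm_add_le _ _).trans_lt ?_
      linarith [hcenL y, hρ₀1 _ hct]
    have hcl' : ∀ x ∈ Gd D δ, ‖x - cen y‖ < 4 → dd p' x ≤ δ := by
      intro x hx hxy
      rw [hp'1]
      refine hcl _ ((gdx_add h.D_inv (hL y)).2 hx) ?_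
      have e1 : x + L y - y = (x - cen y) - (y - L y - cen y) := by abel
      rw [e1]
      refine (norm_sub_le _ _).trans_lt ?_
      linarith [hcenL y, hρ1 (cen y)]
    have hcmeq : cm (J p') (e (cen y)) (r (cen y)) (w - L y) = cm (J p) (e (cen y)) (r (cen y)) w := by
      unfold cm
      congr 1
      refine circleIntegral.integral_congr (hr (cen y)).le fun z _ => ?_
      show (z - 0)⁻¹ • J p' (w - L y + z • e (cen y)) = (z - 0)⁻¹ • J p (w + z • e (cen y))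
      rw [hp'2]
      congr 2
      abel
    have hpts : ∀ z : ℂ, ‖z‖ = r (cen y) → w + z • e (cen y) ∈ Gd D (c (cen y)) ∧ dd p (w + z • e (cen y)) ≤ εc (cen y) := by
      intro z hz
      have h1 : w - L y + z • e (cen y) ∈ Gd D (c (cen y)) := by
        refine hcirc (cen y) _ ?_ z hz
        rw [mem_ball, dist_eq_norm]
        linarith [hρ (cen y)]
      have h2 : w + z • e (cen y) ∈ Gd D (c (cen y)) := by
        have h3 := (gdx_add h.D_inv (hL y)).2 h1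
        have e1 : w - L y + z • e (cen y) + L y = w + z • e (cen y) := by abel
        rwa [e1] at h3
      refine ⟨h2, (hcl _ (gdx_mono hδc h2) ?_).trans hδd⟩
      have e1 : w + z • e (cen y) - y = (w - y) + z • e (cen y) := by abel
      rw [e1]
      refine (norm_add_le _ _).trans_lt ?_
      have h3 := line_norm (he (cen y)) z
      have h4 := hρ₀1 _ hct
      linarith [hr1 (cen y), hρ1 (cen y)]
    refine ⟨cm_analytic (hr _) fun z hz => (hhol _ p _ (hpts z hz).1 (hpts z hz).2).1, ?_, fun hwD => ?_⟩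
    · refine (cm_bound (hr _) fun z hz => (hhol _ p _ (hpts z hz).1 (hpts z hz).2).2).trans ?_
      refine (le_abs_self _).trans ?_
      exact Finset.single_le_sum (f := fun y => |Cc y|) (fun y _ => abs_nonneg _) hct
    · rw [← hcmeq]
      have h1 := hloc (cen y) p' (fun x hx hxy => (hcl' x (gdx_mono hδa hx) hxy).trans hδb) (w - L y) (by
        have h2 := gdx_add h.D_inv (δ' := d₄) (z := w - L y) (hL y)
        rw [sub_add_cancel] at h2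
        exact h2.1 hwD) hnw.le
      rw [h1, hp'2, sub_add_cancel]
  refine ⟨fun y => cm (J p) (e (cen y)) (r (cen y)) y, fun y hcl => ?_⟩
  have hcl5 : ∀ y' : Vd (k + 1), ‖y' - y‖ < 1 → ∀ x ∈ Gd D δ, ‖x - y'‖ < 5 → dd p x ≤ δ := by
    intro y' hy' x hx hxy
    refine hcl x hx ?_
    have e1 : x - y = (x - y') + (y' - y) := by abel
    rw [e1]
    refine (norm_add_le _ _).trans_lt ?_
    linarith
  have hKy := hK y (hcl5 y (by rw [sub_self, norm_zero]; exact one_pos))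
  have hyy : ‖y - y‖ < ρ₀ := by
    rw [sub_self, norm_zero]
    exact hρ₀
  have heq : ∀ᶠ y' in 𝓝 y, cm (J p) (e (cen y')) (r (cen y')) y' = cm (J p) (e (cen y)) (r (cen y)) y' := by
    filter_upwards [ball_mem_nhds y (half_pos hρ₀)] with y' hy'
    rw [mem_ball, dist_eq_norm] at hy'
    have hρ01 : ρ₀ < 1 := by
      have := hρ₀1 _ (hcent y)
      linarith [hρ1 (cen y)]
    have hKy' := hK y' (hcl5 y' (by linarith))
    obtain ⟨y₂, hy₂1, hy₂2⟩ := hthick y'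
    have hU : ∀ w ∈ ball y ρ₀ ∩ ball y' ρ₀, ‖w - y‖ < ρ₀ ∧ ‖w - y'‖ < ρ₀ := by
      rintro w ⟨h1, h2⟩
      rw [mem_ball, dist_eq_norm] at h1 h2
      exact ⟨h1, h2⟩
    have hy₂U : y₂ ∈ ball y ρ₀ ∩ ball y' ρ₀ := by
      refine ⟨?_, ?_⟩
      · rw [mem_ball, dist_eq_norm]
        have e1 : y₂ - y = (y₂ - y') + (y' - y) := by abel
        rw [e1]
        refine (norm_add_le _ _).trans_lt ?_
        linarith
      · rw [mem_ball, dist_eq_norm]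
        linarith
    refine ext_unique (U := ball y ρ₀ ∩ ball y' ρ₀) ((convex_ball y ρ₀).inter (convex_ball y' ρ₀)) (fun w hw => (hKy' w (hU w hw).2).1)
      (fun w hw => (hKy w (hU w hw).1).1) hy₂U ?_ y' ⟨?_, mem_ball_self hρ₀⟩
    · filter_upwards [(isOpen_ball.inter isOpen_ball).mem_nhds hy₂U, ball_mem_nhds y₂ (half_pos hd₃)] with w hw hw2
      have hwD : w ∈ Gd D d₄ := by
        intro b hb
        rw [mem_ball, dist_eq_norm] at hw2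
        have h1 := hy₂2 b hb
        have h2 : ‖y₂ - b‖ ≤ ‖w - b‖ + ‖w - y₂‖ := by
          have e1 : y₂ - b = (w - b) - (w - y₂) := by abel
          rw [e1]
          exact norm_sub_le _ _
        linarith
      rw [(hKy' w (hU w hw).2).2.2 hwD, (hKy w (hU w hw).1).2.2 hwD]
    · rw [mem_ball, dist_eq_norm]
      linarith
  refine ⟨?_, (hKy y hyy).2.1, fun hyD => (hKy y hyy).2.2 (gdx_mono hd₄2 hyD)⟩
  exact (hKy y hyy).1.congr (heq.mono fun y' hy' => hy'.symm)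

end Pool.Agent.TG
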