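import Pool.Agent.TG.XSard

/-!
# TG XGeo: the transversal points
-/

set_option autoImplicit false

open Topology Filter Metric MeasureTheory

namespace Pool.Agent.TG

open Pool.Agent.H36.BP (EN)
open Pool.Agent.AD (Vd)

variable {N k : ℕ} {X : Set (EN N)} {Λ : AddSubgroup (Vd (k + 1))} {u : EN N → Vd (k + 1)} {D B : Set (Vd (k + 1))}

/-- `q ∈ D \ B` and the line `q + ℂ e` is transversal to `D` at `q` -/
def TrB (D B : Set (Vd (k + 1))) (q e : Vd (k + 1)) : Prop := q ∈ D ∧ q ∉ B ∧ (∃ κ, IsCoord D κ q) ∧ TransAt D q e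

theorem Geo.ae_trB (G : Geo X Λ u D B) {e : Vd (k + 1)} (he : e ≠ 0) : ∀ᵐ y : Vd (k + 1), ∀ z : ℂ, y + z • e ∈ D → TrB D B (y + z • e) e := by
  filter_upwards [G.B_lines e he, ae_trans (D := D) he] with y h1 h2 z hz
  obtain ⟨κ, hκ, -⟩ := G.nc _ hz (h1 z)
  exact ⟨hz, h1 z, ⟨κ, hκ⟩, h2 z hz ⟨κ, hκ⟩⟩

theorem trB_iso {q e : Vd (k + 1)} (h : TrB D B q e) : ∀ᶠ z in 𝓝[≠] (0 : ℂ), q + z • e ∉ D := by
  obtain ⟨κ, hκ⟩ := h.2.2.1
  exact trans_iso hκ h.2.2.2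

end Pool.Agent.TG
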