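import Pool.Agent.TG.XHs

/-!
# TG XHi: the half spaces `Re ⟪ζ, y⟫ ≤ t`
-/

set_option autoImplicit false

open Topology Filter Metric MeasureTheory

namespace Pool.Agent.TG

open Pool.Agent.H36.BP (EN)
open Pool.Agent.AD (Vd)

variable {k : ℕ} {Γ : AddSubgroup (Vd (k + 1))} {D : Set (Vd (k + 1))} {Tr : Vd (k + 1) → Vd (k + 1) → Prop} {P : Type} {dd : P → Vd (k + 1) → ℝ}
  {J : P → Vd (k + 1) → ℂ}

/-- the linear form `⟪ζ, y⟫` on `Vd (k + 1)` -/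
noncomputable def iw (ζ : EN k) : Vd (k + 1) →ₗ[ℂ] ℂ where
  toFun := fun y => ∑ i, y i * (starRingEnd ℂ) (ζ i)
  map_add' := fun x y => by
    rw [← Finset.sum_add_distrib]
    exact Finset.sum_congr rfl fun i _ => by rw [Pi.add_apply]; ring
  map_smul' := fun c y => by
    rw [RingHom.id_apply, smul_eq_mul, Finset.mul_sum]
    exact Finset.sum_congr rfl fun i _ => by rw [Pi.smul_apply, smul_eq_mul]; ring

theorem iw_eq (ζ : EN k) (y : EN k) : iw ζ (fun i => y i) = inner ℂ ζ y := by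
  rw [PiLp.inner_apply]
  show ∑ i, y i * (starRingEnd ℂ) (ζ i) = ∑ i, inner ℂ (ζ i) (y i)
  exact Finset.sum_congr rfl fun i _ => by rw [RCLike.inner_apply]

theorem PairData.half_inner (h : PairData Γ D Tr dd J) (h0 : (0 : Vd (k + 1)) ∉ D) (hz : ∀ p, ∀ l ∈ Γ, J p l = 0) {d₂ : ℝ} (hd₂ : 0 < d₂) :
    ∃ d ε r₂ : ℝ, 0 < d ∧ 0 < ε ∧ 0 < r₂ ∧ ∀ (p : P) (ζ : EN k) (t : ℝ), ‖ζ‖ = 1 →
      (∀ x ∈ Gd D d, (iw ζ x).re ≤ t → dd p x ≤ ε) → ∀ y ∈ Gd D d₂, (iw ζ y).re ≤ t - r₂ → J p y = 0 := by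
  obtain ⟨d, ε, r₂, hd, hε, hr₂, hh⟩ := h.half_space h0 hz (c := (k : ℝ) + 1) (by positivity) hd₂
  refine ⟨d, ε, r₂, hd, hε, hr₂, fun p ζ t hζ hcl y hy hyt => ?_⟩
  have hζi : ∀ i, ‖ζ i‖ ≤ 1 := by
    intro i
    rw [← hζ]
    exact PiLp.norm_apply_le ζ i
  refine hh p (iw ζ) (fun i => ζ i) t ?_ ?_ ?_ hcl y hy hyt
  · rw [iw_eq, inner_self_eq_norm_sq_to_K, hζ]
    norm_num
  · exact (pi_norm_le_iff_of_nonneg zero_le_one).2 hζi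
  · intro y
    show ‖∑ i, y i * (starRingEnd ℂ) (ζ i)‖ ≤ _
    refine (norm_sum_le _ _).trans ?_
    have h1 : ∀ i ∈ Finset.univ, ‖y i * (starRingEnd ℂ) (ζ i)‖ ≤ ‖y‖ := by
      intro i _
      rw [norm_mul, RCLike.norm_conj]
      calc ‖y i‖ * ‖ζ i‖ ≤ ‖y‖ * 1 := mul_le_mul (norm_le_pi_norm y i) (hζi i) (norm_nonneg _) (norm_nonneg _)
        _ = ‖y‖ := mul_one _
    refine (Finset.sum_le_card_nsmul _ _ _ h1).trans (le_of_eq ?_)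
    rw [Finset.card_univ, Fintype.card_fin, nsmul_eq_mul]
    push_cast
    ring

end Pool.Agent.TG
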