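import Pool.Agent.TG.XExt
import Pool.Agent.TG.XBl

/-!
# TG XHs: the integral is `0` on a half space

`PairData.half_space`: a pair which is close on a half space has integral `0` on a smaller half space.  By `PairData.ext` the integral extends to a bounded analytic function `Jt` on the half space `Re w < t - c r₁`; by Liouville's
theorem it is constant on the hyperplanes `w = const`, so it is `α (w y)` with `α` a bounded holomorphic function on a half plane, with zeros at `w l`, `l ∈ Γ`.  These are relatively dense in `ℂ`, so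
`α = 0` (`dense_decay` on large discs).
-/

set_option autoImplicit false

open Topology Filter Metric MeasureTheory

namespace Pool.Agent.TG

open Pool.Agent.AD (Vd)

variable {k : ℕ} {Γ : AddSubgroup (Vd (k + 1))} {D : Set (Vd (k + 1))} {Tr : Vd (k + 1) → Vd (k + 1) → Prop} {P : Type} {dd : P → Vd (k + 1) → ℝ}
  {J : P → Vd (k + 1) → ℂ}

/-- a bounded holomorphic function on a half plane which vanishes on a relatively dense subgroup is `0` -/
private theorem hs_plane {R₀ : ℝ} (hR₀ : 0 < R₀) : ∃ r₃ : ℝ, 0 < r₃ ∧ ∀ Γ : AddSubgroup ℂ, (∀ z : ℂ, ∃ l ∈ Γ, ‖z - l‖ ≤ R₀) →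
    ∀ (α : ℂ → ℂ) (T C : ℝ), (∀ z : ℂ, z.re < T → DifferentiableAt ℂ α z ∧ ‖α z‖ ≤ C) → (∀ l ∈ Γ, l.re < T → α l = 0) → ∀ z : ℂ, z.re ≤ T - r₃ → α z = 0 := by
  obtain ⟨κ, r₀, hκ, hr₀, hdec⟩ := dense_decay hR₀
  refine ⟨r₀ + 1, by linarith, fun Γ hΓ α T C hα hl z hz => ?_⟩
  have key : ∀ s : ℕ, ‖α z‖ ≤ C * Real.exp (-κ * (2 * (s : ℝ) + 1)) := by
    intro s
    have hs : (0 : ℝ) ≤ s := Nat.cast_nonneg s
    have hball : ∀ w ∈ ball (z - (s : ℂ)) ((s : ℝ) + r₀ + 1), w.re < T := by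
      intro w hw
      rw [mem_ball, dist_eq_norm] at hw
      have h1 := (Complex.re_le_norm (w - (z - (s : ℂ)))).trans_lt hw
      simp only [Complex.sub_re, Complex.natCast_re] at h1
      linarith
    have hz' : z ∈ ball (z - (s : ℂ)) ((s : ℝ) + r₀ + 1) := by
      rw [mem_ball, dist_eq_norm, sub_sub_cancel, Complex.norm_natCast]
      linarith
    have h1 := hdec Γ hΓ α (z - (s : ℂ)) ((s : ℝ) + r₀ + 1) C (by linarith) (fun w hw => (hα w (hball w hw)).1.differentiableWithinAt)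
      (fun w hw => (hα w (hball w hw)).2) (fun l hlΓ hlb => hl l hlΓ (hball l hlb)) z hz'
    rw [sub_sub_cancel, Complex.norm_natCast] at h1
    have h2 : ((s : ℝ) + r₀ + 1 - r₀) ^ 2 - (s : ℝ) ^ 2 = 2 * (s : ℝ) + 1 := by ring
    rwa [h2] at h1
  have hlim : Tendsto (fun s : ℕ => C * Real.exp (-κ * (2 * (s : ℝ) + 1))) atTop (𝓝 (C * 0)) := by
    refine Tendsto.const_mul C ?_
    refine Real.tendsto_exp_atBot.comp ?_
    have h1 : Tendsto (fun s : ℕ => 2 * (s : ℝ) + 1) atTop atTop :=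
      tendsto_atTop_add_const_right _ _ (tendsto_natCast_atTop_atTop.const_mul_atTop two_pos)
    exact h1.const_mul_atTop_of_neg (by linarith)
  rw [mul_zero] at hlim
  exact norm_le_zero_iff.1 (ge_of_tendsto' hlim key)

theorem PairData.half_space (h : PairData Γ D Tr dd J) (h0 : (0 : Vd (k + 1)) ∉ D) (hz : ∀ p, ∀ l ∈ Γ, J p l = 0) {c : ℝ} (hc : 0 < c) {d₂ : ℝ} (hd₂ : 0 < d₂) :
    ∃ d ε r₂ : ℝ, 0 < d ∧ 0 < ε ∧ 0 < r₂ ∧ ∀ (p : P) (w : Vd (k + 1) →ₗ[ℂ] ℂ) (v₀ : Vd (k + 1)) (t : ℝ), w v₀ = 1 → ‖v₀‖ ≤ 1 → (∀ y, ‖w y‖ ≤ c * ‖y‖) →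
      (∀ x ∈ Gd D d, (w x).re ≤ t → dd p x ≤ ε) → ∀ y ∈ Gd D d₂, (w y).re ≤ t - r₂ → J p y = 0 := by
  obtain ⟨R, hR, hcpt⟩ := h.cpt
  obtain ⟨r₁, hr₁, hext⟩ := h.ext
  obtain ⟨d₀, hd₀, h0D⟩ := gdx_compact h.D_closed (isCompact_singleton (x := (0 : Vd (k + 1)))) (fun x hx => by rw [Set.mem_singleton_iff.1 hx]; exact h0)
  have hΓD : ∀ l ∈ Γ, l ∈ Gd D d₀ := by
    intro l hl
    have h1 := (gdx_add h.D_inv (δ' := d₀) (z := (0 : Vd (k + 1))) hl).2 (h0D rfl)
    rwa [zero_add] at h1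
  obtain ⟨d, ε, C, hd, hε, hJt⟩ := hext (min d₂ d₀) (lt_min hd₂ hd₀)
  obtain ⟨r₃, hr₃, hplane⟩ := hs_plane (R₀ := c * R) (by positivity)
  refine ⟨d, ε, c * r₁ + r₃ + 1, hd, hε, by positivity, fun p w v₀ t hwv hv₀ hwc hcl y hyD hyt => ?_⟩
  obtain ⟨Jt, hJ⟩ := hJt p
  have hH : ∀ y : Vd (k + 1), (w y).re < t - c * r₁ → AnalyticAt ℂ Jt y ∧ ‖Jt y‖ ≤ C ∧ (y ∈ Gd D (min d₂ d₀) → Jt y = J p y) := by
    intro y hy
    refine hJ y fun x hx hxy => hcl x hx ?_
    have h1 : (w x).re = (w y).re + (w (x - y)).re := by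
      rw [map_sub, Complex.sub_re]
      ring
    have h2 : (w (x - y)).re ≤ c * r₁ := (Complex.re_le_norm _).trans ((hwc _).trans (mul_le_mul_of_nonneg_left hxy.le hc.le))
    rw [h1]
    linarith
  -- the function on the line
  have hconst : ∀ y : Vd (k + 1), (w y).re < t - c * r₁ → Jt y = Jt (w y • v₀) := by
    intro y hy
    have hw : ∀ z : ℂ, w (y + z • (w y • v₀ - y)) = w y := by
      intro z
      rw [map_add, map_smul, map_sub, map_smul, hwv, smul_eq_mul, smul_eq_mul, mul_one, sub_self, mul_zero, add_zero]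
    have hd : Differentiable ℂ fun z : ℂ => Jt (y + z • (w y • v₀ - y)) := by
      intro z
      have h1 := (hH (y + z • (w y • v₀ - y)) (by rw [hw z]; exact hy)).1.differentiableAt
      have h2 : DifferentiableAt ℂ (fun z : ℂ => y + z • (w y • v₀ - y)) z := by fun_prop
      exact h1.comp z h2
    have hb : Bornology.IsBounded (Set.range fun z : ℂ => Jt (y + z • (w y • v₀ - y))) := by
      refine (isBounded_iff_forall_norm_le).2 ⟨C, ?_⟩
      rintro _ ⟨z, rfl⟩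
      exact (hH (y + z • (w y • v₀ - y)) (by rw [hw z]; exact hy)).2.1
    have h1 := hd.apply_eq_apply_of_bounded hb 0 1
    simp only [zero_smul, add_zero, one_smul, add_sub_cancel] at h1
    exact h1
  have hdense : ∀ z : ℂ, ∃ l ∈ Γ.map w.toAddMonoidHom, ‖z - l‖ ≤ c * R := by
    intro z
    obtain ⟨l, hl, hzl⟩ := hcpt (z • v₀)
    refine ⟨w l, ⟨l, hl, rfl⟩, ?_⟩
    have h1 : z - w l = w (z • v₀ - l) := by
      rw [map_sub, map_smul, hwv, smul_eq_mul, mul_one]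
    rw [h1]
    exact (hwc _).trans (mul_le_mul_of_nonneg_left hzl hc.le)
  have hvw : ∀ z : ℂ, w (z • v₀) = z := fun z => by rw [map_smul, hwv, smul_eq_mul, mul_one]
  have hα := hplane (Γ.map w.toAddMonoidHom) hdense (fun z => Jt (z • v₀)) (t - c * r₁) C (fun z hz => by
    have h1 := hH (z • v₀) (by rw [hvw]; exact hz)
    refine ⟨?_, h1.2.1⟩
    have h2 : DifferentiableAt ℂ (fun z : ℂ => z • v₀) z := by fun_prop
    exact h1.1.differentiableAt.comp z h2) (by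
    rintro _ ⟨l, hl, rfl⟩ hlt
    have hlt' : (w l).re < t - c * r₁ := hlt
    have h1 := hconst l hlt'
    have h2 := (hH l hlt').2.2 (gdx_mono (min_le_right _ _) (hΓD l hl))
    show Jt (w l • v₀) = 0
    rw [← h1, h2, hz p l hl]) (w y) (by linarith)
  have h1 : (w y).re < t - c * r₁ := by linarith
  rw [← (hH y h1).2.2 (gdx_mono (min_le_left _ _) hyD), hconst y h1]
  exact hα

end Pool.Agent.TG
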