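import Pool.Agent.TG.XDefs
import Pool.Agent.H13.SM.Null

/-!
# TG XNull: an analytic function which vanishes on a set of positive measure is `0`

If `f` is eventually `0` at a point of `U`, use `AnalyticOnNhd.eqOn_zero_of_preconnected_of_eventuallyEq_zero`.  Otherwise every point `y ∈ U` has a neighbourhood `W` with
`volume (W ∩ {f = 0}) = 0` (`H13.SM.exists_null` for `fun x => f (y + x)`, translation; trivial if `f y ≠ 0`), so the set `{y | y ∈ U ∧ f y = 0}` is a null set
(`MeasureTheory.measure_null_of_locally_null`): contradiction.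
-/

set_option autoImplicit false

open Topology Filter Metric MeasureTheory

namespace Pool.Agent.TG

open Pool.Agent.AD (Vd)

theorem zero_of_volume {n : ℕ} {f : Vd n → ℂ} {U : Set (Vd n)} (hU : IsOpen U) (hc : IsPreconnected U) (hf : AnalyticOnNhd ℂ f U)
    (hv : volume {y | y ∈ U ∧ f y = 0} ≠ 0) : ∀ y ∈ U, f y = 0 := by
  by_contra hcon
  push Not at hcon
  obtain ⟨y₁, hy₁, hf₁⟩ := hcon
  apply hv
  refine measure_null_of_locally_null _ fun y hy => ?_
  obtain ⟨hyU, hfy⟩ := hy
  have hne : ¬ ∀ᶠ u in 𝓝 (0 : Vd n), f (y + u) = 0 := by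
    intro h
    have ht : Tendsto (fun z : Vd n => z - y) (𝓝 y) (𝓝 0) := by
      have h0 : Continuous fun z : Vd n => z - y := by fun_prop
      have h1 := h0.tendsto y
      rwa [sub_self] at h1
    have h2 : f =ᶠ[𝓝 y] 0 := by
      filter_upwards [ht.eventually h] with z hz
      simpa using hz
    exact hf₁ (hf.eqOn_zero_of_preconnected_of_eventuallyEq_zero hc hyU h2 hy₁)
  have han : AnalyticAt ℂ (fun u : Vd n => f (y + u)) 0 := by
    have h1 : AnalyticAt ℂ (fun u : Vd n => y + u) 0 := analyticAt_const.add analyticAt_id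
    have h2 : AnalyticAt ℂ f (y + 0) := by
      rw [add_zero]
      exact hf y hyU
    exact AnalyticAt.comp (g := f) (f := fun u : Vd n => y + u) h2 h1
  obtain ⟨W, hW, hWv⟩ := Pool.Agent.H13.SM.exists_null han (by simpa using hfy) hne
  refine ⟨(fun z : Vd n => z + -y) ⁻¹' {u | u ∈ W ∧ f (y + u) = 0}, ?_, ?_⟩
  · have ht : Tendsto (fun z : Vd n => z + -y) (𝓝 y) (𝓝 0) := by
      have h0 : Continuous fun z : Vd n => z + -y := by fun_prop
      have h1 := h0.tendsto y
      rwa [add_neg_cancel] at h1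
    have h3 : ∀ᶠ z in 𝓝[{y | y ∈ U ∧ f y = 0}] y, z ∈ {y | y ∈ U ∧ f y = 0} := self_mem_nhdsWithin
    have h4 : ∀ᶠ z in 𝓝[{y | y ∈ U ∧ f y = 0}] y, z + -y ∈ W :=
      nhdsWithin_le_nhds (ht.eventually hW)
    filter_upwards [h3, h4] with z hz hzW
    refine ⟨hzW, ?_⟩
    have h5 : y + (z + -y) = z := by abel
    rw [h5]
    exact hz.2
  · rw [measure_preimage_add_right]
    exact hWv

end Pool.Agent.TG
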