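import Pool.Agent.TG.XPt
import Pool.Agent.TG.XCirc
import Pool.Agent.TG.XNull

/-!
# TG XLoc: the integral is equal to its circle means near a point, with uniform constants
-/

set_option autoImplicit false

open Topology Filter Metric MeasureTheory

namespace Pool.Agent.TG

open Pool.Agent.AD (Vd)

variable {k : ℕ} {Γ : AddSubgroup (Vd (k + 1))} {D : Set (Vd (k + 1))} {Tr : Vd (k + 1) → Vd (k + 1) → Prop} {P : Type} {dd : P → Vd (k + 1) → ℝ}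
  {J : P → Vd (k + 1) → ℂ}

/-- on one small ball -/
private theorem loc_ball (h : PairData Γ D Tr dd J) {e y₀ y₁ : Vd (k + 1)} {r c ρ d₂ : ℝ} (he0 : e ≠ 0) (he : ‖e‖ ≤ 1) (hr : 0 < r) (hr1 : r < 1) (hc : 0 < c)
    (hρ : 0 < ρ) (hρ1 : ρ < 1) (hcirc : ∀ y ∈ ball y₀ (4 * ρ), ∀ z : ℂ, ‖z‖ = r → y + z • e ∈ Gd D c) (hd₂ : 0 < d₂) (hy₁ : ‖y₁ - y₀‖ ≤ ρ)
    (hy₁D : y₁ ∈ Gd D d₂) : ∃ d ε : ℝ, 0 < d ∧ 0 < ε ∧ ∀ p, (∀ x ∈ Gd D d, ‖x - y₀‖ < 4 → dd p x ≤ ε) →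
      ∀ y ∈ ball y₁ (min (d₂ / 2) ρ), cm (J p) e r y = J p y := by
  obtain ⟨β, hβ⟩ : ∃ β : Set (Vd (k + 1)), β = ball y₁ (min (d₂ / 2) ρ) := ⟨_, rfl⟩
  have hβG : ∀ y ∈ β, y ∈ Gd D (d₂ / 2) := by
    intro y hy b hb
    rw [hβ, mem_ball, dist_eq_norm] at hy
    have h1 := hy₁D b hb
    have h2 : ‖y₁ - b‖ ≤ ‖y - b‖ + ‖y - y₁‖ := by
      have e1 : y₁ - b = (y - b) - (y - y₁) := by abel
      rw [e1]
      exact norm_sub_le _ _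
    have h3 := hy.trans_le (min_le_left _ _)
    linarith
  have hβ0 : ∀ y ∈ β, ‖y - y₀‖ < 2 * ρ := by
    intro y hy
    rw [hβ, mem_ball, dist_eq_norm] at hy
    have h2 : ‖y - y₀‖ ≤ ‖y - y₁‖ + ‖y₁ - y₀‖ := by
      have e1 : y - y₀ = (y - y₁) + (y₁ - y₀) := by abel
      rw [e1]
      exact norm_add_le _ _
    have h3 := hy.trans_le (min_le_right _ _)
    linarith
  have hβc : ∀ y ∈ β, ∀ z : ℂ, ‖z‖ = r → y + z • e ∈ Gd D c := by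
    intro y hy z hz
    refine hcirc y ?_ z hz
    rw [mem_ball, dist_eq_norm]
    linarith [hβ0 y hy]
  obtain ⟨G, hG⟩ : ∃ G : ℕ → Set (Vd (k + 1)), ∀ m y, y ∈ G m ↔ y ∈ β ∧ ∀ p, (∀ x ∈ Gd D (1 / ((m : ℝ) + 1)), ‖x - y₀‖ < 4 → dd p x ≤ 1 / ((m : ℝ) + 1)) →
      cm (J p) e r y = J p y := ⟨fun m => {y | y ∈ β ∧ ∀ p, (∀ x ∈ Gd D (1 / ((m : ℝ) + 1)), ‖x - y₀‖ < 4 → dd p x ≤ 1 / ((m : ℝ) + 1)) →
        cm (J p) e r y = J p y}, fun m y => Iff.rfl⟩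
  obtain ⟨m, hm⟩ : ∃ m, volume (G m) ≠ 0 := by
    by_contra hcon
    push Not at hcon
    have h1 : volume (⋃ m, G m) = 0 := measure_iUnion_null hcon
    have h2 := h.ae_tr e he0
    have h3 : volume β = 0 := by
      refine measure_mono_null (t := (⋃ m, G m) ∪ {y | ¬ ∀ z : ℂ, y + z • e ∈ D → Tr (y + z • e) e}) ?_ (measure_union_null h1 h2)
      intro y hy
      by_cases hgood : ∀ z : ℂ, y + z • e ∈ D → Tr (y + z • e) e
      · left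
        obtain ⟨d', ε', hd', hε', hpt⟩ := h.point hr hr1 he (gdx_notMem (half_pos hd₂) (hβG y hy)) (fun z hz => gdx_notMem hc (hβc y hy z hz)) hgood
        obtain ⟨m, hm⟩ := exists_nat_one_div_lt (lt_min hd' hε')
        rw [Set.mem_iUnion]
        refine ⟨m, (hG m y).2 ⟨hy, fun p hp => hpt p fun x hx hxy => ?_⟩⟩
        refine (hp x (gdx_mono (hm.le.trans (min_le_left _ _)) hx) ?_).trans (hm.le.trans (min_le_right _ _))
        have e1 : x - y₀ = (x - y) + (y - y₀) := by abel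
        rw [e1]
        refine (norm_add_le _ _).trans_lt ?_
        linarith [hβ0 y hy]
      · right
        exact hgood
    have h4 : 0 < volume β := by
      rw [hβ]
      exact measure_ball_pos volume y₁ (lt_min (half_pos hd₂) hρ)
    rw [h3] at h4
    exact lt_irrefl _ h4
  obtain ⟨ε₁, C₁, hε₁, hhol₁⟩ := h.hol (d₂ / 2) (half_pos hd₂)
  obtain ⟨ε₂, C₂, hε₂, hhol₂⟩ := h.hol c hc
  have hm0 : (0 : ℝ) < 1 / ((m : ℝ) + 1) := by positivity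
  obtain ⟨d, hd⟩ : ∃ d : ℝ, d = min (1 / ((m : ℝ) + 1)) (min (d₂ / 2) c) := ⟨_, rfl⟩
  obtain ⟨ε, hε⟩ : ∃ ε : ℝ, ε = min (1 / ((m : ℝ) + 1)) (min ε₁ ε₂) := ⟨_, rfl⟩
  have hd1 : d ≤ 1 / ((m : ℝ) + 1) := by rw [hd]; exact min_le_left _ _
  have hd2 : d ≤ d₂ / 2 := by rw [hd]; exact (min_le_right _ _).trans (min_le_left _ _)
  have hd3 : d ≤ c := by rw [hd]; exact (min_le_right _ _).trans (min_le_right _ _)
  have he1 : ε ≤ 1 / ((m : ℝ) + 1) := by rw [hε]; exact min_le_left _ _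
  have he2 : ε ≤ ε₁ := by rw [hε]; exact (min_le_right _ _).trans (min_le_left _ _)
  have he3 : ε ≤ ε₂ := by rw [hε]; exact (min_le_right _ _).trans (min_le_right _ _)
  refine ⟨d, ε, ?_, ?_, fun p hp => ?_⟩
  · rw [hd]
    exact lt_min hm0 (lt_min (half_pos hd₂) hc)
  · rw [hε]
    exact lt_min hm0 (lt_min hε₁ hε₂)
  have hJ : ∀ y ∈ β, AnalyticAt ℂ (J p) y := by
    intro y hy
    refine (hhol₁ p y (hβG y hy) ((hp y (gdx_mono hd2 (hβG y hy)) ?_).trans he2)).1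
    linarith [hβ0 y hy]
  have hK : ∀ y ∈ β, AnalyticAt ℂ (cm (J p) e r) y := by
    intro y hy
    refine cm_analytic hr fun z hz => ?_
    have h1 := hβc y hy z hz
    refine (hhol₂ p _ h1 ((hp _ (gdx_mono hd3 h1) ?_).trans he3)).1
    have e1 : y + z • e - y₀ = (y - y₀) + z • e := by abel
    rw [e1]
    refine (norm_add_le _ _).trans_lt ?_
    have h2 := line_norm he z
    linarith [hβ0 y hy]
  have hzero := zero_of_volume (f := fun y => cm (J p) e r y - J p y) (U := β) (by rw [hβ]; exact isOpen_ball)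
    (by rw [hβ]; exact (convex_ball y₁ _).isPreconnected) (fun y hy => (hK y hy).sub (hJ y hy)) (by
      intro hcon
      apply hm
      refine measure_mono_null ?_ hcon
      intro y hy
      have h1 := (hG m y).1 hy
      refine ⟨h1.1, sub_eq_zero.2 (h1.2 p fun x hx hxy => (hp x (gdx_mono hd1 hx) hxy).trans he1)⟩)
  intro y hy
  rw [← hβ] at hy
  exact sub_eq_zero.1 (hzero y hy)

theorem PairData.loc (h : PairData Γ D Tr dd J) {e y₀ : Vd (k + 1)} {r c ρ d₂ : ℝ} (he0 : e ≠ 0) (he : ‖e‖ ≤ 1) (hr : 0 < r) (hr1 : r < 1) (hc : 0 < c)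
    (hρ : 0 < ρ) (hρ1 : ρ < 1) (hcirc : ∀ y ∈ ball y₀ (4 * ρ), ∀ z : ℂ, ‖z‖ = r → y + z • e ∈ Gd D c) (hd₂ : 0 < d₂) :
    ∃ d ε : ℝ, 0 < d ∧ 0 < ε ∧ ∀ p, (∀ x ∈ Gd D d, ‖x - y₀‖ < 4 → dd p x ≤ ε) → ∀ y ∈ Gd D d₂, ‖y - y₀‖ ≤ ρ → cm (J p) e r y = J p y := by
  have hcpt : IsCompact (Gd D d₂ ∩ closedBall y₀ ρ) := (isCompact_closedBall y₀ ρ).inter_left (gdx_closed d₂)
  have key : ∀ y₁ ∈ Gd D d₂ ∩ closedBall y₀ ρ, ∃ d ε : ℝ, 0 < d ∧ 0 < ε ∧ ∀ p, (∀ x ∈ Gd D d, ‖x - y₀‖ < 4 → dd p x ≤ ε) →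
      ∀ y ∈ ball y₁ (min (d₂ / 2) ρ), cm (J p) e r y = J p y := by
    rintro y₁ ⟨h1, h2⟩
    rw [mem_closedBall, dist_eq_norm] at h2
    exact loc_ball h he0 he hr hr1 hc hρ hρ1 hcirc hd₂ h2 h1
  choose! d ε hd hε hcl using key
  obtain ⟨t, htC, hcov⟩ := hcpt.elim_nhds_subcover (fun y₁ => ball y₁ (min (d₂ / 2) ρ)) (fun y₁ _ => ball_mem_nhds y₁ (lt_min (half_pos hd₂) hρ))
  obtain ⟨δ, hδ, hδ1⟩ : ∃ δ : ℝ, 0 < δ ∧ ∀ y ∈ t, δ ≤ d y ∧ δ ≤ ε y := by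
    have hev : ∀ᶠ δ : ℝ in 𝓝[>] 0, ∀ y ∈ t, δ ≤ d y ∧ δ ≤ ε y := by
      rw [Filter.eventually_all_finset]
      intro y hy
      filter_upwards [nhdsWithin_le_nhds (Iic_mem_nhds (hd y (htC y hy))), nhdsWithin_le_nhds (Iic_mem_nhds (hε y (htC y hy)))] with δ h1 h2
      exact ⟨h1, h2⟩
    obtain ⟨δ, h1, h2⟩ := (hev.and self_mem_nhdsWithin).exists
    exact ⟨δ, h2, h1⟩
  refine ⟨δ, δ, hδ, hδ, fun p hp y hy hyρ => ?_⟩
  obtain ⟨y₁, hy₁, hy₁'⟩ := Set.mem_iUnion₂.mp (hcov ⟨hy, by rwa [mem_closedBall, dist_eq_norm]⟩)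
  exact hcl y₁ (htC y₁ hy₁) p (fun x hx hxy => (hp x (gdx_mono (hδ1 y₁ hy₁).1 hx) hxy).trans (hδ1 y₁ hy₁).2) y hy₁'

end Pool.Agent.TG
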