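import Pool.Agent.TG.JJ
import Pool.Agent.TG.XHi
import Pool.Agent.TG.XGeo
import Pool.Agent.TG.SbB
import Pool.Agent.TG.Cross
import Pool.Agent.H62.EL.Ext

/-!
# TG XPd: the pairs of members of `Sb` satisfy the hypotheses of the extension theorem
-/

set_option autoImplicit false

open Topology Filter Metric MeasureTheory

namespace Pool.Agent.TG

open Pool.Agent.H36.BP (EN fs wd)
open Pool.Agent.H14.PP (IsCone CurveAt Tan)
open Pool.Agent.H62.EF (MN pr)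
open Pool.Agent.AD (Vd Chart Charts IsGerm)

theorem circle_lim {r C : ℝ} {F : ℕ → ℂ → ℂ} {f : ℂ → ℂ} (hr : 0 ≤ r) (hF : ∀ n, ContinuousOn (F n) (sphere (0 : ℂ) r))
    (hC : ∀ n, ∀ z ∈ sphere (0 : ℂ) r, ‖F n z‖ ≤ C) (hl : ∀ z ∈ sphere (0 : ℂ) r, Tendsto (fun n => F n z) atTop (𝓝 (f z)))
    (h0 : ∀ n, (∮ z in C(0, r), F n z) = 0) : (∮ z in C(0, r), f z) = 0 := by
  have hmem : ∀ θ : ℝ, circleMap (0 : ℂ) r θ ∈ sphere (0 : ℂ) r := fun θ => circleMap_mem_sphere _ hr θ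
  have h1 : Tendsto (fun n => ∮ z in C(0, r), F n z) atTop (𝓝 (∮ z in C(0, r), f z)) := by
    unfold circleIntegral
    refine intervalIntegral.tendsto_integral_filter_of_dominated_convergence (fun _ => |r| * C) ?_ ?_ ?_ ?_
    · refine Eventually.of_forall fun n => ?_
      have hcont : Continuous fun θ : ℝ => deriv (circleMap (0 : ℂ) r) θ • F n (circleMap 0 r θ) := by
        have h2 : Continuous fun θ : ℝ => F n (circleMap 0 r θ) := (hF n).comp_continuous (continuous_circleMap 0 r) hmem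
        have h3 : Continuous fun θ : ℝ => deriv (circleMap (0 : ℂ) r) θ := by
          simp only [deriv_circleMap]
          exact (continuous_circleMap 0 r).mul continuous_const
        exact h3.smul h2
      exact hcont.aestronglyMeasurable
    · refine Eventually.of_forall fun n => Eventually.of_forall fun θ _ => ?_
      rw [norm_smul]
      have h3 : ‖deriv (circleMap (0 : ℂ) r) θ‖ = |r| := by
        simp only [deriv_circleMap, norm_mul, norm_circleMap_zero, Complex.norm_I, mul_one]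
      rw [h3]
      exact mul_le_mul_of_nonneg_left (hC n _ (hmem θ)) (abs_nonneg _)
    · exact intervalIntegrable_const
    · exact Eventually.of_forall fun θ _ => (hl _ (hmem θ)).const_smul _
  have h2 : Tendsto (fun n => ∮ z in C(0, r), F n z) atTop (𝓝 0) := by
    simp only [h0]
    exact tendsto_const_nhds
  exact tendsto_nhds_unique h1 h2

variable {N k : ℕ} {X : Set (EN N)} {Λ : AddSubgroup (Vd (k + 1))} {u : EN N → Vd (k + 1)} {D B : Set (Vd (k + 1))}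

theorem sb_cont (G : Geo X Λ u D B) {f : Vd (k + 1) → MN N} (hf : f ∈ Sb X Λ u D) {y : Vd (k + 1)} (hy : y ∉ D) : ContinuousAt f y := by
  obtain ⟨δ, hδ, hyδ⟩ := G.exists_gd hy
  obtain ⟨L, hL, hl⟩ := sb_lip G hδ
  rw [Metric.continuousAt_iff]
  intro η hη
  refine ⟨min (δ / 2) (η / L), lt_min (half_pos hδ) (div_pos hη hL), fun w hw => ?_⟩
  have h1 := hl f hf y hyδ w (mem_closedBall.2 (hw.le.trans (min_le_left _ _)))
  rw [dist_comm]
  have h2 : ‖y - w‖ < η / L := by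
    rw [← dist_eq_norm, dist_comm]
    exact lt_of_lt_of_le hw (min_le_right _ _)
  calc dist (f y) (f w) ≤ L * ‖y - w‖ := h1
    _ < L * (η / L) := mul_lt_mul_of_pos_left h2 hL
    _ = η := mul_div_cancel₀ _ hL.ne'

theorem sb_hol (G : Geo X Λ u D B) {δ ε ε₀ : ℝ} (hc : Cst X Λ u D δ ε ε₀) {α : VForm X Λ u} {f g : Vd (k + 1) → MN N}
    (hf : f ∈ Sb X Λ u D) (hg : g ∈ Sb X Λ u D) {d : ℝ} (hd : δ < d) {y₀ : Vd (k + 1)} (hy₀ : y₀ ∈ Gd D d) (hcl : dist (f y₀) (g y₀) < ε₀) :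
    AnalyticAt ℂ (fun y => JJ α y (f y) (g y)) y₀ := by
  have hyD : y₀ ∉ D := gd_notMem (hc.δ_pos.trans hd) hy₀
  have e1 : ∀ᶠ y in 𝓝 y₀, y ∈ Gd D δ := by
    filter_upwards [Metric.ball_mem_nhds y₀ (sub_pos.2 hd)] with y hy
    have h1 := gd_near hy₀ (r := d - δ) (w := y) (by rw [← dist_eq_norm]; exact (mem_ball.1 hy).le)
    rwa [sub_sub_cancel] at h1
  have e2 : ∀ᶠ y in 𝓝 y₀, dist (f y) (g y) < ε₀ :=
    ((sb_cont G hf hyD).dist (sb_cont G hg hyD)).eventually (gt_mem_nhds hcl)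
  have e3 : ∀ᶠ y in 𝓝 y₀, y ∈ Gd D δ ∧ f y ∈ Fb X Λ u y ∧ g y ∈ Fb X Λ u y ∧ dist (f y) (g y) ≤ ε₀ := by
    filter_upwards [e1, e2] with y h1 h2
    have hy := gd_notMem hc.δ_pos h1
    exact ⟨h1, sb_mem G hf hy, sb_mem G hg hy, h2.le⟩
  have e4 : ∀ᶠ y in 𝓝 y₀, II α ε y (f y) (g y) = JJ α y (f y) (g y) := by
    filter_upwards [e3] with y h
    exact (jj_eq_II G.cone G.tor G.lat hc h.1 h.2.1 h.2.2.1 h.2.2.2).symm
  have e5 : ∀ᶠ y in 𝓝 y₀, ∃ v, IRel α ε y (f y) (g y) v := by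
    filter_upwards [e3] with y h
    exact hc.rel y h.1 _ h.2.1 _ h.2.2.1 h.2.2.2 α
  exact (sb_II_analytic G hc hf hg (gd_mono hd.le hy₀) e5).congr e4

theorem annulus_closure {r₁ r₂ : ℝ} (hr₁ : 0 < r₁) (hr : r₁ < r₂) {z : ℂ} (h1 : r₁ ≤ ‖z‖) (h2 : ‖z‖ ≤ r₂) :
    z ∈ closure {w : ℂ | r₁ < ‖w‖ ∧ ‖w‖ < r₂} := by
  have hz : 0 < ‖z‖ := hr₁.trans_le h1
  set m : ℝ := (r₁ + r₂) / 2 with hm
  rw [mem_closure_iff_seq_limit]
  refine ⟨fun n => (((1 - 1 / ((n : ℝ) + 2)) + 1 / ((n : ℝ) + 2) * (m / ‖z‖) : ℝ) : ℂ) * z, fun n => ?_, ?_⟩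
  · have hn : (0 : ℝ) < 1 / ((n : ℝ) + 2) := by positivity
    have hn1 : 1 / ((n : ℝ) + 2) < 1 := by
      rw [div_lt_one (by positivity)]
      have : (0 : ℝ) ≤ n := Nat.cast_nonneg n
      linarith
    set t : ℝ := 1 / ((n : ℝ) + 2) with ht
    have hm0 : 0 < m := by rw [hm]; linarith
    have hnn : 0 ≤ (1 - t) + t * (m / ‖z‖) := by
      have : 0 ≤ t * (m / ‖z‖) := by positivity
      linarith
    have e : ‖((((1 - t) + t * (m / ‖z‖) : ℝ) : ℂ)) * z‖ = (1 - t) * ‖z‖ + t * m := by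
      rw [norm_mul, Complex.norm_real, Real.norm_of_nonneg hnn]
      field_simp
    show r₁ < ‖((((1 - t) + t * (m / ‖z‖) : ℝ) : ℂ)) * z‖ ∧ ‖((((1 - t) + t * (m / ‖z‖) : ℝ) : ℂ)) * z‖ < r₂
    rw [e]
    constructor
    · have a1 : (1 - t) * r₁ ≤ (1 - t) * ‖z‖ := mul_le_mul_of_nonneg_left h1 (by linarith)
      have a2 : t * r₁ < t * m := mul_lt_mul_of_pos_left (by rw [hm]; linarith) hn
      linarith
    · have a1 : (1 - t) * ‖z‖ ≤ (1 - t) * r₂ := mul_le_mul_of_nonneg_left h2 (by linarith)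
      have a2 : t * m < t * r₂ := mul_lt_mul_of_pos_left (by rw [hm]; linarith) hn
      linarith
  · have h3 : Tendsto (fun n : ℕ => 1 / ((n : ℝ) + 2)) atTop (𝓝 0) := by
      have h4 : Tendsto (fun n : ℕ => (n : ℝ) + 2) atTop atTop := tendsto_atTop_add_const_right _ _ tendsto_natCast_atTop_atTop
      exact h4.inv_tendsto_atTop.congr fun n => by rw [Pi.inv_apply, one_div]
    have h5 : Tendsto (fun n : ℕ => (1 - 1 / ((n : ℝ) + 2)) + 1 / ((n : ℝ) + 2) * (m / ‖z‖)) atTop (𝓝 ((1 - 0) + 0 * (m / ‖z‖))) :=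
      (tendsto_const_nhds.sub h3).add (h3.mul_const _)
    have h6 : Tendsto (fun n : ℕ => ((((1 - 1 / ((n : ℝ) + 2)) + 1 / ((n : ℝ) + 2) * (m / ‖z‖) : ℝ) : ℂ)) * z) atTop
        (𝓝 ((((1 - 0) + 0 * (m / ‖z‖) : ℝ) : ℂ) * z)) :=
      ((Complex.continuous_ofReal.tendsto _).comp h5).mul_const z
    simpa using h6

theorem sb_cross (G : Geo X Λ u D B) {Γ : AddSubgroup (Vd (k + 1))} (hΓ : Lat Γ) (hle : Γ ≤ Λ) {α : VForm X Λ u} (hper : Per α Γ)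
    {q e : Vd (k + 1)} (ht : TrB D B q e) :
    ∃ s₀ : ℝ, 0 < s₀ ∧ ∀ r₁ r₂ : ℝ, 0 < r₁ → r₁ < r₂ → r₂ < s₀ → ∃ ε : ℝ, 0 < ε ∧ ∀ f ∈ Sb X Λ u D, ∀ g ∈ Sb X Λ u D,
      (∀ z : ℂ, r₁ < ‖z‖ → ‖z‖ < r₂ → dist (f (q + z • e)) (g (q + z • e)) ≤ ε) →
        ∃ J' : ℂ → ℂ, DifferentiableOn ℂ J' (ball 0 r₂) ∧ ∀ z : ℂ, r₁ < ‖z‖ → ‖z‖ < r₂ → J' z = JJ α (q + z • e) (f (q + z • e)) (g (q + z • e)) := by
  obtain ⟨s₀, hs₀, hoff, hh⟩ := crossing G ht.1 ht.2.1 ht.2.2.2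
  refine ⟨s₀, hs₀, fun r₁ r₂ hr₁ hr hr₂ => ?_⟩
  obtain ⟨ε₁, hε₁, hcr⟩ := hh r₁ r₂ hr₁ hr hr₂
  -- the closed annulus
  set K : Set ℂ := {z : ℂ | r₁ ≤ ‖z‖ ∧ ‖z‖ ≤ r₂} with hK
  have hKc : IsCompact K := by
    have : K = closedBall (0 : ℂ) r₂ ∩ {z : ℂ | r₁ ≤ ‖z‖} := by
      ext z
      simp only [hK, Set.mem_ofPred_eq, Set.mem_inter_iff, mem_closedBall, dist_zero_right]
      exact and_comm
    rw [this]
    exact (isCompact_closedBall _ _).inter_right (isClosed_le continuous_const continuous_norm)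
  have hKD : ∀ z ∈ K, q + z • e ∉ D := fun z hz => hoff z (by
    rintro rfl
    have h1 := hz.1
    rw [norm_zero] at h1
    linarith) (lt_of_le_of_lt hz.2 hr₂)
  have hcont : Continuous fun z : ℂ => q + z • e := by fun_prop
  obtain ⟨δ, hδ, hsub⟩ := gdx_compact G.D_closed (hKc.image hcont) (by
    rintro y ⟨z, hz, rfl⟩
    exact hKD z hz)
  have hKG : ∀ z ∈ K, q + z • e ∈ Gd D δ := fun z hz => hsub ⟨z, hz, rfl⟩
  obtain ⟨R, hR⟩ := (hKc.image hcont).isBounded.exists_norm_le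
  have hKR : ∀ z ∈ K, ‖q + z • e‖ ≤ R := fun z hz => hR _ ⟨z, hz, rfl⟩
  obtain ⟨ε, ε₀, hεη, -, hc⟩ := exists_cst G (δ := δ / 2) (η := ε₁) (half_pos hδ) hε₁
  have hδ2 : δ / 2 < δ := by linarith
  have hε := hc.ε_pos
  have hε₀ := hc.ε₀_pos
  obtain ⟨C, hC, hbd⟩ := II_bdd G hΓ hle hper (r := 3 * ε) (ε := ε) hc.δ_pos (by linarith) hc.cap
  refine ⟨ε₀ / 2, half_pos hε₀, fun f hf g hg hcl => ?_⟩
  -- closeness on the closed annulus
  have hclK : ∀ z ∈ K, dist (f (q + z • e)) (g (q + z • e)) ≤ ε₀ / 2 := by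
    intro z hz
    have hcf : ContinuousAt (fun w : ℂ => dist (f (q + w • e)) (g (q + w • e))) z :=
      ((sb_cont G hf (hKD z hz)).comp (f := fun w : ℂ => q + w • e) hcont.continuousAt).dist
        ((sb_cont G hg (hKD z hz)).comp (f := fun w : ℂ => q + w • e) hcont.continuousAt)
    have hzc := annulus_closure hr₁ hr hz.1 hz.2
    have := mem_closure_iff_nhdsWithin_neBot.1 hzc
    refine le_of_tendsto (hcf.mono_left (nhdsWithin_le_nhds (s := {w : ℂ | r₁ < ‖w‖ ∧ ‖w‖ < r₂}))) ?_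
    filter_upwards [self_mem_nhdsWithin] with w hw
    exact hcl w hw.1 hw.2
  refine H62.EL.ext_annulus (b := 0) hr₁ hr (J := fun z => JJ α (q + z • e) (f (q + z • e)) (g (q + z • e))) ?_ ?_ |>.imp fun J' hJ' => ⟨hJ'.1, fun z h1 h2 => ?_⟩
  · intro z hz
    simp only [sub_zero, Set.mem_ofPred_eq] at hz
    have hzK : z ∈ K := ⟨hz.1.le, hz.2.le⟩
    have h1 := sb_hol G hc (α := α) hf hg hδ2 (hKG z hzK) (lt_of_le_of_lt (hclK z hzK) (by linarith))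
    have h2 : AnalyticAt ℂ (fun w : ℂ => q + w • e) z := by fun_prop
    exact (h1.comp_of_eq h2 rfl).differentiableAt.differentiableWithinAt
  · intro n r hr1 hr2
    have hrK : ∀ z ∈ sphere (0 : ℂ) r, z ∈ K := by
      intro z hz
      rw [mem_sphere_zero_iff_norm] at hz
      exact ⟨by rw [hz]; exact hr1.le, by rw [hz]; exact hr2.le⟩
    have hr0 : 0 < r := hr₁.trans hr1
    -- approximants
    have happ : ∀ (h : Vd (k + 1) → MN N), h ∈ Sb X Λ u D → ∀ j : ℕ, ∃ F ∈ Sec X Λ u D, ∀ y ∈ Gd D δ, ‖y‖ ≤ R → dist (F y) (h y) < ε₀ / 4 * (1 / ((j : ℝ) + 1)) :=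
      fun h hh j => hh δ hδ R _ (by positivity)
    choose Fa hFa1 hFa2 using happ f hf
    choose Ga hGa1 hGa2 using happ g hg
    have hj1 : ∀ j : ℕ, ε₀ / 4 * (1 / ((j : ℝ) + 1)) ≤ ε₀ / 4 := by
      intro j
      have h1 : 1 / ((j : ℝ) + 1) ≤ 1 := by
        rw [div_le_one (by positivity)]
        have : (0 : ℝ) ≤ j := Nat.cast_nonneg j
        linarith
      calc ε₀ / 4 * (1 / ((j : ℝ) + 1)) ≤ ε₀ / 4 * 1 := mul_le_mul_of_nonneg_left h1 (by positivity)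
        _ = ε₀ / 4 := mul_one _
    have hlim0 : Tendsto (fun j : ℕ => ε₀ / 4 * (1 / ((j : ℝ) + 1))) atTop (𝓝 0) := by
      have := (tendsto_one_div_add_atTop_nhds_zero_nat (𝕜 := ℝ)).const_mul (ε₀ / 4)
      rwa [mul_zero] at this
    have hcl2 : ∀ j : ℕ, ∀ z ∈ K, dist (Fa j (q + z • e)) (Ga j (q + z • e)) ≤ ε₀ := by
      intro j z hz
      have h1 := hFa2 j _ (hKG z hz) (hKR z hz)
      have h2 := hGa2 j _ (hKG z hz) (hKR z hz)
      have h3 := hclK z hz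
      have h4 := dist_triangle4 (Fa j (q + z • e)) (f (q + z • e)) (g (q + z • e)) (Ga j (q + z • e))
      rw [dist_comm (g (q + z • e))] at h4
      linarith [hj1 j]
    have hKG2 : ∀ z ∈ K, q + z • e ∈ Gd D (δ / 2) := fun z hz => gd_mono hδ2.le (hKG z hz)
    have hrelj : ∀ j : ℕ, ∀ z ∈ K, ∃ v, IRel α ε (q + z • e) (Fa j (q + z • e)) (Ga j (q + z • e)) v := fun j z hz =>
      hc.rel _ (hKG2 z hz) _ (sec_fb (hFa1 j) (hKD z hz)) _ (sec_fb (hGa1 j) (hKD z hz)) (hcl2 j z hz) α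
    have hJj : ∀ j : ℕ, ∃ J' : ℂ → ℂ, DifferentiableOn ℂ J' (ball 0 r₂) ∧
        ∀ z : ℂ, r₁ < ‖z‖ → ‖z‖ < r₂ → J' z = II α ε (q + z • e) (Fa j (q + z • e)) (Ga j (q + z • e)) := fun j =>
      hcr ε hε hεη α (Fa j) (hFa1 j) (Ga j) (hGa1 j) (fun z h1 h2 => hrelj j z ⟨h1, h2⟩)
    choose Jj hJj1 hJj2 using hJj
    simp only [sub_zero]
    refine circle_lim (C := r ^ n * C) (F := fun j z => z ^ n * Jj j z) hr0.le (fun j => ?_) (fun j z hz => ?_) (fun z hz => ?_) (fun j => ?_)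
    · refine ContinuousOn.mul (by fun_prop) ((hJj1 j).continuousOn.mono ?_)
      exact fun z hz => mem_ball.2 (by rw [mem_sphere.1 hz]; exact hr2)
    · have hz' := mem_sphere_zero_iff_norm.1 hz
      show ‖z ^ n * Jj j z‖ ≤ _
      rw [norm_mul, norm_pow, hz', hJj2 j z (by rw [hz']; exact hr1) (by rw [hz']; exact hr2)]
      exact mul_le_mul_of_nonneg_left (hbd _ (hKG2 z (hrK z hz)) _ _) (by positivity)
    · have hz' := mem_sphere_zero_iff_norm.1 hz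
      have hzK := hrK z hz
      refine Tendsto.const_mul (z ^ n) ?_
      have hfz : f (q + z • e) ∈ Fb X Λ u (q + z • e) := sb_mem G hf (hKD z hzK)
      have hgz : g (q + z • e) ∈ Fb X Λ u (q + z • e) := sb_mem G hg (hKD z hzK)
      have hdz : dist (f (q + z • e)) (g (q + z • e)) ≤ ε₀ := (hclK z hzK).trans (by linarith)
      have ef : ∀ j, Jj j z = II α ε (q + z • e) (Fa j (q + z • e)) (Ga j (q + z • e)) := fun j =>
        hJj2 j z (by rw [hz']; exact hr1) (by rw [hz']; exact hr2)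
      simp only [ef]
      rw [jj_eq_II G.cone G.tor G.lat hc (hKG2 z hzK) hfz hgz hdz]
      obtain ⟨χ, c, ρ, hcap⟩ := hc.cap _ (hKG2 z hzK) _ hfz
      have hm : Tendsto (fun j => Fa j (q + z • e)) atTop (𝓝 (f (q + z • e))) := by
        rw [tendsto_iff_dist_tendsto_zero]
        exact squeeze_zero (fun _ => dist_nonneg) (fun j => (hFa2 j _ (hKG z hzK) (hKR z hzK)).le) hlim0
      have hm' : Tendsto (fun j => Ga j (q + z • e)) atTop (𝓝 (g (q + z • e))) := by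
        rw [tendsto_iff_dist_tendsto_zero]
        exact squeeze_zero (fun _ => dist_nonneg) (fun j => (hGa2 j _ (hKG z hzK) (hKR z hzK)).le) hlim0
      exact II_lim G.cone G.tor G.lat tendsto_const_nhds hm hm' hcap (by linarith) (Eventually.of_forall fun j => hrelj j z hzK)
        (hc.rel _ (hKG2 z hzK) _ hfz _ hgz hdz α)
    · have hdc : DiffContOnCl ℂ (fun z => z ^ n * Jj j z) (ball 0 r) := by
        refine DifferentiableOn.diffContOnCl ?_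
        rw [closure_ball _ hr0.ne']
        exact DifferentiableOn.mul (by fun_prop) ((hJj1 j).mono fun z hz => mem_ball.2 (lt_of_le_of_lt (mem_closedBall.1 hz) hr2))
      exact hdc.circleIntegral_eq_zero hr0.le
  · exact hJ'.2 z (by rwa [sub_zero]) (by rwa [sub_zero])

/-- the pairs of members of `Sb` -/
abbrev SbP (X : Set (EN N)) (Λ : AddSubgroup (Vd (k + 1))) (u : EN N → Vd (k + 1)) (D : Set (Vd (k + 1))) : Type :=
  {p : (Vd (k + 1) → MN N) × (Vd (k + 1) → MN N) // p.1 ∈ Sb X Λ u D ∧ p.2 ∈ Sb X Λ u D}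

theorem pairData (G : Geo X Λ u D B) {Γ : AddSubgroup (Vd (k + 1))} (hΓ : Lat Γ) (hle : Γ ≤ Λ) {α : VForm X Λ u} (hper : Per α Γ) :
    PairData Γ D (TrB D B) (P := SbP X Λ u D) (fun p y => dist (p.1.1 y) (p.1.2 y)) (fun p y => JJ α y (p.1.1 y) (p.1.2 y)) where
  cpt := hΓ.cpt
  D_closed := G.D_closed
  D_inv := fun y hy l hl => G.D_inv y hy l (hle hl)
  thin := G.D_thin
  ae_tr := fun e he => G.ae_trB he
  tr_iso := fun q _ e h => trB_iso h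
  shift := fun p l hl => by
    refine ⟨⟨(fun y => p.1.1 (y + l), fun y => p.1.2 (y + l)), sb_trans G p.2.1 (hle hl), sb_trans G p.2.2 (hle hl)⟩, fun y => rfl, fun y => ?_⟩
    exact (jj_add hle hper _ _ hl).symm
  hol := fun d hd => by
    obtain ⟨ε, ε₀, -, -, hc⟩ := exists_cst G (δ := d / 2) (η := 1) (half_pos hd) one_pos
    obtain ⟨C, hC, hbd⟩ := II_bdd G hΓ hle hper (r := 3 * ε) (ε := ε) hc.δ_pos (by linarith [hc.ε_pos]) hc.cap
    have hε₀ := hc.ε₀_pos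
    refine ⟨ε₀ / 2, C, half_pos hε₀, fun p y hy hcl => ⟨?_, ?_⟩⟩
    · exact sb_hol G hc p.2.1 p.2.2 (by linarith) hy (lt_of_le_of_lt hcl (by linarith))
    · have hy2 : y ∈ Gd D (d / 2) := gd_mono (by linarith) hy
      have hyD := gd_notMem hd hy
      rw [jj_eq_II G.cone G.tor G.lat hc hy2 (sb_mem G p.2.1 hyD) (sb_mem G p.2.2 hyD) (hcl.trans (by linarith))]
      exact hbd y hy2 _ _
  cross := fun q _ e h => by
    obtain ⟨s₀, hs₀, hh⟩ := sb_cross G hΓ hle hper h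
    refine ⟨s₀, hs₀, fun r₁ r₂ hr₁ hr hr₂ => ?_⟩
    obtain ⟨ε, hε, hh2⟩ := hh r₁ r₂ hr₁ hr hr₂
    exact ⟨ε, hε, fun p hp => hh2 p.1.1 p.2.1 p.1.2 p.2.2 hp⟩

/-- the half-space theorem for the integral -/
theorem sb_half (G : Geo X Λ u D B) (h0 : (0 : Vd (k + 1)) ∉ D) {Γ : AddSubgroup (Vd (k + 1))} (hΓ : Lat Γ) (hle : Γ ≤ Λ) {α : VForm X Λ u}
    (hper : Per α Γ) (hvan : VanZero α) {d₂ : ℝ} (hd₂ : 0 < d₂) :
    ∃ d₀ ε₁ r₂ : ℝ, 0 < d₀ ∧ 0 < ε₁ ∧ 0 < r₂ ∧ ∀ f ∈ Sb X Λ u D, ∀ g ∈ Sb X Λ u D, ∀ (ζ : EN k) (t : ℝ), ‖ζ‖ = 1 →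
      (∀ x ∈ Gd D d₀, (iw ζ x).re ≤ t → dist (f x) (g x) ≤ ε₁) → ∀ y ∈ Gd D d₂, (iw ζ y).re ≤ t - r₂ → JJ α y (f y) (g y) = 0 := by
  obtain ⟨d, ε, r₂, hd, hε, hr₂, hh⟩ := (pairData G hΓ hle hper).half_inner h0 (fun p l hl => jj_zero G.cone G.tor G.lat hle hper hvan hl _ _) hd₂
  exact ⟨d, ε, r₂, hd, hε, hr₂, fun f hf g hg ζ t hζ hcl y hy hyt => hh ⟨(f, g), hf, hg⟩ ζ t hζ hcl y hy hyt⟩

/-- the half-space theorem, in the form of `Dyn.half` -/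
theorem half_zero (G : Geo X Λ u D B) (h0 : (0 : Vd (k + 1)) ∉ D) {Γ : AddSubgroup (Vd (k + 1))} (hΓ : Lat Γ) (hle : Γ ≤ Λ) {α : VForm X Λ u}
    (hper : Per α Γ) (hvan : VanZero α) {d₂ : ℝ} (hd₂ : 0 < d₂) :
    ∃ d₀ : ℝ, 0 < d₀ ∧ d₀ ≤ d₂ ∧ ∀ d ε ε₀ : ℝ, d ≤ d₀ → Cst X Λ u D d ε ε₀ → ∃ ε₁ r₂ : ℝ, 0 < ε₁ ∧ 0 < r₂ ∧
      ∀ f ∈ Sb X Λ u D, ∀ g ∈ Sb X Λ u D, ∀ (ζ : EN k) (t : ℝ), ‖ζ‖ = 1 →
        (∀ x ∈ Gd D d, (iw ζ x).re ≤ t → dist (f x) (g x) ≤ ε₁) → ∀ y ∈ Gd D d₂, (iw ζ y).re ≤ t - r₂ → II α ε y (f y) (g y) = 0 := by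
  obtain ⟨d₀, ε₁, r₂, hd₀, hε₁, hr₂, hh⟩ := sb_half G h0 hΓ hle hper hvan hd₂
  refine ⟨min d₀ d₂, lt_min hd₀ hd₂, min_le_right _ _, fun d ε ε₀ hd hc => ⟨min ε₁ ε₀, r₂, lt_min hε₁ hc.ε₀_pos, hr₂, fun f hf g hg ζ t hζ hcl y hy hyt => ?_⟩⟩
  have h1 := hh f hf g hg ζ t hζ (fun x hx hxt => (hcl x (gd_mono (hd.trans (min_le_left _ _)) hx) hxt).trans (min_le_left _ _)) y hy hyt
  have hyd : y ∈ Gd D d := gd_mono (hd.trans (min_le_right _ _)) hy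
  have hyD : y ∉ D := gd_notMem hd₂ hy
  have h2 := (hcl y hyd (by linarith)).trans (min_le_right _ _)
  rwa [jj_eq_II G.cone G.tor G.lat hc hyd (sb_mem G hf hyD) (sb_mem G hg hyD) h2] at h1

end Pool.Agent.TG
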