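import Pool.Agent.TG.XDisc

/-!
# TG XPt: the mean value property of the integral on a transversal disc
-/

set_option autoImplicit false

open Topology Filter Metric MeasureTheory

namespace Pool.Agent.TG

open Pool.Agent.AD (Vd)

variable {k : ℕ} {Γ : AddSubgroup (Vd (k + 1))} {D : Set (Vd (k + 1))} {Tr : Vd (k + 1) → Vd (k + 1) → Prop} {P : Type} {dd : P → Vd (k + 1) → ℝ}
  {J : P → Vd (k + 1) → ℂ}

theorem gdx_mono {δ₁ δ₂ : ℝ} (h : δ₁ ≤ δ₂) : Gd D δ₂ ⊆ Gd D δ₁ := fun _ hz b hb => h.trans (hz b hb)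

theorem gdx_notMem {δ' : ℝ} (h : 0 < δ') {z : Vd (k + 1)} (hz : z ∈ Gd D δ') : z ∉ D := by
  intro hzB
  have h1 := hz z hzB
  rw [sub_self, norm_zero] at h1
  linarith

theorem gdx_closed (δ' : ℝ) : IsClosed (Gd D δ') := by
  have h1 : Gd D δ' = ⋂ b ∈ D, {z : Vd (k + 1) | δ' ≤ ‖z - b‖} := by
    ext z
    simp only [Set.mem_iInter]
    exact Iff.rfl
  rw [h1]
  refine isClosed_biInter fun b _ => ?_
  exact isClosed_le continuous_const (continuous_id.sub continuous_const).norm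

theorem gdx_add (hD : ∀ y ∈ D, ∀ l ∈ Γ, y + l ∈ D) {δ' : ℝ} {z l : Vd (k + 1)} (hl : l ∈ Γ) : z + l ∈ Gd D δ' ↔ z ∈ Gd D δ' := by
  constructor
  · intro hz b hb
    have h1 := hz (b + l) (hD b hb l hl)
    rwa [add_sub_add_right_eq_sub] at h1
  · intro hz b hb
    have h1 := hz (b + -l) (hD b hb (-l) (Γ.neg_mem hl))
    have h2 : z - (b + -l) = z + l - b := by abel
    rwa [h2] at h1

/-- a compact set off `D` is at a positive distance -/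
theorem gdx_compact (hD : IsClosed D) {K : Set (Vd (k + 1))} (hK : IsCompact K) (h : ∀ y ∈ K, y ∉ D) : ∃ d : ℝ, 0 < d ∧ K ⊆ Gd D d := by
  obtain ⟨d, hd, hsub⟩ := hK.exists_thickening_subset_open hD.isOpen_compl h
  refine ⟨d, hd, fun y hy b hb => ?_⟩
  by_contra hcon
  push Not at hcon
  have h1 : b ∈ thickening d K := by
    rw [mem_thickening_iff]
    exact ⟨y, hy, by rwa [dist_comm, dist_eq_norm]⟩
  exact hsub h1 hb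

theorem line_norm {e : Vd (k + 1)} (he : ‖e‖ ≤ 1) (z : ℂ) : ‖z • e‖ ≤ ‖z‖ := by
  rw [norm_smul]
  calc ‖z‖ * ‖e‖ ≤ ‖z‖ * 1 := mul_le_mul_of_nonneg_left he (norm_nonneg _)
    _ = ‖z‖ := mul_one _

/-- the points of `D` on a transversal disc are finitely many -/
private theorem pt_finite (h : PairData Γ D Tr dd J) {e w : Vd (k + 1)} {r : ℝ} (hgood : ∀ z : ℂ, w + z • e ∈ D → Tr (w + z • e) e) :
    {z : ℂ | z ∈ closedBall (0 : ℂ) r ∧ w + z • e ∈ D}.Finite := by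
  by_contra hinf
  have hcl : IsClosed {z : ℂ | w + z • e ∈ D} := h.D_closed.preimage (by fun_prop)
  obtain ⟨z, hz, hacc⟩ := Set.Infinite.exists_accPt_of_subset_isCompact hinf (isCompact_closedBall (0 : ℂ) r) fun z hz => hz.1
  rw [accPt_iff_frequently] at hacc
  have hzD : w + z • e ∈ D := by
    have h1 : z ∈ closure {z : ℂ | w + z • e ∈ D} := by
      rw [mem_closure_iff_frequently]
      exact hacc.mono fun y hy => hy.2.2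
    rwa [hcl.closure_eq] at h1
  have h1 := h.tr_iso _ hzD e (hgood z hzD)
  have h2 : Tendsto (fun y : ℂ => y - z) (𝓝[≠] z) (𝓝[≠] 0) := by
    refine tendsto_nhdsWithin_iff.2 ⟨?_, ?_⟩
    · have h3 : Tendsto (fun y : ℂ => y - z) (𝓝 z) (𝓝 (z - z)) := (continuous_id.sub continuous_const).tendsto z
      rw [sub_self] at h3
      exact h3.mono_left nhdsWithin_le_nhds
    · filter_upwards [self_mem_nhdsWithin] with y hy
      exact sub_ne_zero.2 hy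
  have h3 := h2.eventually h1
  have h4 : ∃ᶠ y in 𝓝[≠] z, w + y • e ∈ D := by
    rw [frequently_nhdsWithin_iff]
    exact hacc.mono fun y hy => ⟨hy.2.2, hy.1⟩
  obtain ⟨y, hy1, hy2⟩ := (h4.and_eventually h3).exists
  apply hy2
  have e1 : w + z • e + (y - z) • e = w + y • e := by
    rw [sub_smul]
    abel
  rw [e1]
  exact hy1

theorem PairData.point (h : PairData Γ D Tr dd J) {e w : Vd (k + 1)} {r : ℝ} (hr : 0 < r) (hr1 : r < 1) (he : ‖e‖ ≤ 1) (hw : w ∉ D)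
    (hcirc : ∀ z : ℂ, ‖z‖ = r → w + z • e ∉ D) (hgood : ∀ z : ℂ, w + z • e ∈ D → Tr (w + z • e) e) :
    ∃ d ε : ℝ, 0 < d ∧ 0 < ε ∧ ∀ p, (∀ x ∈ Gd D d, ‖x - w‖ < 1 → dd p x ≤ ε) → cm (J p) e r w = J p w := by
  classical
  obtain ⟨Z, hZ⟩ : ∃ Z : Finset ℂ, ∀ z, z ∈ Z ↔ ‖z‖ ≤ r ∧ w + z • e ∈ D := by
    refine ⟨(pt_finite h (e := e) (w := w) (r := r) hgood).toFinset, fun z => ?_⟩
    rw [Set.Finite.mem_toFinset]
    show z ∈ closedBall (0 : ℂ) r ∧ _ ↔ _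
    rw [mem_closedBall, dist_zero_right]
  have hZ0 : ∀ ζ ∈ Z, 0 < ‖ζ‖ := by
    intro ζ hζ
    rw [norm_pos_iff]
    rintro rfl
    have h1 := ((hZ 0).1 hζ).2
    rw [zero_smul, add_zero] at h1
    exact hw h1
  have hZr : ∀ ζ ∈ Z, ‖ζ‖ < r := by
    intro ζ hζ
    refine lt_of_le_of_ne ((hZ ζ).1 hζ).1 fun h1 => ?_
    exact hcirc ζ h1 ((hZ ζ).1 hζ).2
  have hcr : ∀ ζ ∈ Z, ∃ s₀ : ℝ, 0 < s₀ ∧ ∀ r₁ r₂ : ℝ, 0 < r₁ → r₁ < r₂ → r₂ < s₀ → ∃ ε : ℝ, 0 < ε ∧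
      ∀ p, (∀ z : ℂ, r₁ < ‖z‖ → ‖z‖ < r₂ → dd p (w + ζ • e + z • e) ≤ ε) →
        ∃ J' : ℂ → ℂ, DifferentiableOn ℂ J' (ball 0 r₂) ∧ ∀ z : ℂ, r₁ < ‖z‖ → ‖z‖ < r₂ → J' z = J p (w + ζ • e + z • e) := by
    intro ζ hζ
    have h1 := ((hZ ζ).1 hζ).2
    exact h.cross _ h1 e (hgood ζ h1)
  choose! s₀ hs₀ hcross using hcr
  -- the radius
  obtain ⟨s, hs, hs1⟩ : ∃ s : ℝ, 0 < s ∧ ∀ ζ ∈ Z, s < s₀ ζ ∧ s < ‖ζ‖ ∧ ‖ζ‖ + s < r ∧ ∀ ζ' ∈ Z, ζ ≠ ζ' → 2 * s ≤ ‖ζ - ζ'‖ := by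
    have hev : ∀ᶠ s : ℝ in 𝓝[>] 0, ∀ ζ ∈ Z, s < s₀ ζ ∧ s < ‖ζ‖ ∧ ‖ζ‖ + s < r ∧ ∀ ζ' ∈ Z, ζ ≠ ζ' → 2 * s ≤ ‖ζ - ζ'‖ := by
      rw [Filter.eventually_all_finset]
      intro ζ hζ
      have a1 : ∀ c : ℝ, 0 < c → ∀ᶠ s : ℝ in 𝓝[>] 0, s < c := fun c hc => nhdsWithin_le_nhds (Iio_mem_nhds hc)
      have a2 : ∀ᶠ s : ℝ in 𝓝[>] 0, ∀ ζ' ∈ Z, ζ ≠ ζ' → 2 * s ≤ ‖ζ - ζ'‖ := by
        rw [Filter.eventually_all_finset]
        intro ζ' _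
        by_cases hne : ζ = ζ'
        · exact Eventually.of_forall fun s h1 => absurd hne h1
        · have hp : 0 < ‖ζ - ζ'‖ := norm_pos_iff.2 (sub_ne_zero.2 hne)
          filter_upwards [a1 (‖ζ - ζ'‖ / 2) (by positivity)] with s hs _
          linarith
      filter_upwards [a1 _ (hs₀ ζ hζ), a1 _ (hZ0 ζ hζ), a1 (r - ‖ζ‖) (by linarith [hZr ζ hζ]), a2] with s h1 h2 h3 h4
      exact ⟨h1, h2, by linarith, h4⟩
    obtain ⟨s, h1, h2⟩ := (hev.and self_mem_nhdsWithin).exists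
    exact ⟨s, h2, h1⟩
  -- the compact set
  have hKc : IsCompact {z : ℂ | z ∈ closedBall (0 : ℂ) r ∧ ∀ ζ ∈ Z, s / 3 ≤ ‖z - ζ‖} := by
    have e1 : {z : ℂ | ∀ ζ ∈ Z, s / 3 ≤ ‖z - ζ‖} = ⋂ ζ ∈ Z, {z : ℂ | s / 3 ≤ ‖z - ζ‖} := by
      ext z
      simp
    have e2 : IsClosed {z : ℂ | ∀ ζ ∈ Z, s / 3 ≤ ‖z - ζ‖} := by
      rw [e1]
      exact isClosed_biInter fun ζ _ => isClosed_le continuous_const (by fun_prop)
    exact (isCompact_closedBall (0 : ℂ) r).inter_right e2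
  obtain ⟨d, hd, hdK⟩ := gdx_compact h.D_closed (hKc.image (show Continuous fun z : ℂ => w + z • e by fun_prop)) (by
    rintro _ ⟨z, ⟨hz1, hz2⟩, rfl⟩ hzD
    rw [mem_closedBall, dist_zero_right] at hz1
    have h1 := hz2 z ((hZ z).2 ⟨hz1, hzD⟩)
    rw [sub_self, norm_zero] at h1
    linarith)
  have hmem : ∀ z : ℂ, ‖z‖ ≤ r → (∀ ζ ∈ Z, s / 3 ≤ ‖z - ζ‖) → w + z • e ∈ Gd D d := fun z hz1 hz2 =>
    hdK ⟨z, ⟨by rwa [mem_closedBall, dist_zero_right], hz2⟩, rfl⟩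
  obtain ⟨ε₁, C, hε₁, hhol⟩ := h.hol d hd
  have hc2 : ∀ ζ ∈ Z, ∃ ε : ℝ, 0 < ε ∧ ∀ p, (∀ z : ℂ, s / 3 < ‖z‖ → ‖z‖ < 2 * s / 3 → dd p (w + ζ • e + z • e) ≤ ε) →
      ∃ J' : ℂ → ℂ, DifferentiableOn ℂ J' (ball 0 (2 * s / 3)) ∧ ∀ z : ℂ, s / 3 < ‖z‖ → ‖z‖ < 2 * s / 3 → J' z = J p (w + ζ • e + z • e) :=
    fun ζ hζ => hcross ζ hζ (s / 3) (2 * s / 3) (by linarith) (by linarith) (by linarith [(hs1 ζ hζ).1])
  choose! ε₂ hε₂ hcr2 using hc2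
  obtain ⟨ε, hε, hεle⟩ : ∃ ε : ℝ, 0 < ε ∧ (∀ ζ ∈ Z, ε ≤ ε₂ ζ) ∧ ε ≤ ε₁ := by
    have hev : ∀ᶠ ε : ℝ in 𝓝[>] 0, (∀ ζ ∈ Z, ε ≤ ε₂ ζ) ∧ ε ≤ ε₁ := by
      refine Eventually.and ?_ (nhdsWithin_le_nhds (Iic_mem_nhds hε₁))
      rw [Filter.eventually_all_finset]
      intro ζ hζ
      exact nhdsWithin_le_nhds (Iic_mem_nhds (hε₂ ζ hζ))
    obtain ⟨ε, h1, h2⟩ := (hev.and self_mem_nhdsWithin).exists
    exact ⟨ε, h2, h1⟩
  refine ⟨d, ε, hd, hε, fun p hp => ?_⟩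
  have hclose : ∀ z : ℂ, ‖z‖ ≤ r → (∀ ζ ∈ Z, s / 3 ≤ ‖z - ζ‖) → dd p (w + z • e) ≤ ε := by
    intro z hz1 hz2
    refine hp _ (hmem z hz1 hz2) ?_
    rw [add_sub_cancel_left]
    exact (line_norm he z).trans_lt (by linarith)
  have hkey := disc_mean (j := fun z : ℂ => J p (w + z • e)) hr hs Z (fun ζ hζ => ⟨(hs1 ζ hζ).2.1, (hs1 ζ hζ).2.2.1⟩)
    (fun ζ hζ ζ' hζ' hne => (hs1 ζ hζ).2.2.2 ζ' hζ' hne) ?_ ?_
  · have h1 : cm (J p) e r w = (2 * Real.pi * Complex.I : ℂ)⁻¹ • ∮ z in C(0, r), (z - 0)⁻¹ • J p (w + z • e) := rfl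
    rw [h1, hkey]
    simp only [zero_smul, add_zero]
  · intro z hz1 hz2
    have h1 : AnalyticAt ℂ (J p) (w + z • e) :=
      (hhol p _ (hmem z hz1 fun ζ hζ => (hz2 ζ hζ).le) ((hclose z hz1 fun ζ hζ => (hz2 ζ hζ).le).trans hεle.2)).1
    have h2 : DifferentiableAt ℂ (fun z : ℂ => w + z • e) z := by fun_prop
    exact h1.differentiableAt.comp z h2
  · intro ζ hζ
    obtain ⟨J', hJ1, hJ2⟩ := hcr2 ζ hζ p (fun z hz1 hz2 => by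
      have e1 : w + ζ • e + z • e = w + (ζ + z) • e := by
        rw [add_smul]
        abel
      rw [e1]
      refine (hclose (ζ + z) ?_ ?_).trans (hεle.1 ζ hζ)
      · have h1 := norm_add_le ζ z
        have h2 := (hs1 ζ hζ).2.2.1
        linarith
      · intro ζ' hζ'
        by_cases hne : ζ = ζ'
        · rw [← hne, add_sub_cancel_left]
          exact hz1.le
        · have h1 := (hs1 ζ hζ).2.2.2 ζ' hζ' hne
          have h2 : ‖ζ - ζ'‖ ≤ ‖ζ + z - ζ'‖ + ‖z‖ := by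
            have e2 : ζ - ζ' = (ζ + z - ζ') - z := by ring
            rw [e2]
            exact norm_sub_le _ _
          linarith)
    refine ⟨J', hJ1, fun z hz1 hz2 => ?_⟩
    rw [hJ2 z hz1 hz2]
    congr 1
    rw [add_smul]
    abel

end Pool.Agent.TG
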