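import Pool.Agent.TG.XTan

/-!
# TG XSard: almost all lines of a given direction are transversal to `D`

`ae_trans`.  For `p ∈ D` with a coordinate system `κ_p` at `p` there is an open neighbourhood `W_p` of `p` and `ρ_p > 0` such that `κ_p` is analytic on `ball 0 ρ_p` with injective derivative, every point of `W_p ∩ D` is
`κ_p q` with `q ∈ ball 0 ρ_p`, `q 0 = 0` (`local_inverse`), and `fun q' => κ_p (q + q')` is a coordinate system at this point (`coord_move`).  By Lindelöf countably many `W_p` cover the set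
`{p ∈ D | ∃ κ, IsCoord D κ p}`.  Let `Ψ w = κ_p (w - w 0 • e₀) - w 0 • e`.  The critical points of `Ψ : Vd (k+1) → Vd (k+1)` have a null image (Sard in equal dimensions).
If `y + z • e = κ_p q ∈ D`, and `TransAt D (y + z • e) e` fails, then (`coord_tangent`, `coord_move`) `e = fderiv ℂ κ_p q q'` with
`q' 0 = 0`, so the derivative of `Ψ` at `w = q + z • e₀` kills `q' + e₀`, `w` is a critical point and `y = Ψ w`.  So the set of the bad `y` is a countable union of null sets.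
-/

set_option autoImplicit false

open Topology Filter Metric MeasureTheory

namespace Pool.Agent.TG

open Pool.Agent.AD (Vd)

variable {k : ℕ} {D : Set (Vd (k + 1))}

/-- good neighbourhoods -/
private theorem sard_nhd {κ : Vd (k + 1) → Vd (k + 1)} {p : Vd (k + 1)} (h : IsCoord D κ p) :
    ∃ W ∈ 𝓝 p, ∃ S : Set (Vd (k + 1)), (∀ q ∈ S, AnalyticAt ℂ κ q ∧ (q 0 = 0 → IsCoord D (fun q' => κ (q + q')) (κ q))) ∧
      ∀ y ∈ W, y ∈ D → ∃ q ∈ S, q 0 = 0 ∧ κ q = y := by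
  obtain ⟨ψ, h1, -, h3, h4⟩ := H62.BU.local_inverse h.an fun v hv => h.inj (by rw [hv, map_zero])
  rw [h.zero] at h1 h3 h4
  obtain ⟨S, hS, hS1⟩ : ∃ S ∈ 𝓝 (0 : Vd (k + 1)), ∀ q ∈ S, AnalyticAt ℂ κ q ∧ (q 0 = 0 → IsCoord D (fun q' => κ (q + q')) (κ q)) :=
    ⟨_, h.an.eventually_analyticAt.and (coord_move h), fun q hq => hq⟩
  have h5 : Tendsto ψ (𝓝 p) (𝓝 0) := by
    have := h1.continuousAt.tendsto
    rwa [h4] at this
  refine ⟨{y | ψ y ∈ S ∧ (κ (ψ y) ∈ D ↔ (ψ y) 0 = 0) ∧ κ (ψ y) = y}, ?_, S, hS1, ?_⟩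
  · filter_upwards [h5.eventually hS, h5.eventually h.mem_iff, h3] with y a b c
    exact ⟨a, b, c⟩
  · rintro y ⟨a, b, c⟩ hy
    exact ⟨ψ y, a, b.1 (by rwa [c]), c⟩

/-- the bad lines through one neighbourhood -/
private theorem sard_one {κ : Vd (k + 1) → Vd (k + 1)} {e : Vd (k + 1)} (he : e ≠ 0) {W S : Set (Vd (k + 1))}
    (hS : ∀ q ∈ S, AnalyticAt ℂ κ q ∧ (q 0 = 0 → IsCoord D (fun q' => κ (q + q')) (κ q)))
    (hW : ∀ y ∈ W, y ∈ D → ∃ q ∈ S, q 0 = 0 ∧ κ q = y) :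
    volume {y : Vd (k + 1) | ∃ z : ℂ, y + z • e ∈ W ∧ y + z • e ∈ D ∧ ¬ TransAt D (y + z • e) e} = 0 := by
  obtain ⟨π, hπ⟩ : ∃ π : Vd (k + 1) →L[ℂ] Vd (k + 1), ∀ w, π w = w - w 0 • (Pi.single 0 1 : Vd (k + 1)) :=
    ⟨ContinuousLinearMap.id ℂ _ - (ContinuousLinearMap.proj (R := ℂ) (φ := fun _ : Fin (k + 1) => ℂ) 0).smulRight (Pi.single 0 1 : Vd (k + 1)), fun w => rfl⟩
  obtain ⟨π₀, hπ₀⟩ : ∃ π₀ : Vd (k + 1) →L[ℂ] Vd (k + 1), ∀ w, π₀ w = w 0 • e :=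
    ⟨(ContinuousLinearMap.proj (R := ℂ) (φ := fun _ : Fin (k + 1) => ℂ) 0).smulRight e, fun w => rfl⟩
  have hder : ∀ w : Vd (k + 1), π w ∈ S → HasFDerivAt (fun w : Vd (k + 1) => κ (π w) - π₀ w) ((fderiv ℂ κ (π w)).comp π - π₀) w := by
    intro w hw
    exact ((hS _ hw).1.differentiableAt.hasFDerivAt.comp w π.hasFDerivAt).sub π₀.hasFDerivAt
  have hnull := addHaar_image_eq_zero_of_det_fderivWithin_eq_zero (volume : Measure (Vd (k + 1))) (f := fun w : Vd (k + 1) => κ (π w) - π₀ w)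
    (f' := fun w => ((fderiv ℂ κ (π w)).comp π - π₀).restrictScalars ℝ)
    (s := {w | π w ∈ S ∧ ∃ v : Vd (k + 1), v ≠ 0 ∧ ((fderiv ℂ κ (π w)).comp π - π₀) v = 0})
    (fun w hw => ((hder w hw.1).restrictScalars ℝ).hasFDerivWithinAt) (by
      rintro w ⟨hw, v, hv, hv0⟩
      by_contra hdet
      have hu : IsUnit (LinearMap.det ((((fderiv ℂ κ (π w)).comp π - π₀).restrictScalars ℝ : Vd (k + 1) →L[ℝ] Vd (k + 1)) : Vd (k + 1) →ₗ[ℝ] Vd (k + 1))) :=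
        isUnit_iff_ne_zero.2 hdet
      have hinj := (LinearMap.isUnit_iff_ker_eq_bot _).1 ((LinearMap.isUnit_iff_isUnit_det _).2 hu)
      rw [LinearMap.ker_eq_bot] at hinj
      exact hv (hinj (by rw [map_zero]; exact hv0)))
  refine measure_mono_null ?_ hnull
  rintro y ⟨z, hyW, hyD, hT⟩
  obtain ⟨q, hqS, hq0, hqy⟩ := hW _ hyW hyD
  have hcoord := (hS q hqS).2 hq0
  rw [hqy] at hcoord
  obtain ⟨κ', hκ', q₁, hq₁, hq₁e⟩ : ∃ κ', IsCoord D κ' (y + z • e) ∧ ∃ q : Vd (k + 1), q 0 = 0 ∧ fderiv ℂ κ' 0 q = e := by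
    by_contra hcon
    apply hT
    refine ⟨he, fun κ' hκ' q hq hqe => hcon ⟨κ', hκ', q, hq, hqe⟩⟩
  obtain ⟨q', hq', hq'e⟩ := coord_tangent hκ' hcoord hq₁
  rw [hq₁e] at hq'e
  have hfd : fderiv ℂ (fun q' => κ (q + q')) 0 = fderiv ℂ κ q := by
    have h1 : HasFDerivAt κ (fderiv ℂ κ q) (q + 0) := by
      rw [add_zero]
      exact (hS q hqS).1.differentiableAt.hasFDerivAt
    have h2 : HasFDerivAt (fun q' : Vd (k + 1) => q + q') (ContinuousLinearMap.id ℂ _) 0 := (hasFDerivAt_id _).const_add q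
    have h3 := HasFDerivAt.comp (g := κ) (f := fun q' : Vd (k + 1) => q + q') (0 : Vd (k + 1)) h1 h2
    rw [ContinuousLinearMap.comp_id] at h3
    exact h3.fderiv
  rw [hfd] at hq'e
  have h0 : (q + z • (Pi.single 0 1 : Vd (k + 1))) 0 = z := by
    rw [Pi.add_apply, hq0, zero_add, Pi.smul_apply, Pi.single_eq_same, smul_eq_mul, mul_one]
  have hπw : π (q + z • (Pi.single 0 1 : Vd (k + 1))) = q := by
    rw [hπ, h0, add_sub_cancel_right]
  have hπ₀w : π₀ (q + z • (Pi.single 0 1 : Vd (k + 1))) = z • e := by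
    rw [hπ₀, h0]
  refine ⟨q + z • (Pi.single 0 1 : Vd (k + 1)), ⟨by rw [hπw]; exact hqS, q' + Pi.single 0 1, ?_, ?_⟩, ?_⟩
  · intro hz
    have h1 := congrFun hz 0
    rw [Pi.add_apply, hq', zero_add, Pi.single_eq_same, Pi.zero_apply] at h1
    exact one_ne_zero h1
  · have h1 : (q' + (Pi.single 0 1 : Vd (k + 1))) 0 = 1 := by
      rw [Pi.add_apply, hq', zero_add, Pi.single_eq_same]
    have h2 : π (q' + (Pi.single 0 1 : Vd (k + 1))) = q' := by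
      rw [hπ, h1, one_smul, add_sub_cancel_right]
    have h3 : π₀ (q' + (Pi.single 0 1 : Vd (k + 1))) = e := by
      rw [hπ₀, h1, one_smul]
    rw [_root_.sub_apply, ContinuousLinearMap.comp_apply, h2, h3, hπw, hq'e, sub_self]
  · show κ (π (q + z • (Pi.single 0 1 : Vd (k + 1)))) - π₀ (q + z • (Pi.single 0 1 : Vd (k + 1))) = y
    rw [hπw, hπ₀w, hqy, add_sub_cancel_right]

theorem ae_trans {e : Vd (k + 1)} (he : e ≠ 0) :
    ∀ᵐ y : Vd (k + 1), ∀ z : ℂ, y + z • e ∈ D → (∃ κ, IsCoord D κ (y + z • e)) → TransAt D (y + z • e) e := by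
  have key : ∀ p : Vd (k + 1), ∃ W : Set (Vd (k + 1)), (p ∈ D → (∃ κ, IsCoord D κ p) → W ∈ 𝓝 p) ∧
      volume {y : Vd (k + 1) | ∃ z : ℂ, y + z • e ∈ W ∧ y + z • e ∈ D ∧ ¬ TransAt D (y + z • e) e} = 0 := by
    intro p
    by_cases h : ∃ κ, IsCoord D κ p
    · obtain ⟨κ, hκ⟩ := h
      obtain ⟨W, hW, S, hS, hWS⟩ := sard_nhd hκ
      exact ⟨W, fun _ _ => hW, sard_one he hS hWS⟩
    · refine ⟨∅, fun _ h' => absurd h' h, ?_⟩
      have h1 : {y : Vd (k + 1) | ∃ z : ℂ, y + z • e ∈ (∅ : Set (Vd (k + 1))) ∧ y + z • e ∈ D ∧ ¬ TransAt D (y + z • e) e} = ∅ := by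
        ext y
        simp
      rw [h1]
      exact measure_empty
  choose W hW hnull using key
  obtain ⟨t, -, htc, hcov⟩ := TopologicalSpace.countable_cover_nhdsWithin (f := W) (s := {p : Vd (k + 1) | p ∈ D ∧ ∃ κ, IsCoord D κ p})
    (fun p hp => nhdsWithin_le_nhds (hW p hp.1 hp.2))
  have h1 : volume (⋃ p ∈ t, {y : Vd (k + 1) | ∃ z : ℂ, y + z • e ∈ W p ∧ y + z • e ∈ D ∧ ¬ TransAt D (y + z • e) e}) = 0 :=
    (measure_biUnion_null_iff htc).2 fun p _ => hnull p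
  rw [ae_iff]
  refine measure_mono_null ?_ h1
  intro y hy
  simp only [Set.mem_ofPred_eq] at hy
  push Not at hy
  obtain ⟨z, hz, hκ, hT⟩ := hy
  obtain ⟨p, hp, hpW⟩ := Set.mem_iUnion₂.1 (hcov (show y + z • e ∈ {p : Vd (k + 1) | p ∈ D ∧ ∃ κ, IsCoord D κ p} from ⟨hz, hκ⟩))
  exact Set.mem_iUnion₂.2 ⟨p, hp, z, hpW, hz, hT⟩

end Pool.Agent.TG
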